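import Pool.Agent.W_MP_8d7136_h58.KTop

set_option autoImplicit false

/-!
The Alexandroff duplicate of the Cantor set is first countable.
-/

open Filter Topology

namespace Pool.Agent.W8d7136

/-- points of the duplicate -/
def mkK (z : ℕ → Bool) (c : Bool) : KK := (z, c)

theorem KK_nhds_true (z : ℕ → Bool) : 𝓝 (mkK z true) = pure (mkK z true) := by
  have h : IsOpen ({mkK z true} : Set KK) := by
    rw [KK_isOpen]
    intro w hw
    have h1 : ((w, false) : (ℕ → Bool) × Bool) = (z, true) := hw
    simp at h1
  exact (isOpen_singleton_iff_nhds_eq_pure (mkK z true)).mp h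

/-- the basic neighbourhoods of `(z, false)` -/
def KU (z : ℕ → Bool) (N : ℕ) : Set KK :=
  {p : KK | (∀ i < N, p.1 i = z i) ∧ p ≠ mkK z true}

theorem KU_open (z : ℕ → Bool) (N : ℕ) : IsOpen (KU z N) := by
  rw [KK_isOpen]
  intro w hw
  by_cases hwz : w = z
  · subst hwz
    refine ⟨N, fun w' hw' hne c => ⟨hw', ?_⟩⟩
    intro h
    exact hne (congrArg Prod.fst h)
  · have : ∃ i, w i ≠ z i := by
      by_contra hcon
      push Not at hcon
      exact hwz (funext hcon)
    obtain ⟨i, hi⟩ := this
    refine ⟨max N (i + 1), fun w' hw' _ c => ⟨fun j hj => ?_, ?_⟩⟩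
    · have h1 : w' j = w j := hw' j (by omega)
      have h2 : w j = z j := hw.1 j hj
      exact h1.trans h2
    · intro h
      have h1 : w' = z := congrArg Prod.fst h
      apply hi
      rw [← hw' i (by omega), h1]

theorem KK_basis_false (z : ℕ → Bool) :
    (𝓝 (mkK z false)).HasBasis (fun _ : ℕ => True) (KU z) := by
  refine ⟨fun t => ?_⟩
  constructor
  · intro ht
    obtain ⟨U, hU, hUo, hzU⟩ := mem_nhds_iff.mp ht
    obtain ⟨N, hN⟩ := KK_isOpen.mp hUo z hzU
    refine ⟨N, trivial, fun p hp => hU ?_⟩
    by_cases h : p.1 = z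
    · have : p = mkK z false := by
        rcases p with ⟨w, c⟩
        have h' : w = z := h
        subst h'
        cases c
        · rfl
        · exact absurd rfl hp.2
      rw [this]
      exact hzU
    · exact hN p.1 hp.1 h p.2
  · rintro ⟨N, -, hN⟩
    refine mem_nhds_iff.mpr ⟨KU z N, hN, KU_open z N, ⟨fun _ _ => rfl, ?_⟩⟩
    intro h
    have := congrArg Prod.snd h
    simp [mkK] at this

instance : FirstCountableTopology KK where
  nhds_generated_countable := by
    rintro ⟨z, c⟩
    cases c
    · exact (KK_basis_false z).isCountablyGenerated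
    · have h := KK_nhds_true z
      have h' : (𝓝 (mkK z true)).IsCountablyGenerated := by
        rw [h]
        infer_instance
      exact h'

end Pool.Agent.W8d7136
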