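import Pool.Agent.W_MP_8d7136_h58.Count

set_option autoImplicit false

/-!
Averages of rapidly increasing sequences.
-/

namespace Pool.Agent.W8d7136

variable {S : Sys}

theorem AvgL_hi_le_lo {C : ℝ} {K : ℕ} {lo hi J : ℕ → ℕ} {x : ℕ → W} (hx : RISf S C K lo hi J x)
    {k k' : ℕ} (h : k < k') (hk' : k' < K) : hi k ≤ lo k' := by
  induction k', h using Nat.le_induction with
  | base => exact hx.hilo k hk'
  | succ j hj ih =>
    have h1 := ih (by omega)
    have h2 := hx.lohi j (by omega)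
    have h3 := hx.hilo j hk'
    omega

theorem AvgL_coord (hS : Good S) {C : ℝ} (hC : 0 ≤ C) {K : ℕ} {lo hi J : ℕ → ℕ} {x : ℕ → W}
    (hx : RISf S C K lo hi J x) (i : ℕ) (c : Bool) :
    ∑ k ∈ Finset.range K, ‖x k i c‖ ≤ 3 * C := by
  by_cases h : ∃ k ∈ Finset.range K, x k i c ≠ 0
  · obtain ⟨k, hk, hne⟩ := h
    rw [Finset.mem_range] at hk
    have h1 : lo k ≤ i ∧ i < hi k := by
      by_contra hcon
      exact hne ((hx.blk k hk).supp i (by omega) c)
    rw [Finset.sum_eq_single_of_mem k (Finset.mem_range.2 hk)]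
    · exact coord_le' hS (hx.blk k hk).nb i c
    · intro k' hk' hkk
      rw [Finset.mem_range] at hk'
      rw [norm_eq_zero]
      refine (hx.blk k' hk').supp i ?_ c
      rcases lt_or_gt_of_ne hkk with h2 | h2
      · right
        have := AvgL_hi_le_lo hx h2 hk
        omega
      · left
        have := AvgL_hi_le_lo hx h2 hk'
        omega
  · push Not at h
    rw [Finset.sum_eq_zero fun k hk => by rw [h k hk, norm_zero]]
    linarith

theorem AvgL_le {M N : ℕ} (n : ℕ) (c : Bool) (m : W →ₗ[ℂ] W) (x : ℕ → W) :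
    ‖e S n c (m (((M : ℂ) / (N : ℂ)) • ∑ k ∈ Finset.range N, x k))‖ ≤
      (M : ℝ) / N * ∑ k ∈ Finset.range N, ‖e S n c (m (x k))‖ := by
  rw [map_smul, map_smul, map_sum, map_sum, norm_smul, norm_div, Complex.norm_natCast,
    Complex.norm_natCast]
  exact mul_le_mul_of_nonneg_left (norm_sum_le _ _) (by positivity)

/-- the arithmetic facts -/
theorem AvgL_arith {J : ℕ} (hJ : 1 ≤ J) :
    (1 : ℝ) ≤ nn (J - 1) ∧ (1 : ℝ) ≤ (2 * nn (J - 1) : ℝ) ^ tt J ∧ (100 : ℝ) ≤ mm J ∧
    (nn J : ℝ) = (mm J : ℝ) ^ 4 * (((2 * nn (J - 1) : ℝ) ^ tt J) ^ 2 * (2 * nn (J - 1) : ℝ) ^ 2) := by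
  have h1 : (1 : ℝ) ≤ nn (J - 1) := by exact_mod_cast nn_pos (J - 1)
  refine ⟨h1, one_le_pow₀ (by linarith), ?_, ?_⟩
  · have := mm_ge J
    have h2 : ((2 ^ 100 : ℕ) : ℝ) ≤ (mm J : ℝ) := by exact_mod_cast this
    refine le_trans ?_ h2
    norm_num
  · obtain ⟨j, rfl⟩ : ∃ j, J = j + 1 := ⟨J - 1, by omega⟩
    rw [nn, Nat.add_sub_cancel]
    push_cast
    ring

/-- Apply `count_all` with `j₀ = J`, `t = tt J` (part 2 for the weights `h < J`, part 1 for `h = J`),
`one_exc` for the weights `h > J` (`wt h ≤ wt J ^ 2`), `seed_exc` for seeds, and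
`nn J = mm J ^ 4 (2 nn (J - 1)) ^ (2 tt J + 2)`.  Coordinates: every index lies in at most one block,
`coord_le'`. -/
theorem avg (hS : Good S) {C : ℝ} (hC : 0 ≤ C) {J : ℕ} (hJ : 1 ≤ J) {lo hi Jx : ℕ → ℕ} {x : ℕ → W}
    (hx : RISf S C (nn J) lo hi Jx x) :
    Avg S (10 ^ 10 * C) (lo 0) (hi (nn J - 1)) J
      (((mm J : ℂ) / (nn J : ℂ)) • ∑ k ∈ Finset.range (nn J), x k) := by
  obtain ⟨hA, hB, hM, hN⟩ := AvgL_arith hJ
  have hNpos : (0 : ℝ) < nn J := by exact_mod_cast (nn_pos J)
  have hcard : ((Finset.range (nn J)).card : ℝ) = nn J := by rw [Finset.card_range]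
  have h2t : (2 : ℝ) ^ tt J = mm J := by rw [mm_eq]; push_cast; rfl
  have hwJ : wt J = 1 / (mm J : ℝ) := rfl
  set M : ℝ := (mm J : ℝ) with hMdef
  set N : ℝ := (nn J : ℝ) with hNdef
  set A : ℝ := (nn (J - 1) : ℝ) with hAdef
  set B : ℝ := (2 * A) ^ tt J with hBdef
  have hMpos : 0 < M := by linarith
  -- inequalities between the parameters
  have hM2 : 100 ≤ M ^ 2 := by nlinarith
  have hM4 : 100 * M ^ 2 ≤ M ^ 4 := by
    calc 100 * M ^ 2 ≤ M ^ 2 * M ^ 2 := mul_le_mul_of_nonneg_right hM2 (sq_nonneg M)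
      _ = M ^ 4 := by ring
  have hM4' : M ≤ M ^ 4 := by nlinarith
  have hA2 : A ≤ (2 * A) ^ 2 := by nlinarith
  have hB2 : B ≤ B ^ 2 := by nlinarith
  have hAB : 1 ≤ B ^ 2 * (2 * A) ^ 2 := by
    have h1 : 1 ≤ B ^ 2 := by nlinarith
    have h2 : 1 ≤ (2 * A) ^ 2 := by nlinarith
    nlinarith
  have i1 : M * (A * B) ≤ N := by
    rw [hN]
    have h1 : A * B ≤ B ^ 2 * (2 * A) ^ 2 := by
      rw [mul_comm A B]
      exact mul_le_mul hB2 hA2 (by linarith) (by positivity)
    exact mul_le_mul hM4' h1 (by positivity) (by positivity)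
  have i2 : 100 * M ^ 2 * A ≤ N := by
    rw [hN]
    have h1 : A ≤ B ^ 2 * (2 * A) ^ 2 := by
      have h2 : 1 ≤ B ^ 2 := by nlinarith
      nlinarith [sq_nonneg (2 * A)]
    exact mul_le_mul hM4 h1 (by linarith) (by positivity)
  have i3 : 100 * M ^ 2 ≤ N := by nlinarith [sq_nonneg M]
  have i4 : M * B ≤ N := by
    refine le_trans ?_ i1
    have : B ≤ A * B := by nlinarith
    exact mul_le_mul_of_nonneg_left this hMpos.le
  have i5 : M ≤ N := by nlinarith [sq_nonneg M]
  refine ⟨?_, ?_, ?_, ?_, ?_⟩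
  · intro i hi' c
    have hz : ∀ k ∈ Finset.range (nn J), x k i c = 0 := by
      intro k hk
      rw [Finset.mem_range] at hk
      refine (hx.blk k hk).supp i ?_ c
      rcases hi' with h1 | h1
      · left
        rcases Nat.eq_zero_or_pos k with h2 | h2
        · rw [h2]; exact h1
        · have h3 := AvgL_hi_le_lo hx h2 hk
          have h4 := hx.lohi 0 (by omega)
          omega
      · right
        rcases Nat.lt_or_ge k (nn J - 1) with h2 | h2
        · have h3 := AvgL_hi_le_lo hx h2 (by omega)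
          have h4 := hx.lohi (nn J - 1) (by omega)
          omega
        · have h3 : k = nn J - 1 := by omega
          rw [h3]; exact h1
    rw [Pi.smul_apply, Pi.smul_apply, Finset.sum_apply, Finset.sum_apply, Finset.sum_eq_zero hz,
      smul_zero]
  · intro m hm n c
    refine (AvgL_le n c m x).trans ?_
    have h1 := (count_all hS hC hx hJ n).1 (tt J) le_rfl c m hm _ (Finset.Subset.refl _)
    rw [hcard, h2t] at h1
    calc M / N * ∑ k ∈ Finset.range (nn J), ‖e S n c (m (x k))‖
        ≤ M / N * (10 ^ 8 * C * (N / M + B)) := mul_le_mul_of_nonneg_left h1 (by positivity)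
      _ = 10 ^ 8 * C * (1 + M * B / N) := by field_simp
      _ ≤ 10 ^ 8 * C * (1 + 1) := by
          refine mul_le_mul_of_nonneg_left ?_ (by positivity)
          have : M * B / N ≤ 1 := (div_le_one hNpos).2 i4
          linarith
      _ ≤ 10 ^ 10 * C := by nlinarith
  · intro m hm h hh n c hn
    refine (AvgL_le n c m x).trans ?_
    obtain ⟨d, hd, rfl⟩ := hn
    have h1 := (count_all hS hC hx hJ n).2 d hd (tt J) le_rfl c m hm _ (Finset.Subset.refl _)
    rw [hcard, h2t] at h1
    have hage : (d.age : ℝ) ≤ A := by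
      have h2 := hS.age3 n d hd
      have h3 : nn d.j ≤ nn (J - 1) := nn_mono (by omega)
      rw [hAdef]
      exact_mod_cast h2.trans h3
    have hage0 : (0 : ℝ) ≤ d.age := Nat.cast_nonneg _
    have hw := wt_pos d.j
    have hwM : 1 ≤ M * wt d.j := by
      have h2 : wt J ≤ wt d.j := wt_anti hh.le
      rw [hwJ] at h2
      have h3 : M * (1 / M) = 1 := by field_simp
      have h4 := mul_le_mul_of_nonneg_left h2 hMpos.le
      linarith
    have h5 : (d.age : ℝ) * (96 * C + 10 ^ 8 * C * wt d.j * B) ≤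
        A * (96 * C + 10 ^ 8 * C * wt d.j * B) :=
      mul_le_mul_of_nonneg_right hage (by positivity)
    calc M / N * ∑ k ∈ Finset.range (nn J), ‖e S n c (m (x k))‖
        ≤ M / N * (10 ^ 8 * C * wt d.j * (N / M) + A * (96 * C + 10 ^ 8 * C * wt d.j * B)) :=
          mul_le_mul_of_nonneg_left (h1.trans (by linarith)) (by positivity)
      _ = 10 ^ 8 * C * wt d.j + C * (96 * M * A / N) + 10 ^ 8 * C * wt d.j * (M * (A * B) / N) := by
          field_simp
          ring
      _ ≤ 10 ^ 8 * C * wt d.j + C * wt d.j + 10 ^ 8 * C * wt d.j * 1 := by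
          have h6 : M * (A * B) / N ≤ 1 := (div_le_one hNpos).2 i1
          have h7 : 96 * M * A / N ≤ wt d.j := by
            rw [div_le_iff₀ hNpos]
            have h8 : 96 * M * A ≤ 96 * M * A * (M * wt d.j) := by
              have : 0 ≤ 96 * M * A := by positivity
              nlinarith
            have h9 : 96 * M * A * (M * wt d.j) ≤ wt d.j * N := by
              have : wt d.j * (100 * M ^ 2 * A) ≤ wt d.j * N :=
                mul_le_mul_of_nonneg_left i2 hw.le
              have h10 : 0 ≤ wt d.j * (M ^ 2 * A) := by positivity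
              nlinarith
            exact h8.trans h9
          have h11 : C * (96 * M * A / N) ≤ C * wt d.j := mul_le_mul_of_nonneg_left h7 hC
          have h12 : 10 ^ 8 * C * wt d.j * (M * (A * B) / N) ≤ 10 ^ 8 * C * wt d.j * 1 :=
            mul_le_mul_of_nonneg_left h6 (by positivity)
          linarith
      _ ≤ 10 ^ 10 * C * wt d.j := by
          have : 0 ≤ C * wt d.j := by positivity
          nlinarith
  · intro m hm h hh n c hn
    refine (AvgL_le n c m x).trans ?_
    have h1 := one_exc hS hC hx hn c hm (Finset.Subset.refl _)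
    rw [hcard] at h1
    have hw : wt h ≤ (1 / M) ^ 2 := by
      have h2 : wt h ≤ wt (J + 1) := wt_anti (by omega)
      rwa [wt_succ, hwJ] at h2
    have hw0 := wt_pos h
    rw [hwJ]
    calc M / N * ∑ k ∈ Finset.range (nn J), ‖e S n c (m (x k))‖
        ≤ M / N * (10 ^ 7 * C * (N * (1 / M) ^ 2) + 48 * C) := by
          refine mul_le_mul_of_nonneg_left (h1.trans ?_) (by positivity)
          have : 10 ^ 7 * C * (N * wt h) ≤ 10 ^ 7 * C * (N * (1 / M) ^ 2) :=
            mul_le_mul_of_nonneg_left (mul_le_mul_of_nonneg_left hw hNpos.le) (by positivity)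
          linarith
      _ = 10 ^ 7 * C * (1 / M) + 48 * C * (M / N) := by
          field_simp
      _ ≤ 10 ^ 7 * C * (1 / M) + 48 * C * (1 / M) := by
          have : M / N ≤ 1 / M := by
            rw [div_le_div_iff₀ hNpos hMpos]
            nlinarith [sq_nonneg M]
          have := mul_le_mul_of_nonneg_left this (by positivity : 0 ≤ 48 * C)
          linarith
      _ ≤ 10 ^ 10 * C * (1 / M) := by
          have : 0 ≤ C * (1 / M) := by positivity
          nlinarith
  · intro i c
    rw [Pi.smul_apply, Pi.smul_apply, Finset.sum_apply, Finset.sum_apply, smul_eq_mul, norm_mul,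
      norm_div, Complex.norm_natCast, Complex.norm_natCast]
    have h1 : ‖∑ k ∈ Finset.range (nn J), x k i c‖ ≤ 3 * C :=
      (norm_sum_le _ _).trans (AvgL_coord hS hC hx i c)
    have h2 : 0 ≤ M / N := by positivity
    calc M / N * ‖∑ k ∈ Finset.range (nn J), x k i c‖ ≤ M / N * (3 * C) :=
          mul_le_mul_of_nonneg_left h1 h2
      _ ≤ 10 ^ 10 * C * (M / N) := by
          have : 0 ≤ C * (M / N) := by positivity
          nlinarith

/-- an average is a block -/
theorem Blk_of_Avg {C : ℝ} {lo hi J : ℕ} {y : W} (hy : Avg S C lo hi J y) :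
    Blk S C lo hi J y :=
  ⟨hy.supp, hy.nb LinearMap.id (Mult_id S), fun h hh => hy.lt LinearMap.id (Mult_id S) h hh⟩

end Pool.Agent.W8d7136
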