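import Pool.Agent.W_MP_8d7136_h58.Defs

set_option autoImplicit false

/-!
Elementary facts on the parameters.
-/

namespace Pool.Agent.W8d7136

theorem mm_eq (j : ℕ) : mm j = 2 ^ tt j := rfl

theorem mm_ge (j : ℕ) : 2 ^ 100 ≤ mm j := by
  refine Nat.pow_le_pow_right (by norm_num) ?_
  have : 1 ≤ 2 ^ j := Nat.one_le_two_pow
  omega

theorem mm_succ (j : ℕ) : mm (j + 1) = mm j ^ 2 := by
  unfold mm
  rw [← pow_mul]
  congr 1
  ring

theorem mm_strictMono : StrictMono mm := by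
  refine strictMono_nat_of_lt_succ fun j => ?_
  rw [mm_succ]
  have h := mm_ge j
  have h2 : (1 : ℕ) < 2 ^ 100 := by norm_num
  nlinarith

theorem tt_succ (j : ℕ) : tt (j + 1) = 2 * tt j := by
  unfold tt
  ring

theorem lt_mm (j : ℕ) : j < mm j := by
  unfold mm
  have h1 : j < 2 ^ j := Nat.lt_two_pow_self
  have h2 : 100 * 2 ^ j < 2 ^ (100 * 2 ^ j) := Nat.lt_two_pow_self
  omega

theorem nn_pos (j : ℕ) : 1 ≤ nn j := by
  induction j with
  | zero => exact le_rfl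
  | succ j ih =>
    rw [nn]
    have h1 : 0 < mm (j + 1) := lt_of_lt_of_le (by positivity) (mm_ge (j + 1))
    have h2 : 0 < nn j := ih
    exact Nat.one_le_iff_ne_zero.2 (by positivity)

theorem nn_mono : Monotone nn := by
  refine monotone_nat_of_le_succ fun j => ?_
  rw [nn]
  have h1 : 0 < mm (j + 1) := lt_of_lt_of_le (by positivity) (mm_ge (j + 1))
  have h2 := nn_pos j
  calc nn j ≤ 2 * nn j := by omega
    _ = (2 * nn j) ^ 1 := (pow_one _).symm
    _ ≤ (2 * nn j) ^ (2 * tt (j + 1) + 2) := Nat.pow_le_pow_right (by omega) (by omega)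
    _ = 1 * (2 * nn j) ^ (2 * tt (j + 1) + 2) := (one_mul _).symm
    _ ≤ mm (j + 1) ^ 4 * (2 * nn j) ^ (2 * tt (j + 1) + 2) :=
      Nat.mul_le_mul_right _ (Nat.one_le_iff_ne_zero.2 (by positivity))

theorem nn_big {j : ℕ} (hj : 1 ≤ j) :
    nn j = mm j ^ 4 * (2 * nn (j - 1)) ^ (2 * tt j + 2) := by
  obtain ⟨k, rfl⟩ : ∃ k, j = k + 1 := ⟨j - 1, by omega⟩
  rw [nn]
  rfl

theorem nn_ge {j : ℕ} (hj : 1 ≤ j) : mm j ^ 4 ≤ nn j := by
  rw [nn_big hj]
  have h2 := nn_pos (j - 1)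
  exact Nat.le_mul_of_pos_right _ (Nat.pow_pos (by omega))

theorem code_strictMono : StrictMono code := by
  intro p q hpq
  unfold code
  have h1 : nn p ^ 2 ≤ nn q ^ 2 := Nat.pow_le_pow_left (nn_mono hpq.le) 2
  have h2 : 0 < nn q ^ 2 := Nat.pow_pos (nn_pos q)
  have h3 : (p + 1) * nn p ^ 2 ≤ (p + 1) * nn q ^ 2 := Nat.mul_le_mul_left _ h1
  have h4 : (p + 1) * nn q ^ 2 < (q + 1) * nn q ^ 2 := Nat.mul_lt_mul_of_pos_right (by omega) h2
  omega

theorem code_mod (p : ℕ) : code p % 4 = 0 := Nat.mul_mod_right _ _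

theorem Par_code_ge (p : ℕ) : p + 1 ≤ code p ∧ nn p ^ 2 ≤ code p := by
  unfold code
  have h2 : 0 < nn p ^ 2 := Nat.pow_pos (nn_pos p)
  have h3 : p + 1 ≤ (p + 1) * nn p ^ 2 := Nat.le_mul_of_pos_right _ h2
  have h4 : nn p ^ 2 ≤ (p + 1) * nn p ^ 2 := Nat.le_mul_of_pos_left _ (by omega)
  omega

theorem lt_code (p : ℕ) : p < code p := (Par_code_ge p).1

theorem nn_sq_le_code (p : ℕ) : nn p ^ 2 ≤ mm (code p) :=
  (Par_code_ge p).2.trans (lt_mm _).le

theorem Par_mm_pos (j : ℕ) : (0 : ℝ) < mm j := by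
  have : 0 < mm j := lt_of_lt_of_le (by positivity) (mm_ge j)
  exact_mod_cast this

theorem wt_pos (j : ℕ) : 0 < wt j := by
  unfold wt
  have := Par_mm_pos j
  positivity

theorem wt_le (j : ℕ) : wt j ≤ 1 / 10 ^ 30 := by
  unfold wt
  refine one_div_le_one_div_of_le (by positivity) ?_
  have h1 : ((2 ^ 100 : ℕ) : ℝ) ≤ mm j := by exact_mod_cast mm_ge j
  refine le_trans ?_ h1
  norm_num

theorem wt_anti : Antitone wt := by
  intro i j hij
  unfold wt
  refine one_div_le_one_div_of_le (Par_mm_pos i) ?_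
  exact_mod_cast mm_strictMono.monotone hij

theorem wt_succ (j : ℕ) : wt (j + 1) = wt j ^ 2 := by
  unfold wt
  rw [mm_succ]
  push_cast
  rw [div_pow, one_pow]

/-- the weights tend to zero -/
theorem exists_wt_lt {ε : ℝ} (hε : 0 < ε) : ∃ j₀, ∀ j, j₀ ≤ j → wt j < ε := by
  obtain ⟨k, hk⟩ := exists_nat_gt (1 / ε)
  refine ⟨k, fun j hj => ?_⟩
  unfold wt
  have h1 : ((j : ℕ) : ℝ) < mm j := by exact_mod_cast lt_mm j
  have h2 : (k : ℝ) ≤ j := by exact_mod_cast hj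
  rw [div_lt_iff₀ (Par_mm_pos j)]
  rw [div_lt_iff₀ hε] at hk
  nlinarith

/-- if `nn j₀ ^ 2 ≤ mm J` and `1 ≤ j₀` then `j₀ < J` and the average of weight `J` has small coordinates -/
theorem big_weight {j₀ J : ℕ} (hj : 1 ≤ j₀) (h : nn j₀ ^ 2 ≤ mm J) :
    j₀ < J ∧ wt J ≤ 1 / (nn j₀ : ℝ) ^ 2 ∧ (mm J / nn J : ℝ) ≤ 1 / nn j₀ := by
  have hp := nn_pos j₀
  have hp' : (0 : ℝ) < nn j₀ := by exact_mod_cast hp
  have hlt : j₀ < J := by
    refine mm_strictMono.lt_iff_lt.1 (lt_of_lt_of_le ?_ h)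
    have h1 := nn_ge hj
    have h2 := mm_ge j₀
    have h3 : (1 : ℕ) < 2 ^ 100 := by norm_num
    have h4 : 1 < mm j₀ := lt_of_lt_of_le h3 h2
    calc mm j₀ < mm j₀ ^ 4 := by
          calc mm j₀ = mm j₀ ^ 1 := (pow_one _).symm
            _ < mm j₀ ^ 4 := Nat.pow_lt_pow_right h4 (by norm_num)
      _ ≤ nn j₀ := h1
      _ = nn j₀ ^ 1 := (pow_one _).symm
      _ ≤ nn j₀ ^ 2 := Nat.pow_le_pow_right hp (by norm_num)
  refine ⟨hlt, ?_, ?_⟩
  · unfold wt
    refine one_div_le_one_div_of_le (by positivity) ?_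
    exact_mod_cast h
  · have h1 : mm J * nn j₀ ≤ nn J := by
      rw [nn_big (by omega : 1 ≤ J)]
      have hq := nn_pos (J - 1)
      have hm : 0 < mm J := lt_of_lt_of_le (by positivity) (mm_ge J)
      refine Nat.mul_le_mul ?_ ?_
      · calc mm J = mm J ^ 1 := (pow_one _).symm
          _ ≤ mm J ^ 4 := Nat.pow_le_pow_right hm (by norm_num)
      · calc nn j₀ ≤ nn (J - 1) := nn_mono (by omega)
          _ ≤ 2 * nn (J - 1) := by omega
          _ = (2 * nn (J - 1)) ^ 1 := (pow_one _).symm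
          _ ≤ (2 * nn (J - 1)) ^ (2 * tt J + 2) := Nat.pow_le_pow_right (by omega) (by omega)
    have h2 : (mm J : ℝ) * nn j₀ ≤ nn J := by exact_mod_cast h1
    have h3 : (0 : ℝ) < nn J := by exact_mod_cast nn_pos J
    rw [div_le_div_iff₀ h3 hp']
    linarith

/-- there are arbitrarily large indices congruent to `2` mod `4` with large `mm` -/
theorem exists_mod (N : ℕ) (B : ℕ) : ∃ h, N ≤ h ∧ h % 4 = 2 ∧ B ≤ mm h := by
  refine ⟨4 * (N + B) + 2, by omega, by omega, ?_⟩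
  have := lt_mm (4 * (N + B) + 2)
  omega

end Pool.Agent.W8d7136
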