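import Pool.Agent.W_MP_8d7136_h58.Ops
import Pool.Agent.W_MP_8d7136_h58.Par

set_option autoImplicit false

/-!
Boundedness of the basic operators: simultaneous induction on the index.
-/

namespace Pool.Agent.W8d7136

variable {S : Sys}

/-- `ℓ₁` combinations -/
theorem bf_le {n : ℕ} {b : ℕ → Bool → ℂ} {B : ℝ}
    (hb : ∑ i ∈ Finset.range n, ∑ c : Bool, ‖b i c‖ ≤ B) {C : ℝ} (hC : 0 ≤ C) {v : W}
    (hv : NBl S n C v) : ‖bf S n b v‖ ≤ B * C := by
  rw [bf_apply]
  calc ‖∑ i ∈ Finset.range n, ∑ c : Bool, b i c * e S i c v‖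
      ≤ ∑ i ∈ Finset.range n, ‖∑ c : Bool, b i c * e S i c v‖ := norm_sum_le _ _
    _ ≤ ∑ i ∈ Finset.range n, ∑ c : Bool, ‖b i c‖ * C := by
        refine Finset.sum_le_sum fun i hi => (norm_sum_le _ _).trans ?_
        refine Finset.sum_le_sum fun c _ => ?_
        rw [norm_mul]
        exact mul_le_mul_of_nonneg_left (hv i (Finset.mem_range.1 hi) c) (norm_nonneg _)
    _ = (∑ i ∈ Finset.range n, ∑ c : Bool, ‖b i c‖) * C := by
        rw [Finset.sum_mul]
        exact Finset.sum_congr rfl fun i _ => by rw [Finset.sum_mul]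
    _ ≤ B * C := mul_le_mul_of_nonneg_right hb hC

theorem Bd_eps_res (n : ℕ) (c : Bool) (A : Set ℕ) (v : W) :
    eps S n c (res A v) = res A (eps S n c v) := by
  unfold eps
  cases c
  · simp
  · simp only [if_true]
    exact E_res _ _ _

theorem Bd_P_apply (k : ℕ) (v : W) (i : ℕ) (c : Bool) : P k v i c = if i < k then v i c else 0 := by
  unfold P
  rw [res_apply]
  by_cases h : i < k
  · rw [if_pos h, if_pos (show i ∈ Set.Iio k from h)]
  · rw [if_neg h, if_neg (show i ∉ Set.Iio k from h)]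

open Classical in
theorem Bd_Q_apply (q : ℕ) (v : W) (i : ℕ) (c : Bool) :
    Q S q v i c = if i ∈ S.cone q then v i c else 0 := rfl

theorem Bd_Q_small {q i : ℕ} (h : i ≤ q) (v : W) (c : Bool) : Q S q v i c = 0 := by
  rw [Bd_Q_apply, if_neg]
  intro hi
  exact absurd hi.1 (not_lt.2 h)

theorem Bd_cond {χ : Bool} {x : ℂ} {C : ℝ} (hC : 0 ≤ C) (h : ‖x‖ ≤ C) :
    ‖(if χ = true then x else 0 : ℂ)‖ ≤ C := by
  split_ifs
  · exact h
  · rw [norm_zero]
    exact hC

theorem Bd_wt (j : ℕ) {x : ℂ} {C : ℝ} (hC : 0 ≤ C) (h : ‖x‖ ≤ 100 * C) :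
    ‖(wt j : ℂ) * x‖ ≤ C := by
  rw [norm_mul, Complex.norm_real, Real.norm_eq_abs, abs_of_pos (wt_pos j)]
  have h1 := wt_le j
  have h2 := (wt_pos j).le
  calc wt j * ‖x‖ ≤ (1 / 10 ^ 30) * (100 * C) :=
        mul_le_mul h1 h (norm_nonneg _) (by positivity)
    _ ≤ C := by
        norm_num
        linarith

/-- the strong form of the induction statement -/
def Bd_A (S : Sys) (n : ℕ) : Prop :=
  ∀ (C : ℝ) (v : W), 0 ≤ C → NBl S n C v → ∀ i < n, ∀ c,
    (∀ k, ‖e S i c (P k v)‖ ≤ 2 * C) ∧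
    (∀ q, (i ∈ S.cone q → ‖e S i c (Q S q v) - e S i c v‖ ≤ 5 * C) ∧
      (i ∉ S.cone q → ‖e S i c (Q S q v)‖ ≤ 5 * C)) ∧
    (∀ z, ‖e S i c (E S z v)‖ ≤ 2 * C)

theorem Bd_A_all {n : ℕ} (h : Bd_A S n) : ∀ (C : ℝ) (v : W), 0 ≤ C → NBl S n C v →
    (∀ k, NBl S n (2 * C) (P k v)) ∧ (∀ q, NBl S n (6 * C) (Q S q v)) ∧
      (∀ z, NBl S n (2 * C) (E S z v)) := by
  intro C v hC hv
  refine ⟨fun k i hi c => (h C v hC hv i hi c).1 k, fun q i hi c => ?_,
    fun z i hi c => (h C v hC hv i hi c).2.2 z⟩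
  by_cases hc : i ∈ S.cone q
  · have h1 := ((h C v hC hv i hi c).2.1 q).1 hc
    have h2 := hv i hi c
    have h3 : e S i c (Q S q v) = (e S i c (Q S q v) - e S i c v) + e S i c v := by ring
    rw [h3]
    refine (norm_add_le _ _).trans ?_
    linarith
  · have h1 := ((h C v hC hv i hi c).2.1 q).2 hc
    linarith

/-- the bound of the piece -/
theorem Bd_piece {n : ℕ} (h : Bd_A S n) {p : ℕ} {b : ℕ → Bool → ℂ}
    (hb : ∑ i ∈ Finset.range n, ∑ c : Bool, ‖b i c‖ ≤ 1) {C : ℝ} (hC : 0 ≤ C) {v : W}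
    (hv : NBl S n C v) (m : ℕ) (c : Bool) : ‖bf S n b (Q S p (eps S m c v))‖ ≤ 12 * C := by
  have h1 : NBl S n (2 * C) (eps S m c v) := by
    unfold eps
    cases c
    · intro i hi c'
      have := hv i hi c'
      simp only [Bool.false_eq_true, if_false, LinearMap.id_coe, id_eq]
      linarith
    · simp only [if_true]
      exact (Bd_A_all h C v hC hv).2.2 _
  have h2 := (Bd_A_all h (2 * C) _ (by linarith) h1).2.1 p
  have h3 := bf_le hb (by linarith) h2
  linarith

theorem Bd_step_P (hS : Good S) {n : ℕ} (h : Bd_A S n) {C : ℝ} {v : W} (hC : 0 ≤ C)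
    (hv : NBl S (n + 1) C v) (c : Bool) (k : ℕ) : ‖e S n c (P k v)‖ ≤ 2 * C := by
  have hvn : NBl S n C v := fun i hi c => hv i (by omega) c
  have hloc : ∀ m, m < k → ∀ c, e S m c (P k v) = e S m c v := fun m hm c =>
    e_congr hS fun i hi c' => by rw [Bd_P_apply, if_pos (by omega)]
  rcases lt_or_ge n k with hk | hk
  · rw [hloc n hk c]
    have := hv n (by omega) c
    linarith
  · rcases hD : S.D n with _ | d
    · rw [e_none hD, Bd_P_apply, if_neg (by omega), norm_zero]
      linarith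
    · obtain ⟨hp, hon, -⟩ := hS.lt n d hD
      rw [e_some hS hD, Bd_P_apply, if_neg (by omega), zero_add]
      rcases lt_or_ge d.p k with hpk | hpk
      · rw [hloc d.p hpk c]
        have h1 : ‖(if d.chi = true then e S d.p c v else 0 : ℂ)‖ ≤ C :=
          Bd_cond hC (hvn d.p hp c)
        have h2 := Bd_piece h (p := d.p) (hS.b1 n d hD) (C := 2 * C) (by linarith)
          ((Bd_A_all h C v hC hvn).1 k) n c
        have h3 := Bd_wt d.j hC (h2.trans (by linarith))
        exact (norm_add_le _ _).trans (by linarith)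
      · have h0 : Q S d.p (eps S n c (P k v)) = 0 := by
          funext i c'
          unfold P
          rw [Bd_eps_res, Bd_Q_apply]
          split_ifs with hi
          · rw [res_apply, if_neg]
            · rfl
            · intro hik
              have h4 : i < k := hik
              have h5 : d.p < i := hi.1
              omega
          · rfl
        rw [h0, map_zero, mul_zero, add_zero]
        exact Bd_cond (by linarith) ((Bd_A_all h C v hC hvn).1 k d.p hp c)

theorem Bd_step_E (hS : Good S) {n : ℕ} (h : Bd_A S n) {C : ℝ} {v : W} (hC : 0 ≤ C)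
    (hv : NBl S (n + 1) C v) (c : Bool) (z : ℕ → Bool) : ‖e S n c (E S z v)‖ ≤ 2 * C := by
  have hvn : NBl S n C v := fun i hi c => hv i (by omega) c
  have hon1 : ∀ m, S.On m z → ∀ c, e S m c (E S z v) = e S m true v := by
    intro m hm c
    cases c
    · exact e_false_E hS hm v
    · exact e_true_E hS hm v
  by_cases hz : S.On n z
  · rw [hon1 n hz c]
    have := hv n (by omega) true
    linarith
  · rcases hD : S.D n with _ | d
    · rw [e_none hD, E_apply, if_neg hz, norm_zero]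
      linarith
    · obtain ⟨hp, hon, -⟩ := hS.lt n d hD
      rw [e_some hS hD, E_apply, if_neg hz, zero_add]
      by_cases hpz : S.On d.p z
      · rw [hon1 d.p hpz c]
        have h1 : ‖(if d.chi = true then e S d.p true v else 0 : ℂ)‖ ≤ C :=
          Bd_cond hC (hvn d.p hp true)
        have h2 := Bd_piece h (p := d.p) (hS.b1 n d hD) (C := 2 * C) (by linarith)
          ((Bd_A_all h C v hC hvn).2.2 z) n c
        have h3 := Bd_wt d.j hC (h2.trans (by linarith))
        exact (norm_add_le _ _).trans (by linarith)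
      · have h0 : Q S d.p (eps S n c (E S z v)) = 0 := by
          unfold Q
          rw [← Bd_eps_res]
          have h4 : res (S.cone d.p) (E S z v) = 0 := Q_E_eq_zero hS hpz v
          rw [h4, map_zero]
        rw [h0, map_zero, mul_zero, add_zero]
        exact Bd_cond (by linarith) ((Bd_A_all h C v hC hvn).2.2 z d.p hp c)

theorem Bd_step_Q (hS : Good S) {n : ℕ} (h : Bd_A S n) {C : ℝ} {v : W} (hC : 0 ≤ C)
    (hv : NBl S (n + 1) C v) (c : Bool) (q : ℕ) :
    (n ∈ S.cone q → ‖e S n c (Q S q v) - e S n c v‖ ≤ 5 * C) ∧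
      (n ∉ S.cone q → ‖e S n c (Q S q v)‖ ≤ 5 * C) := by
  have hvn : NBl S n C v := fun i hi c => hv i (by omega) c
  have h0 : ∀ m, m ≤ q → ∀ c, e S m c (Q S q v) = 0 := fun m hm c =>
    e_eq_zero hS fun i hi c' => Bd_Q_small (hi.trans hm) v c'
  rcases le_or_gt n q with hnq | hnq
  · refine ⟨fun hn => absurd hn.1 (not_lt.2 hnq), fun _ => ?_⟩
    rw [h0 n hnq c, norm_zero]
    linarith
  rcases hD : S.D n with _ | d
  · rw [e_none hD, e_none hD, Bd_Q_apply]
    refine ⟨fun hn => ?_, fun hn => ?_⟩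
    · rw [if_pos hn, sub_self, norm_zero]
      linarith
    · rw [if_neg hn, norm_zero]
      linarith
  obtain ⟨hp, hon, -⟩ := hS.lt n d hD
  have hb := hS.b1 n d hD
  rw [e_some hS hD, e_some hS hD, Bd_Q_apply]
  rcases lt_trichotomy d.p q with hpq | hpq | hpq
  · -- the parent is smaller than `q`
    rw [h0 d.p hpq.le c]
    have h1 := Bd_piece h (p := d.p) hb (C := 6 * C) (by linarith)
      ((Bd_A_all h C v hC hvn).2.1 q) n c
    have h2 := Bd_piece h (p := d.p) hb hC hvn n c
    have h3 := Bd_wt d.j hC (h1.trans (by linarith))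
    have h4 := Bd_wt d.j hC (h2.trans (by linarith))
    have h5 : ‖(if d.chi = true then e S d.p c v else 0 : ℂ)‖ ≤ C := Bd_cond hC (hvn d.p hp c)
    refine ⟨fun hn => ?_, fun hn => ?_⟩
    · rw [if_pos hn, ite_self, add_zero]
      have e1 : v n c + (wt d.j : ℂ) * bf S n d.b (Q S d.p (eps S n c (Q S q v))) -
          (v n c + (if d.chi = true then e S d.p c v else 0) +
            (wt d.j : ℂ) * bf S n d.b (Q S d.p (eps S n c v))) =
          (wt d.j : ℂ) * bf S n d.b (Q S d.p (eps S n c (Q S q v))) -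
          ((if d.chi = true then e S d.p c v else 0) +
            (wt d.j : ℂ) * bf S n d.b (Q S d.p (eps S n c v))) := by ring
      rw [e1]
      refine (norm_sub_le _ _).trans ?_
      have h6 := norm_add_le (if d.chi = true then e S d.p c v else 0 : ℂ)
        ((wt d.j : ℂ) * bf S n d.b (Q S d.p (eps S n c v)))
      linarith
    · rw [if_neg hn, ite_self, add_zero, zero_add]
      linarith
  · -- the parent is `q`
    subst hpq
    have hn : n ∈ S.cone d.p := ⟨hp, hon⟩
    refine ⟨fun _ => ?_, fun hn' => absurd hn hn'⟩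
    have e1 : Q S d.p (eps S n c (Q S d.p v)) = Q S d.p (eps S n c v) := by
      unfold Q
      rw [Bd_eps_res, res_res, Set.inter_self]
    rw [if_pos hn, e1, h0 d.p le_rfl c, ite_self, add_zero]
    have e2 : v n c + (wt d.j : ℂ) * bf S n d.b (Q S d.p (eps S n c v)) -
        (v n c + (if d.chi = true then e S d.p c v else 0) +
          (wt d.j : ℂ) * bf S n d.b (Q S d.p (eps S n c v))) =
        -(if d.chi = true then e S d.p c v else 0) := by ring
    rw [e2, norm_neg]
    have := Bd_cond (χ := d.chi) hC (hvn d.p hp c)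
    linarith
  · by_cases hq : S.On q (S.s d.p)
    · have hn : n ∈ S.cone q := ⟨hnq, on_trans hS hpq.le hq hon⟩
      refine ⟨fun _ => ?_, fun hn' => absurd hn hn'⟩
      have e1 : Q S d.p (eps S n c (Q S q v)) = Q S d.p (eps S n c v) := by
        unfold Q
        rw [Bd_eps_res, res_res, Set.inter_eq_left.2 (cone_sub hS hpq.le hq)]
      rw [if_pos hn, e1]
      have e2 : v n c + (if d.chi = true then e S d.p c (Q S q v) else 0) +
          (wt d.j : ℂ) * bf S n d.b (Q S d.p (eps S n c v)) -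
          (v n c + (if d.chi = true then e S d.p c v else 0) +
            (wt d.j : ℂ) * bf S n d.b (Q S d.p (eps S n c v))) =
          if d.chi = true then e S d.p c (Q S q v) - e S d.p c v else 0 := by
        split_ifs <;> ring
      rw [e2]
      exact Bd_cond (by linarith) (((h C v hC hvn d.p hp c).2.1 q).1 ⟨hpq, hq⟩)
    · have hnn : n ∉ S.cone q := fun hn => hq (on_of_on hS hpq.le hn.2 hon)
      refine ⟨fun hn' => absurd hn' hnn, fun _ => ?_⟩
      have e1 : Q S d.p (eps S n c (Q S q v)) = 0 := by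
        have h1 : S.cone d.p ∩ S.cone q = ∅ :=
          Set.disjoint_iff_inter_eq_empty.1 (cone_disj hS hpq.le hq).symm
        unfold Q
        rw [Bd_eps_res, res_res, h1, res_empty]
      rw [if_neg hnn, e1, map_zero, mul_zero, add_zero, zero_add]
      exact Bd_cond (by linarith) (((h C v hC hvn d.p hp c).2.1 q).2 fun hx => hq hx.2)

theorem Bd_strong (hS : Good S) (n : ℕ) : Bd_A S n := by
  induction n with
  | zero => intro C v _ _ i hi; exact absurd hi (Nat.not_lt_zero i)
  | succ n ih =>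
    intro C v hC hv i hi c
    rcases Nat.lt_succ_iff_lt_or_eq.1 hi with hi' | rfl
    · exact ih C v hC (fun i hi c => hv i (by omega) c) i hi' c
    · exact ⟨fun k => Bd_step_P hS ih hC hv c k, fun q => Bd_step_Q hS ih hC hv c q,
        fun z => Bd_step_E hS ih hC hv c z⟩

/-- The three bounds, proved together by induction on `n` (see section 2 of the paper proof):
for the functional of index `n` with data `d`, parent `p`, weight `w = wt d.j`:
(P) `n < k`: locality.  `p < k ≤ n`: `χ e_p(v) + w bf(Q_p eps P_k v)`, at most `C + w * 24 C`.  `k ≤ p`: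
`Q_p P_k = 0`, so `χ e_p(P_k v)`.
(Q) one shows `‖e_n(Q_q v) - e_n(v)‖ ≤ 5 C` for `n ∈ cone q` and `‖e_n(Q_q v)‖ ≤ 5 C` otherwise; cases
`n ≤ q` (zero); `q < p`, on (difference `= χ *` difference at `p`); `q < p`, off (`Q_p Q_q = 0`,
`χ e_p(Q_q v)`); `p = q` (difference `-χ e_q(v)`); `p < q < n`:
`[n ∈ cone q] v(n,c) + w bf(Q_p eps Q_q v)` with `‖v(n,c)‖ ≤ 2 C + w * 12 C`.
(E) `n` on `z`: `e_false_E`, `e_true_E`; `n` not on `z`, `p` on `z`: `χ e_p + w * 24 C`; `p` not on
`z`: `Q_E_eq_zero` and `χ e_p(E_z v)`.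
All `w ≤ 10⁻³⁰`. -/
theorem bd_all (hS : Good S) (n : ℕ) : ∀ (C : ℝ) (v : W), 0 ≤ C → NBl S n C v →
    (∀ k, NBl S n (2 * C) (P k v)) ∧ (∀ q, NBl S n (6 * C) (Q S q v)) ∧
      (∀ z, NBl S n (2 * C) (E S z v)) :=
  Bd_A_all (Bd_strong hS n)

theorem NB_iff {C : ℝ} {v : W} : NB S C v ↔ ∀ n, NBl S n C v :=
  ⟨fun h _ i _ c => h i c, fun h n c => h (n + 1) n (Nat.lt_succ_self n) c⟩

theorem NB_mono {C C' : ℝ} {v : W} (h : NB S C v) (hc : C ≤ C') : NB S C' v :=
  fun n c => (h n c).trans hc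

theorem NB_nonneg {C : ℝ} {v : W} (h : NB S C v) : 0 ≤ C :=
  (norm_nonneg _).trans (h 0 false)

theorem NB_add {C C' : ℝ} {v v' : W} (h : NB S C v) (h' : NB S C' v') : NB S (C + C') (v + v') := by
  intro n c
  rw [map_add]
  exact (norm_add_le _ _).trans (add_le_add (h n c) (h' n c))

theorem NB_sub {C C' : ℝ} {v v' : W} (h : NB S C v) (h' : NB S C' v') : NB S (C + C') (v - v') := by
  intro n c
  rw [map_sub]
  exact (norm_sub_le _ _).trans (add_le_add (h n c) (h' n c))

theorem NB_smul {C : ℝ} {v : W} (h : NB S C v) (a : ℂ) : NB S (‖a‖ * C) (a • v) := by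
  intro n c
  rw [map_smul, smul_eq_mul, norm_mul]
  exact mul_le_mul_of_nonneg_left (h n c) (norm_nonneg _)

theorem NB_P (hS : Good S) {C : ℝ} {v : W} (h : NB S C v) (k : ℕ) : NB S (2 * C) (P k v) :=
  NB_iff.2 fun n => (bd_all hS n C v (NB_nonneg h) (NB_iff.1 h n)).1 k

theorem NB_Q (hS : Good S) {C : ℝ} {v : W} (h : NB S C v) (q : ℕ) : NB S (6 * C) (Q S q v) :=
  NB_iff.2 fun n => (bd_all hS n C v (NB_nonneg h) (NB_iff.1 h n)).2.1 q

theorem NB_E (hS : Good S) {C : ℝ} {v : W} (h : NB S C v) (z : ℕ → Bool) :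
    NB S (2 * C) (E S z v) :=
  NB_iff.2 fun n => (bd_all hS n C v (NB_nonneg h) (NB_iff.1 h n)).2.2 z

theorem Bd_Ico {k k' : ℕ} (h : k ≤ k') (v : W) : res (Set.Ico k k') v = P k' v - P k v := by
  funext i c
  rw [Pi.sub_apply, Pi.sub_apply, Bd_P_apply, Bd_P_apply, res_apply]
  by_cases h1 : i < k
  · rw [if_neg (fun hi : i ∈ Set.Ico k k' => absurd hi.1 (by omega)), if_pos (by omega),
      if_pos h1, sub_self]
  · by_cases h2 : i < k'
    · rw [if_pos (show i ∈ Set.Ico k k' from ⟨by omega, h2⟩), if_pos h2, if_neg h1, sub_zero]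
    · rw [if_neg (fun hi : i ∈ Set.Ico k k' => absurd hi.2 (by omega)), if_neg h2, if_neg h1,
        sub_zero]

theorem Bd_Ici (k : ℕ) (v : W) : res (Set.Ici k) v = v - P k v := by
  funext i c
  rw [Pi.sub_apply, Pi.sub_apply, Bd_P_apply, res_apply]
  by_cases h1 : i < k
  · rw [if_neg (fun hi : i ∈ Set.Ici k => absurd hi (by simp only [Set.mem_Ici]; omega)),
      if_pos h1, sub_self]
  · rw [if_pos (show i ∈ Set.Ici k from not_lt.1 h1), if_neg h1, sub_zero]

theorem Bd_interval (hS : Good S) {n : ℕ} {C : ℝ} (hC : 0 ≤ C) {v : W} (h : NBl S n C v)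
    {I : Set ℕ} (hI : (∃ k k', I = Set.Ico k k') ∨ ∃ k, I = Set.Ici k) :
    NBl S n (4 * C) (res I v) := by
  rcases hI with ⟨k, k', rfl⟩ | ⟨k, rfl⟩
  · rcases le_or_gt k k' with hk | hk
    · intro i hi c
      rw [Bd_Ico hk, map_sub]
      have h1 := (bd_all hS n C v hC h).1 k i hi c
      have h2 := (bd_all hS n C v hC h).1 k' i hi c
      exact (norm_sub_le _ _).trans (by linarith)
    · intro i hi c
      rw [Set.Ico_eq_empty (by omega), res_empty, map_zero, norm_zero]
      linarith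
  · intro i hi c
    rw [Bd_Ici, map_sub]
    have h1 := (bd_all hS n C v hC h).1 k i hi c
    have h2 := h i hi c
    exact (norm_sub_le _ _).trans (by linarith)

theorem Bd_adm (hS : Good S) {n : ℕ} {C : ℝ} (hC : 0 ≤ C) {v : W} (h : NBl S n C v)
    {A : Set ℕ} (hA : Adm S A) : NBl S n (24 * C) (res A v) := by
  obtain ⟨I, hI, rfl | ⟨p, rfl⟩⟩ := hA
  · intro i hi c
    have := Bd_interval hS hC h hI i hi c
    linarith
  · intro i hi c
    rw [← res_res]
    have h1 := (bd_all hS n C v hC h).2.1 p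
    have h2 := Bd_interval hS (by linarith) h1 hI i hi c
    have h3 : res (S.cone p) v = Q S p v := rfl
    rw [h3]
    linarith

theorem NBl_Mult (hS : Good S) {n : ℕ} {C : ℝ} (hC : 0 ≤ C) {v : W} (h : NBl S n C v)
    {m : W →ₗ[ℂ] W} (hm : Mult S m) : NBl S n (48 * C) (m v) := by
  obtain ⟨A, hA, rfl | ⟨z, rfl⟩⟩ := hm
  · intro i hi c
    have := Bd_adm hS hC h hA i hi c
    linarith
  · intro i hi c
    have h1 := (bd_all hS n C v hC h).2.2 z
    have h2 := Bd_adm hS (by linarith) h1 hA i hi c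
    rw [LinearMap.comp_apply]
    linarith

/-- all multipliers are bounded by `48` (`Ico k k'` is `P k' - P k`, `Ici k` is `1 - P k`) -/
theorem NB_Mult (hS : Good S) {C : ℝ} {v : W} (h : NB S C v) {m : W →ₗ[ℂ] W} (hm : Mult S m) :
    NB S (48 * C) (m v) :=
  NB_iff.2 fun n => NBl_Mult hS (NB_nonneg h) (NB_iff.1 h n) hm

/-- coordinates -/
theorem coord_le (hS : Good S) {n : ℕ} {C : ℝ} (hC : 0 ≤ C) {v : W} (h : NBl S (n + 1) C v)
    (c : Bool) : ‖v n c‖ ≤ 3 * C := by
  have h0 := h n (Nat.lt_succ_self n) c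
  rcases hD : S.D n with _ | d
  · rw [e_none hD] at h0
    linarith
  · obtain ⟨hp, -, -⟩ := hS.lt n d hD
    have hvn : NBl S n C v := fun i hi c => h i (by omega) c
    have h1 := Bd_cond (χ := d.chi) hC (hvn d.p hp c)
    have h2 := Bd_wt d.j hC ((Bd_piece (Bd_strong hS n) (p := d.p) (hS.b1 n d hD) hC hvn n c).trans
      (by linarith))
    rw [e_some hS hD] at h0
    have e1 : v n c = (v n c + (if d.chi = true then e S d.p c v else 0) +
        (wt d.j : ℂ) * bf S n d.b (Q S d.p (eps S n c v))) -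
        ((if d.chi = true then e S d.p c v else 0) +
        (wt d.j : ℂ) * bf S n d.b (Q S d.p (eps S n c v))) := by ring
    rw [e1]
    refine (norm_sub_le _ _).trans ?_
    have h3 := norm_add_le (if d.chi = true then e S d.p c v else 0 : ℂ)
      ((wt d.j : ℂ) * bf S n d.b (Q S d.p (eps S n c v)))
    linarith

theorem coord_le' (hS : Good S) {C : ℝ} {v : W} (h : NB S C v) (n : ℕ) (c : Bool) :
    ‖v n c‖ ≤ 3 * C :=
  coord_le hS (NB_nonneg h) (NB_iff.1 h (n + 1)) c

end Pool.Agent.W8d7136
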