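import Pool.Agent.W_MP_8d7136_h58.Bd

set_option autoImplicit false

/-!
Vectors far out are a `c₀`-sum over the cones of a fixed level.
-/

namespace Pool.Agent.W8d7136

variable {S : Sys}

/-- a cover by cones of level `L` -/
theorem exists_cover (hS : Good S) (L : ℕ) : ∃ (F : Finset ℕ) (K : ℕ),
    (∀ p ∈ F, p < K ∧ S.len p = L) ∧ ∀ i, K ≤ i → L ≤ S.len i ∧ ∃ p ∈ F, S.On p (S.s i) := by
  classical
  set ext : (Fin L → Bool) → ℕ → Bool := fun r i => if h : i < L then r ⟨i, h⟩ else false with hext
  choose p hp1 hp2 using fun r : Fin L → Bool => hS.lenall L (ext r)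
  set F : Finset ℕ := Finset.univ.image p with hF
  refine ⟨F, F.sup id + 1, ?_, ?_⟩
  · intro q hq
    obtain ⟨r, -, rfl⟩ := Finset.mem_image.1 hq
    exact ⟨Nat.lt_succ_of_le (Finset.le_sup (f := id) hq), hp1 r⟩
  · intro i hi
    have hmem : p (fun a => S.s i a) ∈ F := Finset.mem_image_of_mem _ (Finset.mem_univ _)
    have hle : p (fun a => S.s i a) ≤ F.sup id := Finset.le_sup (f := id) hmem
    refine ⟨?_, p (fun a => S.s i a), hmem, ?_⟩
    · have h1 := hS.mono (show p (fun a => S.s i a) ≤ i by omega)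
      rw [hp1] at h1
      exact h1
    · intro a ha
      rw [hp2 _ a ha]
      rw [hp1] at ha
      simp only [hext]
      rw [dif_pos ha]

theorem C0_step (hS : Good S) {K r : ℕ} (hrK : r < K) {v : W}
    (hK : ∀ i, i < K → ∀ c, v i c = 0) {B : ℝ} (hB : NB S B v) :
    ∀ n, K ≤ n → S.On r (S.s n) → ∀ c, ‖e S n c v - e S n c (Q S r v)‖ ≤ B / 2 := by
  have hB0 := NB_nonneg hB
  have hQ := NB_Q hS hB r
  have hQK : ∀ i, i < K → ∀ c, Q S r v i c = 0 := by
    intro i hi c
    rw [Bd_Q_apply, hK i hi c, ite_self]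
  intro n
  induction n using Nat.strong_induction_on with
  | _ n ih =>
    intro hKn hrn c
    have hcone : n ∈ S.cone r := ⟨by omega, hrn⟩
    have hcoord : Q S r v n c = v n c := by rw [Bd_Q_apply, if_pos hcone]
    rcases hD : S.D n with _ | d
    · rw [e_none hD, e_none hD, hcoord, sub_self, norm_zero]
      linarith
    · obtain ⟨hp, hon, -⟩ := hS.lt n d hD
      rw [e_some hS hD, e_some hS hD, hcoord]
      rcases lt_or_ge d.p K with hpK | hpK
      · have z1 : e S d.p c v = 0 := e_eq_zero hS fun i hi c' => hK i (by omega) c'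
        have z2 : e S d.p c (Q S r v) = 0 := e_eq_zero hS fun i hi c' => hQK i (by omega) c'
        rw [z1, z2]
        have h1 := Bd_piece (Bd_strong hS n) (p := d.p) (hS.b1 n d hD) hB0 (NB_iff.1 hB n) n c
        have h2 := Bd_piece (Bd_strong hS n) (p := d.p) (hS.b1 n d hD) (by linarith)
          (NB_iff.1 hQ n) n c
        have h3 : ‖bf S n d.b (Q S d.p (eps S n c v)) -
            bf S n d.b (Q S d.p (eps S n c (Q S r v)))‖ ≤ 100 * (B / 1) := by
          refine (norm_sub_le _ _).trans ?_
          linarith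
        have e1 : v n c + (if d.chi = true then (0 : ℂ) else 0) +
            (wt d.j : ℂ) * bf S n d.b (Q S d.p (eps S n c v)) -
            (v n c + (if d.chi = true then (0 : ℂ) else 0) +
              (wt d.j : ℂ) * bf S n d.b (Q S d.p (eps S n c (Q S r v)))) =
            (wt d.j : ℂ) * (bf S n d.b (Q S d.p (eps S n c v)) -
              bf S n d.b (Q S d.p (eps S n c (Q S r v)))) := by ring
        rw [e1, norm_mul, Complex.norm_real, Real.norm_eq_abs, abs_of_pos (wt_pos d.j)]
        have h4 := wt_le d.j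
        calc wt d.j * ‖bf S n d.b (Q S d.p (eps S n c v)) -
              bf S n d.b (Q S d.p (eps S n c (Q S r v)))‖
            ≤ (1 / 10 ^ 30) * (100 * (B / 1)) :=
              mul_le_mul h4 h3 (norm_nonneg _) (by positivity)
          _ ≤ B / 2 := by
              norm_num
              linarith
      · have hrp : S.On r (S.s d.p) := on_of_on hS (by omega) hrn hon
        have e1 : Q S d.p (eps S n c (Q S r v)) = Q S d.p (eps S n c v) := by
          unfold Q
          rw [Bd_eps_res, res_res, Set.inter_eq_left.2 (cone_sub hS (by omega) hrp)]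
        rw [e1]
        have e2 : v n c + (if d.chi = true then e S d.p c v else 0) +
            (wt d.j : ℂ) * bf S n d.b (Q S d.p (eps S n c v)) -
            (v n c + (if d.chi = true then e S d.p c (Q S r v) else 0) +
              (wt d.j : ℂ) * bf S n d.b (Q S d.p (eps S n c v))) =
            if d.chi = true then e S d.p c v - e S d.p c (Q S r v) else 0 := by
          split_ifs <;> ring
        rw [e2]
        exact Bd_cond (by linarith) (ih d.p hp hpK hrp c)

/-- For `n ≥ K` and `r ∈ F` with `On r (s n)` one has `‖e_n(v) - e_n(Q_r v)‖ ≤ 10⁻²⁸ B` by induction on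
`n`: the coordinate at `n` is the same; `K ≤ p`: `On r (s p)`, `Q_p v = Q_p Q_r v`, so the difference is
`χ` times the difference at `p`; `p < K`: `e_p(v) = e_p(Q_r v) = 0`, the difference is
`w bf(Q_p eps (v - Q_r v))`.  Hence `NB B v` implies `NB (C + B / 2) v`; iterate. -/
theorem c0_est (hS : Good S) {K L : ℕ} {F : Finset ℕ} (hF : ∀ p ∈ F, p < K ∧ S.len p = L)
    (hcov : ∀ i, K ≤ i → L ≤ S.len i ∧ ∃ p ∈ F, S.On p (S.s i)) {v : W}
    (hK : ∀ i, i < K → ∀ c, v i c = 0) {B : ℝ} (hB : NB S B v) {C : ℝ} (hC : 0 ≤ C)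
    (hv : ∀ p ∈ F, NB S C (Q S p v)) : NB S (2 * C) v := by
  have step : ∀ B : ℝ, NB S B v → NB S (C + B / 2) v := by
    intro B hB n c
    have hB0 := NB_nonneg hB
    rcases lt_or_ge n K with hn | hn
    · rw [e_eq_zero hS fun i hi c' => hK i (by omega) c', norm_zero]
      linarith
    · obtain ⟨-, r, hr, hrn⟩ := hcov n hn
      have h1 := C0_step hS (hF r hr).1 hK hB n hn hrn c
      have h2 := hv r hr n c
      have e1 : e S n c v = e S n c (Q S r v) + (e S n c v - e S n c (Q S r v)) := by ring
      rw [e1]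
      exact (norm_add_le _ _).trans (add_le_add h2 h1)
  have all : ∀ k : ℕ, NB S (2 * C + (B - 2 * C) * (1 / 2) ^ k) v := by
    intro k
    induction k with
    | zero =>
      have : 2 * C + (B - 2 * C) * (1 / 2) ^ 0 = B := by ring
      rw [this]
      exact hB
    | succ k ih =>
      have h1 := step _ ih
      have : C + (2 * C + (B - 2 * C) * (1 / 2) ^ k) / 2
          = 2 * C + (B - 2 * C) * (1 / 2) ^ (k + 1) := by ring
      rwa [this] at h1
  intro n c
  have hlim : Filter.Tendsto (fun k : ℕ => 2 * C + (B - 2 * C) * (1 / 2) ^ k) Filter.atTop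
      (nhds (2 * C + (B - 2 * C) * 0)) :=
    ((tendsto_pow_atTop_nhds_zero_of_lt_one (by norm_num) (by norm_num)).const_mul _).const_add _
  have := ge_of_tendsto' hlim (fun k => all k n c)
  linarith

end Pool.Agent.W8d7136
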