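import Pool.Agent.W_MP_8d7136_h58.ChainF

set_option autoImplicit false

/-!
Construction of chains of functionals which are large on the images of an operator.
-/

open Filter Topology

namespace Pool.Agent.W8d7136

/-- one step of the construction: a vector `v` and coefficients `b` -/
structure Stp (z : ℕ → Bool) (T : X →L[ℂ] X) (δ ε : ℝ) (q N : ℕ) (b : ℕ → Bool → ℂ) (v : W) :
    Prop where
  supp : Sup (q + 1) N v
  bN : ∀ i, N ≤ i → ∀ c, b i c = 0
  small : ∀ c, ‖bf S0 N b (Q S0 q (epsz z c v))‖ ≤ ε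
  big : δ ≤ (bfX N b (QX q (T (io v)))).re
  pre : ‖PX (q + 1) (T (io v))‖ ≤ ε

/-- Use `chain_seq` with `ε' = min (ε / 2) (wt j * ε / (9 a))` and
`R t q N b v n := Stp .. ε' .. ∧ Pr t q N b v ∧ N ≤ n ∧ ‖T (io v) - PX n (T (io v))‖ ≤ ε'` (given `v`, take `n`
large, `PX_tendsto`), then `chn_piece` and `chn_pieceX`, and
`PX (q0 + 1) = PX (q0 + 1) PX (q t + 1)`. -/
theorem chain_build {z : ℕ → Bool} {j a : ℕ} (ha : 1 ≤ a) (T : X →L[ℂ] X) {δ ε : ℝ} (hε : 0 < ε)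
    {q0 : ℕ} (hq0 : S0.On q0 z) (Pr : ℕ → ℕ → ℕ → (ℕ → Bool → ℂ) → W → Prop)
    (step : ∀ t, t < a → ∀ q, q0 ≤ q → S0.On q z →
      (0 < t → ∃ d, S0.D q = some d ∧ d.j = j ∧ d.age = t) → ∀ ε' : ℝ, 0 < ε' →
      ∃ (N : ℕ) (b : ℕ → Bool → ℂ) (v : W), Stp z T δ ε' q N b v ∧ Pr t q N b v ∧
        ∀ M, ∃ n, M ≤ n ∧ q < n ∧ S0.On n z ∧ S0.D n = some ⟨decide (t ≠ 0), q, j, b, t + 1⟩) :
    ∃ (q N : ℕ → ℕ) (b : ℕ → ℕ → Bool → ℂ) (v : ℕ → W), q 0 = q0 ∧ Chn z j a q b ∧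
      ∀ t, t < a → N t ≤ q (t + 1) ∧ Pr t (q t) (N t) (b t) (v t) ∧
        Sup (q t + 1) (N t) (v t) ∧ (∀ c, ‖e S0 (q a) c (v t)‖ ≤ ε) ∧
        wt j * (δ - ε) ≤ (eX (q a) false (T (io (v t)))).re ∧
        ‖PX (q0 + 1) (T (io (v t)))‖ ≤ ε := by
  classical
  have hwt0 : 0 < wt j := by
    unfold wt
    have : 0 < (mm j : ℝ) := by
      have : 0 < mm j := by unfold mm; positivity
      exact_mod_cast this
    positivity
  have hwt1 : wt j ≤ 1 := by
    unfold wt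
    have h1 : 1 ≤ mm j := by
      unfold mm
      exact Nat.one_le_two_pow
    have h2 : (1 : ℝ) ≤ (mm j : ℝ) := by exact_mod_cast h1
    rw [div_le_one (by linarith)]
    exact h2
  have ha' : (0 : ℝ) < a := by exact_mod_cast ha
  obtain ⟨ε', hε'0, hε'1, hε'2⟩ : ∃ ε' : ℝ, 0 < ε' ∧ ε' ≤ ε / 2 ∧ 9 * a * ε' ≤ wt j * ε := by
    refine ⟨min (ε / 2) (wt j * ε / (9 * a)), lt_min (by positivity) (by positivity),
      min_le_left _ _, ?_⟩
    have h1 : min (ε / 2) (wt j * ε / (9 * a)) ≤ wt j * ε / (9 * a) := min_le_right _ _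
    calc 9 * (a : ℝ) * min (ε / 2) (wt j * ε / (9 * a))
        ≤ 9 * (a : ℝ) * (wt j * ε / (9 * a)) := by gcongr
      _ = wt j * ε := by field_simp
  obtain ⟨q, N, b, v, hq, hch, hR⟩ := chain_seq (z := z) (j := j) (a := a) hq0
    (fun t q N b v n => Stp z T δ ε' q N b v ∧ Pr t q N b v ∧ N ≤ n ∧
      ‖T (io v) - PX n (T (io v))‖ ≤ ε') (by
      intro t ht q hqq hon hd
      obtain ⟨N, b, v, h1, h2, h3⟩ := step t ht q hqq hon hd ε' hε'0
      have h4 := (PX_tendsto (T (io v))).eventually (Metric.ball_mem_nhds _ hε'0)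
      obtain ⟨M, hM⟩ := eventually_atTop.mp h4
      obtain ⟨n, hn1, hn2, hn3, hn4⟩ := h3 (max M N)
      refine ⟨N, b, v, n, hn2, hn3, hn4, h1, h2, (le_max_right _ _).trans hn1, ?_⟩
      have h5 : dist (PX n (T (io v))) (T (io v)) < ε' := hM n ((le_max_left _ _).trans hn1)
      rw [dist_comm, dist_eq_norm] at h5
      exact h5.le)
  refine ⟨q, N, b, v, hq, hch, fun t ht => ?_⟩
  obtain ⟨h1, h2, h3, h4⟩ := hR t ht
  have hqt : ∀ s, s ≤ a → q0 ≤ q s := by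
    intro s
    induction s with
    | zero => intro _; rw [hq]
    | succ s ih =>
      intro hs
      exact (ih (by omega)).trans (hch.lt s (by omega)).le
  refine ⟨h3, h2, h1.supp, fun c => ?_, ?_, ?_⟩
  · rw [chn_piece hch ht h3 h1.bN h1.supp c, norm_mul, Complex.norm_real, Real.norm_eq_abs,
      abs_of_pos hwt0]
    have h5 := h1.small c
    calc wt j * ‖bf S0 (N t) (b t) (Q S0 (q t) (epsz z c (v t)))‖ ≤ 1 * ε' := by
          gcongr
      _ ≤ ε := by linarith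
  · have h5 := chn_pieceX hch ht h3 h1.bN h1.pre h4
    have h6 := (Complex.abs_re_le_norm _).trans (h5.trans hε'2)
    rw [Complex.sub_re, Complex.re_ofReal_mul] at h6
    have h7 := (abs_le.mp h6).1
    have h8 : wt j * δ ≤ wt j * (bfX (N t) (b t) (QX (q t) (T (io (v t))))).re :=
      mul_le_mul_of_nonneg_left h1.big hwt0.le
    rw [mul_sub]
    linarith
  · have h5 : PX (q0 + 1) (T (io (v t))) = PX (q0 + 1) (PX (q t + 1) (T (io (v t)))) := by
      rw [PX_PX, min_eq_left (by have := hqt t ht.le; omega)]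
    rw [h5]
    have h6 := PX_le (PX (q t + 1) (T (io (v t)))) (q0 + 1)
    have h7 := h1.pre
    linarith

end Pool.Agent.W8d7136
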