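import Pool.Agent.W_MP_8d7136_h58.XOps

set_option autoImplicit false

/-!
Chains of functionals along a branch: formulas and estimates.
-/

open Filter Topology

namespace Pool.Agent.W8d7136

/-- the restriction to the branch or the identity -/
noncomputable def epsz (z : ℕ → Bool) (c : Bool) : W →ₗ[ℂ] W := if c then E S0 z else LinearMap.id

theorem Mult_epsz (z : ℕ → Bool) (c : Bool) : Mult S0 (epsz z c) := by
  unfold epsz
  split_ifs
  · exact Mult_E S0 _
  · exact Mult_id S0

/-- `a` consecutive functionals of weight `j` along `z`, starting from the (arbitrary) index `q 0` -/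
structure Chn (z : ℕ → Bool) (j a : ℕ) (q : ℕ → ℕ) (b : ℕ → ℕ → Bool → ℂ) : Prop where
  on : ∀ t, t ≤ a → S0.On (q t) z
  lt : ∀ t, t < a → q t < q (t + 1)
  dat : ∀ t, t < a → S0.D (q (t + 1)) = some ⟨decide (t ≠ 0), q t, j, b t, t + 1⟩

variable {z : ℕ → Bool} {j a : ℕ} {q : ℕ → ℕ} {b : ℕ → ℕ → Bool → ℂ}

/-- the indices of a chain increase -/
theorem ChainF_mono (h : Chn z j a q b) {s t : ℕ} (hst : s ≤ t) (ht : t ≤ a) : q s ≤ q t := by
  induction t with
  | zero =>
    have : s = 0 := by omega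
    rw [this]
  | succ t ih =>
    rcases Nat.lt_or_ge t s with h1 | h1
    · have : s = t + 1 := by omega
      rw [this]
    · exact (ih h1 (by omega)).trans (h.lt t (by omega)).le

theorem ChainF_eps {n : ℕ} (hn : S0.On n z) (c : Bool) (v : W) {i : ℕ} (hi : i ≤ n) (c' : Bool) :
    eps S0 n c v i c' = epsz z c v i c' := by
  unfold eps epsz
  cases c
  · rfl
  · simp only [if_true]
    exact E_congr hS0 hn v hi c'

theorem ChainF_bf {n p : ℕ} (hn : S0.On n z) (β : ℕ → Bool → ℂ) (c : Bool) (v : W) :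
    bf S0 n β (Q S0 p (eps S0 n c v)) = bf S0 n β (Q S0 p (epsz z c v)) :=
  bf_congr hS0 fun _ hi c' => eb_Q_congr p (fun c'' => ChainF_eps hn c v hi.le c'') c'

/-- By induction on `l` from `e_some`; `eps (q l) c` may be replaced by `epsz z c` because only coordinates
`≤ q l` matter and `q l` is on `z` (`E_congr`, `bf_congr`, `Q`). -/
theorem chn_formula (h : Chn z j a q b) {l : ℕ} (h1 : 1 ≤ l) (hl : l ≤ a) (c : Bool) (v : W) :
    e S0 (q l) c v = ∑ t ∈ Finset.range l, (v (q (t + 1)) c +
      (wt j : ℂ) * bf S0 (q (t + 1)) (b t) (Q S0 (q t) (epsz z c v))) := by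
  have key : ∀ l : ℕ, l ≤ a → (if l ≠ 0 then e S0 (q l) c v else 0) =
      ∑ t ∈ Finset.range l, (v (q (t + 1)) c +
        (wt j : ℂ) * bf S0 (q (t + 1)) (b t) (Q S0 (q t) (epsz z c v))) := by
    intro l
    induction l with
    | zero => intro _; simp
    | succ l ih =>
      intro hla
      have hD := h.dat l (by omega)
      rw [if_pos (Nat.succ_ne_zero l), Finset.sum_range_succ, ← ih (by omega), e_some hS0 hD]
      simp only [decide_eq_true_eq]
      rw [ChainF_bf (h.on (l + 1) hla)]
      ring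
  have h2 := key l hl
  rwa [if_pos (by omega)] at h2

/-- by density (`eq_of_io`) -/
theorem chn_formulaX (h : Chn z j a q b) (h1 : 1 ≤ a) (u : X) :
    eX (q a) false u = ∑ t ∈ Finset.range a, (cX (q (t + 1)) false u +
      (wt j : ℂ) * bfX (q (t + 1)) (b t) (QX (q t) u)) := by
  have key := XOps_eq (eX (q a) false) (∑ t ∈ Finset.range a, (cX (q (t + 1)) false +
    (wt j : ℂ) • (bfX (q (t + 1)) (b t)).comp (QX (q t)))) (fun v hv => by
      rw [eX_io hv, chn_formula h h1 le_rfl, ContinuousLinearMap.sum_apply]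
      refine Finset.sum_congr rfl fun t _ => ?_
      rw [ContinuousLinearMap.add_apply, ContinuousLinearMap.smul_apply,
        ContinuousLinearMap.comp_apply, cX_io hv, QX_io hv,
        bfX_io (Fs_Mult (Mult_Q S0 (q t)) hv), smul_eq_mul]
      rfl) u
  rw [key, ContinuousLinearMap.sum_apply]
  rfl

/-- the functionals of the chain only see the cone of `q 0` (all indices of the chain are in this cone,
`Q_Q`) -/
theorem chn_Q (h : Chn z j a q b) (h1 : 1 ≤ a) (v : W) :
    e S0 (q a) false (Q S0 (q 0) v) = e S0 (q a) false v := by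
  rw [chn_formula h h1 le_rfl, chn_formula h h1 le_rfl]
  refine Finset.sum_congr rfl fun t ht => ?_
  rw [Finset.mem_range] at ht
  have h2 : q 0 ≤ q t := ChainF_mono h (Nat.zero_le t) ht.le
  have h3 : q t < q (t + 1) := h.lt t ht
  have h4 : q (t + 1) ∈ S0.cone (q 0) :=
    ⟨by omega, on_of_on hS0 (by omega) (h.on 0 (Nat.zero_le a)) (h.on (t + 1) ht)⟩
  have h5 : Q S0 (q 0) v (q (t + 1)) false = v (q (t + 1)) false := by
    rw [Bd_Q_apply, if_pos h4]
  have h6 : ∀ v : W, epsz z false v = v := fun v => rfl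
  rw [h5, h6, h6, (Q_Q hS0 h2 (on_of_on hS0 h2 (h.on 0 (Nat.zero_le a)) (h.on t ht.le)) v).2]

/-- all other terms of the formula vanish -/
theorem chn_piece (h : Chn z j a q b) {t : ℕ} (ht : t < a) {N : ℕ} (hN : N ≤ q (t + 1))
    (hb : ∀ i, N ≤ i → ∀ c, b t i c = 0) {v : W} (hv : Sup (q t + 1) N v) (c : Bool) :
    e S0 (q a) c v = (wt j : ℂ) * bf S0 N (b t) (Q S0 (q t) (epsz z c v)) := by
  have hv' : Sup (q t + 1) N (epsz z c v) := Sup_Mult (Mult_epsz z c) hv
  rw [chn_formula h (by omega) le_rfl, Finset.sum_eq_single t]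
  · rw [hv (q (t + 1)) (Or.inr hN) c, zero_add, bf_eq hN hb]
  · intro s hs hst
    rw [Finset.mem_range] at hs
    rcases Nat.lt_or_gt_of_ne hst with h1 | h1
    · have h2 : q (s + 1) ≤ q t := ChainF_mono h (by omega) ht.le
      rw [hv (q (s + 1)) (Or.inl (by omega)) c, zero_add, bf_eq_zero hS0, mul_zero]
      intro i hi c'
      rw [Bd_Q_apply, hv' i (Or.inl (by omega)) c', ite_self]
    · have h2 : q (t + 1) ≤ q s := ChainF_mono h (by omega) hs.le
      have h3 : q s < q (s + 1) := h.lt s hs
      rw [hv (q (s + 1)) (Or.inr (by omega)) c, zero_add, bf_eq_zero hS0, mul_zero]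
      intro i hi c'
      rcases Nat.lt_or_ge (q s) i with h4 | h4
      · rw [Bd_Q_apply, hv' i (Or.inr (by omega)) c', ite_self]
      · exact Bd_Q_small h4 _ _
  · intro h1
    exact absurd (Finset.mem_range.2 ht) h1

/-- In `chn_formulaX` the terms `s < t` depend on `PX (q t + 1) u` only (`cX_PX`, `bfX_PX`, `QX_PX`), the
coordinate terms `s ≥ t` and the pieces `s > t` on `u - PX (q (t + 1)) u` (`cX_PX_zero`, `QX_PX_zero`), the
piece `s = t` is the main term (`bfX_eq`).  All others are at most `3 ε + 6 ε` (`Good.b1`, `wt_le`). -/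
theorem chn_pieceX (h : Chn z j a q b) {t : ℕ} (ht : t < a) {N : ℕ} (hN : N ≤ q (t + 1))
    (hb : ∀ i, N ≤ i → ∀ c, b t i c = 0) {u : X} {ε : ℝ} (h1 : ‖PX (q t + 1) u‖ ≤ ε)
    (h2 : ‖u - PX (q (t + 1)) u‖ ≤ ε) :
    ‖eX (q a) false u - (wt j : ℂ) * bfX N (b t) (QX (q t) u)‖ ≤ 9 * a * ε := by
  have hε : 0 ≤ ε := (norm_nonneg _).trans h1
  have hta : t ∈ Finset.range a := Finset.mem_range.2 ht
  -- coordinates
  have hc : ∀ s, s < a → ‖cX (q (s + 1)) false u‖ ≤ 3 * ε := by
    intro s hs
    rcases Nat.lt_or_ge s t with h3 | h3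
    · have h4 : q (s + 1) ≤ q t := ChainF_mono h (by omega) ht.le
      rw [← cX_PX u (k := q t + 1) (by omega)]
      exact (cX_le _ _ _).trans (by linarith)
    · have h4 : q (t + 1) ≤ q (s + 1) := ChainF_mono h (by omega) hs
      have h5 : cX (q (s + 1)) false u = cX (q (s + 1)) false (u - PX (q (t + 1)) u) := by
        rw [map_sub, cX_PX_zero u h4, sub_zero]
      rw [h5]
      exact (cX_le _ _ _).trans (by linarith)
  -- pieces
  have hb1 : ∀ s, s < a → ∀ u' : X, ‖u'‖ ≤ ε →
      ‖(wt j : ℂ) * bfX (q (s + 1)) (b s) (QX (q s) u')‖ ≤ 6 * ε := by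
    intro s hs u' hu'
    have h3 := hS0.b1 _ _ (h.dat s hs)
    have h4 : ‖bfX (q (s + 1)) (b s) (QX (q s) u')‖ ≤ 6 * ε := by
      have h5 := bfX_le (QX (q s) u') h3
      have h6 := QX_le u' (q s)
      linarith
    rw [norm_mul, Complex.norm_real, Real.norm_eq_abs, abs_of_pos (wt_pos j)]
    have h7 : wt j ≤ 1 := (wt_le j).trans (by norm_num)
    calc wt j * ‖bfX (q (s + 1)) (b s) (QX (q s) u')‖ ≤ 1 * (6 * ε) :=
          mul_le_mul h7 h4 (norm_nonneg _) zero_le_one
      _ = 6 * ε := one_mul _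
  have hp : ∀ s, s < a → s ≠ t → ‖(wt j : ℂ) * bfX (q (s + 1)) (b s) (QX (q s) u)‖ ≤ 6 * ε := by
    intro s hs hst
    rcases Nat.lt_or_gt_of_ne hst with h3 | h3
    · have h4 : q (s + 1) ≤ q t := ChainF_mono h (by omega) ht.le
      rw [← bfX_PX (QX (q s) u) (q (s + 1)) (b s) (k := q t + 1) (by omega), ← QX_PX]
      exact hb1 s hs _ h1
    · have h4 : q (t + 1) ≤ q s := ChainF_mono h (by omega) hs.le
      have h5 : QX (q s) u = QX (q s) (u - PX (q (t + 1)) u) := by
        rw [map_sub, QX_PX_zero u (by omega), sub_zero]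
      rw [h5]
      exact hb1 s hs _ h2
  have hmain : bfX (q (t + 1)) (b t) (QX (q t) u) = bfX N (b t) (QX (q t) u) :=
    bfX_eq _ hN hb
  rw [chn_formulaX h (by omega) u, ← hmain, ← Finset.add_sum_erase _ _ hta]
  have e1 : cX (q (t + 1)) false u + (wt j : ℂ) * bfX (q (t + 1)) (b t) (QX (q t) u) +
      ∑ s ∈ (Finset.range a).erase t, (cX (q (s + 1)) false u +
        (wt j : ℂ) * bfX (q (s + 1)) (b s) (QX (q s) u)) -
      (wt j : ℂ) * bfX (q (t + 1)) (b t) (QX (q t) u) =
      cX (q (t + 1)) false u + ∑ s ∈ (Finset.range a).erase t, (cX (q (s + 1)) false u +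
        (wt j : ℂ) * bfX (q (s + 1)) (b s) (QX (q s) u)) := by ring
  rw [e1]
  have e2 : ‖∑ s ∈ (Finset.range a).erase t, (cX (q (s + 1)) false u +
        (wt j : ℂ) * bfX (q (s + 1)) (b s) (QX (q s) u))‖ ≤
      ∑ s ∈ (Finset.range a).erase t, 9 * ε := by
    refine (norm_sum_le _ _).trans (Finset.sum_le_sum fun s hs => ?_)
    obtain ⟨h3, h4⟩ := Finset.mem_erase.1 hs
    rw [Finset.mem_range] at h4
    refine (norm_add_le _ _).trans ?_
    have h5 := hc s h4
    have h6 := hp s h4 h3
    linarith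
  have e3 : (((Finset.range a).erase t).card : ℝ) = a - 1 := by
    rw [Finset.card_erase_of_mem hta, Finset.card_range, Nat.cast_sub (by omega), Nat.cast_one]
  rw [Finset.sum_const, nsmul_eq_mul, e3] at e2
  refine (norm_add_le _ _).trans ?_
  have h5 := hc t ht
  linarith

/-- recursive construction of a chain -/
theorem chain_seq {q0 : ℕ} (hq0 : S0.On q0 z)
    (R : ℕ → ℕ → ℕ → (ℕ → Bool → ℂ) → W → ℕ → Prop)
    (step : ∀ t, t < a → ∀ q, q0 ≤ q → S0.On q z →
      (0 < t → ∃ d, S0.D q = some d ∧ d.j = j ∧ d.age = t) →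
      ∃ (N : ℕ) (b : ℕ → Bool → ℂ) (v : W) (n : ℕ), q < n ∧ S0.On n z ∧
        S0.D n = some ⟨decide (t ≠ 0), q, j, b, t + 1⟩ ∧ R t q N b v n) :
    ∃ (q N : ℕ → ℕ) (b : ℕ → ℕ → Bool → ℂ) (v : ℕ → W), q 0 = q0 ∧ Chn z j a q b ∧
      ∀ t, t < a → R t (q t) (N t) (b t) (v t) (q (t + 1)) := by
  have key : ∀ l, l ≤ a → ∃ (q N : ℕ → ℕ) (b : ℕ → ℕ → Bool → ℂ) (v : ℕ → W), q 0 = q0 ∧
      Chn z j l q b ∧ ∀ t, t < l → R t (q t) (N t) (b t) (v t) (q (t + 1)) := by
    intro l
    induction l with
    | zero =>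
      intro _
      refine ⟨fun _ => q0, fun _ => 0, fun _ _ _ => 0, fun _ => 0, rfl, ⟨fun t _ => hq0,
        fun t ht => absurd ht (Nat.not_lt_zero t), fun t ht => absurd ht (Nat.not_lt_zero t)⟩,
        fun t ht => absurd ht (Nat.not_lt_zero t)⟩
    | succ l ih =>
      intro hl
      obtain ⟨q, N, b, v, hq, hch, hR⟩ := ih (by omega)
      obtain ⟨N', b', v', n, hn1, hn2, hn3, hn4⟩ := step l (by omega) (q l)
        (by rw [← hq]; exact ChainF_mono hch (Nat.zero_le l) le_rfl) (hch.on l le_rfl)
        (by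
          intro h0
          obtain ⟨m, rfl⟩ : ∃ m, l = m + 1 := ⟨l - 1, by omega⟩
          exact ⟨_, hch.dat m (by omega), rfl, rfl⟩)
      refine ⟨Function.update q (l + 1) n, Function.update N l N', Function.update b l b',
        Function.update v l v', ?_, ⟨?_, ?_, ?_⟩, ?_⟩
      · rw [Function.update_of_ne (by omega)]
        exact hq
      · intro t ht
        rcases Nat.lt_or_ge l t with h1 | h1
        · have : t = l + 1 := by omega
          rw [this, Function.update_self]
          exact hn2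
        · rw [Function.update_of_ne (by omega)]
          exact hch.on t h1
      · intro t ht
        rw [Function.update_of_ne (show t ≠ l + 1 by omega)]
        rcases Nat.lt_or_ge t l with h1 | h1
        · rw [Function.update_of_ne (by omega)]
          exact hch.lt t h1
        · have : t = l := by omega
          rw [this, Function.update_self]
          exact hn1
      · intro t ht
        rw [Function.update_of_ne (show t ≠ l + 1 by omega)]
        rcases Nat.lt_or_ge t l with h1 | h1
        · rw [Function.update_of_ne (by omega), Function.update_of_ne (by omega)]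
          exact hch.dat t h1
        · have : t = l := by omega
          rw [this, Function.update_self, Function.update_self]
          exact hn3
      · intro t ht
        rw [Function.update_of_ne (show t ≠ l + 1 by omega)]
        rcases Nat.lt_or_ge t l with h1 | h1
        · rw [Function.update_of_ne (show t + 1 ≠ l + 1 by omega),
            Function.update_of_ne (show t ≠ l by omega), Function.update_of_ne (show t ≠ l by omega),
            Function.update_of_ne (show t ≠ l by omega)]
          exact hR t h1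
        · have : t = l := by omega
          rw [this, Function.update_self, Function.update_self, Function.update_self,
            Function.update_self]
          exact hn4
  exact key a le_rfl

end Pool.Agent.W8d7136
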