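import Pool.Agent.W_MP_8d7136_h58.Wgt

set_option autoImplicit false

/-!
The counting lemma.
-/

namespace Pool.Agent.W8d7136

variable {S : Sys}

theorem Count_wt (h : ℕ) : wt h = 1 / 2 ^ tt h := by
  unfold wt
  rw [mm_eq]
  push_cast
  rfl

theorem Count_tt_mono {h j : ℕ} (h1 : tt h < tt j) : h < j := by
  by_contra hcon
  have h2 : j ≤ h := not_lt.1 hcon
  have h3 : 2 ^ j ≤ 2 ^ h := Nat.pow_le_pow_right (by norm_num) h2
  unfold tt at h1
  omega

theorem Count_tt_ge (h : ℕ) : 100 ≤ tt h := by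
  unfold tt
  have : 1 ≤ 2 ^ h := Nat.one_le_two_pow
  omega

/-- at most one interval contains a given point -/
theorem Count_card {C : ℝ} {K : ℕ} {lo hi J : ℕ → ℕ} {x : ℕ → W} (hx : RISf S C K lo hi J x)
    {F : Finset ℕ} (hF : F ⊆ Finset.range K) (q : ℕ) :
    (F.filter fun k => lo k ≤ q ∧ q < hi k).card ≤ 1 := by
  rw [Finset.card_le_one]
  intro a ha b hb
  obtain ⟨ha1, ha2, ha3⟩ := Finset.mem_filter.1 ha
  obtain ⟨hb1, hb2, hb3⟩ := Finset.mem_filter.1 hb
  have haK := Finset.mem_range.1 (hF ha1)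
  have hbK := Finset.mem_range.1 (hF hb1)
  rcases lt_trichotomy a b with h | h | h
  · have := Wgt_hilo hx h hbK
    omega
  · exact h
  · have := Wgt_hilo hx h haK
    omega

theorem Count_exc {C : ℝ} (hC : 0 ≤ C) {K : ℕ} {lo hi J : ℕ → ℕ} {x : ℕ → W}
    (hx : RISf S C K lo hi J x) {F : Finset ℕ} (hF : F ⊆ Finset.range K) (q : ℕ) :
    ∑ k ∈ F, (if lo k ≤ q ∧ q < hi k then 48 * C else 0) ≤ 48 * C := by
  rw [← Finset.sum_filter, Finset.sum_const, nsmul_eq_mul]
  have h1 : ((F.filter fun k => lo k ≤ q ∧ q < hi k).card : ℝ) ≤ 1 := by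
    exact_mod_cast Count_card hx hF q
  nlinarith

/-- the value on blocks before `p` -/
theorem Count_low (hS : Good S) {n : ℕ} {d : Dat} (hD : S.D n = some d) {v : W}
    (hv : ∀ i, d.p < i → ∀ c, v i c = 0) (c : Bool) :
    e S n c v = if d.chi = true then e S d.p c v else 0 := by
  have hp := (hS.lt n d hD).1
  rw [e_some hS hD c v, hv n hp c, zero_add]
  have h0 : bf S n d.b (Q S d.p (eps S n c v)) = 0 := by
    refine bf_eq_zero hS fun i _ c' => ?_
    rw [Bd_Q_apply]
    split_ifs with hi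
    · exact Mult_supp (Mult_eps S n c) (fun c'' => hv i hi.1 c'') c'
    · rfl
  rw [h0, mul_zero, add_zero]

/-- the value on blocks between `p` and `n` -/
theorem Count_mid (hS : Good S) {n : ℕ} {d : Dat} (hD : S.D n = some d) {v : W}
    (hv : ∀ i, i ≤ d.p → ∀ c, v i c = 0) (hn : ∀ c, v n c = 0) (c : Bool) :
    e S n c v = (wt d.j : ℂ) * bf S n d.b (Q S d.p (eps S n c v)) := by
  rw [e_some hS hD c v, hn c, zero_add, e_eq_zero hS hv]
  simp

/-- interchange of sums -/
theorem Count_swap (n : ℕ) (b : ℕ → Bool → ℂ)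
    (hb : ∑ i ∈ Finset.range n, ∑ c : Bool, ‖b i c‖ ≤ 1) (F : Finset ℕ) (y : ℕ → W) {M : ℝ}
    (hM : 0 ≤ M) (h : ∀ i, i < n → ∀ c, ∑ k ∈ F, ‖e S i c (y k)‖ ≤ M) :
    ∑ k ∈ F, ‖bf S n b (y k)‖ ≤ M := by
  calc ∑ k ∈ F, ‖bf S n b (y k)‖
      ≤ ∑ k ∈ F, ∑ i ∈ Finset.range n, ∑ c : Bool, ‖b i c‖ * ‖e S i c (y k)‖ := by
        refine Finset.sum_le_sum fun k _ => ?_
        rw [bf_apply]
        refine (norm_sum_le _ _).trans (Finset.sum_le_sum fun i _ => ?_)
        refine (norm_sum_le _ _).trans (Finset.sum_le_sum fun c _ => ?_)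
        rw [norm_mul]
    _ = ∑ i ∈ Finset.range n, ∑ c : Bool, ‖b i c‖ * ∑ k ∈ F, ‖e S i c (y k)‖ := by
        rw [Finset.sum_comm]
        refine Finset.sum_congr rfl fun i _ => ?_
        rw [Finset.sum_comm]
        refine Finset.sum_congr rfl fun c _ => ?_
        rw [Finset.mul_sum]
    _ ≤ ∑ i ∈ Finset.range n, ∑ c : Bool, ‖b i c‖ * M := by
        refine Finset.sum_le_sum fun i hi => Finset.sum_le_sum fun c _ => ?_
        exact mul_le_mul_of_nonneg_left (h i (Finset.mem_range.1 hi) c) (norm_nonneg _)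
    _ = (∑ i ∈ Finset.range n, ∑ c : Bool, ‖b i c‖) * M := by
        rw [Finset.sum_mul]
        refine Finset.sum_congr rfl fun i _ => ?_
        rw [Finset.sum_mul]
    _ ≤ 1 * M := mul_le_mul_of_nonneg_right hb hM
    _ = M := one_mul M

/-- the step for statement (B) -/
theorem Count_B (hS : Good S) {C : ℝ} (hC : 0 ≤ C) {K : ℕ} {lo hi J : ℕ → ℕ} {x : ℕ → W}
    (hx : RISf S C K lo hi J x) {n : ℕ} {d : Dat} (hD : S.D n = some d) {c : Bool}
    {m : W →ₗ[ℂ] W} (hm : Mult S m) {F : Finset ℕ} (hF : F ⊆ Finset.range K) :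
    ∃ F1 F2 : Finset ℕ, F1 ⊆ F ∧ F2 ⊆ F ∧ F1.card + F2.card ≤ F.card ∧
      ∑ k ∈ F, ‖e S n c (m (x k))‖ ≤
        (if d.chi = true then ∑ k ∈ F1, ‖e S d.p c (m (x k))‖ else 0) +
          wt d.j * ∑ k ∈ F2, ‖bf S n d.b (((Q S d.p).comp ((eps S n c).comp m)) (x k))‖ +
          96 * C := by
  have hp := (hS.lt n d hD).1
  have hnb : ∀ k ∈ F, ‖e S n c (m (x k))‖ ≤ 48 * C := fun k hk =>
    NB_Mult hS (hx.blk k (Finset.mem_range.1 (hF hk))).nb hm n c
  refine ⟨F.filter fun k => hi k ≤ d.p, F.filter fun k => d.p < lo k ∧ hi k ≤ n,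
    Finset.filter_subset _ _, Finset.filter_subset _ _, ?_, ?_⟩
  · rw [← Finset.card_union_of_disjoint]
    · exact Finset.card_le_card (Finset.union_subset (Finset.filter_subset _ _)
        (Finset.filter_subset _ _))
    · rw [Finset.disjoint_left]
      intro k h1 h2
      obtain ⟨h3, h4⟩ := Finset.mem_filter.1 h1
      obtain ⟨-, h5, h6⟩ := Finset.mem_filter.1 h2
      have := hx.lohi k (Finset.mem_range.1 (hF h3))
      omega
  · have hlow : ∀ k ∈ F, hi k ≤ d.p → ‖e S n c (m (x k))‖ =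
        if d.chi = true then ‖e S d.p c (m (x k))‖ else 0 := by
      intro k hk hkp
      have hb := hx.blk k (Finset.mem_range.1 (hF hk))
      rw [Count_low hS hD (fun i hi' c' => Sup_Mult hm hb.supp i (Or.inr (by omega)) c') c]
      split_ifs
      · rfl
      · exact norm_zero
    have hmid : ∀ k ∈ F, d.p < lo k ∧ hi k ≤ n → ‖e S n c (m (x k))‖ =
        wt d.j * ‖bf S n d.b (((Q S d.p).comp ((eps S n c).comp m)) (x k))‖ := by
      intro k hk hkp
      have hb := hx.blk k (Finset.mem_range.1 (hF hk))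
      rw [Count_mid hS hD (fun i hi' c' => Sup_Mult hm hb.supp i (Or.inl (by omega)) c')
        (fun c' => Sup_Mult hm hb.supp n (Or.inr (by omega)) c') c, norm_mul]
      congr 1
      rw [Complex.norm_real, Real.norm_of_nonneg (wt_pos d.j).le]
    have hzero : ∀ k ∈ F, n < lo k → ‖e S n c (m (x k))‖ = 0 := by
      intro k hk hkp
      have hb := hx.blk k (Finset.mem_range.1 (hF hk))
      rw [e_eq_zero hS (fun i hi' c' => Sup_Mult hm hb.supp i (Or.inl (by omega)) c'), norm_zero]
    have hpt : ∀ k ∈ F, ‖e S n c (m (x k))‖ ≤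
        (if hi k ≤ d.p then (if d.chi = true then ‖e S d.p c (m (x k))‖ else 0) else 0) +
        (if d.p < lo k ∧ hi k ≤ n then
          wt d.j * ‖bf S n d.b (((Q S d.p).comp ((eps S n c).comp m)) (x k))‖ else 0) +
        ((if lo k ≤ d.p ∧ d.p < hi k then 48 * C else 0) +
          (if lo k ≤ n ∧ n < hi k then 48 * C else 0)) := by
      intro k hk
      have hlh := hx.lohi k (Finset.mem_range.1 (hF hk))
      have hw := wt_pos d.j
      by_cases h1 : hi k ≤ d.p
      · have h2 : ¬ (d.p < lo k ∧ hi k ≤ n) := by omega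
        have h3 : ¬ (lo k ≤ d.p ∧ d.p < hi k) := by omega
        have h4 : ¬ (lo k ≤ n ∧ n < hi k) := by omega
        rw [if_pos h1, if_neg h2, if_neg h3, if_neg h4, hlow k hk h1]
        linarith
      · by_cases h2 : d.p < lo k ∧ hi k ≤ n
        · have h3 : ¬ (lo k ≤ d.p ∧ d.p < hi k) := by omega
          have h4 : ¬ (lo k ≤ n ∧ n < hi k) := by omega
          rw [if_neg h1, if_pos h2, if_neg h3, if_neg h4, hmid k hk h2]
          linarith
        · rw [if_neg h1, if_neg h2]
          have h5 := hnb k hk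
          by_cases h3 : lo k ≤ d.p ∧ d.p < hi k
          · rw [if_pos h3]
            have h6 : (0 : ℝ) ≤ if lo k ≤ n ∧ n < hi k then 48 * C else 0 := by
              split_ifs
              · linarith
              · exact le_rfl
            linarith
          · by_cases h4 : lo k ≤ n ∧ n < hi k
            · rw [if_neg h3, if_pos h4]
              linarith
            · rw [if_neg h3, if_neg h4, hzero k hk (by omega)]
              norm_num
    refine (Finset.sum_le_sum hpt).trans ?_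
    rw [Finset.sum_add_distrib, Finset.sum_add_distrib, Finset.sum_add_distrib]
    have h1 := Count_exc hC hx hF d.p
    have h2 := Count_exc hC hx hF n
    have h3 : (∑ k ∈ F, if hi k ≤ d.p then
        (if d.chi = true then ‖e S d.p c (m (x k))‖ else 0) else 0) =
        if d.chi = true then ∑ k ∈ F.filter (fun k => hi k ≤ d.p), ‖e S d.p c (m (x k))‖ else 0 := by
      by_cases hchi : d.chi = true
      · simp only [if_pos hchi]
        rw [Finset.sum_filter]
      · simp only [if_neg hchi, ite_self, Finset.sum_const_zero]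
    have h4 : (∑ k ∈ F, if d.p < lo k ∧ hi k ≤ n then
        wt d.j * ‖bf S n d.b (((Q S d.p).comp ((eps S n c).comp m)) (x k))‖ else 0) =
        wt d.j * ∑ k ∈ F.filter (fun k => d.p < lo k ∧ hi k ≤ n),
          ‖bf S n d.b (((Q S d.p).comp ((eps S n c).comp m)) (x k))‖ := by
      rw [Finset.sum_filter, Finset.mul_sum]
      refine Finset.sum_congr rfl fun k _ => ?_
      split_ifs
      · rfl
      · exact (mul_zero _).symm
    rw [h3, h4]
    linarith

/-- The two statements are proved together by strong induction on `n`.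
(B) for `n` of weight `h` (any `h`), with age `a`: the sum over `F` splits into the `k` with `hi k ≤ p`
(where `e_n(m x_k) = χ e_p(m x_k)`; induction for `p`, age `a - 1`; zero if `χ = 0`), at most two `k` whose
interval `[lo k, hi k)` contains `p` or `n` (each at most `48 C`), the `k` with `p < lo k`, `hi k ≤ n` (where
`e_n(m x_k) = w_h bf(Q_p eps m x_k)`; statement (A) for the indices `i < n` and the multiplier
`Q_p eps m`, and `∑ ‖b‖ ≤ 1`), and the `k` with `n < lo k` (zero).
(A) `n` seed: `seed_exc`.  `n` of weight `h`, `t ≤ tt h`: `one_exc` (`wt h ≤ 1 / 2 ^ t`).  `tt h < t`: then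
`h < j₀`, statement (B) with `t - tt h` and `age ≤ nn h ≤ nn (j₀ - 1)`. -/
theorem count_all (hS : Good S) {C : ℝ} (hC : 0 ≤ C) {K : ℕ} {lo hi J : ℕ → ℕ} {x : ℕ → W}
    (hx : RISf S C K lo hi J x) {j₀ : ℕ} (hj : 1 ≤ j₀) (n : ℕ) :
    (∀ t, t ≤ tt j₀ → ∀ c m, Mult S m → ∀ F : Finset ℕ, F ⊆ Finset.range K →
      ∑ k ∈ F, ‖e S n c (m (x k))‖ ≤
        10 ^ 8 * C * (F.card / 2 ^ t + (2 * nn (j₀ - 1)) ^ t)) ∧
    (∀ d, S.D n = some d → ∀ t, t ≤ tt j₀ → ∀ c m, Mult S m → ∀ F : Finset ℕ,
      F ⊆ Finset.range K → ∑ k ∈ F, ‖e S n c (m (x k))‖ ≤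
        10 ^ 8 * C * wt d.j * (F.card / 2 ^ t) +
          d.age * (96 * C + 10 ^ 8 * C * wt d.j * (2 * nn (j₀ - 1)) ^ t)) := by
  have hN1 : (1 : ℝ) ≤ nn (j₀ - 1) := by exact_mod_cast nn_pos (j₀ - 1)
  obtain ⟨N, hNdef⟩ : ∃ N : ℝ, N = nn (j₀ - 1) := ⟨_, rfl⟩
  rw [← hNdef] at hN1 ⊢
  have hN2 : (1 : ℝ) ≤ 2 * N := by linarith
  have hNp : ∀ t : ℕ, (1 : ℝ) ≤ (2 * N) ^ t := fun t => one_le_pow₀ hN2
  induction n using Nat.strong_induction_on with
  | _ n ih =>
    -- statement (B)
    have hBst : ∀ d, S.D n = some d → ∀ t, t ≤ tt j₀ → ∀ c m, Mult S m → ∀ F : Finset ℕ,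
        F ⊆ Finset.range K → ∑ k ∈ F, ‖e S n c (m (x k))‖ ≤
        10 ^ 8 * C * wt d.j * (F.card / 2 ^ t) +
          d.age * (96 * C + 10 ^ 8 * C * wt d.j * (2 * N) ^ t) := by
      intro d hd t ht c m hm F hF
      obtain ⟨hp, -, -⟩ := hS.lt n d hd
      have hw0 := (wt_pos d.j).le
      have hCw : 0 ≤ C * wt d.j := mul_nonneg hC hw0
      have h2t : (0 : ℝ) < 2 ^ t := by positivity
      obtain ⟨F1, F2, hF1, hF2, hcard, hsum⟩ := Count_B hS hC hx hd (c := c) hm hF
      have hcard' : (F1.card : ℝ) + F2.card ≤ F.card := by exact_mod_cast hcard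
      have hcd : (F1.card : ℝ) / 2 ^ t + F2.card / 2 ^ t ≤ F.card / 2 ^ t := by
        rw [← add_div]
        exact div_le_div_of_nonneg_right hcard' h2t.le
      have hF10 : (0 : ℝ) ≤ F1.card / 2 ^ t := by positivity
      have hF20 : (0 : ℝ) ≤ F2.card / 2 ^ t := by positivity
      have hmid : ∑ k ∈ F2, ‖bf S n d.b (((Q S d.p).comp ((eps S n c).comp m)) (x k))‖ ≤
          10 ^ 8 * C * (F2.card / 2 ^ t + (2 * N) ^ t) := by
        have hM : (0 : ℝ) ≤ 10 ^ 8 * C * (F2.card / 2 ^ t + (2 * N) ^ t) := by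
          have := hNp t
          positivity
        refine Count_swap n d.b (hS.b1 n d hd) F2
          (fun k => ((Q S d.p).comp ((eps S n c).comp m)) (x k)) hM ?_
        intro i hi' c'
        exact (ih i hi').1 t ht c' _
          (Mult_comp hS (Mult_Q S d.p) (Mult_comp hS (Mult_eps S n c) hm)) F2 (hF2.trans hF)
      have hmid' : wt d.j * ∑ k ∈ F2, ‖bf S n d.b (((Q S d.p).comp ((eps S n c).comp m)) (x k))‖ ≤
          10 ^ 8 * (C * wt d.j) * (F2.card / 2 ^ t) + 10 ^ 8 * (C * wt d.j) * (2 * N) ^ t := by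
        have := mul_le_mul_of_nonneg_left hmid hw0
        linarith
      by_cases hchi : d.chi = true
      · rw [if_pos hchi] at hsum
        obtain ⟨d', hd', hj', hage⟩ := hS.age2 n d hd hchi
        have h1 := (ih d.p hp).2 d' hd' t ht c m hm F1 (hF1.trans hF)
        rw [hj'] at h1
        rw [hage]
        push_cast
        have h3 : 10 ^ 8 * (C * wt d.j) * (F1.card / 2 ^ t + F2.card / 2 ^ t) ≤
            10 ^ 8 * (C * wt d.j) * (F.card / 2 ^ t) := by
          refine mul_le_mul_of_nonneg_left hcd ?_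
          positivity
        linarith
      · rw [if_neg hchi] at hsum
        have hage := hS.age1 n d hd (by simpa using hchi)
        rw [hage]
        push_cast
        have h3 : 10 ^ 8 * (C * wt d.j) * (F2.card / 2 ^ t) ≤
            10 ^ 8 * (C * wt d.j) * (F.card / 2 ^ t) := by
          refine mul_le_mul_of_nonneg_left (by linarith) ?_
          positivity
        linarith
    refine ⟨?_, hBst⟩
    intro t ht c m hm F hF
    have hNt := hNp t
    have hFt : (0 : ℝ) ≤ F.card / 2 ^ t := by positivity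
    rcases hDn : S.D n with _ | d
    · have h1 := seed_exc hS hC hx hDn c hm hF
      have h2 : (48 : ℝ) * C ≤ 10 ^ 8 * C * 1 := by linarith
      have h3 : (10 : ℝ) ^ 8 * C * 1 ≤ 10 ^ 8 * C * (F.card / 2 ^ t + (2 * N) ^ t) := by
        refine mul_le_mul_of_nonneg_left (by linarith) (by positivity)
      linarith
    · rcases Nat.lt_or_ge (tt d.j) t with hlt | hge
      · -- statement (B)
        have hjj : d.j < j₀ := Count_tt_mono (lt_of_lt_of_le hlt ht)
        have h1 := hBst d hDn (t - tt d.j) (by omega) c m hm F hF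
        have hageN : (d.age : ℝ) ≤ N := by
          rw [hNdef]
          exact_mod_cast (hS.age3 n d hDn).trans (nn_mono (by omega))
        have hage0 : (0 : ℝ) ≤ d.age := by positivity
        obtain ⟨s, hs⟩ : ∃ s, s = t - tt d.j := ⟨_, rfl⟩
        have hts : t = s + tt d.j := by omega
        have ht100 := Count_tt_ge d.j
        obtain ⟨u, hu⟩ : ∃ u, tt d.j = u := ⟨_, rfl⟩
        have hw : wt d.j = 1 / 2 ^ u := by rw [Count_wt, hu]
        rw [← hs, hw] at h1
        rw [hu] at hts ht100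
        have hu0 : (0 : ℝ) < 2 ^ u := by positivity
        have h2 : 10 ^ 8 * C * (1 / 2 ^ u) * (F.card / 2 ^ s) = 10 ^ 8 * C * (F.card / 2 ^ t) := by
          rw [hts, pow_add, mul_assoc (10 ^ 8 * C), one_div, div_eq_mul_inv, div_eq_mul_inv,
            mul_inv]
          ring
        -- powers
        have h3 : N * 2 ^ 30 ≤ (2 * N) ^ u := by
          have h4 : (2 * N) ^ 100 ≤ (2 * N) ^ u := pow_le_pow_right₀ hN2 ht100
          have h5 : (2 * N) ^ 1 ≤ (2 * N) ^ 70 := pow_le_pow_right₀ hN2 (by norm_num)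
          have h6 : (2 : ℝ) ^ 30 ≤ (2 * N) ^ 30 := pow_le_pow_left₀ (by norm_num) (by linarith) 30
          have h7 : (2 * N) ^ 100 = (2 * N) ^ 70 * (2 * N) ^ 30 := by rw [← pow_add]
          have h8 : (2 * N) ^ 1 * 2 ^ 30 ≤ (2 * N) ^ 70 * (2 * N) ^ 30 :=
            mul_le_mul h5 h6 (by positivity) (by positivity)
          linarith
        have hs1 := hNp s
        have h9 : (2 * N) ^ t = (2 * N) ^ s * (2 * N) ^ u := by rw [hts, pow_add]
        have h10 : (2 * N) ^ s * (N * 2 ^ 30) ≤ (2 * N) ^ t := by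
          rw [h9]
          exact mul_le_mul_of_nonneg_left h3 (by positivity)
        have h11 : N * 2 ^ 30 ≤ (2 * N) ^ s * (N * 2 ^ 30) := by
          refine le_mul_of_one_le_left (by positivity) hs1
        have hw1 : (1 : ℝ) / 2 ^ u ≤ 1 := by
          rw [div_le_one hu0]
          exact one_le_pow₀ (by norm_num)
        have h12 : 96 * C + 10 ^ 8 * C * (1 / 2 ^ u) * (2 * N) ^ s ≤
            96 * C + 10 ^ 8 * C * 1 * (2 * N) ^ s := by
          have h20 : 10 ^ 8 * C * (1 / 2 ^ u) ≤ 10 ^ 8 * C * 1 :=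
            mul_le_mul_of_nonneg_left hw1 (by positivity)
          have h21 : 10 ^ 8 * C * (1 / 2 ^ u) * (2 * N) ^ s ≤ 10 ^ 8 * C * 1 * (2 * N) ^ s :=
            mul_le_mul_of_nonneg_right h20 (by positivity)
          linarith
        have h13 : (0 : ℝ) ≤ 96 * C + 10 ^ 8 * C * (1 / 2 ^ u) * (2 * N) ^ s := by positivity
        have h14 : (d.age : ℝ) * (96 * C + 10 ^ 8 * C * (1 / 2 ^ u) * (2 * N) ^ s) ≤
            N * (96 * C + 10 ^ 8 * C * 1 * (2 * N) ^ s) :=
          mul_le_mul hageN h12 h13 (by linarith)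
        have h15 : C * (N * 2 ^ 30) ≤ C * (2 * N) ^ t :=
          mul_le_mul_of_nonneg_left (h11.trans h10) hC
        have h16 : C * ((2 * N) ^ s * (N * 2 ^ 30)) ≤ C * (2 * N) ^ t :=
          mul_le_mul_of_nonneg_left h10 hC
        have h17 : 0 ≤ C * N := by positivity
        have h18 : 0 ≤ C * ((2 * N) ^ s * N) := by positivity
        nlinarith
      · -- one exception
        have h1 := one_exc hS hC hx ⟨d, hDn, rfl⟩ c hm hF
        have hw : wt d.j ≤ 1 / 2 ^ t := by
          rw [Count_wt]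
          exact one_div_le_one_div_of_le (by positivity) (pow_le_pow_right₀ (by norm_num) hge)
        have h2 : (F.card : ℝ) * wt d.j ≤ F.card / 2 ^ t := by
          have := mul_le_mul_of_nonneg_left hw (Nat.cast_nonneg (α := ℝ) F.card)
          rwa [mul_one_div] at this
        have h3 : C * ((F.card : ℝ) * wt d.j) ≤ C * (F.card / 2 ^ t) :=
          mul_le_mul_of_nonneg_left h2 hC
        have h4 : C * 1 ≤ C * (2 * N) ^ t := mul_le_mul_of_nonneg_left hNt hC
        have h5 : 0 ≤ C * (F.card / 2 ^ t) := by positivity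
        nlinarith

end Pool.Agent.W8d7136
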