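import Pool.Agent.W_MP_8d7136_h58.Count

set_option autoImplicit false

/-!
The counting lemma for sums, excluding one weight.
-/

namespace Pool.Agent.W8d7136

variable {S : Sys}

/-- thresholds of downward closed properties -/
theorem CountS_thr {P : ℕ → Prop} {a b : ℕ} (hab : a ≤ b)
    (hP : ∀ k l, a ≤ k → k ≤ l → l < b → P l → P k) :
    ∃ α, a ≤ α ∧ α ≤ b ∧ ∀ k, a ≤ k → k < b → (k < α ↔ P k) := by
  induction b, hab using Nat.le_induction with
  | base => exact ⟨a, le_rfl, le_rfl, fun k h1 h2 => absurd h2 (not_lt.2 h1)⟩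
  | succ b hab ih =>
    obtain ⟨α, h1, h2, h3⟩ := ih fun k l hk hl hlb => hP k l hk hl (by omega)
    by_cases hb : P b
    · refine ⟨b + 1, by omega, le_rfl, fun k hk hkb => ⟨fun _ => ?_, fun _ => hkb⟩⟩
      exact hP k b hk (by omega) (by omega) hb
    · refine ⟨α, h1, by omega, fun k hk hkb => ?_⟩
      rcases Nat.lt_or_ge k b with h | h
      · exact h3 k hk h
      · have hkb' : k = b := by omega
        subst hkb'
        exact ⟨fun h4 => absurd h4 (by omega), fun h4 => absurd h4 hb⟩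

theorem CountS_hi_mono {C : ℝ} {K : ℕ} {lo hi J : ℕ → ℕ} {x : ℕ → W}
    (hx : RISf S C K lo hi J x) {k l : ℕ} (hkl : k ≤ l) (hl : l < K) :
    hi k ≤ hi l ∧ lo k ≤ lo l := by
  induction l, hkl using Nat.le_induction with
  | base => exact ⟨le_rfl, le_rfl⟩
  | succ l hkl ih =>
    obtain ⟨h1, h2⟩ := ih (by omega)
    have h3 := hx.lohi (l + 1) hl
    have h4 := hx.hilo l hl
    have h5 := hx.lohi l (by omega)
    exact ⟨by omega, by omega⟩

/-- at most one block -/
theorem CountS_one (hS : Good S) {C : ℝ} (hC : 0 ≤ C) {K : ℕ} {lo hi J : ℕ → ℕ} {x : ℕ → W}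
    (hx : RISf S C K lo hi J x) {α β : ℕ} (hβ : β ≤ α + 1) (hK : β ≤ K)
    (n : ℕ) (c : Bool) {m : W →ₗ[ℂ] W} (hm : Mult S m) :
    ‖e S n c (m (∑ k ∈ Finset.Ico α β, x k))‖ ≤ 48 * C := by
  rcases Nat.lt_or_ge α β with h | h
  · have h1 : β = α + 1 := by omega
    subst h1
    rw [Nat.Ico_succ_singleton, Finset.sum_singleton]
    exact NB_Mult hS (hx.blk α (by omega)).nb hm n c
  · rw [Finset.Ico_eq_empty (by omega), Finset.sum_empty, map_zero, map_zero, norm_zero]
    positivity

theorem CountS_wt (h : ℕ) : wt h = 1 / 2 ^ tt h := by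
  unfold wt
  rw [mm_eq]
  push_cast
  rfl

theorem CountS_tt_mono {h j : ℕ} (h1 : tt h < tt j) : h < j := by
  by_contra hcon
  have h2 : j ≤ h := not_lt.1 hcon
  have h3 : 2 ^ j ≤ 2 ^ h := Nat.pow_le_pow_right (by norm_num) h2
  unfold tt at h1
  omega

theorem CountS_supp {C : ℝ} {K : ℕ} {lo hi J : ℕ → ℕ} {x : ℕ → W}
    (hx : RISf S C K lo hi J x) {α β : ℕ} (hK : β ≤ K) {m : W →ₗ[ℂ] W} (hm : Mult S m) {i : ℕ}
    (hi' : ∀ k, α ≤ k → k < β → i < lo k ∨ hi k ≤ i) (c : Bool) :
    m (∑ k ∈ Finset.Ico α β, x k) i c = 0 := by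
  refine Mult_supp hm (fun c => ?_) c
  rw [Finset.sum_apply, Finset.sum_apply]
  refine Finset.sum_eq_zero fun k hk => ?_
  rw [Finset.mem_Ico] at hk
  exact (hx.blk k (by omega)).supp i (hi' k hk.1 hk.2) c

theorem CountS_main (hS : Good S) {C : ℝ} (hC : 0 ≤ C) {K : ℕ} {lo hi J : ℕ → ℕ} {x : ℕ → W}
    (hx : RISf S C K lo hi J x) {j₀ : ℕ} (hj : 1 ≤ j₀) {B : ℝ} (hB : 10 ^ 8 * C ≤ B)
    (H : ∀ n c m, Wt S n j₀ → Mult S m → ∀ a b, a ≤ b → b ≤ K →
      ‖e S n c (m (∑ k ∈ Finset.Ico a b, x k))‖ ≤ B) (n : ℕ) :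
    (∀ t, t ≤ tt (j₀ + 1) → ∀ c m, Mult S m → ∀ a b, a ≤ b → b ≤ K →
      ‖e S n c (m (∑ k ∈ Finset.Ico a b, x k))‖ ≤
        B * (((b - a : ℕ) : ℝ) / 2 ^ t + (2 * nn (j₀ - 1)) ^ t)) ∧
    (∀ d, S.D n = some d → ∀ t, t ≤ tt (j₀ + 1) → ∀ c m, Mult S m → ∀ a b, a ≤ b → b ≤ K →
      ‖e S n c (m (∑ k ∈ Finset.Ico a b, x k))‖ ≤
        B * wt d.j * (((b - a : ℕ) : ℝ) / 2 ^ t) +
          d.age * (96 * C + B * wt d.j * (2 * nn (j₀ - 1)) ^ t)) := by
  have hB0 : 0 ≤ B := le_trans (by positivity) hB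
  have hN1 : (1 : ℝ) ≤ nn (j₀ - 1) := by exact_mod_cast nn_pos (j₀ - 1)
  have hN2 : (1 : ℝ) ≤ 2 * nn (j₀ - 1) := by linarith
  induction n using Nat.strong_induction_on with
  | _ n ih =>
    -- statement (B)
    have hBst : ∀ d, S.D n = some d → ∀ t, t ≤ tt (j₀ + 1) → ∀ c m, Mult S m → ∀ a b, a ≤ b →
        b ≤ K → ‖e S n c (m (∑ k ∈ Finset.Ico a b, x k))‖ ≤
        B * wt d.j * (((b - a : ℕ) : ℝ) / 2 ^ t) +
          d.age * (96 * C + B * wt d.j * (2 * nn (j₀ - 1)) ^ t) := by
      intro d hd t ht c m hm a b hab hbK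
      obtain ⟨hp, hon, -⟩ := hS.lt n d hd
      have hw0 := (wt_pos d.j).le
      -- thresholds
      obtain ⟨α, hα1, hα2, hα3⟩ := CountS_thr (P := fun k => hi k ≤ d.p) hab
        (fun k l _ hkl hl hP => (CountS_hi_mono hx hkl (by omega)).1.trans hP)
      obtain ⟨β, hβ1, hβ2, hβ3⟩ := CountS_thr (P := fun k => lo k ≤ d.p) hab
        (fun k l _ hkl hl hP => (CountS_hi_mono hx hkl (by omega)).2.trans hP)
      obtain ⟨γ, hγ1, hγ2, hγ3⟩ := CountS_thr (P := fun k => hi k ≤ n) hab
        (fun k l _ hkl hl hP => (CountS_hi_mono hx hkl (by omega)).1.trans hP)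
      obtain ⟨δ, hδ1, hδ2, hδ3⟩ := CountS_thr (P := fun k => lo k ≤ n) hab
        (fun k l _ hkl hl hP => (CountS_hi_mono hx hkl (by omega)).2.trans hP)
      have hαβ : α ≤ β := by
        by_contra hcon
        have h1 := (hα3 β hβ1 (by omega)).1 (by omega)
        have h2 := hx.lohi β (by omega)
        have h3 := (hβ3 β hβ1 (by omega)).2 (by omega)
        omega
      have hβα : β ≤ α + 1 := by
        by_contra hcon
        have h1 := (hβ3 (α + 1) (by omega) (by omega)).1 (by omega)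
        have h2 := hx.hilo α (by omega)
        have h3 := (hα3 α hα1 (by omega)).2 (by omega)
        omega
      have hγδ : γ ≤ δ := by
        by_contra hcon
        have h1 := (hγ3 δ hδ1 (by omega)).1 (by omega)
        have h2 := hx.lohi δ (by omega)
        have h3 := (hδ3 δ hδ1 (by omega)).2 (by omega)
        omega
      have hδγ : δ ≤ γ + 1 := by
        by_contra hcon
        have h1 := (hδ3 (γ + 1) (by omega) (by omega)).1 (by omega)
        have h2 := hx.hilo γ (by omega)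
        have h3 := (hγ3 γ hγ1 (by omega)).2 (by omega)
        omega
      have hβδ : β ≤ δ := by
        by_contra hcon
        have h1 := (hβ3 δ hδ1 (by omega)).1 (by omega)
        have h3 := (hδ3 δ hδ1 (by omega)).2 (by omega)
        omega
      -- the middle index
      obtain ⟨γ', hγ'⟩ : ∃ γ', γ' = max β γ := ⟨_, rfl⟩
      have hβγ' : β ≤ γ' := by omega
      have hγ'δ : γ' ≤ δ := by omega
      have hδγ' : δ ≤ γ' + 1 := by omega
      -- splitting
      have hsplit : e S n c (m (∑ k ∈ Finset.Ico a b, x k)) =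
          e S n c (m (∑ k ∈ Finset.Ico a α, x k)) + e S n c (m (∑ k ∈ Finset.Ico α β, x k)) +
          e S n c (m (∑ k ∈ Finset.Ico β γ', x k)) + e S n c (m (∑ k ∈ Finset.Ico γ' δ, x k)) +
          e S n c (m (∑ k ∈ Finset.Ico δ b, x k)) := by
        rw [← Finset.sum_Ico_consecutive x (show a ≤ δ by omega) hδ2,
          ← Finset.sum_Ico_consecutive x (show a ≤ γ' by omega) hγ'δ,
          ← Finset.sum_Ico_consecutive x (show a ≤ β by omega) hβγ',
          ← Finset.sum_Ico_consecutive x hα1 hαβ]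
        simp only [map_add]
      have hT5 : e S n c (m (∑ k ∈ Finset.Ico δ b, x k)) = 0 := by
        refine e_eq_zero hS fun i hi c' => CountS_supp hx hbK hm (fun k hk hkb => Or.inl ?_) c'
        have h1 : ¬ lo k ≤ n := fun h => absurd ((hδ3 k (by omega) hkb).2 h) (by omega)
        omega
      have hT2 := CountS_one hS hC hx hβα (show β ≤ K by omega) n c hm
      have hT4 := CountS_one hS hC hx hδγ' (show δ ≤ K by omega) n c hm
      -- the third piece
      have hT3 : ‖e S n c (m (∑ k ∈ Finset.Ico β γ', x k))‖ ≤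
          wt d.j * (B * (((γ' - β : ℕ) : ℝ) / 2 ^ t + (2 * nn (j₀ - 1)) ^ t)) := by
        have hsup : ∀ k, β ≤ k → k < γ' → d.p < lo k ∧ hi k ≤ n := by
          intro k hk1 hk2
          refine ⟨?_, (hγ3 k (by omega) (by omega)).1 (by omega)⟩
          have h1 : ¬ lo k ≤ d.p := fun h => absurd ((hβ3 k (by omega) (by omega)).2 h) (by omega)
          omega
        have h1 : m (∑ k ∈ Finset.Ico β γ', x k) n c = 0 :=
          CountS_supp hx (by omega) hm (fun k hk1 hk2 => Or.inr (hsup k hk1 hk2).2) c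
        have h2 : e S d.p c (m (∑ k ∈ Finset.Ico β γ', x k)) = 0 := by
          refine e_eq_zero hS fun i hi c' =>
            CountS_supp hx (by omega) hm (fun k hk1 hk2 => Or.inl ?_) c'
          have := (hsup k hk1 hk2).1
          omega
        rw [e_some hS hd, h1, h2]
        have h3 : (if d.chi = true then (0 : ℂ) else 0) = 0 := by split_ifs <;> rfl
        rw [h3, zero_add, zero_add, norm_mul, Complex.norm_real, Real.norm_eq_abs,
          abs_of_nonneg hw0]
        refine mul_le_mul_of_nonneg_left ?_ hw0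
        have hmm : Mult S ((Q S d.p).comp ((eps S n c).comp m)) :=
          Mult_comp hS (Mult_Q S d.p) (Mult_comp hS (Mult_eps S n c) hm)
        have h4 : NBl S n (B * (((γ' - β : ℕ) : ℝ) / 2 ^ t + (2 * nn (j₀ - 1)) ^ t))
            (Q S d.p (eps S n c (m (∑ k ∈ Finset.Ico β γ', x k)))) := by
          intro i hi c'
          exact (ih i hi).1 t ht c' _ hmm β γ' hβγ' (by omega)
        have h5 := bf_le (hS.b1 n d hd) (C := B * (((γ' - β : ℕ) : ℝ) / 2 ^ t +
          (2 * nn (j₀ - 1)) ^ t)) (by positivity) h4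
        rw [one_mul] at h5
        exact h5
      -- the first piece
      have hT1e : e S n c (m (∑ k ∈ Finset.Ico a α, x k)) =
          if d.chi = true then e S d.p c (m (∑ k ∈ Finset.Ico a α, x k)) else 0 := by
        have hsup : ∀ k, a ≤ k → k < α → hi k ≤ d.p := fun k hk1 hk2 =>
          (hα3 k hk1 (by omega)).1 hk2
        have h1 : m (∑ k ∈ Finset.Ico a α, x k) n c = 0 :=
          CountS_supp hx (by omega) hm (fun k hk1 hk2 => Or.inr ((hsup k hk1 hk2).trans hp.le)) c
        have hmm : Mult S ((Q S d.p).comp ((eps S n c).comp m)) :=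
          Mult_comp hS (Mult_Q S d.p) (Mult_comp hS (Mult_eps S n c) hm)
        have h2 : bf S n d.b (Q S d.p (eps S n c (m (∑ k ∈ Finset.Ico a α, x k)))) = 0 := by
          refine bf_eq_zero hS fun i hi c' => ?_
          by_cases hip : i ≤ d.p
          · exact Bd_Q_small hip _ c'
          · refine CountS_supp hx (by omega) hmm (fun k hk1 hk2 => Or.inr ?_) c'
            have := hsup k hk1 hk2
            omega
        rw [e_some hS hd, h1, h2, mul_zero, add_zero, zero_add]
      have hX0 : 0 ≤ 96 * C + B * wt d.j * (2 * nn (j₀ - 1)) ^ t := by positivity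
      have hT1 : ‖e S n c (m (∑ k ∈ Finset.Ico a α, x k))‖ ≤
          B * wt d.j * (((α - a : ℕ) : ℝ) / 2 ^ t) +
          ((d.age : ℝ) - 1) * (96 * C + B * wt d.j * (2 * nn (j₀ - 1)) ^ t) := by
        rw [hT1e]
        cases hχ : d.chi with
        | false =>
          rw [hS.age1 n d hd hχ]
          simp only [Bool.false_eq_true, if_false, norm_zero, Nat.cast_one, sub_self, zero_mul,
            add_zero]
          positivity
        | true =>
          obtain ⟨d', hd', hj', hage⟩ := hS.age2 n d hd hχ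
          have h1 := (ih d.p hp).2 d' hd' t ht c m hm a α hα1 (by omega)
          rw [hj'] at h1
          simp only [if_true]
          rw [hage]
          push_cast
          rw [add_sub_cancel_right]
          exact h1
      -- conclusion
      have hlen : (((α - a : ℕ) : ℝ)) + ((γ' - β : ℕ) : ℝ) ≤ ((b - a : ℕ) : ℝ) := by
        have : (α - a) + (γ' - β) ≤ b - a := by omega
        exact_mod_cast this
      have h2t : (0 : ℝ) < 2 ^ t := by positivity
      have hdiv : B * wt d.j * (((α - a : ℕ) : ℝ) / 2 ^ t) +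
          B * wt d.j * (((γ' - β : ℕ) : ℝ) / 2 ^ t) ≤ B * wt d.j * (((b - a : ℕ) : ℝ) / 2 ^ t) := by
        rw [← mul_add, ← add_div]
        exact mul_le_mul_of_nonneg_left (div_le_div_of_nonneg_right hlen h2t.le) (by positivity)
      have hn4 : ‖e S n c (m (∑ k ∈ Finset.Ico a b, x k))‖ ≤
          ‖e S n c (m (∑ k ∈ Finset.Ico a α, x k))‖ + ‖e S n c (m (∑ k ∈ Finset.Ico α β, x k))‖ +
          ‖e S n c (m (∑ k ∈ Finset.Ico β γ', x k))‖ +
          ‖e S n c (m (∑ k ∈ Finset.Ico γ' δ, x k))‖ := by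
        rw [hsplit, hT5, add_zero]
        exact (norm_add_le _ _).trans (add_le_add ((norm_add_le _ _).trans
          (add_le_add (norm_add_le _ _) le_rfl)) le_rfl)
      have e1 : wt d.j * (B * (((γ' - β : ℕ) : ℝ) / 2 ^ t + (2 * nn (j₀ - 1)) ^ t)) =
          B * wt d.j * (((γ' - β : ℕ) : ℝ) / 2 ^ t) + B * wt d.j * (2 * nn (j₀ - 1)) ^ t := by ring
      rw [e1] at hT3
      have e2 : ((d.age : ℝ) - 1) * (96 * C + B * wt d.j * (2 * nn (j₀ - 1)) ^ t) =
          d.age * (96 * C + B * wt d.j * (2 * nn (j₀ - 1)) ^ t) -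
          (96 * C + B * wt d.j * (2 * nn (j₀ - 1)) ^ t) := by ring
      rw [e2] at hT1
      linarith
    refine ⟨?_, hBst⟩
    intro t ht c m hm a b hab hbK
    have hpow1 : (1 : ℝ) ≤ (2 * nn (j₀ - 1)) ^ t := one_le_pow₀ hN2
    have hdiv0 : (0 : ℝ) ≤ ((b - a : ℕ) : ℝ) / 2 ^ t := by positivity
    have hsum : ‖e S n c (m (∑ k ∈ Finset.Ico a b, x k))‖ ≤
        ∑ k ∈ Finset.Ico a b, ‖e S n c (m (x k))‖ := by
      rw [map_sum, map_sum]
      exact norm_sum_le _ _
    have hF : Finset.Ico a b ⊆ Finset.range K := by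
      intro k hk
      rw [Finset.mem_Ico] at hk
      exact Finset.mem_range.2 (by omega)
    have hone : B ≤ B * (((b - a : ℕ) : ℝ) / 2 ^ t + (2 * nn (j₀ - 1)) ^ t) :=
      le_mul_of_one_le_right hB0 (by linarith)
    cases hd : S.D n with
    | none =>
      have h1 := seed_exc hS hC hx hd c hm hF
      linarith
    | some d =>
      have hW : Wt S n d.j := ⟨d, hd, rfl⟩
      by_cases hdj : d.j = j₀
      · rw [hdj] at hW
        exact (H n c m hW hm a b hab hbK).trans hone
      rcases le_or_gt t (tt d.j) with htt | htt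
      · have h1 := one_exc hS hC hx hW c hm hF
        rw [Nat.card_Ico] at h1
        have h2 : wt d.j ≤ 1 / 2 ^ t := by
          rw [CountS_wt]
          exact one_div_le_one_div_of_le (by positivity) (pow_le_pow_right₀ (by norm_num) htt)
        have h3 : ((b - a : ℕ) : ℝ) * wt d.j ≤ ((b - a : ℕ) : ℝ) / 2 ^ t := by
          rw [div_eq_mul_one_div]
          exact mul_le_mul_of_nonneg_left h2 (by positivity)
        have h4 : 10 ^ 7 * C * (((b - a : ℕ) : ℝ) * wt d.j) ≤ B * (((b - a : ℕ) : ℝ) / 2 ^ t) := by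
          refine mul_le_mul ?_ h3 (mul_nonneg (by positivity) (wt_pos _).le) hB0
          linarith
        have h5 : 48 * C ≤ B * (2 * nn (j₀ - 1)) ^ t :=
          le_trans (by linarith) (le_mul_of_one_le_right hB0 hpow1)
        rw [mul_add]
        linarith
      · have hlt : d.j < j₀ + 1 := CountS_tt_mono (lt_of_lt_of_le htt ht)
        have hlt2 : d.j ≤ j₀ - 1 := by omega
        have htt0 : 1 ≤ tt d.j := by
          unfold tt
          have : 1 ≤ 2 ^ d.j := Nat.one_le_two_pow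
          omega
        have h1 := hBst d hd (t - tt d.j) (by omega) c m hm a b hab hbK
        have hage : (d.age : ℝ) ≤ nn (j₀ - 1) := by
          exact_mod_cast (hS.age3 n d hd).trans (nn_mono hlt2)
        have e1 : wt d.j * (1 / 2 ^ (t - tt d.j)) = 1 / 2 ^ t := by
          rw [CountS_wt, one_div_mul_one_div, ← pow_add, Nat.add_sub_cancel' htt.le]
        have e2 : B * wt d.j * (((b - a : ℕ) : ℝ) / 2 ^ (t - tt d.j)) =
            B * (((b - a : ℕ) : ℝ) / 2 ^ t) := by
          rw [div_eq_mul_one_div (((b - a : ℕ) : ℝ)), div_eq_mul_one_div (((b - a : ℕ) : ℝ)),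
            ← e1]
          ring
        rw [e2] at h1
        obtain ⟨N, hN⟩ : ∃ N : ℝ, N = nn (j₀ - 1) := ⟨_, rfl⟩
        rw [← hN] at h1 hage hN1 hN2 hpow1 ⊢
        have hp1 : (2 * N) * (2 * N) ^ (t - tt d.j) ≤ (2 * N) ^ t := by
          rw [← pow_succ']
          exact pow_le_pow_right₀ hN2 (by omega)
        have hp2 : 2 * N ≤ (2 * N) ^ t := by
          calc 2 * N = (2 * N) ^ 1 := (pow_one _).symm
            _ ≤ (2 * N) ^ t := pow_le_pow_right₀ hN2 (by omega)
        have hw1 : wt d.j ≤ 1 := (wt_le d.j).trans (by norm_num)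
        have hw0 := (wt_pos d.j).le
        have hX0 : 0 ≤ 96 * C + B * wt d.j * (2 * N) ^ (t - tt d.j) := by positivity
        have h2 : (d.age : ℝ) * (96 * C + B * wt d.j * (2 * N) ^ (t - tt d.j)) ≤
            N * (96 * C + B * wt d.j * (2 * N) ^ (t - tt d.j)) :=
          mul_le_mul_of_nonneg_right hage hX0
        have h3 : N * (B * wt d.j * (2 * N) ^ (t - tt d.j)) ≤ B / 2 * (2 * N) ^ t := by
          calc N * (B * wt d.j * (2 * N) ^ (t - tt d.j))
              = B / 2 * wt d.j * ((2 * N) * (2 * N) ^ (t - tt d.j)) := by ring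
            _ ≤ B / 2 * 1 * ((2 * N) ^ t) := by
                refine mul_le_mul (mul_le_mul_of_nonneg_left hw1 (by positivity)) hp1
                  (by positivity) (by positivity)
            _ = B / 2 * (2 * N) ^ t := by ring
        have h4 : N * (96 * C) ≤ B / 2 * (2 * N) ^ t := by
          calc N * (96 * C) = (48 * C) * (2 * N) := by ring
            _ ≤ (B / 2) * (2 * N) ^ t :=
                mul_le_mul (by linarith) hp2 (by positivity) (by positivity)
        rw [mul_add]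
        rw [mul_add] at h2
        linarith

/-- Same proof as `count_all`, for the absolute value of the sum over an interval of blocks.  The weight
`j₀` is excluded by the hypothesis `H`; `2 ^ t ≤ mm (j₀ + 1)`; if `tt h < t` then `h ≤ j₀`.
(B) for `n` of weight `h < j₀` and age `a`:
`‖e_n(m ∑)‖ ≤ B w_h (b - a) / 2 ^ t + age (96 C + w_h B (2 nn (j₀ - 1)) ^ t)`.
For weights `h` with `t ≤ tt h` use the triangle inequality and `one_exc`. -/
theorem countS (hS : Good S) {C : ℝ} (hC : 0 ≤ C) {K : ℕ} {lo hi J : ℕ → ℕ} {x : ℕ → W}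
    (hx : RISf S C K lo hi J x) {j₀ : ℕ} (hj : 1 ≤ j₀) {B : ℝ} (hB : 10 ^ 8 * C ≤ B)
    (H : ∀ n c m, Wt S n j₀ → Mult S m → ∀ a b, a ≤ b → b ≤ K →
      ‖e S n c (m (∑ k ∈ Finset.Ico a b, x k))‖ ≤ B) (n : ℕ) :
    ∀ t, t ≤ tt (j₀ + 1) → ∀ c m, Mult S m → ∀ a b, a ≤ b → b ≤ K →
      ‖e S n c (m (∑ k ∈ Finset.Ico a b, x k))‖ ≤
        B * (((b - a : ℕ) : ℝ) / 2 ^ t + (2 * nn (j₀ - 1)) ^ t) :=
  (CountS_main hS hC hx hj hB H n).1

end Pool.Agent.W8d7136
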