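import Mathlib

set_option autoImplicit false

/-!
# MP_8d7136_an: basic definitions

A Bourgain-Delbaen / Argyros-Haydon type construction.  There is one functional for every index `n` and its
restriction to its own branch: `e n false` (full) and `e n true` (on-branch).  The location of the index `n`
is the finite sequence `s n` restricted to the first `len n` bits.
-/

namespace Pool.Agent.W8d7136

/-- the ambient space of all coordinates -/
abbrev W : Type := ℕ → Bool → ℂ

/-- the weights are `1 / mm j` -/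
def mm (j : ℕ) : ℕ := 2 ^ (100 * 2 ^ j)

/-- the binary logarithm of `mm j` -/
def tt (j : ℕ) : ℕ := 100 * 2 ^ j

/-- the maximal length of functionals of weight `j` -/
def nn : ℕ → ℕ
  | 0 => 1
  | (j + 1) => mm (j + 1) ^ 4 * (2 * nn j) ^ (2 * tt (j + 1) + 2)

/-- the coding function -/
def code (p : ℕ) : ℕ := 4 * ((p + 1) * nn p ^ 2)

/-- the weight -/
noncomputable def wt (j : ℕ) : ℝ := 1 / (mm j : ℝ)

/-- data of an index: `chi` (is the parent a predecessor), the parent `p`, the weight `j`, the coefficients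
`b` and the age -/
structure Dat where
  chi : Bool
  p : ℕ
  j : ℕ
  b : ℕ → Bool → ℂ
  age : ℕ

/-- locations and data -/
structure Sys where
  len : ℕ → ℕ
  s : ℕ → ℕ → Bool
  D : ℕ → Option Dat

/-- the index `p` lies on the branch `z` -/
def Sys.On (S : Sys) (p : ℕ) (z : ℕ → Bool) : Prop := ∀ i < S.len p, S.s p i = z i

/-- the cone of the index `p` -/
def Sys.cone (S : Sys) (p : ℕ) : Set ℕ := {i | p < i ∧ S.On p (S.s i)}

/-- `n` has weight `h` -/
def Wt (S : Sys) (n h : ℕ) : Prop := ∃ d, S.D n = some d ∧ d.j = h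

/-- the unit vector at `(i, full)` -/
noncomputable def dl (i : ℕ) : ℕ → Bool → ℂ := fun i' c => if i' = i ∧ c = false then 1 else 0

/-- rational coefficients with finite support and `ℓ₁` norm at most `1` -/
def RatB (b : ℕ → Bool → ℂ) : Prop :=
  (∀ i c, ∃ x y : ℚ, b i c = (x : ℂ) + (y : ℂ) * Complex.I) ∧
    ∃ k : ℕ, (∀ i, k ≤ i → ∀ c, b i c = 0) ∧ ∑ i ∈ Finset.range k, ∑ c : Bool, ‖b i c‖ ≤ 1

section Ops

open Classical in
/-- restriction to a set of indices -/
noncomputable def res (A : Set ℕ) : W →ₗ[ℂ] W where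
  toFun v := fun i c => if i ∈ A then v i c else 0
  map_add' v v' := by
    funext i c
    simp only [Pi.add_apply]
    split_ifs <;> simp
  map_smul' r v := by
    funext i c
    simp only [Pi.smul_apply, RingHom.id_apply]
    split_ifs <;> simp

open Classical in
/-- restriction to the branch `z` -/
noncomputable def E (S : Sys) (z : ℕ → Bool) : W →ₗ[ℂ] W where
  toFun v := fun i _ => if S.On i z then v i true else 0
  map_add' v v' := by
    funext i c
    simp only [Pi.add_apply]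
    split_ifs <;> simp
  map_smul' r v := by
    funext i c
    simp only [Pi.smul_apply, RingHom.id_apply]
    split_ifs <;> simp

/-- restriction to indices less than `k` -/
noncomputable def P (k : ℕ) : W →ₗ[ℂ] W := res (Set.Iio k)

/-- restriction to the cone of `p` -/
noncomputable def Q (S : Sys) (p : ℕ) : W →ₗ[ℂ] W := res (S.cone p)

/-- `eps n false` is the identity, `eps n true` is the restriction to the branch of `n` -/
noncomputable def eps (S : Sys) (n : ℕ) (c : Bool) : W →ₗ[ℂ] W :=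
  if c then E S (S.s n) else LinearMap.id

/-- the coordinate functional -/
noncomputable def coord (n : ℕ) (c : Bool) : W →ₗ[ℂ] ℂ where
  toFun v := v n c
  map_add' _ _ := rfl
  map_smul' _ _ := rfl

end Ops

/-- the functionals `e n c`, defined by recursion on `n` -/
noncomputable def e (S : Sys) (n : ℕ) (c : Bool) : W →ₗ[ℂ] ℂ :=
  match S.D n with
  | none => coord n c
  | some d => coord n c +
      ((if h : d.chi = true ∧ d.p < n then e S d.p c else 0) +
        (wt d.j : ℂ) • ∑ i : Fin n, ∑ c' : Bool,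
          d.b i c' • ((e S i c').comp ((Q S d.p).comp (eps S n c))))
termination_by n
decreasing_by
  · exact h.2
  · exact i.2

/-- the functional `∑_{i < n} b i c • e i c` -/
noncomputable def bf (S : Sys) (n : ℕ) (b : ℕ → Bool → ℂ) : W →ₗ[ℂ] ℂ :=
  ∑ i ∈ Finset.range n, ∑ c : Bool, b i c • e S i c

/-- the properties of the system -/
structure Good (S : Sys) : Prop where
  mono : Monotone S.len
  lenall : ∀ (L : ℕ) (z : ℕ → Bool), ∃ p, S.len p = L ∧ S.On p z
  lt : ∀ n d, S.D n = some d → d.p < n ∧ S.On d.p (S.s n) ∧ d.j ≤ n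
  b1 : ∀ n d, S.D n = some d → ∑ i ∈ Finset.range n, ∑ c : Bool, ‖d.b i c‖ ≤ 1
  age1 : ∀ n d, S.D n = some d → d.chi = false → d.age = 1
  age2 : ∀ n d, S.D n = some d → d.chi = true →
    ∃ d', S.D d.p = some d' ∧ d'.j = d.j ∧ d.age = d'.age + 1
  age3 : ∀ n d, S.D n = some d → d.age ≤ nn d.j
  odd : ∀ n d, S.D n = some d → Odd d.j → ∃ i h, i < n ∧ Wt S i h ∧ d.b = dl i ∧
    (d.chi = false → nn d.j ^ 2 ≤ mm h ∧ h % 4 = 2) ∧ (d.chi = true → h = code d.p)
  seed : ∀ (z : ℕ → Bool) (N : ℕ), ∃ n, N ≤ n ∧ S.On n z ∧ S.D n = none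
  rich0e : ∀ (z : ℕ → Bool) (p j N : ℕ) (b : ℕ → Bool → ℂ), S.On p z → Even j → RatB b →
    ∃ n, N ≤ n ∧ p < n ∧ S.On n z ∧ S.D n = some ⟨false, p, j, b, 1⟩
  rich1e : ∀ (z : ℕ → Bool) (p j N : ℕ) (b : ℕ → Bool → ℂ) (d : Dat), S.On p z → Even j →
    RatB b → S.D p = some d → d.j = j → d.age < nn j →
    ∃ n, N ≤ n ∧ p < n ∧ S.On n z ∧ S.D n = some ⟨true, p, j, b, d.age + 1⟩
  rich0o : ∀ (z : ℕ → Bool) (p j N i h : ℕ), S.On p z → Odd j → Wt S i h →
    nn j ^ 2 ≤ mm h → h % 4 = 2 →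
    ∃ n, N ≤ n ∧ p < n ∧ S.On n z ∧ S.D n = some ⟨false, p, j, dl i, 1⟩
  rich1o : ∀ (z : ℕ → Bool) (p j N i : ℕ) (d : Dat), S.On p z → Odd j → Wt S i (code p) →
    S.D p = some d → d.j = j → d.age < nn j →
    ∃ n, N ≤ n ∧ p < n ∧ S.On n z ∧ S.D n = some ⟨true, p, j, dl i, d.age + 1⟩

/-- norm at most `C` -/
def NB (S : Sys) (C : ℝ) (v : W) : Prop := ∀ n c, ‖e S n c v‖ ≤ C

/-- norm at most `C` on the functionals with index less than `N` -/
def NBl (S : Sys) (N : ℕ) (C : ℝ) (v : W) : Prop := ∀ n, n < N → ∀ c, ‖e S n c v‖ ≤ C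

/-- bounded by `C` times the weight on the functionals of weight `h` -/
def WB (S : Sys) (h : ℕ) (C : ℝ) (v : W) : Prop := ∀ n c, Wt S n h → ‖e S n c v‖ ≤ C * wt h

/-- admissible index sets: intervals, and their intersections with cones -/
def Adm (S : Sys) (A : Set ℕ) : Prop :=
  ∃ I : Set ℕ, ((∃ k k', I = Set.Ico k k') ∨ ∃ k, I = Set.Ici k) ∧ (A = I ∨ ∃ p, A = I ∩ S.cone p)

/-- multipliers -/
def Mult (S : Sys) (m : W →ₗ[ℂ] W) : Prop :=
  ∃ A, Adm S A ∧ (m = res A ∨ ∃ z, m = (res A).comp (E S z))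

/-- support in `[lo, hi)` -/
def Sup (lo hi : ℕ) (v : W) : Prop := ∀ i, (i < lo ∨ hi ≤ i) → ∀ c, v i c = 0

/-- blocks -/
structure Blk (S : Sys) (C : ℝ) (lo hi J : ℕ) (x : W) : Prop where
  supp : Sup lo hi x
  nb : NB S C x
  wb : ∀ h, h < J → WB S h C x

/-- rapidly increasing sequences of length `K` -/
structure RISf (S : Sys) (C : ℝ) (K : ℕ) (lo hi J : ℕ → ℕ) (x : ℕ → W) : Prop where
  blk : ∀ k, k < K → Blk S C (lo k) (hi k) (J k) (x k)
  lohi : ∀ k, k < K → lo k < hi k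
  hilo : ∀ k, k + 1 < K → hi k ≤ lo (k + 1)
  hiJ : ∀ k, k + 1 < K → hi k ≤ J (k + 1)

/-- the estimates for averages of weight `J` -/
structure Avg (S : Sys) (C : ℝ) (lo hi J : ℕ) (y : W) : Prop where
  supp : Sup lo hi y
  nb : ∀ m, Mult S m → NB S C (m y)
  lt : ∀ m, Mult S m → ∀ h, h < J → WB S h C (m y)
  gt : ∀ m, Mult S m → ∀ h, J < h → ∀ n c, Wt S n h → ‖e S n c (m y)‖ ≤ C * wt J
  co : ∀ i c, ‖y i c‖ ≤ C * (mm J / nn J : ℝ)

end Pool.Agent.W8d7136
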