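import Pool.Agent.W_MP_8d7136_h58.DepDefs
import Pool.Agent.W_MP_8d7136_h58.AvgL

set_option autoImplicit false

/-!
Dependent sequences: the functionals of the chain itself, and the weights.
-/

namespace Pool.Agent.W8d7136

variable {S : Sys}

theorem dep_mono {C : ℝ} {z : ℕ → Bool} {j₀ : ℕ} {q η J : ℕ → ℕ} {y : ℕ → W}
    (h : DepS S C z j₀ q η J y) {k l : ℕ} (hkl : k ≤ l) (hl : l ≤ nn j₀) : q k ≤ q l := by
  induction l, hkl using Nat.le_induction with
  | base => exact le_rfl
  | succ l hkl ih =>
    have h1 := ih (by omega)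
    have h2 := h.lt l (by omega)
    have h3 := h.lt' l (by omega)
    omega

/-- the weights are strictly increasing (`J l ≤ η l < q (l+1) < code (q (l+1)) = J (l+1)`) and large -/
theorem dep_J (hS : Good S) {C : ℝ} {z : ℕ → Bool} {j₀ : ℕ} {q η J : ℕ → ℕ} {y : ℕ → W}
    (h : DepS S C z j₀ q η J y) :
    (∀ k l, k < l → l < nn j₀ → J k < J l) ∧ ∀ l, l < nn j₀ → nn j₀ ^ 2 ≤ mm (J l) := by
  constructor
  · intro k l hkl hl
    obtain ⟨d, hd, hdj⟩ := h.wtη k (by omega)
    have h1 := (hS.lt _ d hd).2.2
    have h2 := h.lt' k (by omega)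
    have h3 := dep_mono h (k := k + 1) (l := l) (by omega) (by omega)
    have h4 := lt_code (q l)
    rw [h.Jc l (by omega) hl, ← hdj]
    omega
  · intro l hl
    rcases Nat.eq_zero_or_pos l with rfl | hl0
    · exact h.J0.1
    · obtain ⟨l', rfl⟩ : ∃ l', l = l' + 1 := ⟨l - 1, by omega⟩
      have h1 := (hS.lt _ _ (h.dat l' (by omega))).2.2
      have h2 : j₀ ≤ q (l' + 1) := h1
      rw [h.Jc _ hl0 hl]
      exact (Nat.pow_le_pow_left (nn_mono h2) 2).trans (nn_sq_le_code _)

theorem dep_RIS (hS : Good S) {C : ℝ} {z : ℕ → Bool} {j₀ : ℕ} {q η J : ℕ → ℕ} {y : ℕ → W}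
    (h : DepS S C z j₀ q η J y) : RISf S C (nn j₀) (fun l => q l + 1) η J y := by
  refine ⟨fun k hk => Blk_of_Avg (h.avg k hk), fun k hk => h.lt k hk, fun k hk => ?_,
    fun k hk => ?_⟩
  · have := h.lt' k (by omega)
    show η k ≤ q (k + 1) + 1
    omega
  · have h1 := h.lt' k (by omega)
    have h2 := lt_code (q (k + 1))
    rw [h.Jc (k + 1) (by omega) hk]
    omega

/-- at most one index satisfies `P` -/
theorem Dep1_one {C : ℝ} (hC : 0 ≤ C) (l : ℕ) (P : ℕ → Prop) [DecidablePred P]
    (h : ∀ s t, s < t → t < l → P s → P t → False) :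
    ∑ t ∈ Finset.range l, (if P t then C else 0) ≤ C := by
  rw [← Finset.sum_filter, Finset.sum_const, nsmul_eq_mul]
  have hcard : (Finset.filter P (Finset.range l)).card ≤ 1 := by
    rw [Finset.card_le_one]
    intro s hs t ht
    rw [Finset.mem_filter, Finset.mem_range] at hs ht
    rcases lt_trichotomy s t with hst | hst | hst
    · exact (h s t hst ht.1 hs.2 ht.2).elim
    · exact hst
    · exact (h t s hst hs.1 ht.2 hs.2).elim
  have h1 : ((Finset.filter P (Finset.range l)).card : ℝ) ≤ 1 := by exact_mod_cast hcard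
  nlinarith

theorem Dep1_res_zero {A : Set ℕ} {r hi : ℕ} (h : ∀ i, i < hi → i ∈ S.cone r → i ∉ A) {v : W}
    (hv : Sup (r + 1) hi v) : Q S r (res A v) = 0 := by
  classical
  funext i c
  rw [Bd_Q_apply, res_apply]
  split_ifs with h1 h2
  · rcases lt_or_ge i hi with h3 | h3
    · exact absurd h2 (h i h3 h1)
    · exact hv i (Or.inr h3) c
  · rfl
  · rfl

theorem Dep1_res_full {A : Set ℕ} {r hi : ℕ} (h : ∀ i, i < hi → i ∈ S.cone r → i ∈ A) {v : W}
    (hv : Sup (r + 1) hi v) : Q S r (res A v) = Q S r v := by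
  classical
  funext i c
  rw [Bd_Q_apply, res_apply, Bd_Q_apply]
  split_ifs with h1 h2
  · rfl
  · rcases lt_or_ge i hi with h3 | h3
    · exact absurd (h i h3 h1) h2
    · exact (hv i (Or.inr h3) c).symm
  · rfl

theorem Dep1_interval {I : Set ℕ} (hI : (∃ k k', I = Set.Ico k k') ∨ ∃ k, I = Set.Ici k) :
    ∃ a b : ℕ, ∀ r hi, ¬ (r < a ∧ a < hi) → ¬ (r < b ∧ b < hi) →
      (∀ i, r < i → i < hi → i ∉ I) ∨ (∀ i, r < i → i < hi → i ∈ I) := by
  rcases hI with ⟨k, k', rfl⟩ | ⟨k, rfl⟩
  · refine ⟨k, k', fun r hi h1 h2 => ?_⟩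
    by_cases h3 : hi ≤ k
    · left
      intro i _ h5 h6
      have := h6.1
      omega
    · by_cases h4 : k' ≤ r
      · left
        intro i h5 _ h6
        have := h6.2
        omega
      · right
        intro i h5 h6
        rw [Set.mem_Ico]
        omega
  · refine ⟨k, 0, fun r hi h1 _ => ?_⟩
    by_cases h3 : hi ≤ k
    · left
      intro i _ h5 h6
      have : k ≤ i := h6
      omega
    · right
      intro i h5 h6
      rw [Set.mem_Ici]
      omega

theorem Dep1_adm (hS : Good S) {A : Set ℕ} (hA : Adm S A) :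
    ∃ a b p : ℕ, ∀ r hi, ¬ (r < a ∧ a < hi) → ¬ (r < b ∧ b < hi) → ¬ (r < p ∧ p < hi) →
      (∀ i, i < hi → i ∈ S.cone r → i ∉ A) ∨ (∀ i, i < hi → i ∈ S.cone r → i ∈ A) := by
  obtain ⟨I, hI, hA⟩ := hA
  obtain ⟨a, b, hab⟩ := Dep1_interval hI
  rcases hA with rfl | ⟨p, rfl⟩
  · refine ⟨a, b, 0, fun r hi h1 h2 _ => ?_⟩
    rcases hab r hi h1 h2 with h | h
    · left
      intro i h3 h4
      exact h i h4.1 h3
    · right
      intro i h3 h4
      exact h i h4.1 h3
  · refine ⟨a, b, p, fun r hi h1 h2 h3 => ?_⟩
    rcases hab r hi h1 h2 with h | h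
    · left
      intro i h4 h5 h6
      exact h i h5.1 h4 h6.1
    · by_cases h4 : hi ≤ p
      · left
        intro i h5 _ h7
        have := h7.2.1
        omega
      · have hpr : p ≤ r := by omega
        by_cases h5 : S.On p (S.s r)
        · right
          intro i h6 h7
          exact ⟨h i h7.1 h6, cone_sub hS hpr h5 h7⟩
        · left
          intro i _ h7 h8
          exact (Set.disjoint_left.1 (cone_disj hS hpr h5)) h8.2 h7

/-- two branches through `N` give the same operator on the vectors supported up to `N` -/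
theorem Dep1_E_eq (hS : Good S) {N : ℕ} {z z' : ℕ → Bool} (h : S.On N z) (h' : S.On N z') {v : W}
    (hv : ∀ i, N < i → ∀ c, v i c = 0) : E S z v = E S z' v := by
  classical
  funext i c
  rw [E_apply, E_apply]
  rcases le_or_gt i N with h1 | h1
  · have h2 := on_iff hS h1 h h'
    by_cases h3 : S.On i z
    · rw [if_pos h3, if_pos (h2.1 h3)]
    · rw [if_neg h3, if_neg fun h4 => h3 (h2.2 h4)]
  · rw [hv i h1 true]
    simp

theorem Dep1_eps {n N : ℕ} {z : ℕ → Bool} (hS : Good S) (h : S.On N z) (h' : S.On N (S.s n))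
    {v : W} (hv : ∀ i, N < i → ∀ c, v i c = 0) :
    eps S n true v = E S z v := by
  have : eps S n true v = E S (S.s n) v := by simp [eps]
  rw [this]
  exact Dep1_E_eq hS h' h hv

/-- the piece without the set restriction, first case -/
theorem Dep1_small (hS : Good S) {C : ℝ} {z : ℕ → Bool} {j₀ : ℕ} {q η J : ℕ → ℕ}
    {y : ℕ → W} (h : DepS S C z j₀ q η J y) (c : Bool) {n : ℕ}
    {l : ℕ} (hl : l ≤ nn j₀) (hn : S.On (q l) (S.s n)) {t : ℕ} (ht : t < l) :
    ‖e S (η t) false (Q S (q t) (eps S n c (y t)))‖ ≤ 1 / nn j₀ := by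
  have htn : t < nn j₀ := by omega
  have hsup := (h.avg t htn).supp
  have h1 := h.lt' t htn
  have h2 := dep_mono h (k := t + 1) (l := l) (by omega) hl
  rw [h.etaQ t htn]
  cases c with
  | false =>
    have : eps S n false (y t) = y t := by simp [eps]
    rw [this]
    exact h.small t htn false
  | true =>
    rw [Dep1_eps hS (h.on l hl) hn fun i hi c => hsup i (Or.inr (by omega)) c,
      e_false_E hS (h.onη t htn)]
    exact h.small t htn true

/-- the piece without the set restriction, second case -/
theorem Dep1_smallE (hS : Good S) {C : ℝ} {z : ℕ → Bool} {j₀ : ℕ} {q η J : ℕ → ℕ}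
    {y : ℕ → W} (h : DepS S C z j₀ q η J y) (c : Bool) {n : ℕ}
    {l : ℕ} (hl : l ≤ nn j₀) (hn : S.On (q l) (S.s n)) {t : ℕ} (ht : t < l) {z' : ℕ → Bool}
    (hz' : S.On (q t) z' → S.On (q (t + 1)) z') :
    ‖e S (η t) false (Q S (q t) (eps S n c (E S z' (y t))))‖ ≤ 1 / nn j₀ := by
  have htn : t < nn j₀ := by omega
  have hsup := (h.avg t htn).supp
  have h1 := h.lt' t htn
  have h2 := dep_mono h (k := t + 1) (l := l) (by omega) hl
  by_cases hz : S.On (q t) z'
  · have h3 := hz' hz
    have h4 : E S z' (y t) = E S z (y t) :=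
      Dep1_E_eq hS h3 (h.on (t + 1) (by omega)) fun i hi c => hsup i (Or.inr (by omega)) c
    have h5 : eps S n c (E S z (y t)) = E S z (y t) := by
      cases c with
      | false => simp [eps]
      | true =>
        rw [Dep1_eps hS (h.on l hl) hn fun i hi c => ?_, E_idem]
        exact Mult_supp (Mult_E S z) (fun c => hsup i (Or.inr (by omega)) c) c
    rw [h.etaQ t htn, h4, h5, e_false_E hS (h.onη t htn)]
    exact h.small t htn true
  · have h6 : Q S (q t) (eps S n c (E S z' (y t))) = 0 := by
      unfold Q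
      rw [← Bd_eps_res]
      have h7 : res (S.cone (q t)) (E S z' (y t)) = 0 := Q_E_eq_zero hS hz (y t)
      rw [h7, map_zero]
    rw [h6, map_zero, norm_zero]
    positivity

/-- For every multiplier `m` all but at most four pieces are harmless: with `m' = Q (q t) (eps (q l) c) m` (the
multiplier in front of the piece `t < l`), `e_{η t}(m' y_t)` is `0`, `e_{η t, false}(y_t)` or
`e_{η t, true}(y_t)`, except if the interval `(q t, q (t+1))` contains an end of the interval of `m` or the
index of its cone, or if `z'` (from `m = res A ∘ E z'`) leaves `z` between `q t` and `q (t+1)`.  (On vectors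
supported below `q (t+1)` one has `E z' = E z` if `q (t+1)` is on `z'`, and `Q (q t) E z' = 0` if `q t` is not
on `z'`; `e_{η t, false} E z = e_{η t, true}`; `etaQ`.) -/
theorem dep_piece (hS : Good S) {C : ℝ} (hC : 1 ≤ C) {z : ℕ → Bool} {j₀ : ℕ} {q η J : ℕ → ℕ}
    {y : ℕ → W} (h : DepS S C z j₀ q η J y) {m : W →ₗ[ℂ] W} (hm : Mult S m) (c : Bool) {n : ℕ}
    {l : ℕ} (hl : l ≤ nn j₀) (hn : S.On (q l) (S.s n)) (hqn : q l ≤ n) :
    ∑ t ∈ Finset.range l, ‖e S (η t) false (Q S (q t) (eps S n c (m (y t))))‖ ≤ 4 * C + 1 := by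
  classical
  have hC0 : 0 ≤ C := by linarith
  have hnn : (0 : ℝ) < nn j₀ := by exact_mod_cast nn_pos j₀
  -- the bound of every single piece
  have hbd : ∀ t, t < l → ‖e S (η t) false (Q S (q t) (eps S n c (m (y t))))‖ ≤ C := by
    intro t ht
    have := (h.avg t (by omega)).nb _
      (Mult_comp hS (Mult_Q S (q t)) (Mult_comp hS (Mult_eps S n c) hm)) (η t) false
    simpa only [LinearMap.comp_apply] using this
  -- the exceptional indices
  obtain ⟨a, b, p, B, hB, hterm⟩ : ∃ (a b p : ℕ) (B : ℕ → Prop),
      (∀ s t, s < t → t < l → B s → B t → False) ∧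
      ∀ t, t < l → ¬ (q t < a ∧ a < η t) → ¬ (q t < b ∧ b < η t) → ¬ (q t < p ∧ p < η t) →
        ¬ B t → ‖e S (η t) false (Q S (q t) (eps S n c (m (y t))))‖ ≤ 1 / nn j₀ := by
    obtain ⟨A, hA, hm⟩ := hm
    obtain ⟨a, b, p, habp⟩ := Dep1_adm hS hA
    have hQ : ∀ v : W, ∀ t, Q S (q t) (eps S n c (res A v)) = Q S (q t) (res A (eps S n c v)) := by
      intro v t
      rw [Bd_eps_res]
    rcases hm with rfl | ⟨z', rfl⟩
    · refine ⟨a, b, p, fun _ => False, fun _ _ _ _ h _ => h, fun t ht h1 h2 h3 _ => ?_⟩
      have hsup := Sup_Mult (Mult_eps S n c) ((h.avg t (by omega)).supp)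
      rw [hQ]
      rcases habp (q t) (η t) h1 h2 h3 with h4 | h4
      · rw [Dep1_res_zero h4 hsup, map_zero, norm_zero]
        positivity
      · rw [Dep1_res_full h4 hsup]
        exact Dep1_small hS h c hl hn ht
    · refine ⟨a, b, p, fun t => S.On (q t) z' ∧ ¬ S.On (q (t + 1)) z', ?_,
        fun t ht h1 h2 h3 h5 => ?_⟩
      · intro s t hst htl hs ht
        apply hs.2
        have h6 := dep_mono h (k := s + 1) (l := t) (by omega) (by omega)
        exact (on_iff hS h6 ht.1 (h.on t (by omega))).2 (h.on (s + 1) (by omega))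
      · have hsup := Sup_Mult (Mult_eps S n c) (Sup_Mult (Mult_E S z')
          ((h.avg t (by omega)).supp))
        rw [LinearMap.comp_apply, hQ]
        rcases habp (q t) (η t) h1 h2 h3 with h4 | h4
        · rw [Dep1_res_zero h4 hsup, map_zero, norm_zero]
          positivity
        · rw [Dep1_res_full h4 hsup]
          exact Dep1_smallE hS h c hl hn ht fun h6 => by
            by_contra h7
            exact h5 ⟨h6, h7⟩
  have hone : ∀ a : ℕ, ∀ s t, s < t → t < l → (q s < a ∧ a < η s) → (q t < a ∧ a < η t) →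
      False := by
    intro a s t hst htl h1 h2
    have h3 := h.lt' s (by omega)
    have h4 := dep_mono h (k := s + 1) (l := t) (by omega) (by omega)
    omega
  calc ∑ t ∈ Finset.range l, ‖e S (η t) false (Q S (q t) (eps S n c (m (y t))))‖
      ≤ ∑ t ∈ Finset.range l, ((if q t < a ∧ a < η t then C else 0) +
          (if q t < b ∧ b < η t then C else 0) + (if q t < p ∧ p < η t then C else 0) +
          (if B t then C else 0) + 1 / (nn j₀ : ℝ)) := by
        refine Finset.sum_le_sum fun t ht => ?_
        rw [Finset.mem_range] at ht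
        have h1 := hbd t ht
        have hnn' : 0 ≤ 1 / (nn j₀ : ℝ) := by positivity
        have pos : ∀ (P : Prop) [Decidable P], (0 : ℝ) ≤ if P then C else 0 := by
          intro P _
          split_ifs
          · exact hC0
          · exact le_rfl
        have p1 := pos (q t < a ∧ a < η t)
        have p2 := pos (q t < b ∧ b < η t)
        have p3 := pos (q t < p ∧ p < η t)
        have p4 := pos (B t)
        by_cases e1 : q t < a ∧ a < η t
        · rw [if_pos e1]
          linarith
        · by_cases e2 : q t < b ∧ b < η t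
          · rw [if_pos e2]
            linarith
          · by_cases e3 : q t < p ∧ p < η t
            · rw [if_pos e3]
              linarith
            · by_cases e4 : B t
              · rw [if_pos e4]
                linarith
              · have := hterm t ht e1 e2 e3 e4
                linarith
    _ = (∑ t ∈ Finset.range l, (if q t < a ∧ a < η t then C else 0)) +
          (∑ t ∈ Finset.range l, (if q t < b ∧ b < η t then C else 0)) +
          (∑ t ∈ Finset.range l, (if q t < p ∧ p < η t then C else 0)) +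
          (∑ t ∈ Finset.range l, (if B t then C else 0)) + l * (1 / (nn j₀ : ℝ)) := by
        rw [Finset.sum_add_distrib, Finset.sum_add_distrib, Finset.sum_add_distrib,
          Finset.sum_add_distrib, Finset.sum_const, Finset.card_range, nsmul_eq_mul]
    _ ≤ C + C + C + C + 1 := by
        have s1 := Dep1_one hC0 l (fun t => q t < a ∧ a < η t) (hone a)
        have s2 := Dep1_one hC0 l (fun t => q t < b ∧ b < η t) (hone b)
        have s3 := Dep1_one hC0 l (fun t => q t < p ∧ p < η t) (hone p)
        have s4 := Dep1_one hC0 l B hB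
        have s5 : (l : ℝ) * (1 / (nn j₀ : ℝ)) ≤ 1 := by
          rw [mul_one_div, div_le_one hnn]
          exact_mod_cast hl
        linarith
    _ = 4 * C + 1 := by ring

/-- the functionals of the chain (the coordinates at `q l` vanish; a piece sees one block only) -/
theorem dep_chain (hS : Good S) {C : ℝ} (hC : 1 ≤ C) {z : ℕ → Bool} {j₀ : ℕ} {q η J : ℕ → ℕ}
    {y : ℕ → W} (h : DepS S C z j₀ q η J y) {l : ℕ} (h1 : 1 ≤ l) (hl : l ≤ nn j₀) (c : Bool)
    {m : W →ₗ[ℂ] W} (hm : Mult S m) {a b : ℕ} (hab : a ≤ b) (hb : b ≤ nn j₀) :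
    ‖e S (q l) c (m (∑ k ∈ Finset.Ico a b, y k))‖ ≤ 5 * C := by
  classical
  have hC0 : 0 ≤ C := by linarith
  set u : W := ∑ k ∈ Finset.Ico a b, y k with hu
  set v : W := m u with hv
  set ep : W → W := fun w => if c then E S z w else w with hep
  -- coordinates at `q l'` vanish
  have hcoord : ∀ l', l' ≤ nn j₀ → ∀ c', v (q l') c' = 0 := by
    intro l' hl' c'
    refine Mult_supp hm (fun c'' => ?_) c'
    rw [hu, Finset.sum_apply, Finset.sum_apply]
    refine Finset.sum_eq_zero fun k hk => ?_
    rw [Finset.mem_Ico] at hk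
    refine (h.avg k (by omega)).supp _ ?_ c''
    rcases lt_or_ge k l' with h2 | h2
    · right
      have h3 := h.lt' k (by omega)
      have h4 := dep_mono h (k := k + 1) (l := l') (by omega) hl'
      omega
    · left
      have h4 := dep_mono h (k := l') (l := k) (by omega) (by omega)
      omega
  -- locality of the pieces
  have heps : ∀ l', l' ≤ nn j₀ → ∀ t, t < l' →
      e S (η t) false (Q S (q t) (eps S (q l') c v)) = e S (η t) false (Q S (q t) (ep v)) := by
    intro l' hl' t ht
    refine e_congr hS fun i hi c' => ?_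
    refine eb_Q_congr _ (fun c'' => ?_) c'
    have h1 := h.lt' t (by omega)
    have h2 := dep_mono h (k := t + 1) (l := l') (by omega) hl'
    cases c with
    | false => simp [eps, hep]
    | true =>
      have h3 := E_congr hS (h.on l' hl') v (i := i) (by omega) c''
      simpa [eps, hep] using h3
  -- the formula for the functional
  have hform : ∀ l', 1 ≤ l' → l' ≤ nn j₀ → e S (q l') c v =
      (wt j₀ : ℂ) * ∑ t ∈ Finset.range l', e S (η t) false (Q S (q t) (ep v)) := by
    intro l' h1 hl'
    induction l', h1 using Nat.le_induction with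
    | base =>
      have hd := h.dat 0 (by omega)
      have hlt := h.lt' 0 (by omega)
      rw [zero_add] at hd hlt
      rw [e_some hS hd, hcoord 1 hl']
      simp only [ne_eq, not_true_eq_false, decide_false, Bool.false_eq_true, if_false, add_zero,
        zero_add]
      rw [bf_dl hlt, heps 1 hl' 0 (by omega), Finset.sum_range_one]
    | succ l' h1 ih =>
      have hd := h.dat l' (by omega)
      have hlt := h.lt' l' (by omega)
      rw [e_some hS hd, hcoord (l' + 1) hl']
      have hne : l' ≠ 0 := by omega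
      simp only [ne_eq, hne, not_false_eq_true, decide_true, if_true, zero_add]
      rw [bf_dl hlt, heps (l' + 1) hl' l' (by omega), ih (by omega), Finset.sum_range_succ,
        mul_add]
  -- the pieces see one block only
  have hone : ∀ t, t < l → ‖e S (η t) false (Q S (q t) (eps S (q l) c v))‖ ≤
      ‖e S (η t) false (Q S (q t) (eps S (q l) c (m (y t))))‖ := by
    intro t ht
    set L : W →ₗ[ℂ] ℂ := (e S (η t) false).comp ((Q S (q t)).comp ((eps S (q l) c).comp m))
      with hL
    have hLa : ∀ w, e S (η t) false (Q S (q t) (eps S (q l) c (m w))) = L w := fun w => rfl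
    have hmult : Mult S ((eps S (q l) c).comp m) := Mult_comp hS (Mult_eps S _ c) hm
    have hz : ∀ k, k < nn j₀ → k ≠ t → L (y k) = 0 := by
      intro k hk hkt
      have hs := (h.avg k hk).supp
      rcases lt_or_gt_of_ne hkt with h2 | h2
      · have h3 : Q S (q t) (((eps S (q l) c).comp m) (y k)) = 0 := by
          funext i c'
          rw [Bd_Q_apply]
          split_ifs with h4
          · refine Mult_supp hmult (fun c'' => hs i (Or.inr ?_) c'') c'
            have h5 := h4.1
            have h6 := h.lt' k (by omega)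
            have h7 := dep_mono h (k := k + 1) (l := t) (by omega) (by omega)
            omega
          · rfl
        change e S (η t) false (Q S (q t) (((eps S (q l) c).comp m) (y k))) = 0
        rw [h3, map_zero]
      · change e S (η t) false (Q S (q t) (((eps S (q l) c).comp m) (y k))) = 0
        refine e_eq_zero hS fun i hi c' => ?_
        refine Mult_supp (Mult_Q S (q t)) (fun c'' => ?_) c'
        refine Mult_supp hmult (fun c3 => hs i (Or.inl ?_) c3) c''
        have h6 := h.lt' t (by omega)
        have h7 := dep_mono h (k := t + 1) (l := k) (by omega) (by omega)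
        omega
    have hsum : L u = if t ∈ Finset.Ico a b then L (y t) else 0 := by
      rw [hu, map_sum]
      split_ifs with h2
      · exact Finset.sum_eq_single t (fun k hk hkt => hz k (by
          rw [Finset.mem_Ico] at hk
          omega) hkt) fun h3 => absurd h2 h3
      · refine Finset.sum_eq_zero fun k hk => hz k (by
          rw [Finset.mem_Ico] at hk
          omega) ?_
        rintro rfl
        exact h2 hk
    rw [hv, hLa, hLa, hsum]
    split_ifs
    · exact le_rfl
    · rw [norm_zero]
      exact norm_nonneg _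
  rw [hform l h1 hl, norm_mul, Complex.norm_real, Real.norm_eq_abs, abs_of_pos (wt_pos j₀)]
  have hs1 : ‖∑ t ∈ Finset.range l, e S (η t) false (Q S (q t) (ep v))‖ ≤ 4 * C + 1 := by
    refine (norm_sum_le _ _).trans ?_
    refine le_trans (Finset.sum_le_sum fun t ht => ?_)
      (dep_piece hS hC h hm c (n := q l) hl (fun _ _ => rfl) le_rfl)
    rw [Finset.mem_range] at ht
    rw [← heps l hl t ht]
    exact hone t ht
  have hw := wt_le j₀
  have hw' : wt j₀ ≤ 1 := hw.trans (by norm_num)
  calc wt j₀ * ‖∑ t ∈ Finset.range l, e S (η t) false (Q S (q t) (ep v))‖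
      ≤ 1 * (4 * C + 1) := mul_le_mul hw' hs1 (norm_nonneg _) zero_le_one
    _ ≤ 5 * C := by linarith

end Pool.Agent.W8d7136
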