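import Pool.Agent.W_MP_8d7136_h58.Dep1
import Pool.Agent.W_MP_8d7136_h58.CountS

set_option autoImplicit false

/-!
Dependent sequences: all functionals of weight `j₀`, and the norm of the average.
-/

namespace Pool.Agent.W8d7136

variable {S : Sys}

/-- multipliers do not increase coordinates -/
theorem Dep2_mult_le {m : W →ₗ[ℂ] W} (hm : Mult S m) {v : W} {i : ℕ} {B : ℝ} (hB : 0 ≤ B)
    (hv : ∀ c, ‖v i c‖ ≤ B) (c : Bool) : ‖m v i c‖ ≤ B := by
  classical
  obtain ⟨A, -, hm⟩ := hm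
  rcases hm with rfl | ⟨z, rfl⟩
  · rw [res_apply]
    split_ifs
    · exact hv c
    · rwa [norm_zero]
  · rw [LinearMap.comp_apply, res_apply]
    split_ifs
    · rw [E_apply]
      split_ifs
      · exact hv true
      · rwa [norm_zero]
    · rwa [norm_zero]

/-- the coordinates -/
theorem Dep2_coord (hS : Good S) {C : ℝ} (hC : 1 ≤ C) {z : ℕ → Bool} {j₀ : ℕ} (hj : 1 ≤ j₀)
    {q η J : ℕ → ℕ} {y : ℕ → W} (h : DepS S C z j₀ q η J y) {a b : ℕ} (hb : b ≤ nn j₀)
    (i : ℕ) (c : Bool) : ‖(∑ k ∈ Finset.Ico a b, y k) i c‖ ≤ C / nn j₀ := by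
  have hC0 : 0 ≤ C := by linarith
  have hnn : (0 : ℝ) < nn j₀ := by exact_mod_cast nn_pos j₀
  rw [Finset.sum_apply, Finset.sum_apply]
  by_cases hex : ∃ k ∈ Finset.Ico a b, y k i c ≠ 0
  · obtain ⟨k, hk, hne⟩ := hex
    have hk' := Finset.mem_Ico.1 hk
    have hsup : ∀ k', k' < nn j₀ → y k' i c ≠ 0 → q k' + 1 ≤ i ∧ i < η k' := by
      intro k' h1 h2
      by_contra hcon
      exact h2 ((h.avg k' h1).supp i (by omega) c)
    have h1 := hsup k (by omega) hne
    have hz : ∀ k' ∈ Finset.Ico a b, k' ≠ k → y k' i c = 0 := by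
      intro k' hk2 hne2
      by_contra hcon
      rw [Finset.mem_Ico] at hk2
      have h2 := hsup k' (by omega) hcon
      rcases lt_or_gt_of_ne hne2 with h3 | h3
      · have h4 := h.lt' k' (by omega)
        have h5 := dep_mono h (k := k' + 1) (l := k) (by omega) (by omega)
        omega
      · have h4 := h.lt' k (by omega)
        have h5 := dep_mono h (k := k + 1) (l := k') (by omega) (by omega)
        omega
    rw [Finset.sum_eq_single k hz fun h2 => absurd hk h2]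
    refine ((h.avg k (by omega)).co i c).trans ?_
    have h2 := (big_weight hj ((dep_J hS h).2 k (by omega))).2.2
    calc C * (mm (J k) / nn (J k) : ℝ) ≤ C * (1 / nn j₀) := mul_le_mul_of_nonneg_left h2 hC0
      _ = C / nn j₀ := by ring
  · push Not at hex
    rw [Finset.sum_eq_zero hex, norm_zero]
    positivity

/-- the pieces which do not match -/
theorem Dep2_piece (hS : Good S) {C : ℝ} (hC : 1 ≤ C) {z : ℕ → Bool} {j₀ : ℕ} (hj : 1 ≤ j₀)
    {q η J : ℕ → ℕ} {y : ℕ → W} (h : DepS S C z j₀ q η J y) {i g : ℕ} (hi : Wt S i g)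
    (hg : nn j₀ ^ 2 ≤ mm g) {m : W →ₗ[ℂ] W} (hm : Mult S m) {a b : ℕ} (hb : b ≤ nn j₀) :
    ‖e S i false (m (∑ k ∈ Finset.Ico a b, y k))‖ ≤
      C / nn j₀ + if (∃ k ∈ Finset.Ico a b, J k = g) then C else 0 := by
  classical
  have hC0 : 0 ≤ C := by linarith
  have hnn : (0 : ℝ) < nn j₀ := by exact_mod_cast nn_pos j₀
  have hwg : wt g ≤ 1 / (nn j₀ : ℝ) ^ 2 := (big_weight hj hg).2.1
  have hterm : ∀ k ∈ Finset.Ico a b, ‖e S i false (m (y k))‖ ≤
      C * (1 / (nn j₀ : ℝ) ^ 2) + if J k = g then C else 0 := by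
    intro k hk
    rw [Finset.mem_Ico] at hk
    have hav := h.avg k (by omega)
    have hpos : 0 ≤ C * (1 / (nn j₀ : ℝ) ^ 2) := by positivity
    rcases lt_trichotomy (J k) g with h1 | h1 | h1
    · rw [if_neg (by omega), add_zero]
      refine (hav.gt m hm g h1 i false hi).trans ?_
      exact mul_le_mul_of_nonneg_left (big_weight hj ((dep_J hS h).2 k (by omega))).2.1 hC0
    · rw [if_pos h1]
      have := hav.nb m hm i false
      linarith
    · rw [if_neg (by omega), add_zero]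
      refine (hav.lt m hm g h1 i false hi).trans ?_
      exact mul_le_mul_of_nonneg_left hwg hC0
  have hsum : ‖e S i false (m (∑ k ∈ Finset.Ico a b, y k))‖ ≤
      ∑ k ∈ Finset.Ico a b, ‖e S i false (m (y k))‖ := by
    rw [map_sum, map_sum]
    exact norm_sum_le _ _
  refine hsum.trans ((Finset.sum_le_sum hterm).trans ?_)
  rw [Finset.sum_add_distrib, Finset.sum_const, Nat.card_Ico, nsmul_eq_mul]
  have h1 : ((b - a : ℕ) : ℝ) * (C * (1 / (nn j₀ : ℝ) ^ 2)) ≤ C / nn j₀ := by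
    have h2 : ((b - a : ℕ) : ℝ) ≤ nn j₀ := by
      have : b - a ≤ nn j₀ := by omega
      exact_mod_cast this
    calc ((b - a : ℕ) : ℝ) * (C * (1 / (nn j₀ : ℝ) ^ 2))
        ≤ (nn j₀ : ℝ) * (C * (1 / (nn j₀ : ℝ) ^ 2)) :=
          mul_le_mul_of_nonneg_right h2 (by positivity)
      _ = C / nn j₀ := by
        field_simp
  refine add_le_add h1 ?_
  split_ifs with hex
  · obtain ⟨k, hk, hkg⟩ := hex
    rw [Finset.sum_eq_single k]
    · rw [if_pos hkg]
    · intro k' hk' hne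
      rw [if_neg]
      intro h2
      rw [Finset.mem_Ico] at hk hk'
      rcases lt_or_gt_of_ne hne with h3 | h3
      · have := (dep_J hS h).1 k' k h3 (by omega)
        omega
      · have := (dep_J hS h).1 k k' h3 (by omega)
        omega
    · intro h2
      exact absurd hk h2
  · refine le_of_eq (Finset.sum_eq_zero fun k hk => ?_)
    rw [if_neg]
    intro h2
    exact hex ⟨k, hk, h2⟩

theorem Dep2_main (hS : Good S) {C : ℝ} (hC : 1 ≤ C) {z : ℕ → Bool} {j₀ : ℕ} (hj : 1 ≤ j₀)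
    {q η J : ℕ → ℕ} {y : ℕ → W} (h : DepS S C z j₀ q η J y) (c : Bool)
    {m : W →ₗ[ℂ] W} (hm : Mult S m) {a b : ℕ} (hab : a ≤ b) (hb : b ≤ nn j₀) (n : ℕ) :
    ∀ d, S.D n = some d → d.j = j₀ →
      ‖e S n c (m (∑ k ∈ Finset.Ico a b, y k))‖ ≤ 8 * C + d.age * (2 * (C / nn j₀)) := by
  classical
  have hC0 : 0 ≤ C := by linarith
  have hnn : (1 : ℝ) ≤ nn j₀ := by exact_mod_cast nn_pos j₀
  have hCn0 : 0 ≤ C / nn j₀ := by positivity
  have hCn : C / nn j₀ ≤ C := div_le_self hC0 hnn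
  have hw0 := (wt_pos j₀).le
  have hw1 : wt j₀ ≤ 1 := (wt_le j₀).trans (by norm_num)
  induction n using Nat.strong_induction_on with
  | _ n ih =>
    intro d hd hdj
    obtain ⟨hp, hon, hjn⟩ := hS.lt n d hd
    have hodd : Odd d.j := by rw [hdj]; exact h.odd
    obtain ⟨i, g, hin, hig, hdb, hf, ht⟩ := hS.odd n d hd hodd
    have hcoord : ‖m (∑ k ∈ Finset.Ico a b, y k) n c‖ ≤ C / nn j₀ :=
      Dep2_mult_le hm hCn0 (fun c' => Dep2_coord hS hC hj h hb n c') c
    have hmm : Mult S ((Q S d.p).comp ((eps S n c).comp m)) :=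
      Mult_comp hS (Mult_Q S d.p) (Mult_comp hS (Mult_eps S n c) hm)
    have hgg : nn j₀ ^ 2 ≤ mm g := by
      cases hχ : d.chi with
      | false =>
        have := (hf hχ).1
        rwa [hdj] at this
      | true =>
        obtain ⟨d', hd', hj', -⟩ := hS.age2 n d hd hχ
        have h1 := (hS.lt _ d' hd').2.2
        rw [hj', hdj] at h1
        rw [ht hχ]
        exact (Nat.pow_le_pow_left (nn_mono h1) 2).trans (nn_sq_le_code _)
    have hpiece := Dep2_piece hS hC hj h hig hgg hmm (a := a) hb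
    have he := e_some hS hd c (m (∑ k ∈ Finset.Ico a b, y k))
    rw [hdb, bf_dl hin, hdj] at he
    have hpe : ‖(wt j₀ : ℂ) * e S i false (Q S d.p (eps S n c (m (∑ k ∈ Finset.Ico a b, y k))))‖ ≤
        C / nn j₀ + if (∃ k ∈ Finset.Ico a b, J k = g) then C else 0 := by
      rw [norm_mul, Complex.norm_real, Real.norm_eq_abs, abs_of_nonneg hw0]
      refine le_trans ?_ hpiece
      calc wt j₀ * ‖e S i false (Q S d.p (eps S n c (m (∑ k ∈ Finset.Ico a b, y k))))‖
          ≤ 1 * ‖e S i false (Q S d.p (eps S n c (m (∑ k ∈ Finset.Ico a b, y k))))‖ :=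
            mul_le_mul_of_nonneg_right hw1 (norm_nonneg _)
        _ = _ := one_mul _
    have hage0 : 0 ≤ (d.age : ℝ) * (2 * (C / nn j₀)) := by positivity
    have hno : ‖e S n c (m (∑ k ∈ Finset.Ico a b, y k))‖ ≤ C / nn j₀ +
        ‖(if d.chi = true then e S d.p c (m (∑ k ∈ Finset.Ico a b, y k)) else 0)‖ +
        (C / nn j₀ + if (∃ k ∈ Finset.Ico a b, J k = g) then C else 0) := by
      rw [he]
      refine (norm_add_le _ _).trans (add_le_add ((norm_add_le _ _).trans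
        (add_le_add hcoord le_rfl)) hpe)
    cases hχ : d.chi with
    | false =>
      rw [hχ] at hno
      simp only [Bool.false_eq_true, if_false, norm_zero, add_zero] at hno
      have hite : (if (∃ k ∈ Finset.Ico a b, J k = g) then C else 0) ≤ C := by
        split_ifs
        · exact le_rfl
        · exact hC0
      linarith
    | true =>
      rw [hχ] at hno
      simp only [if_true] at hno
      obtain ⟨d', hd', hj', hage⟩ := hS.age2 n d hd hχ
      by_cases hex : ∃ k ∈ Finset.Ico a b, J k = g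
      · rw [if_pos hex] at hno
        obtain ⟨k, hk, hkg⟩ := hex
        rw [Finset.mem_Ico] at hk
        rw [ht hχ] at hkg
        have hk0 : 0 < k := by
          rcases Nat.eq_zero_or_pos k with h0 | h0
          · rw [h0] at hkg
            have h1 := h.J0.2
            rw [hkg, code_mod] at h1
            omega
          · exact h0
        have hpk : q k = d.p := by
          rw [h.Jc k hk0 (by omega)] at hkg
          exact code_strictMono.injective hkg
        have hch := dep_chain hS hC h (l := k) hk0 (by omega) c hm hab hb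
        rw [hpk] at hch
        linarith
      · rw [if_neg hex, add_zero] at hno
        have h1 := ih d.p hp d' hd' (hj'.trans hdj)
        rw [hage]
        push_cast
        have h2 : ((d'.age : ℝ) + 1) * (2 * (C / nn j₀)) =
            d'.age * (2 * (C / nn j₀)) + 2 * (C / nn j₀) := by ring
        rw [h2]
        linarith

/-- By strong induction on `n` one proves the bound `7 C + age(n) * 2 C / nn j₀`.
`e_n(u) = u(n,c) + χ e_p(u) + w e_{i}(Q_p eps u)`, `u = m ∑ y_k`, where `i` is the piece of `n`, of weight `h`.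
Coordinate: at most `C / nn j₀` (`big_weight`, every index lies in one block; use `Avg.co`, `res`/`E`
do not increase coordinates).  Piece: for the `k` with `J k ≠ h` the term is at most
`C max (wt h, wt (J k)) ≤ C / nn j₀ ^ 2` (`Avg.lt`, `Avg.gt`, `Mult_comp`; `nn j₀ ^ 2 ≤ mm h` by `Good.odd`,
`nn_sq_le_code`, `nn_mono`), together at most `C / nn j₀`; at most one `k` has `J k = h`, its term is at
most `C`, and if `χ = 1` then `h = code p`, so `k > 0` (`J 0 % 4 = 2`) and `p = q k` (`code` injective).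
So: `χ = 0`: done.  `χ = 1`, `p = q k` for some `1 ≤ k ≤ nn j₀`: use `dep_chain` for `e_p(u)`.  Otherwise no
match: induction hypothesis for `p` (weight `j₀`, age one less). -/
theorem dep_all (hS : Good S) {C : ℝ} (hC : 1 ≤ C) {z : ℕ → Bool} {j₀ : ℕ} (hj : 1 ≤ j₀)
    {q η J : ℕ → ℕ} {y : ℕ → W} (h : DepS S C z j₀ q η J y) {n : ℕ} (hn : Wt S n j₀) (c : Bool)
    {m : W →ₗ[ℂ] W} (hm : Mult S m) {a b : ℕ} (hab : a ≤ b) (hb : b ≤ nn j₀) :
    ‖e S n c (m (∑ k ∈ Finset.Ico a b, y k))‖ ≤ 10 * C := by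
  obtain ⟨d, hd, hdj⟩ := hn
  have hC0 : 0 ≤ C := by linarith
  have hnn : (0 : ℝ) < nn j₀ := by exact_mod_cast nn_pos j₀
  have h1 := Dep2_main hS hC hj h c hm hab hb n d hd hdj
  have h2 : (d.age : ℝ) ≤ nn j₀ := by
    have := hS.age3 n d hd
    rw [hdj] at this
    exact_mod_cast this
  have h3 : (d.age : ℝ) * (2 * (C / nn j₀)) ≤ 2 * C := by
    calc (d.age : ℝ) * (2 * (C / nn j₀)) ≤ nn j₀ * (2 * (C / nn j₀)) :=
          mul_le_mul_of_nonneg_right h2 (by positivity)
      _ = 2 * C := by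
        field_simp
  linarith

/-- `countS` with `B = 10 ^ 9 C`, `t = tt (j₀ + 1) = 2 tt j₀`, `nn_big` -/
theorem dep_norm (hS : Good S) {C : ℝ} (hC : 1 ≤ C) {z : ℕ → Bool} {j₀ : ℕ} (hj : 1 ≤ j₀)
    {q η J : ℕ → ℕ} {y : ℕ → W} (h : DepS S C z j₀ q η J y) :
    NB S (10 ^ 10 * C * wt j₀ ^ 2) (((1 : ℂ) / (nn j₀ : ℂ)) • ∑ k ∈ Finset.range (nn j₀), y k) := by
  intro n c
  have hC0 : 0 ≤ C := by linarith
  have hnn : (0 : ℝ) < nn j₀ := by exact_mod_cast nn_pos j₀
  have hmm := Par_mm_pos j₀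
  have h1 := countS hS hC0 (dep_RIS hS h) hj (B := 10 ^ 9 * C) (by linarith)
    (fun n c m hn hm a b hab hb => (dep_all hS hC hj h hn c hm hab hb).trans (by linarith)) n
    (tt (j₀ + 1)) le_rfl c LinearMap.id (Mult_id S) 0 (nn j₀) (Nat.zero_le _) le_rfl
  rw [LinearMap.id_apply, Nat.Ico_zero_eq_range, Nat.sub_zero] at h1
  rw [map_smul, norm_smul, norm_div, norm_one, Complex.norm_natCast]
  obtain ⟨N, hN⟩ : ∃ N : ℝ, N = (2 * nn (j₀ - 1) : ℝ) := ⟨_, rfl⟩
  have hN1 : 1 ≤ N := by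
    have : (1 : ℝ) ≤ nn (j₀ - 1) := by exact_mod_cast nn_pos (j₀ - 1)
    rw [hN]
    linarith
  have hbig : (nn j₀ : ℝ) = (mm j₀ : ℝ) ^ 4 * N ^ (2 * tt j₀ + 2) := by
    rw [hN]
    exact_mod_cast nn_big hj
  have h2t : (2 : ℝ) ^ tt (j₀ + 1) = (mm j₀ : ℝ) ^ 2 := by
    rw [tt_succ, mm_eq]
    push_cast
    rw [← pow_mul]
    congr 1
    ring
  rw [← hN, h2t, tt_succ] at h1
  have hmm1 : (1 : ℝ) ≤ mm j₀ := by
    have := mm_ge j₀
    have h2 : 1 ≤ mm j₀ := le_trans (by norm_num) this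
    exact_mod_cast h2
  have h3 : N ^ (2 * tt j₀) / nn j₀ ≤ 1 / (mm j₀ : ℝ) ^ 2 := by
    rw [div_le_div_iff₀ hnn (by positivity), hbig, one_mul]
    have h4 : N ^ (2 * tt j₀) ≤ N ^ (2 * tt j₀ + 2) := pow_le_pow_right₀ hN1 (by omega)
    have h5 : (mm j₀ : ℝ) ^ 2 ≤ (mm j₀ : ℝ) ^ 4 := pow_le_pow_right₀ hmm1 (by norm_num)
    rw [mul_comm]
    exact mul_le_mul h5 h4 (by positivity) (by positivity)
  calc 1 / (nn j₀ : ℝ) * ‖e S n c (∑ k ∈ Finset.range (nn j₀), y k)‖
      ≤ 1 / (nn j₀ : ℝ) * (10 ^ 9 * C * ((nn j₀ : ℝ) / (mm j₀ : ℝ) ^ 2 + N ^ (2 * tt j₀))) :=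
        mul_le_mul_of_nonneg_left h1 (by positivity)
    _ = 10 ^ 9 * C * (1 / (mm j₀ : ℝ) ^ 2 + N ^ (2 * tt j₀) / nn j₀) := by
        field_simp
    _ ≤ 10 ^ 9 * C * (1 / (mm j₀ : ℝ) ^ 2 + 1 / (mm j₀ : ℝ) ^ 2) :=
        mul_le_mul_of_nonneg_left (by linarith) (by positivity)
    _ = 2 * 10 ^ 9 * C * wt j₀ ^ 2 := by
        unfold wt
        rw [div_pow, one_pow]
        ring
    _ ≤ 10 ^ 10 * C * wt j₀ ^ 2 := by
        refine mul_le_mul_of_nonneg_right ?_ (by positivity)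
        linarith

end Pool.Agent.W8d7136
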