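import Pool.Agent.W_MP_8d7136_h58.Defs

set_option autoImplicit false

/-!
Dependent sequences.
-/

namespace Pool.Agent.W8d7136

/-- dependent sequences of odd weight `j₀` along the branch `z`: the pieces `l < nn j₀`; the functional `q (l+1)`
has parent `q l` and piece `η l`, which has weight `J l`; `y l` is an average of weight `J l` supported strictly
between `q l` and `η l`, (almost) annihilated by the full and the on-branch functional of `η l` -/
structure DepS (S : Sys) (C : ℝ) (z : ℕ → Bool) (j₀ : ℕ) (q η J : ℕ → ℕ) (y : ℕ → W) : Prop where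
  odd : Odd j₀
  on : ∀ l, l ≤ nn j₀ → S.On (q l) z
  onη : ∀ l, l < nn j₀ → S.On (η l) z
  lt : ∀ l, l < nn j₀ → q l + 1 < η l
  lt' : ∀ l, l < nn j₀ → η l < q (l + 1)
  dat : ∀ l, l < nn j₀ → S.D (q (l + 1)) = some ⟨decide (l ≠ 0), q l, j₀, dl (η l), l + 1⟩
  wtη : ∀ l, l < nn j₀ → Wt S (η l) (J l)
  J0 : nn j₀ ^ 2 ≤ mm (J 0) ∧ J 0 % 4 = 2
  Jc : ∀ l, 0 < l → l < nn j₀ → J l = code (q l)
  etaQ : ∀ l, l < nn j₀ → ∀ v, e S (η l) false (Q S (q l) v) = e S (η l) false v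
  small : ∀ l, l < nn j₀ → ∀ c, ‖e S (η l) c (y l)‖ ≤ 1 / nn j₀
  avg : ∀ l, l < nn j₀ → Avg S C (q l + 1) (η l) (J l) (y l)

end Pool.Agent.W8d7136
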