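import Pool.Agent.W_MP_8d7136_h58.Defs

set_option autoImplicit false

/-!
The recursion for the functionals, locality, branches and cones.
-/

namespace Pool.Agent.W8d7136

variable {S : Sys}

theorem e_none {n : ℕ} (h : S.D n = none) (c : Bool) (v : W) : e S n c v = v n c := by
  rw [e, h]
  rfl

theorem eb_bf_apply (n : ℕ) (b : ℕ → Bool → ℂ) (v : W) :
    bf S n b v = ∑ i ∈ Finset.range n, ∑ c : Bool, b i c * e S i c v := by
  simp only [bf, LinearMap.sum_apply, LinearMap.smul_apply, smul_eq_mul]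

/-- the recursion -/
theorem e_some (hS : Good S) {n : ℕ} {d : Dat} (h : S.D n = some d) (c : Bool) (v : W) :
    e S n c v = v n c + (if d.chi = true then e S d.p c v else 0) +
      (wt d.j : ℂ) * bf S n d.b (Q S d.p (eps S n c v)) := by
  have hp := (hS.lt n d h).1
  rw [e, h]
  simp only [hp, and_true]
  rw [eb_bf_apply, Finset.sum_range]
  simp only [LinearMap.add_apply, LinearMap.smul_apply, LinearMap.sum_apply, LinearMap.comp_apply, smul_eq_mul]
  split_ifs with hc
  · rw [add_assoc]
    rfl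
  · rw [LinearMap.zero_apply, add_assoc]
    rfl

theorem bf_apply (n : ℕ) (b : ℕ → Bool → ℂ) (v : W) :
    bf S n b v = ∑ i ∈ Finset.range n, ∑ c : Bool, b i c * e S i c v := eb_bf_apply n b v

/-- `bf` does not depend on `n` beyond the support of `b` -/
theorem bf_eq {n n' : ℕ} (hn : n ≤ n') {b : ℕ → Bool → ℂ} (hb : ∀ i, n ≤ i → ∀ c, b i c = 0) (v : W) :
    bf S n' b v = bf S n b v := by
  rw [bf_apply, bf_apply]
  symm
  refine Finset.sum_subset (Finset.range_mono hn) fun i _ hi => ?_
  rw [Finset.mem_range, not_lt] at hi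
  refine Finset.sum_eq_zero fun c _ => ?_
  rw [hb i hi c, zero_mul]

theorem bf_dl {n i : ℕ} (hi : i < n) (v : W) : bf S n (dl i) v = e S i false v := by
  rw [bf_apply, Finset.sum_eq_single i]
  · simp [dl]
  · intro i' _ hne
    refine Finset.sum_eq_zero fun c _ => ?_
    simp [dl, hne]
  · intro h
    exact absurd (Finset.mem_range.2 hi) h

theorem eb_Q_eps (n p : ℕ) (c : Bool) {v v' : W} {i : ℕ} (h : ∀ c, v i c = v' i c) (c' : Bool) :
    Q S p (eps S n c v) i c' = Q S p (eps S n c v') i c' := by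
  cases c with
  | false =>
    simp only [Q, res, eps, LinearMap.coe_mk, AddHom.coe_mk, Bool.false_eq_true, if_false, LinearMap.id_apply]
    rw [h]
  | true =>
    simp only [Q, res, eps, E, LinearMap.coe_mk, AddHom.coe_mk, if_true]
    rw [h]

/-- locality: `e n c` depends on the coordinates `≤ n` only -/
theorem e_congr (hS : Good S) {n : ℕ} {c : Bool} {v v' : W} (h : ∀ i, i ≤ n → ∀ c, v i c = v' i c) :
    e S n c v = e S n c v' := by
  induction n using Nat.strong_induction_on generalizing c v v' with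
  | _ n ih =>
    cases hd : S.D n with
    | none => rw [e_none hd, e_none hd, h n le_rfl]
    | some d =>
      have hp := (hS.lt n d hd).1
      rw [e_some hS hd, e_some hS hd, h n le_rfl, bf_apply, bf_apply]
      rw [ih d.p hp (c := c) (v := v) (v' := v') fun i hi => h i (hi.trans hp.le)]
      congr 2
      refine Finset.sum_congr rfl fun i hi => Finset.sum_congr rfl fun c' _ => ?_
      rw [Finset.mem_range] at hi
      rw [ih i hi fun i' hi' c'' => eb_Q_eps n d.p c (h i' (hi'.trans hi.le)) c'']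

theorem e_eq_zero (hS : Good S) {n : ℕ} {c : Bool} {v : W} (h : ∀ i, i ≤ n → ∀ c, v i c = 0) :
    e S n c v = 0 := by
  rw [e_congr hS (v' := 0) h, map_zero]

theorem bf_congr (hS : Good S) {n : ℕ} {b : ℕ → Bool → ℂ} {v v' : W}
    (h : ∀ i, i < n → ∀ c, v i c = v' i c) : bf S n b v = bf S n b v' := by
  rw [bf_apply, bf_apply]
  refine Finset.sum_congr rfl fun i hi => Finset.sum_congr rfl fun c' _ => ?_
  rw [Finset.mem_range] at hi
  rw [e_congr hS fun i' hi' => h i' (hi'.trans_lt hi)]

theorem bf_eq_zero (hS : Good S) {n : ℕ} {b : ℕ → Bool → ℂ} {v : W}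
    (h : ∀ i, i < n → ∀ c, v i c = 0) : bf S n b v = 0 := by
  rw [bf_congr hS (v' := 0) h, map_zero]

/-- transitivity of `On` (`p ≤ q` gives `len p ≤ len q`) -/
theorem on_trans (hS : Good S) {p q : ℕ} (hpq : p ≤ q) {z : ℕ → Bool} (h1 : S.On p (S.s q))
    (h2 : S.On q z) : S.On p z := by
  intro i hi
  rw [h1 i hi, h2 i (hi.trans_le (hS.mono hpq))]

theorem on_of_on (hS : Good S) {p q : ℕ} (hpq : p ≤ q) {z : ℕ → Bool} (h1 : S.On p z)
    (h2 : S.On q z) : S.On p (S.s q) := by
  intro i hi
  rw [h1 i hi, h2 i (hi.trans_le (hS.mono hpq))]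

/-- two branches through `q` agree for the indices `p ≤ q` -/
theorem on_iff (hS : Good S) {p q : ℕ} (hpq : p ≤ q) {z z' : ℕ → Bool} (h1 : S.On q z)
    (h2 : S.On q z') : S.On p z ↔ S.On p z' :=
  ⟨fun h => on_trans hS hpq (on_of_on hS hpq h h1) h2, fun h => on_trans hS hpq (on_of_on hS hpq h h2) h1⟩

theorem cone_sub (hS : Good S) {p q : ℕ} (hpq : p ≤ q) (h : S.On p (S.s q)) :
    S.cone q ⊆ S.cone p := by
  rintro i ⟨h1, h2⟩
  exact ⟨hpq.trans_lt h1, on_trans hS hpq h h2⟩

theorem cone_disj (hS : Good S) {p q : ℕ} (hpq : p ≤ q) (h : ¬ S.On p (S.s q)) :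
    Disjoint (S.cone p) (S.cone q) := by
  rw [Set.disjoint_left]
  rintro i ⟨h1, h2⟩ ⟨h3, h4⟩
  exact h (on_of_on hS hpq h2 h4)

/-- `E (s n)` and `E z` agree on the coordinates `≤ n` if `n` is on `z` -/
theorem E_congr (hS : Good S) {n : ℕ} {z : ℕ → Bool} (h : S.On n z) (v : W) {i : ℕ} (hi : i ≤ n)
    (c : Bool) : E S (S.s n) v i c = E S z v i c := by
  have h1 : S.On i (S.s n) ↔ S.On i z := on_iff hS hi (fun _ _ => rfl) h
  simp only [E, LinearMap.coe_mk, AddHom.coe_mk]
  by_cases h2 : S.On i z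
  · rw [if_pos h2, if_pos (h1.2 h2)]
  · rw [if_neg h2, if_neg fun h3 => h2 (h1.1 h3)]

theorem eb_E_on {n : ℕ} {z : ℕ → Bool} (h : S.On n z) (v : W) (c : Bool) : E S z v n c = v n true := by
  simp only [E, LinearMap.coe_mk, AddHom.coe_mk]
  rw [if_pos h]

theorem eb_Q_congr (p : ℕ) {v v' : W} {i : ℕ} (h : ∀ c, v i c = v' i c) (c' : Bool) :
    Q S p v i c' = Q S p v' i c' := by
  simp only [Q, res, LinearMap.coe_mk, AddHom.coe_mk]
  rw [h]

/-- the main relation between the full and the on-branch functionals -/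
theorem e_false_E (hS : Good S) {n : ℕ} {z : ℕ → Bool} (h : S.On n z) (v : W) :
    e S n false (E S z v) = e S n true v := by
  induction n using Nat.strong_induction_on with
  | _ n ih =>
    cases hd : S.D n with
    | none => rw [e_none hd, e_none hd, eb_E_on h]
    | some d =>
      obtain ⟨hp, hp2, -⟩ := hS.lt n d hd
      rw [e_some hS hd, e_some hS hd, eb_E_on h, ih d.p hp (on_trans hS hp.le hp2 h)]
      congr 2
      refine bf_congr hS fun i hi c => ?_
      refine eb_Q_congr d.p (fun c' => ?_) c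
      exact (E_congr hS h v hi.le c').symm

theorem e_true_E (hS : Good S) {n : ℕ} {z : ℕ → Bool} (h : S.On n z) (v : W) :
    e S n true (E S z v) = e S n true v := by
  induction n using Nat.strong_induction_on with
  | _ n ih =>
    cases hd : S.D n with
    | none => rw [e_none hd, e_none hd, eb_E_on h]
    | some d =>
      obtain ⟨hp, hp2, -⟩ := hS.lt n d hd
      rw [e_some hS hd, e_some hS hd, eb_E_on h, ih d.p hp (on_trans hS hp.le hp2 h)]
      congr 2
      refine bf_congr hS fun i hi c => ?_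
      refine eb_Q_congr d.p (fun c' => ?_) c
      change E S (S.s n) (E S z v) i c' = E S (S.s n) v i c'
      have h1 : S.On i (S.s n) ↔ S.On i z := on_iff hS hi.le (fun _ _ => rfl) h
      simp only [E, LinearMap.coe_mk, AddHom.coe_mk]
      by_cases h2 : S.On i z
      · rw [if_pos h2, if_pos (h1.2 h2)]
      · simp only [h2, h1, if_false]

end Pool.Agent.W8d7136
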