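import Pool.Agent.W_MP_8d7136_h58.RISi

set_option autoImplicit false

/-!
Rapidly increasing sequences are weakly null.
-/

open Filter Topology

namespace Pool.Agent.W8d7136

variable {C : ℝ} {x : ℕ → W}

/-- If `|f (x_k)| ≥ δ` frequently, pass to a subsequence (`extraction_of_frequently_atTop`) and multiply by
phases such that `f (x_k) = |f (x_k)|`; the average `y = (mm J / nn J) ∑_{k < nn J} x_k` has norm at most
`10 ^ 10 C` (`avg`, `Mult_id`), but `f y ≥ mm J * δ`; let `J → ∞`. -/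
theorem ris_weak (hx : RIS C x) (f : X →L[ℂ] ℂ) :
    Tendsto (fun k => f (io (x k))) atTop (𝓝 0) := by
  by_contra hcon
  -- a subsequence on which `f` is bounded below
  have h1 : ∃ δ > 0, ∃ᶠ k in atTop, δ ≤ ‖f (io (x k))‖ := by
    by_contra h
    push Not at h
    apply hcon
    rw [Metric.tendsto_nhds]
    intro δ hδ
    filter_upwards [h δ hδ] with k hk
    rw [dist_zero_right]
    exact hk
  obtain ⟨δ, hδ, hfreq⟩ := h1
  obtain ⟨φ, hφ, hφδ⟩ := extraction_of_frequently_atTop hfreq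
  -- multiply by phases
  obtain ⟨a, ha⟩ : ∃ a : ℕ → ℂ, ∀ k, a k = (starRingEnd ℂ) (f (io (x (φ k)))) /
      (‖f (io (x (φ k)))‖ : ℂ) := ⟨_, fun _ => rfl⟩
  have hne : ∀ k, (‖f (io (x (φ k)))‖ : ℂ) ≠ 0 := by
    intro k h
    have h2 : ‖f (io (x (φ k)))‖ = 0 := by exact_mod_cast h
    have := hφδ k
    linarith
  have ha1 : ∀ k, ‖a k‖ ≤ 1 := by
    intro k
    rw [ha, norm_div, RCLike.norm_conj, Complex.norm_real, norm_norm]
    exact div_self_le_one _
  have hy := (hx.sub hφ).smul ha1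
  have hfy : ∀ k, f (io (a k • x (φ k))) = (‖f (io (x (φ k)))‖ : ℂ) := by
    intro k
    rw [map_smul, map_smul, smul_eq_mul, ha, div_mul_eq_mul_div, div_eq_iff (hne k),
      mul_comm ((starRingEnd ℂ) _), Complex.mul_conj, Complex.normSq_eq_norm_sq]
    push_cast
    ring
  have hC : 0 ≤ C := hx.nonneg
  obtain ⟨lo, hi, J, hRI⟩ := hy
  -- choose a large weight
  obtain ⟨j, hj⟩ := exists_nat_gt (‖f‖ * (10 ^ 10 * C) / δ)
  have hav := avg hS0 hC (J := j + 1) (by omega) (hRI.risf (nn (j + 1)))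
  have hblk := Blk_of_Avg hav
  have hmem := Fs_of_Sup hblk.supp
  have hnorm := (norm_io_le hmem).2 hblk.nb
  have hN : (0 : ℝ) < nn (j + 1) := by exact_mod_cast nn_pos (j + 1)
  have hM : (0 : ℝ) < mm (j + 1) := Par_mm_pos (j + 1)
  have hval : f (io (((mm (j + 1) : ℂ) / (nn (j + 1) : ℂ)) •
      ∑ k ∈ Finset.range (nn (j + 1)), a k • x (φ k))) =
      (((mm (j + 1) : ℝ) / (nn (j + 1) : ℝ) *
        ∑ k ∈ Finset.range (nn (j + 1)), ‖f (io (x (φ k)))‖ : ℝ) : ℂ) := by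
    rw [map_smul, map_smul, map_sum, map_sum, smul_eq_mul, Finset.sum_congr rfl fun k _ => hfy k]
    push_cast
    rfl
  have hlow : (mm (j + 1) : ℝ) * δ ≤ (mm (j + 1) : ℝ) / (nn (j + 1) : ℝ) *
      ∑ k ∈ Finset.range (nn (j + 1)), ‖f (io (x (φ k)))‖ := by
    have h2 : (nn (j + 1) : ℝ) * δ ≤ ∑ k ∈ Finset.range (nn (j + 1)), ‖f (io (x (φ k)))‖ := by
      have h3 := Finset.card_nsmul_le_sum (Finset.range (nn (j + 1)))
        (fun k => ‖f (io (x (φ k)))‖) δ (fun k _ => hφδ k)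
      rwa [Finset.card_range, nsmul_eq_mul] at h3
    have h3 := mul_le_mul_of_nonneg_left h2 (by positivity :
      (0 : ℝ) ≤ (mm (j + 1) : ℝ) / (nn (j + 1) : ℝ))
    have h4 : (mm (j + 1) : ℝ) / (nn (j + 1) : ℝ) * ((nn (j + 1) : ℝ) * δ) =
        (mm (j + 1) : ℝ) * δ := by field_simp
    rwa [h4] at h3
  have hup : (mm (j + 1) : ℝ) / (nn (j + 1) : ℝ) *
      ∑ k ∈ Finset.range (nn (j + 1)), ‖f (io (x (φ k)))‖ ≤ ‖f‖ * (10 ^ 10 * C) := by
    have h2 := f.le_opNorm (io (((mm (j + 1) : ℂ) / (nn (j + 1) : ℂ)) •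
      ∑ k ∈ Finset.range (nn (j + 1)), a k • x (φ k)))
    rw [hval, Complex.norm_real, Real.norm_eq_abs] at h2
    exact (le_abs_self _).trans (h2.trans (mul_le_mul_of_nonneg_left hnorm (norm_nonneg _)))
  have hjm : ((j + 1 : ℕ) : ℝ) < mm (j + 1) := by exact_mod_cast lt_mm (j + 1)
  rw [div_lt_iff₀ hδ] at hj
  push_cast at hjm
  nlinarith

/-- (`PX_tendsto_zero`, `ris_weak` for `eX n c ∘ T`) -/
theorem ris_PX (hx : RIS C x) (T : X →L[ℂ] X) (N : ℕ) :
    Tendsto (fun k => PX N (T (io (x k)))) atTop (𝓝 0) :=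
  PX_tendsto_zero (fun n c => ris_weak hx ((eX n c).comp T)) N

end Pool.Agent.W8d7136
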