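import Pool.Agent.W_MP_8d7136_h58.ChainB
import Pool.Agent.W_MP_8d7136_h58.Weak

set_option autoImplicit false

/-!
The bad situation, and chains of even weight.
-/

open Filter Topology

namespace Pool.Agent.W8d7136

/-- the bad situation: there are functionals almost annihilating `x_k` and its part on the branch `z`, but
not `T x_k` -/
def Bad (z : ℕ → Bool) (T : X →L[ℂ] X) (δ : ℝ) (x : ℕ → W) : Prop :=
  ∀ q, S0.On q z → ∀ ε : ℝ, 0 < ε → ∀ k₀ : ℕ, ∃ k, k₀ ≤ k ∧ ∃ (N : ℕ) (b : ℕ → Bool → ℂ),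
    RatB b ∧ (∀ i, N ≤ i → ∀ c, b i c = 0) ∧
      (∀ c, ‖bf S0 N b (Q S0 q (epsz z c (x k)))‖ ≤ ε) ∧
      δ ≤ (bfX N b (QX q (T (io (x k))))).re

theorem Avg_mono {C : ℝ} {lo hi lo' hi' J : ℕ} {y : W} (h : Avg S0 C lo hi J y) (h1 : lo' ≤ lo)
    (h2 : hi ≤ hi') : Avg S0 C lo' hi' J y :=
  ⟨fun i hi' c => h.supp i (by omega) c, h.nb, h.lt, h.gt, h.co⟩

/-- one step of the chain -/
theorem Even_stp {C : ℝ} {lo hi Jx : ℕ → ℕ} {x : ℕ → W} (hx : RI C lo hi Jx x)
    {z : ℕ → Bool} {T : X →L[ℂ] X} {δ : ℝ} (hB : Bad z T δ x) {J : ℕ} (hJ : Even J)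
    {t : ℕ} (ht : t < nn J) {q : ℕ} (hq : S0.On q z)
    (hd : 0 < t → ∃ d, S0.D q = some d ∧ d.j = J ∧ d.age = t) {ε : ℝ} (hε : 0 < ε) :
    ∃ (N : ℕ) (b : ℕ → Bool → ℂ) (v : W), Stp z T δ ε q N b v ∧
      (∃ k, v = x k ∧ q < lo k ∧ hi k ≤ N) ∧
      ∀ M, ∃ n, M ≤ n ∧ q < n ∧ S0.On n z ∧ S0.D n = some ⟨decide (t ≠ 0), q, J, b, t + 1⟩ := by
  have h1 : ∀ᶠ k in atTop, ‖PX (q + 1) (T (io (x k)))‖ < ε := by
    have h2 := (ris_PX (⟨lo, hi, Jx, hx⟩ : RIS C x) T (q + 1)).norm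
    rw [norm_zero] at h2
    exact h2.eventually_lt_const hε
  have h2 : ∀ᶠ k in atTop, q < lo k := by
    filter_upwards [eventually_gt_atTop q] with k hk
    exact lt_of_lt_of_le hk (hx.lo_strictMono.le_apply)
  obtain ⟨k₀, hk₀⟩ := eventually_atTop.1 (h1.and h2)
  obtain ⟨k, hk, N, b, hb, hbN, hs, hbig⟩ := hB q hq ε hε k₀
  obtain ⟨hk1, hk2⟩ := hk₀ k hk
  have hbN' : ∀ i, max N (hi k) ≤ i → ∀ c, b i c = 0 := fun i h c =>
    hbN i (le_trans (le_max_left _ _) h) c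
  refine ⟨max N (hi k), b, x k, ⟨?_, hbN', ?_, ?_, hk1.le⟩, ⟨k, rfl, hk2, le_max_right _ _⟩, ?_⟩
  · intro i h c
    refine (hx.blk k).supp i ?_ c
    rcases h with h | h
    · left; omega
    · right; exact le_trans (le_max_right _ _) h
  · intro c
    rw [bf_eq (le_max_left N (hi k)) hbN]
    exact hs c
  · rw [bfX_eq _ (le_max_left N (hi k)) hbN]
    exact hbig
  · intro M
    rcases Nat.eq_zero_or_pos t with h0 | h0
    · subst h0
      obtain ⟨n, a1, a2, a3, a4⟩ := hS0.rich0e z q J M b hq hJ hb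
      exact ⟨n, a1, a2, a3, by rw [a4]; rfl⟩
    · obtain ⟨d, e1, e2, e3⟩ := hd h0
      obtain ⟨n, a1, a2, a3, a4⟩ := hS0.rich1e z q J M b d hq hJ hb e1 e2 (by rw [e3]; exact ht)
      refine ⟨n, a1, a2, a3, ?_⟩
      rw [a4, e3]
      have : decide (t ≠ 0) = true := by
        rw [decide_eq_true_eq]; omega
      rw [this]

/-- `chain_build` with `j = J`, `a = nn J`, `ε / mm J`, and
`Pr t q N b v := ∃ k, v = x k ∧ q < lo k ∧ hi k ≤ N`.
Step: choose `k` large with `q < lo k`, `‖PX (q + 1) T x_k‖ ≤ ε'` (`ris_PX`), `b` from `Bad`, enlarge `N`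
to be at least `hi k` (`bf_eq`, `bfX_eq`); richness: `rich0e`, `rich1e`.
Then `v t = x (κ t)` with `κ t < κ (t + 1)`; `y = (mm J / nn J) ∑_{t < nn J} v t` (`RI.subf`, `avg`),
`η = q (nn J)`; `chn_Q`; `mm J * wt J = 1`. -/
theorem even_step {C : ℝ} {lo hi Jx : ℕ → ℕ} {x : ℕ → W} (hx : RI C lo hi Jx x)
    {z : ℕ → Bool} {T : X →L[ℂ] X} {δ : ℝ} (hB : Bad z T δ x) {q : ℕ} (hq : S0.On q z)
    {J : ℕ} (hJ : Even J) (hJ1 : 1 ≤ J) {ε : ℝ} (hε : 0 < ε) :
    ∃ (y : W) (η : ℕ), q + 1 < η ∧ S0.On η z ∧ Wt S0 η J ∧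
      Avg S0 (10 ^ 10 * C) (q + 1) η J y ∧
      (∀ v, e S0 η false (Q S0 q v) = e S0 η false v) ∧ (∀ c, ‖e S0 η c y‖ ≤ ε) ∧
      δ - ε ≤ (eX η false (T (io y))).re ∧ ‖PX (q + 1) (T (io y))‖ ≤ ε := by
  have hM : (0 : ℝ) < mm J := Par_mm_pos J
  have hN : (0 : ℝ) < nn J := by exact_mod_cast nn_pos J
  have hNpos : 0 < nn J := nn_pos J
  have hC : 0 ≤ C := RIS.nonneg (⟨lo, hi, Jx, hx⟩ : RIS C x)
  obtain ⟨q', N, b, v, hq0, hch, hall⟩ := chain_build (z := z) (j := J) (a := nn J) hNpos T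
    (δ := δ) (ε := ε / mm J) (by positivity) hq
    (fun _ q N _ v => ∃ k, v = x k ∧ q < lo k ∧ hi k ≤ N)
    (fun t ht q _ hqz hd ε' hε' => Even_stp hx hB hJ ht hqz hd hε')
  -- the subsequence
  obtain ⟨κ, hκ⟩ : ∃ κ : ℕ → ℕ, ∀ t, t < nn J →
      v t = x (κ t) ∧ q' t < lo (κ t) ∧ hi (κ t) ≤ N t := by
    have h1 : ∀ t, ∃ k, t < nn J → v t = x k ∧ q' t < lo k ∧ hi k ≤ N t := by
      intro t
      by_cases ht : t < nn J
      · obtain ⟨k, hk⟩ := (hall t ht).2.1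
        exact ⟨k, fun _ => hk⟩
      · exact ⟨0, fun h => absurd h ht⟩
    choose κ hκ using h1
    exact ⟨κ, hκ⟩
  have hκlt : ∀ k, k + 1 < nn J → κ k < κ (k + 1) := by
    intro k hk
    by_contra hcon
    have h1 := (hκ k (by omega)).2.2
    have h2 := (hκ (k + 1) hk).2.1
    have h3 := (hall k (by omega)).1
    have h4 : lo (κ (k + 1)) ≤ lo (κ k) := hx.lo_strictMono.monotone (by omega)
    have h5 := hx.lohi (κ k)
    omega
  have hav := avg hS0 hC hJ1 (hx.subf hκlt)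
  have hy : ∑ k ∈ Finset.range (nn J), x (κ k) = ∑ k ∈ Finset.range (nn J), v k :=
    Finset.sum_congr rfl fun k hk => ((hκ k (Finset.mem_range.1 hk)).1).symm
  rw [hy] at hav
  have hlast : nn J - 1 < nn J := by omega
  have hlast' : nn J - 1 + 1 = nn J := by omega
  have hη : hi (κ (nn J - 1)) ≤ q' (nn J) := by
    have h1 := (hκ _ hlast).2.2
    have h2 := (hall _ hlast).1
    rw [hlast'] at h2
    omega
  have hlo : q + 1 ≤ lo (κ 0) := by
    have := (hκ 0 hNpos).2.1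
    rw [hq0] at this
    omega
  have hlohi : lo (κ 0) ≤ lo (κ (nn J - 1)) := by
    apply hx.lo_strictMono.monotone
    have h1 : ∀ k, k < nn J → κ 0 ≤ κ k := by
      intro k
      induction k with
      | zero => intro _; exact le_rfl
      | succ k ih =>
        intro hk
        exact (ih (by omega)).trans (hκlt k hk).le
    exact h1 _ hlast
  have hav' := Avg_mono hav hlo hη
  set y : W := ((mm J : ℂ) / (nn J : ℂ)) • ∑ k ∈ Finset.range (nn J), v k with hydef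
  have hMN : (mm J : ℝ) / nn J * (nn J * (ε / mm J)) = ε := by field_simp
  have hnorm : ‖((mm J : ℂ) / (nn J : ℂ))‖ = (mm J : ℝ) / nn J := by
    rw [norm_div, Complex.norm_natCast, Complex.norm_natCast]
  refine ⟨y, q' (nn J), ?_, hch.on _ le_rfl, ?_, hav', ?_, ?_, ?_, ?_⟩
  · have := hx.lohi (κ (nn J - 1))
    omega
  · have h1 := hch.dat _ hlast
    rw [hlast'] at h1
    exact ⟨_, h1, rfl⟩
  · intro w
    have := chn_Q hch hNpos w
    rwa [hq0] at this
  · intro c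
    rw [hydef, map_smul, map_sum, norm_smul, hnorm]
    calc (mm J : ℝ) / nn J * ‖∑ k ∈ Finset.range (nn J), e S0 (q' (nn J)) c (v k)‖
        ≤ (mm J : ℝ) / nn J * (nn J * (ε / mm J)) := by
          refine mul_le_mul_of_nonneg_left ?_ (by positivity)
          refine (norm_sum_le _ _).trans ?_
          refine (Finset.sum_le_card_nsmul _ _ (ε / mm J) fun k hk => ?_).trans ?_
          · exact (hall k (Finset.mem_range.1 hk)).2.2.2.1 c
          · rw [Finset.card_range, nsmul_eq_mul]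
      _ = ε := hMN
  · have h1 : eX (q' (nn J)) false (T (io y)) = (((mm J : ℝ) / (nn J : ℝ) : ℝ) : ℂ) *
        ∑ k ∈ Finset.range (nn J), eX (q' (nn J)) false (T (io (v k))) := by
      rw [hydef, map_smul, map_smul, map_smul, map_sum, map_sum, map_sum, smul_eq_mul]
      push_cast
      rfl
    rw [h1, Complex.re_ofReal_mul, Complex.re_sum]
    have h2 : (nn J : ℝ) * (wt J * (δ - ε / mm J)) ≤
        ∑ k ∈ Finset.range (nn J), (eX (q' (nn J)) false (T (io (v k)))).re := by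
      have h3 := Finset.card_nsmul_le_sum (Finset.range (nn J))
        (fun k => (eX (q' (nn J)) false (T (io (v k)))).re) (wt J * (δ - ε / mm J))
        (fun k hk => (hall k (Finset.mem_range.1 hk)).2.2.2.2.1)
      rwa [Finset.card_range, nsmul_eq_mul] at h3
    have h4 : (mm J : ℝ) / nn J * (nn J * (wt J * (δ - ε / mm J))) = δ - ε / mm J := by
      rw [wt]
      field_simp
    have h5 : ε / mm J ≤ ε := by
      apply div_le_self hε.le
      exact_mod_cast Nat.one_le_iff_ne_zero.2 (by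
        intro h0
        rw [h0, Nat.cast_zero] at hM
        exact lt_irrefl _ hM)
    have h6 := mul_le_mul_of_nonneg_left h2 (by positivity : 0 ≤ (mm J : ℝ) / nn J)
    rw [h4] at h6
    linarith
  · rw [hydef, map_smul, map_smul, map_smul, map_sum, map_sum, map_sum, norm_smul, hnorm]
    calc (mm J : ℝ) / nn J * ‖∑ k ∈ Finset.range (nn J), PX (q + 1) (T (io (v k)))‖
        ≤ (mm J : ℝ) / nn J * (nn J * (ε / mm J)) := by
          refine mul_le_mul_of_nonneg_left ?_ (by positivity)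
          refine (norm_sum_le _ _).trans ?_
          refine (Finset.sum_le_card_nsmul _ _ (ε / mm J) fun k hk => ?_).trans ?_
          · exact (hall k (Finset.mem_range.1 hk)).2.2.2.2.2
          · rw [Finset.card_range, nsmul_eq_mul]
      _ = ε := hMN

end Pool.Agent.W8d7136
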