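import Pool.Agent.W_MP_8d7136_h58.Par

set_option autoImplicit false

/-!
Existence of a good system.
-/

namespace Pool.Agent.W8d7136

theorem Exist_bits (k : ℕ) (z : ℕ → Bool) : ∃ u, u < 2 ^ k ∧ ∀ j < k, u.testBit j = z j :=
  ⟨Nat.ofBits (fun i : Fin k => z i), Nat.ofBits_lt_two_pow _, fun j hj =>
    Nat.testBit_ofBits_lt _ j hj⟩

theorem Exist_log (k i u : ℕ) (hi : i < 3 * 2 ^ k) (hu : u < 2 ^ k) :
    Nat.log 4 (4 ^ k + (2 ^ k * i + u)) = k := by
  have h4 : 4 ^ k = 2 ^ k * 2 ^ k := by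
    rw [← mul_pow]
    norm_num
  refine (Nat.log_eq_iff (Or.inr ⟨by norm_num, by positivity⟩)).2 ⟨by omega, ?_⟩
  have h1 : 2 ^ k * i + u < 2 ^ k * (i + 1) := by
    rw [mul_add, mul_one]
    omega
  have h2 : 2 ^ k * (i + 1) ≤ 2 ^ k * (3 * 2 ^ k) := Nat.mul_le_mul_left _ hi
  have h3 : 2 ^ k * (3 * 2 ^ k) = 3 * 4 ^ k := by
    rw [h4]
    ring
  rw [pow_succ]
  omega

/-- The combinatorial enumeration.  Write `n = 4 ^ k + i * 2 ^ k + u` with `k = Nat.log 4 n`, `u < 2 ^ k`,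
`i < 3 * 2 ^ k` (`n = 0` arbitrary, length `0`); `len n = k`, `s n` the binary digits of `u` (bits `< k`,
`false` from `k` on), `idx n = i`. -/
theorem exists_enum : ∃ (idx : ℕ → ℕ) (len : ℕ → ℕ) (s : ℕ → ℕ → Bool), Monotone len ∧
    (∀ (L : ℕ) (z : ℕ → Bool), ∃ p, len p = L ∧ ∀ i < L, s p i = z i) ∧
    ∀ (a : ℕ) (z : ℕ → Bool) (N : ℕ), ∃ n, N ≤ n ∧ idx n = a ∧ ∀ i < len n, s n i = z i := by
  have key : ∀ (k i : ℕ) (z : ℕ → Bool), i < 3 * 2 ^ k → ∃ n, 4 ^ k ≤ n ∧ Nat.log 4 n = k ∧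
      (n - 4 ^ Nat.log 4 n) / 2 ^ Nat.log 4 n = i ∧
      ∀ j < k, (n - 4 ^ Nat.log 4 n).testBit j = z j := by
    intro k i z hi
    obtain ⟨u, hu, hz⟩ := Exist_bits k z
    have hl := Exist_log k i u hi hu
    refine ⟨4 ^ k + (2 ^ k * i + u), by omega, hl, ?_, ?_⟩
    · rw [hl, Nat.add_sub_cancel_left, Nat.mul_add_div (by positivity), Nat.div_eq_of_lt hu, add_zero]
    · intro j hj
      rw [hl, Nat.add_sub_cancel_left, Nat.testBit_two_pow_mul_add _ hu, if_pos hj]
      exact hz j hj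
  refine ⟨fun n => (n - 4 ^ Nat.log 4 n) / 2 ^ Nat.log 4 n, fun n => Nat.log 4 n,
    fun n j => (n - 4 ^ Nat.log 4 n).testBit j, ?_, ?_, ?_⟩
  · exact Nat.log_monotone
  · intro L z
    obtain ⟨n, -, h2, -, h4⟩ := key L 0 z (by positivity)
    exact ⟨n, h2, h4⟩
  · intro a z N
    have h2 : a + N < 2 ^ (a + N) := Nat.lt_two_pow_self
    obtain ⟨n, h1, h3, h4, h5⟩ := key (a + N) a z (by omega)
    refine ⟨n, ?_, h4, ?_⟩
    · have h6 : 2 ^ (a + N) ≤ 4 ^ (a + N) := Nat.pow_le_pow_left (by norm_num) _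
      omega
    · intro j hj
      change j < Nat.log 4 n at hj
      rw [h3] at hj
      exact h5 j hj

/-- strong recursion with truncated histories -/
theorem Exist_rec {α : Type} (F : ℕ → (ℕ → α) → α) (c : α) :
    ∃ D : ℕ → α, ∀ n, D n = F n (fun m => if m < n then D m else c) := by
  let G : (n : ℕ) → ((m : ℕ) → m < n → α) → α := fun n r => F n (fun m => if h : m < n then r m h else c)
  refine ⟨WellFounded.fix Nat.lt_wfRel.wf G, fun n => ?_⟩
  rw [WellFounded.fix_eq]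
  change F n _ = F n _
  congr 1

/-- the function given by finitely many rational coefficients -/
noncomputable def Exist_f (t : Σ k : ℕ, (Fin k × Bool → ℚ × ℚ)) : ℕ → Bool → ℂ := fun i c =>
  if h : i < t.1 then ((t.2 (⟨i, h⟩, c)).1 : ℂ) + ((t.2 (⟨i, h⟩, c)).2 : ℂ) * Complex.I else 0

theorem Exist_rat {b : ℕ → Bool → ℂ} (h : RatB b) : ∃ t, Exist_f t = b := by
  obtain ⟨h1, k, hk, -⟩ := h
  choose x y hxy using h1
  refine ⟨⟨k, fun p => (x p.1 p.2, y p.1 p.2)⟩, ?_⟩
  funext i c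
  unfold Exist_f
  by_cases hi : i < k
  · rw [dif_pos hi]
    exact (hxy i c).symm
  · rw [dif_neg hi]
    exact (hk i (by omega) c).symm

theorem Exist_norm {b : ℕ → Bool → ℂ} (h : RatB b) (n : ℕ) :
    ∑ i ∈ Finset.range n, ∑ c : Bool, ‖b i c‖ ≤ 1 := by
  obtain ⟨-, k, hk, hs⟩ := h
  refine le_trans ?_ hs
  have h1 : ∑ i ∈ Finset.range n, ∑ c : Bool, ‖b i c‖ ≤
      ∑ i ∈ Finset.range (max n k), ∑ c : Bool, ‖b i c‖ :=
    Finset.sum_le_sum_of_subset_of_nonneg (Finset.range_mono (le_max_left n k))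
      fun i _ _ => Finset.sum_nonneg fun c _ => norm_nonneg _
  refine h1.trans (le_of_eq ?_)
  symm
  apply Finset.sum_subset (Finset.range_mono (le_max_right n k))
  intro i _ hi
  rw [Finset.mem_range, not_lt] at hi
  apply Finset.sum_eq_zero
  intro c _
  rw [hk i hi c, norm_zero]

theorem Exist_dl (i : ℕ) : RatB (dl i) := by
  refine ⟨fun i' c => ?_, i + 1, fun i' hi' c => ?_, ?_⟩
  · unfold dl
    split_ifs
    · exact ⟨1, 0, by simp⟩
    · exact ⟨0, 0, by simp⟩
  · unfold dl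
    rw [if_neg]
    rintro ⟨h, -⟩
    omega
  · rw [Finset.sum_range_succ]
    have h1 : ∑ i' ∈ Finset.range i, ∑ c : Bool, ‖dl i i' c‖ = 0 := by
      apply Finset.sum_eq_zero
      intro i' hi'
      rw [Finset.mem_range] at hi'
      apply Finset.sum_eq_zero
      intro c _
      unfold dl
      rw [if_neg, norm_zero]
      rintro ⟨h, -⟩
      omega
    rw [h1, zero_add, Fintype.sum_bool]
    unfold dl
    simp

theorem Exist_zero : RatB (fun _ _ => 0) :=
  ⟨fun _ _ => ⟨0, 0, by simp⟩, 0, fun _ _ _ => rfl, by simp⟩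

/-- the requirements at `n` for the datum `d` -/
def Exist_Req (len : ℕ → ℕ) (s : ℕ → ℕ → Bool) (n : ℕ) (D : ℕ → Option Dat) (d : Dat) : Prop :=
  d.p < n ∧ (∀ i < len d.p, s d.p i = s n i) ∧ d.j ≤ n ∧
    (∑ i ∈ Finset.range n, ∑ c : Bool, ‖d.b i c‖ ≤ 1) ∧ (d.chi = false → d.age = 1) ∧
    (d.chi = true → ∃ d', D d.p = some d' ∧ d'.j = d.j ∧ d.age = d'.age + 1) ∧
    d.age ≤ nn d.j ∧
    (Odd d.j → ∃ i h, i < n ∧ (∃ d', D i = some d' ∧ d'.j = h) ∧ d.b = dl i ∧
      (d.chi = false → nn d.j ^ 2 ≤ mm h ∧ h % 4 = 2) ∧ (d.chi = true → h = code d.p))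

theorem Exist_trunc {len : ℕ → ℕ} {s : ℕ → ℕ → Bool} {n : ℕ} {D D' : ℕ → Option Dat} {d : Dat}
    (hT : ∀ m, m < n → D' m = D m) :
    Exist_Req len s n D' d ↔ Exist_Req len s n D d := by
  unfold Exist_Req
  constructor
  · rintro ⟨h1, h2, h3, h4, h5, h6, h7, h8⟩
    rw [hT _ h1] at h6
    refine ⟨h1, h2, h3, h4, h5, h6, h7, fun ho => ?_⟩
    obtain ⟨i, h, hi, hd, r⟩ := h8 ho
    rw [hT _ hi] at hd
    exact ⟨i, h, hi, hd, r⟩
  · rintro ⟨h1, h2, h3, h4, h5, h6, h7, h8⟩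
    refine ⟨h1, h2, h3, h4, h5, ?_, h7, fun ho => ?_⟩
    · rw [hT _ h1]
      exact h6
    obtain ⟨i, h, hi, hd, r⟩ := h8 ho
    refine ⟨i, h, hi, ?_, r⟩
    rw [hT _ hi]
    exact hd

/-- Existence.  The raw data (kind, `chi`, `p`, `j`, a finitely supported function with rational complex
coefficients, an index `i`) form a countable type; take a surjection `r` from `ℕ` and raw data `r (idx n)`
at `n`.  Define `D n` by strong recursion: `some` data if all the requirements at `n` (which only involve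
`D` at smaller indices: the parent `p < n`, for odd `j` the index `i < n`; `On p (s n)`; `j ≤ n`;
`ℓ₁` norm at most one; age conditions; coding conditions) are satisfied and `none` otherwise.  Note that
for odd `j` we require `b = dl i`.  Richness: the raw data occur, by `exists_enum`, at arbitrarily large
`n` on `z`, and the requirements at `n` hold for all large `n` on `z`. -/
theorem exists_good : ∃ S : Sys, Good S := by
  classical
  obtain ⟨idx, len, s, hmono, hall, henum⟩ := exists_enum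
  obtain ⟨q, hq⟩ := exists_surjective_nat
    (Bool × ℕ × ℕ × (Σ k : ℕ, (Fin k × Bool → ℚ × ℚ)) × ℕ)
  obtain ⟨raw, hraw⟩ : ∃ raw : ℕ → Dat, ∀ d : Dat, RatB d.b → ∃ a, raw a = d := by
    refine ⟨fun a => ⟨(q a).1, (q a).2.1, (q a).2.2.1, Exist_f (q a).2.2.2.1, (q a).2.2.2.2⟩, ?_⟩
    intro d hd
    obtain ⟨t, ht⟩ := Exist_rat hd
    obtain ⟨a, ha⟩ := hq (d.chi, d.p, d.j, t, d.age)
    refine ⟨a, ?_⟩
    simp only [ha, ht]
  obtain ⟨D, hD⟩ := Exist_rec (fun n g =>
    if Exist_Req len s n g (raw (idx n)) then some (raw (idx n)) else (none : Option Dat)) none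
  have hD' : ∀ n, D n = if Exist_Req len s n D (raw (idx n)) then some (raw (idx n)) else none := by
    intro n
    rw [hD n]
    have h1 := Exist_trunc (len := len) (s := s) (n := n) (D := D)
      (D' := fun m => if m < n then D m else none) (d := raw (idx n)) (fun m hm => if_pos hm)
    by_cases h2 : Exist_Req len s n D (raw (idx n))
    · rw [if_pos h2, if_pos (h1.2 h2)]
    · rw [if_neg h2, if_neg (fun h3 => h2 (h1.1 h3))]
  have hsome : ∀ n d, D n = some d → Exist_Req len s n D d := by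
    intro n d hd
    rw [hD' n] at hd
    split_ifs at hd with h1
    rw [Option.some.injEq] at hd
    rw [← hd]
    exact h1
  -- richness
  have hrich : ∀ (z : ℕ → Bool) (N : ℕ) (d : Dat), RatB d.b → (∀ i < len d.p, s d.p i = z i) →
      (∀ n, N ≤ n → d.p < n → (∀ i < len d.p, s d.p i = s n i) → Exist_Req len s n D d) →
      ∃ n, N ≤ n ∧ d.p < n ∧ (∀ i < len n, s n i = z i) ∧ D n = some d := by
    intro z N d hb hp hreq
    obtain ⟨a, ha⟩ := hraw d hb
    obtain ⟨n, h1, h2, h3⟩ := henum a z (max N (d.p + 1))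
    have h4 : N ≤ n := (le_max_left _ _).trans h1
    have h5 : d.p < n := (le_max_right N (d.p + 1)).trans h1
    refine ⟨n, h4, h5, h3, ?_⟩
    rw [hD' n, h2, ha, if_pos]
    refine hreq n h4 h5 fun i hi => ?_
    rw [hp i hi, h3 i (lt_of_lt_of_le hi (hmono h5.le))]
  refine ⟨⟨len, s, D⟩, ?_⟩
  refine ⟨hmono, ?_, ?_, ?_, ?_, ?_, ?_, ?_, ?_, ?_, ?_, ?_, ?_⟩
  · intro L z
    obtain ⟨p, h1, h2⟩ := hall L z
    exact ⟨p, h1, fun i hi => h2 i (lt_of_lt_of_eq hi h1)⟩
  · intro n d hd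
    obtain ⟨h1, h2, h3, -⟩ := hsome n d hd
    exact ⟨h1, h2, h3⟩
  · intro n d hd
    exact (hsome n d hd).2.2.2.1
  · intro n d hd
    exact (hsome n d hd).2.2.2.2.1
  · intro n d hd
    exact (hsome n d hd).2.2.2.2.2.1
  · intro n d hd
    exact (hsome n d hd).2.2.2.2.2.2.1
  · intro n d hd
    exact (hsome n d hd).2.2.2.2.2.2.2
  · intro z N
    obtain ⟨a, ha⟩ := hraw ⟨false, 0, 0, fun _ _ => 0, 0⟩ Exist_zero
    obtain ⟨n, h1, h2, h3⟩ := henum a z N
    refine ⟨n, h1, h3, ?_⟩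
    change D n = none
    rw [hD' n, h2, ha, if_neg]
    rintro ⟨-, -, -, -, h5, -⟩
    exact absurd (h5 rfl) (by norm_num)
  · intro z p j N b hp hj hb
    obtain ⟨n, h1, h2, h3, h4⟩ := hrich z (max N j) ⟨false, p, j, b, 1⟩ hb hp (by
      intro n hn hpn hon
      refine ⟨hpn, hon, (le_max_right N j).trans hn, Exist_norm hb n, fun _ => rfl,
        fun h => absurd h (by simp), nn_pos j, fun ho => ?_⟩
      exact absurd hj (Nat.not_even_iff_odd.2 ho))
    exact ⟨n, (le_max_left N j).trans h1, h2, h3, h4⟩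
  · intro z p j N b d hp hj hb hd hdj hage
    obtain ⟨n, h1, h2, h3, h4⟩ := hrich z (max N j) ⟨true, p, j, b, d.age + 1⟩ hb hp (by
      intro n hn hpn hon
      refine ⟨hpn, hon, (le_max_right N j).trans hn, Exist_norm hb n, fun h => absurd h (by simp),
        fun _ => ⟨d, hd, hdj, rfl⟩, hage, fun ho => ?_⟩
      exact absurd hj (Nat.not_even_iff_odd.2 ho))
    exact ⟨n, (le_max_left N j).trans h1, h2, h3, h4⟩
  · intro z p j N i h hp hj hw hm hh
    obtain ⟨n, h1, h2, h3, h4⟩ := hrich z (max (max N j) (i + 1)) ⟨false, p, j, dl i, 1⟩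
      (Exist_dl i) hp (by
        intro n hn hpn hon
        refine ⟨hpn, hon, ?_, Exist_norm (Exist_dl i) n, fun _ => rfl,
          fun h => absurd h (by simp), nn_pos j, fun _ => ?_⟩
        · exact ((le_max_right N j).trans (le_max_left _ _)).trans hn
        · exact ⟨i, h, (le_max_right _ (i + 1)).trans hn, hw, rfl, fun _ => ⟨hm, hh⟩,
            fun h => absurd h (by simp)⟩)
    exact ⟨n, ((le_max_left N j).trans (le_max_left _ _)).trans h1, h2, h3, h4⟩
  · intro z p j N i d hp hj hw hd hdj hage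
    obtain ⟨n, h1, h2, h3, h4⟩ := hrich z (max (max N j) (i + 1)) ⟨true, p, j, dl i, d.age + 1⟩
      (Exist_dl i) hp (by
        intro n hn hpn hon
        refine ⟨hpn, hon, ?_, Exist_norm (Exist_dl i) n, fun h => absurd h (by simp),
          fun _ => ⟨d, hd, hdj, rfl⟩, hage, fun _ => ?_⟩
        · exact ((le_max_right N j).trans (le_max_left _ _)).trans hn
        · exact ⟨i, code p, (le_max_right _ (i + 1)).trans hn, hw, rfl,
            fun h => absurd h (by simp), fun _ => rfl⟩)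
    exact ⟨n, ((le_max_left N j).trans (le_max_left _ _)).trans h1, h2, h3, h4⟩

end Pool.Agent.W8d7136
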