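import Pool.Agent.W_MP_8d7136_h58.Bd

set_option autoImplicit false

/-!
Extension: vectors supported below `k` are determined by the functionals of index below `k`.
-/

namespace Pool.Agent.W8d7136

variable {S : Sys}

theorem Ext_Q_zero {k : ℕ} {v : W} (hs : Sup 0 k v) {p n : ℕ} (hp : k ≤ p) (c : Bool) :
    Q S p (eps S n c v) = 0 := by
  funext i c'
  have h : Q S p (eps S n c v) = eps S n c (Q S p v) := (Bd_eps_res n c _ v).symm
  rw [Bd_Q_apply]
  split_ifs with hi
  · have hi1 : p < i := hi.1
    have h0 : ∀ c, v i c = 0 := fun c => hs i (Or.inr (by omega)) c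
    exact Mult_supp (Mult_eps S n c) h0 c'
  · rfl

/-- `‖e_n(v)‖ ≤ C + w * 12 * (bound for the indices below n)` for `k ≤ n`, so by induction all are at
most `2 C` -/
theorem ext_bound (hS : Good S) {k : ℕ} {C : ℝ} (hC : 0 ≤ C) {v : W} (hs : Sup 0 k v)
    (hv : NBl S k C v) : NB S (2 * C) v := by
  intro n
  induction n using Nat.strong_induction_on with
  | _ n ih =>
    intro c
    rcases lt_or_ge n k with hn | hn
    · have := hv n hn c
      linarith
    have hvn : v n c = 0 := hs n (Or.inr hn) c
    rcases hD : S.D n with _ | d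
    · rw [e_none hD, hvn, norm_zero]
      linarith
    obtain ⟨hp, -, -⟩ := hS.lt n d hD
    rw [e_some hS hD, hvn, zero_add]
    rcases lt_or_ge d.p k with hpk | hpk
    · have h1 : ‖(if d.chi = true then e S d.p c v else 0 : ℂ)‖ ≤ C :=
        Bd_cond hC (hv d.p hpk c)
      have h2 := Bd_piece (Bd_strong hS n) (p := d.p) (hS.b1 n d hD) (C := 2 * C) (by linarith)
        (v := v) (fun i hi c => ih i hi c) n c
      have h3 := Bd_wt d.j hC (h2.trans (by linarith))
      exact (norm_add_le _ _).trans (by linarith)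
    · rw [Ext_Q_zero hs hpk c, map_zero, mul_zero, add_zero]
      exact Bd_cond (by linarith) (ih d.p hp c)

/-- triangularity -/
theorem Ext_tri (hS : Good S) {n : ℕ} {v v' : W} (h : ∀ i, i < n → ∀ c, v i c = v' i c)
    (c : Bool) : e S n c v - e S n c v' = v n c - v' n c := by
  rcases hD : S.D n with _ | d
  · rw [e_none hD, e_none hD]
  · obtain ⟨hp, -, -⟩ := hS.lt n d hD
    have h1 : e S d.p c v = e S d.p c v' := e_congr hS fun i hi => h i (by omega)
    have h2 : bf S n d.b (Q S d.p (eps S n c v)) = bf S n d.b (Q S d.p (eps S n c v')) :=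
      bf_congr hS fun i hi c' => eb_Q_eps n d.p c (h i hi) c'
    rw [e_some hS hD, e_some hS hD, h1, h2]
    ring

/-- triangularity: `e_n(v) = v(n, c) +` (terms depending on the coordinates below `n`) -/
theorem exists_ext (hS : Good S) (k : ℕ) (u : ℕ → Bool → ℂ) :
    ∃ v : W, Sup 0 k v ∧ ∀ i, i < k → ∀ c, e S i c v = u i c := by
  induction k with
  | zero => exact ⟨0, fun i _ c => rfl, fun i hi => absurd hi (Nat.not_lt_zero i)⟩
  | succ k ih =>
    obtain ⟨v, hv1, hv2⟩ := ih
    let v' : W := fun i c => if i = k then u k c - e S k c v else v i c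
    have hne : ∀ i, i ≠ k → ∀ c, v' i c = v i c := fun i hi c => if_neg hi
    refine ⟨v', fun i hi c => ?_, fun i hi c => ?_⟩
    · rcases hi with hi | hi
      · exact absurd hi (Nat.not_lt_zero i)
      · rw [hne i (by omega)]
        exact hv1 i (Or.inr (by omega)) c
    · rcases Nat.lt_succ_iff_lt_or_eq.1 hi with hi' | hik
      · have h4 : e S i c v' = e S i c v := e_congr hS fun i' hi' c => hne i' (by omega) c
        rw [h4]
        exact hv2 i hi' c
      · have h1 := Ext_tri hS (n := k) (v := v') (v' := v)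
          (fun i' hi' c => hne i' (by omega) c) c
        have h2 : v' k c = u k c - e S k c v := if_pos rfl
        have h3 : v k c = 0 := hv1 k (Or.inr le_rfl) c
        rw [h2, h3] at h1
        rw [hik]
        linear_combination h1

theorem zero_of_e (hS : Good S) {n : ℕ} {v : W} (h : ∀ i, i < n → ∀ c, e S i c v = 0) :
    ∀ i, i < n → ∀ c, v i c = 0 := by
  intro i
  induction i using Nat.strong_induction_on with
  | _ i ih =>
    intro hi c
    have h1 := Ext_tri hS (v := v) (v' := 0) (n := i) (fun i' hi' c => ih i' hi' (by omega) c) c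
    rw [h i hi c, map_zero] at h1
    have h2 : (0 : W) i c = 0 := rfl
    rw [h2] at h1
    linear_combination -h1

/-- every vector supported below `k` has finite norm -/
theorem exists_NB (hS : Good S) {k : ℕ} {v : W} (hs : Sup 0 k v) : ∃ C, NB S C v := by
  refine ⟨2 * ∑ i ∈ Finset.range k, ∑ c : Bool, ‖e S i c v‖, ext_bound hS ?_ hs ?_⟩
  · positivity
  · intro i hi c
    have h1 : ‖e S i c v‖ ≤ ∑ c : Bool, ‖e S i c v‖ :=
      Finset.single_le_sum (f := fun c => ‖e S i c v‖) (fun c _ => norm_nonneg _)
        (Finset.mem_univ c)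
    have h2 : ∑ c : Bool, ‖e S i c v‖ ≤ ∑ i ∈ Finset.range k, ∑ c : Bool, ‖e S i c v‖ :=
      Finset.single_le_sum (f := fun i => ∑ c : Bool, ‖e S i c v‖)
        (fun i _ => Finset.sum_nonneg fun c _ => norm_nonneg _) (Finset.mem_range.2 hi)
    exact h1.trans h2

theorem Ext_weight (hS : Good S) {hi : ℕ} {y : W} {C : ℝ} (hC : 0 ≤ C) (hs : Sup 0 hi y)
    (hy : NB S (2 * C) y) {h : ℕ} (h0 : ∀ n, n < hi → Wt S n h → ∀ c, e S n c y = 0) :
    ∀ n, Wt S n h → ∀ c, ‖e S n c y‖ ≤ 24 * C * wt h := by
  intro n
  induction n using Nat.strong_induction_on with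
  | _ n ih =>
    intro hn c
    have hw := wt_pos h
    have hpos : 0 ≤ 24 * C * wt h := by positivity
    rcases lt_or_ge n hi with hlt | hge
    · rw [h0 n hlt hn c, norm_zero]
      exact hpos
    obtain ⟨d, hD, hdj⟩ := hn
    obtain ⟨hp, -, -⟩ := hS.lt n d hD
    have hyn : y n c = 0 := hs n (Or.inr hge) c
    have hpw : d.chi = true → Wt S d.p h := by
      intro hchi
      obtain ⟨d', hd', hj, -⟩ := hS.age2 n d hD hchi
      exact ⟨d', hd', by rw [hj, hdj]⟩
    rw [e_some hS hD, hyn, zero_add, hdj]
    rcases lt_or_ge d.p hi with hpk | hpk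
    · have h1 : (if d.chi = true then e S d.p c y else 0 : ℂ) = 0 := by
        split_ifs with hchi
        · exact h0 d.p hpk (hpw hchi) c
        · rfl
      have h2 := Bd_piece (Bd_strong hS n) (p := d.p) (hS.b1 n d hD) (C := 2 * C) (by linarith)
        (v := y) (fun i hi c => hy i c) n c
      rw [h1, zero_add, norm_mul, Complex.norm_real, Real.norm_eq_abs, abs_of_pos hw]
      calc wt h * ‖bf S n d.b (Q S d.p (eps S n c y))‖ ≤ wt h * (12 * (2 * C)) :=
            mul_le_mul_of_nonneg_left h2 hw.le
        _ = 24 * C * wt h := by ring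
    · rw [Ext_Q_zero hs hpk c, map_zero, mul_zero, add_zero]
      split_ifs with hchi
      · exact ih d.p hp (hpw hchi) c
      · rw [norm_zero]
        exact hpos

/-- Local support splitting.  Let `u(i,c) = e_i(x)` for `i < hi`; `y` is the extension of `u` restricted to
the indices without data or of weight `≤ N`, `z` that of the rest (`exists_ext`, `zero_of_e`: both are
supported in `[lo, hi)`; `ext_bound`).  For `n` of weight `h > N`: `e_n(y) = 0` for `n < hi`; for `hi ≤ n`:
`χ e_p(y) + w_h bf(Q_p eps y)`; if `p < hi` the first term is `0` (if `χ = 1` then `p` has weight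
`h`); if `hi ≤ p` the second term is `0`.  So `‖e_n(y)‖ ≤ 24 C w_h`.  For `h ≤ N` use `mm N * w_h ≥ 1`.
The same for `z` and `h ≤ N`. -/
theorem split (hS : Good S) {lo hi : ℕ} {x : W} {C : ℝ} (hs : Sup lo hi x) (hx : NB S C x)
    (N : ℕ) : ∃ y z : W, x = y + z ∧ Sup lo hi y ∧ Sup lo hi z ∧ NB S (2 * C) y ∧
      NB S (2 * C) z ∧ (∀ h, WB S h (1000 * C * mm N) y) ∧ ∀ h, h ≤ N → WB S h (1000 * C) z := by
  classical
  have hC : 0 ≤ C := NB_nonneg hx
  have hsx : Sup 0 hi x := by
    intro i hi' c
    rcases hi' with h | h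
    · exact absurd h (Nat.not_lt_zero i)
    · exact hs i (Or.inr h) c
  -- `x` has zero functionals below `lo`
  have hex : ∀ i, i < lo → ∀ c, e S i c x = 0 := fun i hi' c =>
    e_eq_zero hS fun j hj c => hs j (Or.inl (by omega)) c
  set A : ℕ → Prop := fun i => ∃ h, N < h ∧ Wt S i h with hA
  obtain ⟨y, hy1, hy2⟩ := exists_ext hS hi (fun i c => if A i then 0 else e S i c x)
  have hz1 : Sup 0 hi (x - y) := by
    intro i hi' c
    have e1 := hsx i hi' c
    have e2 := hy1 i hi' c
    show x i c - y i c = 0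
    rw [e1, e2, sub_zero]
  have hz2 : ∀ i, i < hi → ∀ c, e S i c (x - y) = if A i then e S i c x else 0 := by
    intro i hi' c
    rw [map_sub, hy2 i hi' c]
    split_ifs <;> simp
  have hylo : ∀ i, i < lo → ∀ c, y i c = 0 := by
    intro i hilo c
    rcases lt_or_ge i hi with h1 | h1
    · refine zero_of_e hS (n := min lo hi) (fun j hj c => ?_) i (lt_min hilo h1) c
      rw [lt_min_iff] at hj
      rw [hy2 j hj.2 c, hex j hj.1 c, ite_self]
    · exact hy1 i (Or.inr h1) c
  have hys : Sup lo hi y := by
    intro i hi' c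
    rcases hi' with h | h
    · exact hylo i h c
    · exact hy1 i (Or.inr h) c
  have hzs : Sup lo hi (x - y) := by
    intro i hi' c
    show x i c - y i c = 0
    rw [hs i hi' c, hys i hi' c, sub_zero]
  have hyN : NB S (2 * C) y := by
    refine ext_bound hS hC hy1 fun i hi' c => ?_
    rw [hy2 i hi' c]
    split_ifs
    · rw [norm_zero]
      exact hC
    · exact hx i c
  have hzN : NB S (2 * C) (x - y) := by
    refine ext_bound hS hC hz1 fun i hi' c => ?_
    rw [hz2 i hi' c]
    split_ifs
    · exact hx i c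
    · rw [norm_zero]
      exact hC
  refine ⟨y, x - y, by abel, hys, hzs, hyN, hzN, fun h => ?_, fun h hN => ?_⟩
  · intro n c hn
    have hw := wt_pos h
    have hmN := Par_mm_pos N
    have hmh := Par_mm_pos h
    rcases le_or_gt h N with hle | hlt
    · have h1 : 1 ≤ (mm N : ℝ) * wt h := by
        unfold wt
        rw [mul_one_div, le_div_iff₀ hmh, one_mul]
        exact_mod_cast mm_strictMono.monotone hle
      have h2 := hyN n c
      nlinarith
    · have h1 := Ext_weight hS hC hy1 hyN (h := h) (fun m hm hmw c => by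
        rw [hy2 m hm c, if_pos ⟨h, hlt, hmw⟩]) n hn c
      have h2 : (1 : ℝ) ≤ mm N := by
        have := mm_ge N
        have h3 : 1 ≤ mm N := le_trans (by norm_num) this
        exact_mod_cast h3
      have h4 : 0 ≤ C * wt h := by positivity
      nlinarith
  · intro n c hn
    have hw := wt_pos h
    have h1 := Ext_weight hS hC hz1 hzN (h := h) (fun m hm hmw c => by
      rw [hz2 m hm c, if_neg]
      rintro ⟨h', hN', d', hd', hj'⟩
      obtain ⟨d, hd, hj⟩ := hmw
      rw [hd] at hd'
      have : d = d' := Option.some.inj hd'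
      subst this
      omega) n hn c
    have h4 : 0 ≤ C * wt h := by positivity
    linarith

end Pool.Agent.W8d7136
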