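import Pool.Agent.W_MP_8d7136_h58.Theta

set_option autoImplicit false

/-!
The Calkin algebra of `X`.
-/

open Filter Topology

namespace Pool.Agent.W8d7136

/-- the finitely supported vectors with rational coefficients form a countable dense set -/
theorem X_sep : TopologicalSpace.SeparableSpace X := by
  let u : ℕ × Bool → W := fun g => fun i c => if i = g.1 ∧ c = g.2 then 1 else 0
  have hu : ∀ (i : ℕ) (c : Bool) (n : ℕ) (c' : Bool),
      u (i, c) n c' = if n = i ∧ c' = c then 1 else 0 := fun _ _ _ _ => rfl
  have hmem : ∀ v ∈ Fs, io v ∈ Submodule.span ℂ (Set.range fun g => io (u g)) := by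
    rintro v ⟨k, hk⟩
    have h : v = ∑ i ∈ Finset.range k, ∑ c : Bool, v i c • u (i, c) := by
      funext n c
      rw [Finset.sum_apply, Finset.sum_apply]
      have h1 : ∀ i ∈ Finset.range k, (∑ c' : Bool, v i c' • u (i, c')) n c =
          if i = n then v n c else 0 := by
        intro i _
        rw [Finset.sum_apply, Finset.sum_apply, Fintype.sum_bool]
        simp only [Pi.smul_apply, hu, smul_eq_mul]
        by_cases hi : i = n
        · subst hi
          cases c <;> simp
        · have hi' : ¬ n = i := fun h => hi h.symm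
          simp [hi, hi']
      rw [Finset.sum_congr rfl h1, Finset.sum_ite_eq']
      split_ifs with h2
      · rfl
      · rw [Finset.mem_range, not_lt] at h2
        exact hk n (Or.inr h2) c
    rw [h, map_sum]
    refine Submodule.sum_mem _ fun i _ => ?_
    rw [map_sum]
    refine Submodule.sum_mem _ fun c _ => ?_
    rw [map_smul]
    exact Submodule.smul_mem _ _ (Submodule.subset_span ⟨(i, c), rfl⟩)
  have hsep : TopologicalSpace.IsSeparable
      (Submodule.span ℂ (Set.range fun g => io (u g)) : Set X) :=
    (Set.countable_range _).isSeparable.span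
  have hden : closure (Submodule.span ℂ (Set.range fun g => io (u g)) : Set X) = Set.univ := by
    rw [Set.eq_univ_iff_forall]
    intro w
    rw [Metric.mem_closure_iff]
    intro ε hε
    obtain ⟨v, hv, h⟩ := exists_io w hε
    exact ⟨io v, hmem v hv, by rwa [dist_eq_norm]⟩
  have h3 := hsep.closure
  rw [hden] at h3
  exact TopologicalSpace.isSeparable_univ_iff.1 h3

/-- a continuous surjective homomorphism with kernel the compact operators induces an isomorphism of the
Calkin algebra (open mapping theorem, `isClosed_setOf_isCompactOperator`) -/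
theorem quot_iso {Y : Type} [NormedAddCommGroup Y] [NormedSpace ℂ Y] [CompleteSpace Y]
    {K : Type} [TopologicalSpace K] [CompactSpace K]
    (Th : (Y →L[ℂ] Y) →ₐ[ℂ] C(K, ℂ)) (hc : Continuous Th) (hs : Function.Surjective Th)
    (hk : ∀ T, Th T = 0 ↔ IsCompactOperator T) :
    ∃ Φ : ((Y →L[ℂ] Y) ⧸ compactOperator (RingHom.id ℂ) Y Y) ≃L[ℂ] C(K, ℂ),
      ∀ T : Y →L[ℂ] Y, Φ (Submodule.Quotient.mk T) = Th T := by
  have hker : LinearMap.ker Th.toLinearMap = compactOperator (RingHom.id ℂ) Y Y := by
    ext T
    rw [LinearMap.mem_ker]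
    exact hk T
  let e : ((Y →L[ℂ] Y) ⧸ compactOperator (RingHom.id ℂ) Y Y) ≃ₗ[ℂ] C(K, ℂ) :=
    (Submodule.quotEquivOfEq _ _ hker.symm).trans (Th.toLinearMap.quotKerEquivOfSurjective hs)
  have he : ∀ T, e (Submodule.Quotient.mk T) = Th T := fun T => rfl
  have hopen : IsOpenMap Th := by
    let ThL : (Y →L[ℂ] Y) →L[ℂ] C(K, ℂ) := ⟨Th.toLinearMap, hc⟩
    exact ThL.isOpenMap hs
  have hq : IsQuotientMap (Submodule.Quotient.mk :
      (Y →L[ℂ] Y) → ((Y →L[ℂ] Y) ⧸ compactOperator (RingHom.id ℂ) Y Y)) := isQuotientMap_quot_mk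
  refine ⟨⟨e, ?_, ?_⟩, he⟩
  · change Continuous e
    rw [hq.continuous_iff]
    exact hc
  · change Continuous e.symm
    rw [continuous_def]
    intro U hU
    have h1 : e.symm ⁻¹' U = Th '' (Submodule.Quotient.mk ⁻¹' U) := by
      ext f
      constructor
      · intro hf
        obtain ⟨T, rfl⟩ := hs f
        refine ⟨T, ?_, rfl⟩
        have h2 : e.symm (Th T) = Submodule.Quotient.mk T := by
          rw [← he, e.symm_apply_apply]
        rw [Set.mem_preimage, h2] at hf
        exact hf
      · rintro ⟨T, hT, rfl⟩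
        rw [Set.mem_preimage, ← he, e.symm_apply_apply]
        exact hT
    rw [h1]
    exact hopen _ (hU.preimage hq.continuous)

end Pool.Agent.W8d7136
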