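import Pool.Agent.W_MP_8d7136_h58.XOps

set_option autoImplicit false

/-!
Rational approximation of functionals.
-/

namespace Pool.Agent.W8d7136

theorem FunRep_ext {k : ℕ} {v v' : W} (hv : Sup 0 k v) (hv' : Sup 0 k v')
    (h : ∀ i, i < k → ∀ c, e S0 i c v = e S0 i c v') : v = v' := by
  funext i c
  rcases lt_or_ge i k with hi | hi
  · have h0 : ∀ i, i < k → ∀ c, e S0 i c (v - v') = 0 := by
      intro i hi c
      rw [map_sub, h i hi c, sub_self]
    have h1 := zero_of_e hS0 h0 i hi c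
    rw [Pi.sub_apply, Pi.sub_apply, sub_eq_zero] at h1
    exact h1
  · rw [hv i (Or.inr hi) c, hv' i (Or.inr hi) c]

/-- On the vectors supported in `[0, k)` a functional of norm at most `1` is `∑ β i c e_{i,c}` (the map
`v ↦ (e_{i,c}(v))_{i<k}` is a linear bijection: `exists_ext`, `zero_of_e`), and `∑ |β| ≤ 2`: test with the `v`
with `e_{i,c}(v)` of modulus one and `β_{i,c} e_{i,c}(v) = |β_{i,c}|`, which has norm at most `2`
(`ext_bound`). -/
theorem fun_rep (f : X →L[ℂ] ℂ) (hf : ‖f‖ ≤ 1) (k : ℕ) : ∃ β : ℕ → Bool → ℂ,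
    ∑ i ∈ Finset.range k, ∑ c : Bool, ‖β i c‖ ≤ 2 ∧ ∀ v : W, Sup 0 k v →
      f (io v) = bf S0 k β v := by
  classical
  have hex : ∀ (i : ℕ) (c : Bool), ∃ v : W, Sup 0 k v ∧ ∀ j, j < k → ∀ c', e S0 j c' v =
      if j = i ∧ c' = c then 1 else 0 := fun i c => exists_ext hS0 k _
  choose w hw1 hw2 using hex
  have hrep : ∀ v : W, Sup 0 k v → f (io v) = bf S0 k (fun i c => f (io (w i c))) v := by
    intro v hv
    have hsum : v = ∑ i ∈ Finset.range k, ∑ c : Bool, e S0 i c v • w i c := by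
      refine FunRep_ext hv ?_ ?_
      · intro j hj c'
        rw [Finset.sum_apply, Finset.sum_apply]
        refine Finset.sum_eq_zero fun i _ => ?_
        rw [Finset.sum_apply, Finset.sum_apply]
        refine Finset.sum_eq_zero fun c _ => ?_
        rw [Pi.smul_apply, Pi.smul_apply, hw1 i c j hj c', smul_zero]
      · intro j hj c'
        rw [map_sum, Finset.sum_eq_single_of_mem j (Finset.mem_range.2 hj)]
        · rw [map_sum, Finset.sum_eq_single_of_mem c' (Finset.mem_univ c')]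
          · rw [map_smul, hw2 j c' j hj c']
            simp
          · intro c _ hc
            rw [map_smul, hw2 j c j hj c', if_neg (by rintro ⟨-, h⟩; exact hc h.symm), smul_zero]
        · intro i _ hi
          rw [map_sum]
          refine Finset.sum_eq_zero fun c _ => ?_
          rw [map_smul, hw2 i c j hj c', if_neg (by rintro ⟨h, -⟩; exact hi h.symm), smul_zero]
    rw [bf_apply]
    conv_lhs => rw [hsum]
    rw [map_sum, map_sum]
    refine Finset.sum_congr rfl fun i _ => ?_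
    rw [map_sum, map_sum]
    refine Finset.sum_congr rfl fun c _ => ?_
    rw [map_smul, map_smul, smul_eq_mul, mul_comm]
  refine ⟨fun i c => f (io (w i c)), ?_, hrep⟩
  -- the norm
  set β : ℕ → Bool → ℂ := fun i c => f (io (w i c)) with hβ
  obtain ⟨v, hv1, hv2⟩ := exists_ext hS0 k
    (fun i c => if β i c = 0 then 0 else (starRingEnd ℂ) (β i c) / (‖β i c‖ : ℂ))
  have hnb : NBl S0 k 1 v := by
    intro i hi c
    rw [hv2 i hi c]
    split_ifs with h
    · rw [norm_zero]
      exact zero_le_one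
    · have h0 : ‖β i c‖ ≠ 0 := norm_ne_zero_iff.2 h
      rw [norm_div, Complex.norm_conj, Complex.norm_real, norm_norm, div_self h0]
  have hnb2 := ext_bound hS0 zero_le_one hv1 hnb
  have hFs : v ∈ Fs := Fs_of_Sup hv1
  have hio : ‖io v‖ ≤ 2 := (norm_io_le hFs).2 (by rw [mul_one] at hnb2; exact hnb2)
  have h1 : f (io v) = ((∑ i ∈ Finset.range k, ∑ c : Bool, ‖β i c‖ : ℝ) : ℂ) := by
    rw [hrep v hv1, bf_apply]
    push_cast
    refine Finset.sum_congr rfl fun i hi => Finset.sum_congr rfl fun c _ => ?_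
    rw [hv2 i (Finset.mem_range.1 hi) c]
    change β i c * _ = _
    split_ifs with h
    · rw [h, mul_zero, norm_zero, Complex.ofReal_zero]
    · have h0 : (‖β i c‖ : ℂ) ≠ 0 := by
        rw [Ne, Complex.ofReal_eq_zero]
        exact norm_ne_zero_iff.2 h
      rw [← mul_div_assoc, Complex.mul_conj, Complex.normSq_eq_norm_sq]
      rw [div_eq_iff h0]
      push_cast
      ring
  have h2 : ‖f (io v)‖ ≤ 2 := by
    refine (f.le_opNorm _).trans ?_
    nlinarith [norm_nonneg f, norm_nonneg (io v)]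
  rw [h1, Complex.norm_real, Real.norm_eq_abs] at h2
  exact (le_abs_self _).trans h2

theorem FunRep_rat (z : ℂ) {δ : ℝ} (hδ : 0 < δ) : ∃ x y : ℚ,
    ‖((x : ℂ) + (y : ℂ) * Complex.I) - z‖ ≤ δ := by
  obtain ⟨x, hx1, hx2⟩ := exists_rat_btwn (show z.re - δ / 2 < z.re by linarith)
  obtain ⟨y, hy1, hy2⟩ := exists_rat_btwn (show z.im - δ / 2 < z.im by linarith)
  refine ⟨x, y, ?_⟩
  refine (Complex.norm_le_abs_re_add_abs_im _).trans ?_
  have e1 : (((x : ℂ) + (y : ℂ) * Complex.I) - z).re = (x : ℝ) - z.re := by simp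
  have e2 : (((x : ℂ) + (y : ℂ) * Complex.I) - z).im = (y : ℝ) - z.im := by simp
  rw [e1, e2]
  have h1 : |(x : ℝ) - z.re| ≤ δ / 2 := by
    rw [abs_le]
    constructor <;> linarith
  have h2 : |(y : ℝ) - z.im| ≤ δ / 2 := by
    rw [abs_le]
    constructor <;> linarith
  linarith

/-- approximate `β / 4` by rational complex numbers -/
theorem fun_rat (f : X →L[ℂ] ℂ) (hf : ‖f‖ ≤ 1) (k : ℕ) {ε : ℝ} (hε : 0 < ε) :
    ∃ b : ℕ → Bool → ℂ, RatB b ∧ (∀ i, k ≤ i → ∀ c, b i c = 0) ∧ ∀ v : W, Sup 0 k v →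
      ‖bf S0 k b v - f (io v) / 4‖ ≤ ε * ‖io v‖ := by
  classical
  obtain ⟨β, hβ1, hβ2⟩ := fun_rep f hf k
  set δ : ℝ := min ε (1 / 2) / (2 * (k + 1)) with hδ
  have hm : 0 < min ε (1 / 2) := lt_min hε (by norm_num)
  have hk0 : (0 : ℝ) < 2 * (k + 1) := by positivity
  have hδ0 : 0 < δ := div_pos hm hk0
  have hδk : (k : ℝ) * (2 * δ) ≤ min ε (1 / 2) := by
    have h1 : δ * (2 * (k + 1)) = min ε (1 / 2) := by
      rw [hδ]
      field_simp
    nlinarith
  choose x y hxy using fun (i : ℕ) (c : Bool) => FunRep_rat (β i c / 4) hδ0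
  set b : ℕ → Bool → ℂ := fun i c => if i < k then (x i c : ℂ) + (y i c : ℂ) * Complex.I else 0
    with hb
  have hb0 : ∀ i, k ≤ i → ∀ c, b i c = 0 := by
    intro i hi c
    simp only [hb]
    rw [if_neg (by omega)]
  have hbd : ∀ i, i < k → ∀ c, ‖b i c - β i c / 4‖ ≤ δ := by
    intro i hi c
    simp only [hb]
    rw [if_pos hi]
    exact hxy i c
  have hcount : ∑ i ∈ Finset.range k, ∑ _c : Bool, δ = k * (2 * δ) := by
    simp [Finset.sum_const]
  refine ⟨b, ⟨?_, k, hb0, ?_⟩, hb0, ?_⟩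
  · intro i c
    rcases lt_or_ge i k with hi | hi
    · exact ⟨x i c, y i c, by simp only [hb]; rw [if_pos hi]⟩
    · exact ⟨0, 0, by rw [hb0 i hi c]; simp⟩
  · have h1 : ∑ i ∈ Finset.range k, ∑ c : Bool, ‖b i c‖ ≤
        ∑ i ∈ Finset.range k, ∑ c : Bool, (δ + ‖β i c‖ / 4) := by
      refine Finset.sum_le_sum fun i hi => Finset.sum_le_sum fun c _ => ?_
      have h2 := hbd i (Finset.mem_range.1 hi) c
      have h3 := norm_add_le (b i c - β i c / 4) (β i c / 4)
      rw [sub_add_cancel, norm_div] at h3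
      have h4 : ‖(4 : ℂ)‖ = 4 := by norm_num
      rw [h4] at h3
      linarith
    refine h1.trans ?_
    have h5 : ∑ i ∈ Finset.range k, ∑ c : Bool, (δ + ‖β i c‖ / 4) =
        k * (2 * δ) + (∑ i ∈ Finset.range k, ∑ c : Bool, ‖β i c‖) / 4 := by
      rw [← hcount, Finset.sum_div, ← Finset.sum_add_distrib]
      refine Finset.sum_congr rfl fun i _ => ?_
      rw [Finset.sum_add_distrib, Finset.sum_div]
    rw [h5]
    have h6 := min_le_right ε (1 / 2 : ℝ)
    linarith
  · intro v hv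
    have hFs : v ∈ Fs := Fs_of_Sup hv
    rw [hβ2 v hv, bf_apply, bf_apply, Finset.sum_div, ← Finset.sum_sub_distrib]
    have h1 : ‖∑ i ∈ Finset.range k, ((∑ c : Bool, b i c * e S0 i c v) -
        (∑ c : Bool, β i c * e S0 i c v) / 4)‖ ≤ ∑ i ∈ Finset.range k, ∑ _c : Bool, δ * ‖io v‖ := by
      refine (norm_sum_le _ _).trans (Finset.sum_le_sum fun i hi => ?_)
      rw [Finset.sum_div, ← Finset.sum_sub_distrib]
      refine (norm_sum_le _ _).trans (Finset.sum_le_sum fun c _ => ?_)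
      have h2 : b i c * e S0 i c v - β i c * e S0 i c v / 4 = (b i c - β i c / 4) * e S0 i c v := by
        ring
      rw [h2, norm_mul]
      refine mul_le_mul (hbd i (Finset.mem_range.1 hi) c) ?_ (norm_nonneg _) hδ0.le
      rw [← eX_io hFs]
      exact eX_le i c (io v)
    refine h1.trans ?_
    have h3 : ∑ i ∈ Finset.range k, ∑ _c : Bool, δ * ‖io v‖ = k * (2 * δ) * ‖io v‖ := by
      rw [← hcount, Finset.sum_mul]
      refine Finset.sum_congr rfl fun i _ => ?_
      rw [Finset.sum_mul]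
    rw [h3]
    exact mul_le_mul_of_nonneg_right (hδk.trans (min_le_left _ _)) (norm_nonneg _)

end Pool.Agent.W8d7136
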