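import Mathlib

set_option autoImplicit false

/-!
The Alexandroff duplicate of the Cantor set: `(z, true)` is isolated, and the neighbourhoods of `(z, false)` are
generated by the cylinders around `z` without `(z, true)`.
-/

open Filter Topology

namespace Pool.Agent.W8d7136

/-- the Alexandroff duplicate of the Cantor set -/
def KK : Type := (ℕ → Bool) × Bool

instance : TopologicalSpace KK where
  IsOpen U := ∀ z : ℕ → Bool, ((z, false) : (ℕ → Bool) × Bool) ∈ U → ∃ N : ℕ, ∀ w : ℕ → Bool,
    (∀ i < N, w i = z i) → w ≠ z → ∀ c : Bool, ((w, c) : (ℕ → Bool) × Bool) ∈ U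
  isOpen_univ := fun _ _ => ⟨0, fun _ _ _ _ => trivial⟩
  isOpen_inter := by
    intro U V hU hV z hz
    obtain ⟨N, hN⟩ := hU z hz.1
    obtain ⟨M, hM⟩ := hV z hz.2
    refine ⟨max N M, fun w hw hne c => ⟨hN w (fun i hi => hw i (by omega)) hne c,
      hM w (fun i hi => hw i (by omega)) hne c⟩⟩
  isOpen_sUnion := by
    intro s hs z hz
    obtain ⟨U, hU, hzU⟩ := hz
    obtain ⟨N, hN⟩ := hs U hU z hzU
    exact ⟨N, fun w hw hne c => ⟨U, hU, hN w hw hne c⟩⟩

theorem KK_isOpen {U : Set KK} : IsOpen U ↔ ∀ z : ℕ → Bool, ((z, false) : (ℕ → Bool) × Bool) ∈ U →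
    ∃ N : ℕ, ∀ w : ℕ → Bool, (∀ i < N, w i = z i) → w ≠ z →
      ∀ c : Bool, ((w, c) : (ℕ → Bool) × Bool) ∈ U := Iff.rfl

/-- cylinder sets -/
def kcyl (L : ℕ) (z : ℕ → Bool) : Set KK := {x | ∀ i < L, x.1 i = z i}

theorem kcyl_open (L : ℕ) (z : ℕ → Bool) : IsOpen (kcyl L z) := by
  rw [KK_isOpen]
  intro z' hz'
  refine ⟨L, fun w hw _ c i hi => ?_⟩
  have h1 : z' i = z i := hz' i hi
  have h2 : w i = z' i := hw i hi
  show w i = z i
  rw [h2, h1]

theorem kcyl_compl_open (L : ℕ) (z : ℕ → Bool) : IsOpen (kcyl L z)ᶜ := by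
  rw [KK_isOpen]
  intro z' hz'
  refine ⟨L, fun w hw _ c hc => hz' fun i hi => ?_⟩
  have h1 : w i = z i := hc i hi
  have h2 : w i = z' i := hw i hi
  show z' i = z i
  rw [← h2, h1]

theorem kpt_open (z : ℕ → Bool) : IsOpen {x : KK | x = ((z, true) : (ℕ → Bool) × Bool)} := by
  rw [KK_isOpen]
  intro z' hz'
  have h1 : ((z', false) : (ℕ → Bool) × Bool) = (z, true) := hz'
  exact absurd (congrArg Prod.snd h1) (by simp)

theorem kpt_compl_open (z : ℕ → Bool) : IsOpen {x : KK | x ≠ ((z, true) : (ℕ → Bool) × Bool)} := by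
  rw [KK_isOpen]
  intro z' _
  by_cases h : z' = z
  · refine ⟨0, fun w _ hne c hc => hne ?_⟩
    have h1 : ((w, c) : (ℕ → Bool) × Bool) = (z, true) := hc
    have h2 : w = z := congrArg Prod.fst h1
    rw [h2, h]
  · obtain ⟨i, hi⟩ := Function.ne_iff.1 h
    refine ⟨i + 1, fun w hw _ c hc => hi ?_⟩
    have h1 : ((w, c) : (ℕ → Bool) × Bool) = (z, true) := hc
    have h2 : w = z := congrArg Prod.fst h1
    rw [← hw i (Nat.lt_succ_self i), h2]

instance : T2Space KK := by
  refine ⟨fun x y hxy => ?_⟩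
  obtain ⟨z, a⟩ : (ℕ → Bool) × Bool := x
  obtain ⟨w, b⟩ : (ℕ → Bool) × Bool := y
  by_cases h : z = w
  · subst h
    cases a with
    | true =>
      refine ⟨_, _, kpt_open z, kpt_compl_open z, rfl, fun h => hxy h.symm, ?_⟩
      rw [Set.disjoint_left]
      exact fun x hx hx' => hx' hx
    | false =>
      cases b with
      | false => exact absurd rfl hxy
      | true =>
        refine ⟨_, _, kpt_compl_open z, kpt_open z, fun h => hxy h, rfl, ?_⟩
        rw [Set.disjoint_left]
        exact fun x hx hx' => hx hx'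
  · obtain ⟨i, hi⟩ := Function.ne_iff.1 h
    refine ⟨kcyl (i + 1) z, kcyl (i + 1) w, kcyl_open _ _, kcyl_open _ _, fun _ _ => rfl,
      fun _ _ => rfl, ?_⟩
    rw [Set.disjoint_left]
    intro x hx hx'
    exact hi ((hx i (Nat.lt_succ_self i)).symm.trans (hx' i (Nat.lt_succ_self i)))

/-- for an open cover choose for every `z` a cylinder around `z` (minus `(z, true)`) inside a member of the cover
containing `(z, false)`; finitely many cylinders cover the compact space `ℕ → Bool`; the finitely many points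
`(z, true)` left over need finitely many further members -/
instance : CompactSpace KK := by
  classical
  refine ⟨isCompact_of_finite_subcover fun {ι} U hU hcov => ?_⟩
  have hmem : ∀ x : KK, ∃ i, x ∈ U i := fun x => Set.mem_iUnion.1 (hcov (Set.mem_univ x))
  choose I hI using hmem
  have hN : ∀ z : ℕ → Bool, ∃ N : ℕ, ∀ w : ℕ → Bool, (∀ i < N, w i = z i) → w ≠ z →
      ∀ c : Bool, ((w, c) : (ℕ → Bool) × Bool) ∈ U (I ((z, false) : (ℕ → Bool) × Bool)) :=
    fun z => KK_isOpen.1 (hU _) z (hI _)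
  choose N hN using hN
  obtain ⟨T, -, hT⟩ := (isCompact_univ : IsCompact (Set.univ : Set (ℕ → Bool))).elim_nhds_subcover
    (fun z => PiNat.cylinder z (N z))
    (fun z _ => (PiNat.isOpen_cylinder (fun _ => Bool) z (N z)).mem_nhds (PiNat.self_mem_cylinder _ _))
  refine ⟨T.image (fun z => I ((z, false) : (ℕ → Bool) × Bool)) ∪
    T.image (fun z => I ((z, true) : (ℕ → Bool) × Bool)), ?_⟩
  intro x _
  obtain ⟨w, c⟩ : (ℕ → Bool) × Bool := x
  obtain ⟨z, hzT, hz⟩ := Set.mem_iUnion₂.1 (hT (Set.mem_univ w))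
  rw [PiNat.mem_cylinder_iff] at hz
  by_cases h : w = z
  · subst h
    cases c with
    | true =>
      exact Set.mem_iUnion₂.2 ⟨I ((w, true) : (ℕ → Bool) × Bool),
        Finset.mem_union_right _ (Finset.mem_image.2 ⟨w, hzT, rfl⟩), hI _⟩
    | false =>
      exact Set.mem_iUnion₂.2 ⟨I ((w, false) : (ℕ → Bool) × Bool),
        Finset.mem_union_left _ (Finset.mem_image.2 ⟨w, hzT, rfl⟩), hI _⟩
  · exact Set.mem_iUnion₂.2 ⟨I ((z, false) : (ℕ → Bool) × Bool),
      Finset.mem_union_left _ (Finset.mem_image.2 ⟨z, hzT, rfl⟩), hN z w hz h c⟩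

/-- continuity criterion -/
theorem KK_continuous {f : KK → ℂ}
    (h : ∀ (z : ℕ → Bool) (w : ℕ → ℕ → Bool) (c : ℕ → Bool), (∀ k, ∀ i < k, w k i = z i) →
      (∀ k, w k ≠ z) → Tendsto (fun k => f (w k, c k)) atTop (𝓝 (f (z, false)))) :
    Continuous f := by
  rw [continuous_def]
  intro V hV
  rw [KK_isOpen]
  intro z hz
  by_contra hcon
  push Not at hcon
  choose w hw hne c hc using hcon
  have h1 := h z w c hw hne
  have h2 : ∀ᶠ k in atTop, f (w k, c k) ∈ V := h1.eventually (hV.mem_nhds hz)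
  obtain ⟨k, hk⟩ := h2.exists
  exact hc k hk

open Classical in
theorem KK_continuous_clopen {U : Set KK} (h1 : IsOpen U) (h2 : IsOpen Uᶜ) :
    Continuous (fun x : KK => if x ∈ U then (1 : ℂ) else 0) := by
  rw [continuous_def]
  intro V _
  by_cases ha : (1 : ℂ) ∈ V
  · by_cases hb : (0 : ℂ) ∈ V
    · convert isOpen_univ
      ext x
      simp only [Set.mem_preimage, Set.mem_univ, iff_true]
      split_ifs <;> assumption
    · convert h1
      ext x
      simp only [Set.mem_preimage]
      split_ifs with h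
      · exact ⟨fun _ => h, fun _ => ha⟩
      · exact ⟨fun h' => absurd h' hb, fun h' => absurd h' h⟩
  · by_cases hb : (0 : ℂ) ∈ V
    · convert h2
      ext x
      simp only [Set.mem_preimage, Set.mem_compl_iff]
      split_ifs with h
      · exact ⟨fun h' => absurd h' ha, fun h' => absurd h h'⟩
      · exact ⟨fun _ => h, fun _ => hb⟩
    · convert isOpen_empty
      ext x
      simp only [Set.mem_preimage, Set.mem_empty_iff_false, iff_false]
      split_ifs <;> assumption

open Classical in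
/-- the indicator function of an isolated point -/
noncomputable def kind (z : ℕ → Bool) : C(KK, ℂ) :=
  ⟨fun x => if x ∈ {x : KK | x = ((z, true) : (ℕ → Bool) × Bool)} then 1 else 0,
    KK_continuous_clopen (kpt_open z) (kpt_compl_open z)⟩

theorem kind_dist {z w : ℕ → Bool} (h : z ≠ w) : 1 ≤ dist (kind z) (kind w) := by
  have h1 := ContinuousMap.dist_apply_le_dist (f := kind z) (g := kind w)
    ((z, true) : (ℕ → Bool) × Bool)
  have e1 : kind z ((z, true) : (ℕ → Bool) × Bool) = 1 := if_pos rfl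
  have e2 : kind w ((z, true) : (ℕ → Bool) × Bool) = 0 := by
    refine if_neg fun h' => h ?_
    have h2 : ((z, true) : (ℕ → Bool) × Bool) = (w, true) := h'
    exact congrArg Prod.fst h2
  rw [e1, e2] at h1
  simpa using h1

/-- the indicator functions of the isolated points are at distance one from each other -/
theorem KK_nonsep : ¬ TopologicalSpace.SeparableSpace C(KK, ℂ) := by
  intro hsep
  have hd : Pairwise (Function.onFun Disjoint
      fun z : ℕ → Bool => Metric.ball (kind z) (1 / 2)) := by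
    intro z w hzw
    show Disjoint (Metric.ball (kind z) (1 / 2)) (Metric.ball (kind w) (1 / 2))
    refine Metric.ball_disjoint_ball ?_
    have := kind_dist hzw
    linarith
  have hc : Countable (ℕ → Bool) := hd.countable_of_isOpen_disjoint
    (fun z => Metric.isOpen_ball) (fun z => ⟨kind z, Metric.mem_ball_self (by norm_num)⟩)
  rw [← Cardinal.mk_le_aleph0_iff] at hc
  have h2 : Cardinal.aleph0 < Cardinal.mk (ℕ → Bool) := by
    have := Cardinal.cantor Cardinal.aleph0
    simpa using this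
  exact absurd hc (not_le.2 h2)

open Classical in
/-- Stone-Weierstrass (`ContinuousMap.starSubalgebra_topologicalClosure_eq_top_of_separatesPoints`): `R` contains the
star subalgebra generated by the real functions in `h1` and `h2` -/
theorem KK_top {R : Subalgebra ℂ C(KK, ℂ)} (hR : IsClosed (R : Set C(KK, ℂ)))
    (h1 : ∀ z : ℕ → Bool, ∃ f ∈ R, ∀ (w : ℕ → Bool) (c : Bool),
      f (w, c) = if w = z ∧ c = true then 1 else 0)
    (h2 : ∀ (L : ℕ) (z : ℕ → Bool), ∃ f ∈ R, ∀ (w : ℕ → Bool) (c : Bool),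
      f (w, c) = if (∀ i < L, w i = z i) then 1 else 0) : R = ⊤ := by
  let S : Set C(KK, ℂ) := {f | f ∈ R ∧ star f = f}
  have hS : star S = S := by
    ext f
    rw [Set.mem_star]
    constructor
    · rintro ⟨h, h'⟩
      rw [star_star] at h'
      rw [← h'] at h
      exact ⟨h, h'.symm⟩
    · rintro ⟨h, h'⟩
      refine ⟨?_, ?_⟩
      · rw [h']; exact h
      · rw [star_star, h']
  have hle : (StarAlgebra.adjoin ℂ S).toSubalgebra ≤ R := by
    rw [StarAlgebra.adjoin_toSubalgebra, hS, Set.union_self]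
    exact Algebra.adjoin_le fun f hf => hf.1
  have hsub : S ⊆ (StarAlgebra.adjoin ℂ S : Set C(KK, ℂ)) := StarAlgebra.subset_adjoin ℂ S
  have hsep : (StarAlgebra.adjoin ℂ S).SeparatesPoints := by
    intro x y hxy
    obtain ⟨z, a⟩ : (ℕ → Bool) × Bool := x
    obtain ⟨w, b⟩ : (ℕ → Bool) × Bool := y
    by_cases h : z = w
    · subst h
      obtain ⟨f, hfR, hf⟩ := h1 z
      have hfs : star f = f := by
        ext x
        obtain ⟨w', c'⟩ : (ℕ → Bool) × Bool := x
        show star (f (w', c')) = f (w', c')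
        rw [hf]
        split_ifs <;> simp
      refine ⟨f, ⟨f, hsub ⟨hfR, hfs⟩, rfl⟩, ?_⟩
      show f (z, a) ≠ f (z, b)
      rw [hf, hf]
      cases a <;> cases b
      · exact absurd rfl hxy
      · simp
      · simp
      · exact absurd rfl hxy
    · obtain ⟨i, hi⟩ := Function.ne_iff.1 h
      obtain ⟨f, hfR, hf⟩ := h2 (i + 1) z
      have hfs : star f = f := by
        ext x
        obtain ⟨w', c'⟩ : (ℕ → Bool) × Bool := x
        show star (f (w', c')) = f (w', c')
        rw [hf]
        split_ifs <;> simp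
      refine ⟨f, ⟨f, hsub ⟨hfR, hfs⟩, rfl⟩, ?_⟩
      show f (z, a) ≠ f (w, b)
      rw [hf, hf, if_pos (fun _ _ => rfl), if_neg]
      · exact one_ne_zero
      · intro h'
        exact hi (h' i (Nat.lt_succ_self i)).symm
  have htop := ContinuousMap.starSubalgebra_topologicalClosure_eq_top_of_separatesPoints
    (StarAlgebra.adjoin ℂ S) hsep
  rw [eq_top_iff]
  intro f _
  have hf : f ∈ (StarAlgebra.adjoin ℂ S).topologicalClosure := by
    rw [htop]
    exact StarSubalgebra.mem_top
  have hf' : f ∈ closure ((StarAlgebra.adjoin ℂ S : StarSubalgebra ℂ C(KK, ℂ)) : Set C(KK, ℂ)) := hf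
  exact closure_minimal (fun g hg => hle hg) hR hf'

end Pool.Agent.W8d7136
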