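import Pool.Agent.W_MP_8d7136_h58.XOps
import Pool.Agent.W_MP_8d7136_h58.C0

set_option autoImplicit false

/-!
Localisation.
-/

open Filter Topology

namespace Pool.Agent.W8d7136

/-- approximate `u` by `io w` with `P K w = 0` and use `c0_est` -/
theorem c0X {K L : ℕ} {F : Finset ℕ} (hF : ∀ p ∈ F, p < K ∧ S0.len p = L)
    (hcov : ∀ i, K ≤ i → L ≤ S0.len i ∧ ∃ p ∈ F, S0.On p (S0.s i)) {u : X} (hK : PX K u = 0)
    {C : ℝ} (hC : 0 ≤ C) (hv : ∀ p ∈ F, ‖QX p u‖ ≤ C) : ‖u‖ ≤ 2 * C := by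
  refine le_of_forall_pos_le_add fun ε hε => ?_
  obtain ⟨w', hw', hd⟩ := exists_io u (show 0 < ε / 39 by positivity)
  have hP : P K w' ∈ Fs := Fs_Mult (Mult_P S0 K) hw'
  obtain ⟨w, hw⟩ : ∃ w, w = w' - P K w' := ⟨_, rfl⟩
  have hwF : w ∈ Fs := by rw [hw]; exact Fs.sub_mem hw' hP
  have hio : io w = io w' - PX K (io w') := by rw [hw, map_sub, PX_io hw']
  have hdist : ‖u - io w‖ ≤ ε / 13 := by
    have h1 : u - io w = (u - io w') - PX K (u - io w') := by
      rw [hio, map_sub, hK]; abel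
    rw [h1]
    have h2 := norm_sub_le (u - io w') (PX K (u - io w'))
    have h3 := PX_le (u - io w') K
    linarith
  have hwK : ∀ i, i < K → ∀ c, w i c = 0 := by
    intro i hi c
    rw [hw, Pi.sub_apply, Pi.sub_apply, Bd_P_apply, if_pos hi, sub_self]
  have hvw : ∀ p ∈ F, NB S0 (C + 6 * (ε / 13)) (Q S0 p w) := by
    intro p hp
    rw [← norm_io_le (Fs_Mult (Mult_Q S0 p) hwF), ← QX_io hwF]
    have h1 : QX p (io w) = QX p u - QX p (u - io w) := by rw [map_sub]; abel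
    rw [h1]
    have h2 := norm_sub_le (QX p u) (QX p (u - io w))
    have h3 := QX_le (u - io w) p
    have h4 := hv p hp
    linarith
  have hfin := c0_est hS0 hF hcov hwK ((norm_io_le hwF).1 le_rfl) (by positivity) hvw
  have h5 := (norm_io_le hwF).2 hfin
  have h6 : ‖u‖ ≤ ‖u - io w‖ + ‖io w‖ := by
    have := norm_add_le (u - io w) (io w)
    rwa [sub_add_cancel] at this
  linarith

/-- a level: apply `c0X` to `v k - PX K (v k)` -/
theorem loc_level {v : ℕ → X} (hv : ∀ N, Tendsto (fun k => PX N (v k)) atTop (𝓝 0)) {δ : ℝ}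
    (hδ : 0 < δ) (h : ∃ᶠ k in atTop, δ ≤ ‖v k‖) (L : ℕ) :
    ∃ p, S0.len p = L ∧ ∃ᶠ k in atTop, δ / 3 ≤ ‖QX p (v k)‖ := by
  obtain ⟨F, K, hF, hcov⟩ := exists_cover hS0 L
  by_contra hcon
  push Not at hcon
  have h1 : ∀ᶠ k in atTop, ∀ p ∈ F, ‖QX p (v k)‖ < δ / 3 := by
    rw [Filter.eventually_all_finset]
    intro p hp
    exact hcon p (hF p hp).2
  have h2 : ∀ᶠ k in atTop, ‖PX K (v k)‖ < δ / 100 := by
    have := (Metric.tendsto_nhds.1 (hv K)) (δ / 100) (by positivity)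
    filter_upwards [this] with k hk
    rwa [dist_zero_right] at hk
  apply h
  filter_upwards [h1, h2] with k hk1 hk2 hcc
  have h3 : PX K (v k - PX K (v k)) = 0 := by
    rw [map_sub, PX_PX, min_self, sub_self]
  have h4 := c0X hF hcov h3 (C := δ / 3 + 6 * (δ / 100)) (by positivity) (fun p hp => by
    rw [map_sub]
    have h5 := norm_sub_le (QX p (v k)) (QX p (PX K (v k)))
    have h6 := QX_le (PX K (v k)) p
    have h7 := hk1 p hp
    linarith)
  have h8 : ‖v k‖ ≤ ‖v k - PX K (v k)‖ + ‖PX K (v k)‖ := by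
    have := norm_add_le (v k - PX K (v k)) (PX K (v k))
    rwa [sub_add_cancel] at this
  linarith

/-- Take `p L` from `loc_level` and a cluster point `z` of the sequence `s (p L)` in the compact metrizable
space `ℕ → Bool`.  For `p` on `z` there is `L > len p` with `On p (s (p L))`; then `p ≤ p L` and
`QX (p L) = QX (p L) QX p`, so `‖QX p (v k)‖ ≥ δ / 18`. -/
theorem loc {v : ℕ → X} (hv : ∀ N, Tendsto (fun k => PX N (v k)) atTop (𝓝 0)) {δ : ℝ}
    (hδ : 0 < δ) (h : ∃ᶠ k in atTop, δ ≤ ‖v k‖) :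
    ∃ z : ℕ → Bool, ∀ p, S0.On p z → ∃ᶠ k in atTop, δ / 20 ≤ ‖QX p (v k)‖ := by
  choose p hp1 hp2 using loc_level hv hδ h
  obtain ⟨z, hz⟩ := exists_clusterPt_of_compactSpace (Filter.map (fun L => S0.s (p L)) atTop)
  have hz' : MapClusterPt z atTop (fun L => S0.s (p L)) := hz
  refine ⟨z, fun q hq => ?_⟩
  have hU : ∀ᶠ y in 𝓝 z, ∀ i ∈ Finset.range (S0.len q), y i = z i := by
    rw [Filter.eventually_all_finset]
    intro i _
    exact (continuous_apply i).continuousAt.preimage_mem_nhds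
      ((isOpen_discrete ({z i} : Set Bool)).mem_nhds rfl)
  have hfr := (hz'.frequently hU).and_eventually (eventually_gt_atTop (S0.len q))
  obtain ⟨L, hL1, hL2⟩ := hfr.exists
  have hon : S0.On q (S0.s (p L)) := by
    intro i hi
    rw [hq i hi, hL1 i (Finset.mem_range.2 hi)]
  have hle : q ≤ p L := by
    by_contra hcon
    have h1 := hS0.mono (show p L ≤ q by omega)
    rw [hp1] at h1
    omega
  refine (hp2 L).mono fun k hk => ?_
  have h1 := (QX_QX (v k) hle hon).2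
  have h2 := QX_le (QX q (v k)) (p L)
  rw [h1] at h2
  linarith

/-- extraction (`extraction_forall_of_frequently`; the indices on `z` are unbounded, e.g. `Good.seed`) -/
theorem loc_ext {v : ℕ → X} {z : ℕ → Bool} {δ : ℝ}
    (h : ∀ p, S0.On p z → ∃ᶠ k in atTop, δ ≤ ‖QX p (v k)‖) {A : ℕ → ℕ → Prop}
    (hA : ∀ p, S0.On p z → ∀ᶠ k in atTop, A p k) (p₀ : ℕ) :
    ∃ φ p : ℕ → ℕ, StrictMono φ ∧ Tendsto p atTop atTop ∧
      ∀ i, p₀ ≤ p i ∧ S0.On (p i) z ∧ A (p i) (φ i) ∧ δ ≤ ‖QX (p i) (v (φ i))‖ := by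
  choose p hp using fun i : ℕ => hS0.seed z (max p₀ i)
  have hfr : ∀ i, ∃ᶠ k in atTop, A (p i) k ∧ δ ≤ ‖QX (p i) (v k)‖ := by
    intro i
    exact ((h (p i) (hp i).2.1).and_eventually (hA (p i) (hp i).2.1)).mono fun k hk =>
      ⟨hk.2, hk.1⟩
  obtain ⟨φ, hφ, hφ'⟩ := extraction_forall_of_frequently hfr
  refine ⟨φ, p, hφ, ?_, fun i => ?_⟩
  · exact tendsto_atTop_mono (fun i => (le_max_right p₀ i).trans (hp i).1) tendsto_id
  · exact ⟨(le_max_left p₀ i).trans (hp i).1, (hp i).2.1, (hφ' i).1, (hφ' i).2⟩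

/-- a diagonal argument -/
theorem diag_on {z : ℕ → Bool} {A : ℕ → ℕ → Prop}
    (hA : ∀ p, S0.On p z → ∀ᶠ k in atTop, A p k) :
    ∃ r : ℕ → ℕ, Tendsto r atTop atTop ∧ (∀ k, S0.On (r k) z) ∧ ∀ᶠ k in atTop, A (r k) k := by
  choose p hp using fun i : ℕ => hS0.seed z i
  choose N hN using fun i : ℕ => Filter.eventually_atTop.1 (hA (p i) (hp i).2.1)
  refine ⟨fun k => p (Nat.findGreatest (fun i => N i ≤ k) k), ?_, fun k => (hp _).2.1, ?_⟩
  · refine tendsto_atTop.2 fun M => ?_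
    filter_upwards [eventually_ge_atTop (max M (N M))] with k hk
    have h1 : M ≤ Nat.findGreatest (fun i => N i ≤ k) k :=
      Nat.le_findGreatest ((le_max_left _ _).trans hk) ((le_max_right _ _).trans hk)
    exact h1.trans (hp _).1
  · filter_upwards [eventually_ge_atTop (N 0)] with k hk
    have h1 : N (Nat.findGreatest (fun i => N i ≤ k) k) ≤ k :=
      Nat.findGreatest_spec (P := fun i => N i ≤ k) (Nat.zero_le k) hk
    exact hN _ k h1

end Pool.Agent.W8d7136
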