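import Pool.Agent.W_MP_8d7136_h58.MainL
import Pool.Agent.W_MP_8d7136_h58.LocL

set_option autoImplicit false

/-!
Localised rapidly increasing sequences.
-/

open Filter Topology

namespace Pool.Agent.W8d7136

/-- localised rapidly increasing sequences of type `(z, c)` -/
structure LRIS (C : ℝ) (z : ℕ → Bool) (c : Bool) (x : ℕ → W) : Prop where
  ris : RIS C x
  ty : ∀ k, Ty z c (x k)
  loc : ∀ p, S0.On p z → ∀ᶠ k in atTop, Q S0 p (x k) = x k

theorem LRIS.sub {C : ℝ} {z : ℕ → Bool} {c : Bool} {x : ℕ → W} (hx : LRIS C z c x) {φ : ℕ → ℕ}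
    (hφ : StrictMono φ) : LRIS C z c (fun k => x (φ k)) :=
  ⟨hx.ris.sub hφ, fun k => hx.ty (φ k), fun p hp => hφ.tendsto_atTop.eventually (hx.loc p hp)⟩

/-- a sequence whose norms are at least `δ` does not tend to zero -/
theorem LocForm_contra {u : ℕ → X} {δ : ℝ} (hδ : 0 < δ) (h : ∀ i, δ ≤ ‖u i‖)
    (hu : Tendsto u atTop (𝓝 0)) : False := by
  obtain ⟨i, hi⟩ := ((Metric.tendsto_nhds.1 hu) δ hδ).exists
  rw [dist_zero_right] at hi
  exact absurd (h i) (not_le.2 hi)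

/-- Choose `r` by `diag_on` with `Q (r k) (x k) = x k` eventually and `a` by `mainL`.  Let
`v k = T x_k - a k x_k`; if it does not tend to zero, `‖v k‖ ≥ δ` frequently; `PX N (v k) → 0` (`ris_PX`,
`RIS.PX_zero`).  `loc` gives `z'`.
Case `z' = z`: `loc_ext` with `A p k := p ≤ r k ∧ Q p (x k) = x k ∧ Q (r k) (x k) = x k`; `mainL` for the
subsequence and the indices `p i` gives `a'` with `QX (p i) T x - a' x → 0`; apply `QX (r (φ i))`
(`QX (r) QX (p) = QX (r)`) and compare with `a`: `(a - a') x → 0`, so `QX (p i) v → 0`, contradiction.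
Case `z' ≠ z`: take `p₀` on `z'` but not on `z` (`lenall`), `A p k := p₀ < r k ∧ Q (r k) (x k) = x k`.
Then `r k` is not on `z'` (else `p₀` is on `z`), so `E z' (x k) = E z' Q (r k) x k = 0` (type off at `z'`),
and `Q (p i) (x k) = 0` (`Q p₀ Q (r k) = 0`, `Q (p i) = Q (p i) Q p₀`); `mainL0` for the subsequence, `z'` and
`p i`, contradiction. -/
theorem locform (T : X →L[ℂ] X) {C : ℝ} {z : ℕ → Bool} {c : Bool} {x : ℕ → W}
    (hx : LRIS C z c x) :
    ∃ a : ℕ → ℂ, Tendsto (fun k => T (io (x k)) - a k • io (x k)) atTop (𝓝 0) := by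
  obtain ⟨r, hr, hrz, hrx⟩ := diag_on (z := z) (A := fun p k => Q S0 p (x k) = x k) hx.loc
  obtain ⟨a, ha⟩ := mainL T hx.ris hx.ty hr hrz
  have hmem : ∀ k, x k ∈ Fs := fun k => RIS.mem hx.ris k
  refine ⟨a, ?_⟩
  by_contra hcon
  rw [Metric.tendsto_nhds] at hcon
  push Not at hcon
  obtain ⟨δ, hδ, hfr⟩ := hcon
  have hfr' : ∃ᶠ k in atTop, δ ≤ ‖T (io (x k)) - a k • io (x k)‖ := by
    refine hfr.mono fun k hk => ?_
    rwa [dist_zero_right] at hk
  have hPX : ∀ N, Tendsto (fun k => PX N (T (io (x k)) - a k • io (x k))) atTop (𝓝 0) := by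
    intro N
    refine (ris_PX hx.ris T N).congr' ?_
    filter_upwards [RIS.PX_zero hx.ris N] with k hk
    rw [map_sub, map_smul, PX_io (hmem k), hk, map_zero, smul_zero, sub_zero]
  obtain ⟨z', hz'⟩ := loc hPX hδ hfr'
  have hδ' : 0 < δ / 20 := by positivity
  by_cases hzz : z' = z
  · subst hzz
    obtain ⟨φ, p, hφ, hp, hA⟩ := loc_ext hz'
      (A := fun p k => p ≤ r k ∧ Q S0 p (x k) = x k ∧ Q S0 (r k) (x k) = x k)
      (fun p hp => (hr.eventually_ge_atTop p).and ((hx.loc p hp).and hrx)) 0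
    obtain ⟨a', ha'⟩ := mainL T (hx.ris.sub hφ) (fun i => hx.ty (φ i)) hp (fun i => (hA i).2.1)
    have h1 : ∀ i, QX (p i) (io (x (φ i))) = io (x (φ i)) := fun i => by
      rw [QX_io (hmem _), (hA i).2.2.1.2.1]
    have h2 : ∀ i, QX (r (φ i)) (io (x (φ i))) = io (x (φ i)) := fun i => by
      rw [QX_io (hmem _), (hA i).2.2.1.2.2]
    have h3 : Tendsto (fun i => QX (r (φ i)) (T (io (x (φ i)))) - a' i • io (x (φ i)))
        atTop (𝓝 0) := by
      have h4 : ∀ i, ‖QX (r (φ i)) (T (io (x (φ i)))) - a' i • io (x (φ i))‖ ≤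
          6 * ‖QX (p i) (T (io (x (φ i)))) - a' i • QX (p i) (io (x (φ i)))‖ := by
        intro i
        have h5 := (QX_QX (T (io (x (φ i)))) (hA i).2.2.1.1
          (on_of_on hS0 (hA i).2.2.1.1 (hA i).2.1 (hrz (φ i)))).2
        have h6 : QX (r (φ i)) (T (io (x (φ i)))) - a' i • io (x (φ i)) =
            QX (r (φ i)) (QX (p i) (T (io (x (φ i)))) - a' i • QX (p i) (io (x (φ i)))) := by
          rw [map_sub, map_smul, h5, h1, h2]
        rw [h6]
        exact QX_le _ _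
      refine squeeze_zero_norm h4 ?_
      have h7 := ha'.norm.const_mul 6
      rwa [norm_zero, mul_zero] at h7
    have h4 : Tendsto (fun i => QX (r (φ i)) (T (io (x (φ i)))) - a (φ i) • io (x (φ i)))
        atTop (𝓝 0) := by
      refine (ha.comp hφ.tendsto_atTop).congr fun i => ?_
      show QX (r (φ i)) (T (io (x (φ i)))) - a (φ i) • QX (r (φ i)) (io (x (φ i))) = _
      rw [h2]
    refine LocForm_contra hδ' (fun i => (hA i).2.2.2) ?_
    have h5 := (ha'.sub h3).add h4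
    rw [sub_zero, add_zero] at h5
    refine h5.congr fun i => ?_
    rw [map_sub, map_smul, h1]
    abel
  · obtain ⟨i₀, hi₀⟩ := Function.ne_iff.1 hzz
    obtain ⟨p₀, hp1, hp2⟩ := hS0.lenall (i₀ + 1) z'
    have hp3 : ¬ S0.On p₀ z := by
      intro h
      have h1 := h i₀ (by omega)
      have h2 := hp2 i₀ (by omega)
      exact hi₀ (h2.symm.trans h1)
    obtain ⟨φ, p, hφ, hp, hA⟩ := loc_ext hz'
      (A := fun _ k => p₀ < r k ∧ Q S0 (r k) (x k) = x k)
      (fun p _ => (hr.eventually_gt_atTop p₀).and hrx) p₀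
    have hn1 : ∀ i, ¬ S0.On p₀ (S0.s (r (φ i))) := fun i h =>
      hp3 (on_trans hS0 (hA i).2.2.1.1.le h (hrz (φ i)))
    have hn2 : ∀ i, ¬ S0.On (r (φ i)) z' := fun i h =>
      hn1 i (on_of_on hS0 (hA i).2.2.1.1.le hp2 h)
    have hE : ∀ i, Ty z' false (x (φ i)) := by
      intro i
      show E S0 z' (x (φ i)) = 0
      rw [← (hA i).2.2.1.2, Mult_comm hS0 (Mult_E S0 z') (Mult_Q S0 (r (φ i)))]
      exact Q_E_eq_zero hS0 (hn2 i) _
    have hQ : ∀ i, Q S0 (p i) (x (φ i)) = 0 := by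
      intro i
      have h1 : Q S0 p₀ (x (φ i)) = 0 := by
        rw [← (hA i).2.2.1.2]
        exact (Q_Q_zero hS0 (hA i).2.2.1.1.le (hn1 i) _).1
      have h2 := (Q_Q hS0 (hA i).1 (on_of_on hS0 (hA i).1 hp2 (hA i).2.1) (x (φ i))).2
      rw [← h2, h1, map_zero]
    have h1 := mainL0 T (hx.ris.sub hφ) hE hp (fun i => (hA i).2.1) hQ
    refine LocForm_contra hδ' (fun i => (hA i).2.2.2) (h1.congr fun i => ?_)
    rw [map_sub, map_smul, QX_io (hmem _), hQ i, map_zero, smul_zero, sub_zero]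

end Pool.Agent.W8d7136
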