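import Pool.Agent.W_MP_8d7136_h58.NoBad
import Pool.Agent.W_MP_8d7136_h58.FunRep

set_option autoImplicit false

/-!
The main lemma.
-/

open Filter Topology

namespace Pool.Agent.W8d7136

/-- type on (`c = true`): the vector lives on the branch `z`; type off: its branch part vanishes -/
def Ty (z : ℕ → Bool) (c : Bool) (v : W) : Prop := E S0 z v = if c then v else 0

/-- Hahn-Banach, e.g. in the quotient by the span of `v` (or by an extension from the span of `u`, `v`) -/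
theorem hb_span (u v : X) {δ : ℝ} (hδ : 0 < δ) (h : ∀ a : ℂ, δ ≤ ‖u - a • v‖) :
    ∃ f : X →L[ℂ] ℂ, ‖f‖ ≤ 1 ∧ f v = 0 ∧ δ ≤ (f u).re := by
  set S : Submodule ℂ X := Submodule.span ℂ {v} with hS
  have hnorm : δ ≤ ‖(Submodule.Quotient.mk u : X ⧸ S)‖ := by
    refine (QuotientAddGroup.le_norm_iff (S := S.toAddSubgroup)).2 fun m hm => ?_
    have h1 : u - m ∈ S := by
      rw [← Submodule.Quotient.mk_eq_zero S, Submodule.Quotient.mk_sub, sub_eq_zero]
      exact hm.symm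
    obtain ⟨a, ha⟩ := Submodule.mem_span_singleton.1 h1
    have h2 := h a
    rw [ha, sub_sub_cancel] at h2
    exact h2
  obtain ⟨g, hg1, hg2⟩ := exists_dual_vector'' ℂ (Submodule.Quotient.mk u : X ⧸ S)
  have hle : ∀ w : X, ‖(g.toLinearMap.comp S.mkQ) w‖ ≤ 1 * ‖w‖ := by
    intro w
    have h1 : ‖g (Submodule.Quotient.mk w : X ⧸ S)‖ ≤ 1 * ‖(Submodule.Quotient.mk w : X ⧸ S)‖ :=
      g.le_of_opNorm_le hg1 _
    refine h1.trans ?_
    exact mul_le_mul_of_nonneg_left (Submodule.Quotient.norm_mk_le S w) zero_le_one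
  refine ⟨LinearMap.mkContinuous (g.toLinearMap.comp S.mkQ) 1 hle, ?_, ?_, ?_⟩
  · exact LinearMap.mkContinuous_norm_le _ zero_le_one hle
  · rw [LinearMap.mkContinuous_apply]
    have h1 : (Submodule.Quotient.mk v : X ⧸ S) = 0 :=
      (Submodule.Quotient.mk_eq_zero S).2 (Submodule.mem_span_singleton_self v)
    change g (Submodule.Quotient.mk v : X ⧸ S) = 0
    rw [h1, map_zero]
  · rw [LinearMap.mkContinuous_apply]
    change δ ≤ (g (Submodule.Quotient.mk u : X ⧸ S)).re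
    rw [hg2]
    simpa using hnorm

/-- Take `f` from `hb_span` for `k` (large, `q ≤ r k`) and `g = (1 / 6) f ∘ QX (r k)`, of norm at most one;
`g ∘ QX q = g` (`QX_QX`, `on_of_on`); `g (x_k) = 0`, `g (E_z x_k) = 0` (`Ty`).  Choose `N ≥ hi k` with
`‖T x_k - PX N (T x_k)‖ ≤ δ / 24` and `b` from `fun_rat` for `g`, `N`, small `ε''`.
`bfX N b (QX q u) = bfX N b (PX N (QX q u))` and `PX_mem`. -/
theorem bad_of {C : ℝ} {x : ℕ → W} (hx : RIS C x) {z : ℕ → Bool} {c : Bool}
    (ht : ∀ k, Ty z c (x k)) {T : X →L[ℂ] X} {r : ℕ → ℕ} (hr : Tendsto r atTop atTop)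
    (hz : ∀ k, S0.On (r k) z) {δ : ℝ} (hδ : 0 < δ)
    (h : ∃ᶠ k in atTop, ∀ a : ℂ, δ ≤ ‖QX (r k) (T (io (x k))) - a • QX (r k) (io (x k))‖) :
    Bad z T (δ / 50) x := by
  intro q hq ε hε k₀
  obtain ⟨lo, hi, J, hRI⟩ := hx
  obtain ⟨k, hk, hkq, hkk⟩ := (h.and_eventually
    ((hr.eventually_ge_atTop q).and (eventually_ge_atTop k₀))).exists
  refine ⟨k, hkk, ?_⟩
  have hxF : x k ∈ Fs := hRI.mem k
  obtain ⟨f, hf1, hf2, hf3⟩ := hb_span _ _ hδ hk
  set g : X →L[ℂ] ℂ := (1 / 6 : ℂ) • f.comp (QX (r k)) with hg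
  have hgap : ∀ u : X, g u = 1 / 6 * f (QX (r k) u) := fun u => rfl
  have hg1 : ‖g‖ ≤ 1 := by
    refine ContinuousLinearMap.opNorm_le_bound _ zero_le_one fun u => ?_
    rw [hgap, norm_mul]
    have h1 : ‖f (QX (r k) u)‖ ≤ 1 * ‖QX (r k) u‖ := f.le_of_opNorm_le hf1 _
    have h2 := QX_le u (r k)
    have h3 : ‖(1 / 6 : ℂ)‖ = 1 / 6 := by norm_num
    rw [h3]
    linarith
  have hgQ : ∀ u : X, g (QX q u) = g u := by
    intro u
    rw [hgap, hgap, (QX_QX u hkq (on_of_on hS0 hkq hq (hz k))).2]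
  have hgx : g (io (x k)) = 0 := by
    rw [hgap, hf2, mul_zero]
  have hgz : ∀ c', g (io (epsz z c' (x k))) = 0 := by
    intro c'
    cases c' with
    | false => exact hgx
    | true =>
      change g (io (E S0 z (x k))) = 0
      rw [ht k]
      split_ifs
      · exact hgx
      · rw [map_zero, map_zero]
  have hgT : δ / 6 ≤ (g (T (io (x k)))).re := by
    rw [hgap]
    have h1 : ((1 / 6 : ℂ) * f (QX (r k) (T (io (x k))))).re
        = 1 / 6 * (f (QX (r k) (T (io (x k))))).re := by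
      have h2 : (1 / 6 : ℂ) = ((1 / 6 : ℝ) : ℂ) := by push_cast; rfl
      rw [h2, Complex.re_ofReal_mul]
    rw [h1]
    linarith
  -- choose `N`
  have hev := (Metric.tendsto_nhds.1 (PX_tendsto (T (io (x k)))) (δ / 24) (by positivity)).and
    (eventually_ge_atTop (hi k))
  obtain ⟨N, hN1, hN2⟩ := hev.exists
  set w : X := QX q (T (io (x k))) with hw
  set M : ℝ := 1 + ‖PX N w‖ + ‖io (Q S0 q (epsz z false (x k)))‖ +
    ‖io (Q S0 q (epsz z true (x k)))‖ with hM
  have hM0 : 0 < M := by positivity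
  set ε' : ℝ := min ε (δ / 100) / M with hε'
  have hmin : 0 < min ε (δ / 100) := lt_min hε (by positivity)
  have hε'0 : 0 < ε' := div_pos hmin hM0
  have hε'M : ε' * M = min ε (δ / 100) := by
    rw [hε']
    exact div_mul_cancel₀ _ hM0.ne'
  obtain ⟨b, hb1, hb2, hb3⟩ := fun_rat g hg1 N hε'0
  refine ⟨N, b, hb1, hb2, ?_, ?_⟩
  · intro c'
    have hF1 : epsz z c' (x k) ∈ Fs := Fs_Mult (Mult_epsz z c') hxF
    have hsup : Sup 0 N (Q S0 q (epsz z c' (x k))) := by
      have h1 : Sup (lo k) (hi k) (Q S0 q (epsz z c' (x k))) :=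
        Sup_Mult (Mult_Q S0 q) (Sup_Mult (Mult_epsz z c') (hRI.blk k).supp)
      intro i hi' c''
      refine h1 i (Or.inr ?_) c''
      rcases hi' with h2 | h2
      · exact absurd h2 (Nat.not_lt_zero i)
      · exact hN2.trans h2
    have h1 := hb3 _ hsup
    have h2 : g (io (Q S0 q (epsz z c' (x k)))) = 0 := by
      rw [← QX_io hF1, hgQ, hgz]
    rw [h2, zero_div, sub_zero] at h1
    refine h1.trans ?_
    have h3 : ‖io (Q S0 q (epsz z c' (x k)))‖ ≤ M := by
      rw [hM]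
      have n1 := norm_nonneg (PX N w)
      have n2 := norm_nonneg (io (Q S0 q (epsz z false (x k))))
      have n3 := norm_nonneg (io (Q S0 q (epsz z true (x k))))
      cases c' <;> linarith
    calc ε' * ‖io (Q S0 q (epsz z c' (x k)))‖ ≤ ε' * M := mul_le_mul_of_nonneg_left h3 hε'0.le
      _ ≤ ε := by rw [hε'M]; exact min_le_left _ _
  · obtain ⟨v, hv1, hv2⟩ := PX_mem w N
    have h1 := hb3 v hv1
    have h2 : bfX N b w = bf S0 N b v := by
      rw [← bfX_PX w N b le_rfl, hv2, bfX_io (Fs_of_Sup hv1)]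
    have h3 : ε' * ‖io v‖ ≤ δ / 100 := by
      have h4 : ‖io v‖ ≤ M := by
        rw [hM, ← hv2]
        have n2 := norm_nonneg (io (Q S0 q (epsz z false (x k))))
        have n3 := norm_nonneg (io (Q S0 q (epsz z true (x k))))
        linarith
      calc ε' * ‖io v‖ ≤ ε' * M := mul_le_mul_of_nonneg_left h4 hε'0.le
        _ ≤ δ / 100 := by rw [hε'M]; exact min_le_right _ _
    have h5 : g (io v) = g (PX N (T (io (x k)))) := by
      rw [← hv2, hw, ← QX_PX, hgQ]
    have h6 : ‖g (T (io (x k))) - g (io v)‖ ≤ δ / 24 := by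
      rw [h5, ← map_sub]
      have h7 : ‖g (T (io (x k)) - PX N (T (io (x k))))‖ ≤
          1 * ‖T (io (x k)) - PX N (T (io (x k)))‖ := g.le_of_opNorm_le hg1 _
      rw [dist_comm, dist_eq_norm] at hN1
      linarith
    have h8 := (Complex.abs_re_le_norm _).trans h6
    have h9 := (Complex.abs_re_le_norm _).trans (h1.trans h3)
    rw [Complex.sub_re] at h8 h9
    have h10 : (g (io v) / 4).re = (g (io v)).re / 4 := by
      have h11 : (4 : ℂ) = ((4 : ℝ) : ℂ) := by push_cast; rfl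
      rw [h11, Complex.div_ofReal_re]
    rw [h10] at h9
    rw [h2]
    have h12 := (abs_le.1 h8).2
    have h13 := (abs_le.1 h9).1
    linarith

/-- `no_bad`, `bad_of`; choose `a k` with norm at most the infimum plus `1 / (k + 1)` -/
theorem mainL (T : X →L[ℂ] X) {C : ℝ} {x : ℕ → W} (hx : RIS C x) {z : ℕ → Bool} {c : Bool}
    (ht : ∀ k, Ty z c (x k)) {r : ℕ → ℕ} (hr : Tendsto r atTop atTop)
    (hz : ∀ k, S0.On (r k) z) :
    ∃ a : ℕ → ℂ, Tendsto (fun k => QX (r k) (T (io (x k))) - a k • QX (r k) (io (x k)))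
      atTop (𝓝 0) := by
  set d : ℕ → ℂ → ℝ := fun k a => ‖QX (r k) (T (io (x k))) - a • QX (r k) (io (x k))‖ with hd
  have hbdd : ∀ k, BddBelow (Set.range (d k)) := fun k =>
    ⟨0, by rintro _ ⟨a, rfl⟩; exact norm_nonneg _⟩
  have hch : ∀ k : ℕ, ∃ a : ℂ, d k a < (⨅ a, d k a) + 1 / ((k : ℝ) + 1) := by
    intro k
    refine exists_lt_of_ciInf_lt ?_
    have h1 : (0 : ℝ) < 1 / ((k : ℝ) + 1) := by positivity
    linarith
  choose a ha using hch
  refine ⟨a, ?_⟩
  rw [tendsto_zero_iff_norm_tendsto_zero]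
  by_contra hcon
  -- the infimum does not tend to zero
  have hI : ¬ Tendsto (fun k => ⨅ a, d k a) atTop (𝓝 0) := by
    intro hI
    apply hcon
    have h1 : Tendsto (fun k : ℕ => (⨅ a, d k a) + 1 / ((k : ℝ) + 1)) atTop (𝓝 0) := by
      have h2 := hI.add (tendsto_one_div_add_atTop_nhds_zero_nat (𝕜 := ℝ))
      rwa [add_zero] at h2
    exact squeeze_zero (fun k => norm_nonneg _) (fun k => (ha k).le) h1
  rw [Metric.tendsto_nhds] at hI
  push Not at hI
  obtain ⟨δ, hδ, hfr⟩ := hI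
  refine no_bad hx (show 0 < δ / 50 by positivity) (bad_of (T := T) hx ht hr hz hδ ?_)
  refine hfr.mono fun k hk b => ?_
  rw [Real.dist_eq, sub_zero] at hk
  have h0 : 0 ≤ ⨅ a, d k a := Real.iInf_nonneg fun a => norm_nonneg _
  rw [abs_of_nonneg h0] at hk
  exact hk.trans (ciInf_le (hbdd k) b)

/-- the case `QX (r k) (io (x k)) = 0` -/
theorem mainL0 (T : X →L[ℂ] X) {C : ℝ} {x : ℕ → W} (hx : RIS C x) {z : ℕ → Bool} {c : Bool}
    (ht : ∀ k, Ty z c (x k)) {r : ℕ → ℕ} (hr : Tendsto r atTop atTop)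
    (hz : ∀ k, S0.On (r k) z) (h0 : ∀ k, Q S0 (r k) (x k) = 0) :
    Tendsto (fun k => QX (r k) (T (io (x k)))) atTop (𝓝 0) := by
  obtain ⟨a, ha⟩ := mainL T hx ht hr hz
  refine ha.congr fun k => ?_
  rw [QX_io (RIS.mem hx k), h0 k, map_zero, smul_zero, sub_zero]

end Pool.Agent.W8d7136
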