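import Pool.Agent.W_MP_8d7136_h58.Even
import Pool.Agent.W_MP_8d7136_h58.Dep2

set_option autoImplicit false

/-!
The bad situation does not occur: chains of odd weight.
-/

open Filter Topology

namespace Pool.Agent.W8d7136

/-- the record kept along the chain -/
structure NoBadR (C : ℝ) (z : ℕ → Bool) (j₀ J₀ : ℕ) (t q N : ℕ) (b : ℕ → Bool → ℂ) (v : W)
    (η J : ℕ) : Prop where
  hN : N = η + 1
  hb : b = dl η
  lt : q + 1 < η
  on : S0.On η z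
  wt : Wt S0 η J
  avg : Avg S0 (10 ^ 10 * C) (q + 1) η J v
  etaQ : ∀ w, e S0 η false (Q S0 q w) = e S0 η false w
  small : ∀ c, ‖e S0 η c v‖ ≤ 1 / nn j₀
  J0 : t = 0 → J = J₀
  J1 : 0 < t → J = code q

/-- one step of the chain -/
theorem NoBad_step {C : ℝ} {lo hi Jx : ℕ → ℕ} {x : ℕ → W} (hx : RI C lo hi Jx x)
    {z : ℕ → Bool} {T : X →L[ℂ] X} {δ : ℝ} (hB : Bad z T δ x) {j₀ : ℕ} (hj : Odd j₀)
    {ε : ℝ} (hε : 0 < ε) {J₀ : ℕ} (hJ₀ : nn j₀ ^ 2 ≤ mm J₀) (hJ₀' : J₀ % 4 = 2)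
    {t : ℕ} (ht : t < nn j₀) {q : ℕ} (hq : S0.On q z)
    (hd : 0 < t → ∃ d, S0.D q = some d ∧ d.j = j₀ ∧ d.age = t) {ε' : ℝ} (hε' : 0 < ε') :
    ∃ (N : ℕ) (b : ℕ → Bool → ℂ) (v : W), Stp z T (δ - ε / 2) ε' q N b v ∧
      (∃ η J, NoBadR C z j₀ J₀ t q N b v η J) ∧
      ∀ M, ∃ n, M ≤ n ∧ q < n ∧ S0.On n z ∧
        S0.D n = some ⟨decide (t ≠ 0), q, j₀, b, t + 1⟩ := by
  have hNpos : (0 : ℝ) < nn j₀ := by exact_mod_cast nn_pos j₀
  obtain ⟨J, hJdef⟩ : ∃ J, J = if t = 0 then J₀ else code q := ⟨_, rfl⟩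
  have hcm := code_mod q
  have hcl := lt_code q
  have hJe : Even J := by
    rw [Nat.even_iff, hJdef]
    split_ifs <;> omega
  have hJ1 : 1 ≤ J := by
    rw [hJdef]
    split_ifs <;> omega
  obtain ⟨ε'', hε''0, hε''1, hε''2, hε''3⟩ : ∃ ε'' : ℝ, 0 < ε'' ∧ ε'' ≤ ε' ∧ ε'' ≤ ε / 2 ∧
      ε'' ≤ 1 / nn j₀ :=
    ⟨min ε' (min (ε / 2) (1 / nn j₀)), lt_min hε' (lt_min (by positivity) (by positivity)),
      min_le_left _ _, (min_le_right _ _).trans (min_le_left _ _),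
      (min_le_right _ _).trans (min_le_right _ _)⟩
  obtain ⟨y, η, h1, h2, h3, h4, h5, h6, h7, h8⟩ := even_step hx hB hq hJe hJ1 hε''0
  refine ⟨η + 1, dl η, y, ⟨?_, ?_, ?_, ?_, h8.trans hε''1⟩, ⟨η, J, ⟨rfl, rfl, h1, h2, h3, h4, h5,
    fun c => (h6 c).trans hε''3, ?_, ?_⟩⟩, ?_⟩
  · intro i hi' c
    exact h4.supp i (by omega) c
  · intro i hi' c
    unfold dl
    rw [if_neg]
    rintro ⟨h9, -⟩
    omega
  · intro c
    rw [bf_dl (Nat.lt_succ_self η), h5]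
    cases c
    · exact (h6 false).trans hε''1
    · have h9 : e S0 η false (epsz z true y) = e S0 η true y := e_false_E hS0 h2 y
      rw [h9]
      exact (h6 true).trans hε''1
  · have h9 : eX η false (QX q (T (io y))) = eX η false (T (io y)) := by
      refine XOps_eq ((eX η false).comp (QX q)) (eX η false) ?_ (T (io y))
      intro w hw
      rw [ContinuousLinearMap.comp_apply, QX_io hw, eX_io (Fs_Mult (Mult_Q S0 q) hw), eX_io hw, h5]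
    rw [bfX_dl _ (Nat.lt_succ_self η), h9]
    linarith
  · intro h0
    rw [hJdef, if_pos h0]
  · intro h0
    rw [hJdef, if_neg (by omega)]
  · intro M
    rcases Nat.eq_zero_or_pos t with h0 | h0
    · have hJJ : J = J₀ := by rw [hJdef, if_pos h0]
      subst h0
      rw [hJJ] at h3
      obtain ⟨n, a1, a2, a3, a4⟩ := hS0.rich0o z q j₀ M η J₀ hq hj h3 hJ₀ hJ₀'
      exact ⟨n, a1, a2, a3, by rw [a4]; rfl⟩
    · have hJJ : J = code q := by rw [hJdef, if_neg (by omega)]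
      rw [hJJ] at h3
      obtain ⟨d, e1, e2, e3⟩ := hd h0
      obtain ⟨n, a1, a2, a3, a4⟩ := hS0.rich1o z q j₀ M η d hq hj h3 e1 e2 (by rw [e3]; exact ht)
      refine ⟨n, a1, a2, a3, ?_⟩
      rw [a4, e3]
      have h9 : decide (t ≠ 0) = true := by
        rw [decide_eq_true_eq]
        omega
      rw [h9]

/-- Dependent sequences of odd weight `j₀`.  Fix `J₀` from `exists_mod` (`nn j₀ ^ 2 ≤ mm J₀`,
`J₀ % 4 = 2`).  Use `chain_build` with `j = j₀`, `a = nn j₀`, `δ - ε / 2`, `ε / 2`; step for `t`, `q`: `J = J₀` if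
`t = 0` and `J = code q` otherwise (even, positive), `even_step` for `q`, `J`, `min ε' (min (ε / 2) (1 / nn j₀))`
gives `v = y`, `η`; `b = dl η`, `N = η + 1`; `bf_dl`, `bfX_dl`, `epsz`: `e η false (E z y) = e η true y`;
`eX η false (QX q u) = eX η false u` by density; richness `rich0o`, `rich1o`.  The predicate `Pr` records
everything needed for `DepS` (constant `C' = 10 ^ 10 * C`, `C' ≥ 1` by `1 ≤ C`).
`y = (1 / nn j₀) ∑ v t`. -/
theorem dep_exists {C : ℝ} (hC : 1 ≤ C) {lo hi Jx : ℕ → ℕ} {x : ℕ → W} (hx : RI C lo hi Jx x)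
    {z : ℕ → Bool} {T : X →L[ℂ] X} {δ : ℝ} (hB : Bad z T δ x) {j₀ : ℕ} (hj : Odd j₀)
    {ε : ℝ} (hε : 0 < ε) :
    ∃ (q η J : ℕ → ℕ) (y : ℕ → W), DepS S0 (10 ^ 10 * C) z j₀ q η J y ∧
      wt j₀ * (δ - ε) ≤ (eX (q (nn j₀)) false (T (io (((1 : ℂ) / (nn j₀ : ℂ)) •
        ∑ k ∈ Finset.range (nn j₀), y k)))).re := by
  have hNpos : 0 < nn j₀ := nn_pos j₀
  have hNpos' : (0 : ℝ) < nn j₀ := by exact_mod_cast hNpos
  obtain ⟨J₀, -, hJ₀', hJ₀⟩ := exists_mod 0 (nn j₀ ^ 2)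
  obtain ⟨q0, -, hq0⟩ := hS0.lenall 0 z
  obtain ⟨q, N, b, v, -, hch, hall⟩ := chain_build (z := z) (j := j₀) (a := nn j₀) hNpos T
    (δ := δ - ε / 2) (ε := ε / 2) (by positivity) hq0
    (fun t q N b v => ∃ η J, NoBadR C z j₀ J₀ t q N b v η J)
    (fun t ht q _ hqz hd ε' hε' => NoBad_step hx hB hj hε hJ₀ hJ₀' ht hqz hd hε')
  obtain ⟨η, J, hR⟩ : ∃ η J : ℕ → ℕ, ∀ t, t < nn j₀ →
      NoBadR C z j₀ J₀ t (q t) (N t) (b t) (v t) (η t) (J t) := by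
    have h1 : ∀ t, ∃ p : ℕ × ℕ, t < nn j₀ →
        NoBadR C z j₀ J₀ t (q t) (N t) (b t) (v t) p.1 p.2 := by
      intro t
      by_cases ht : t < nn j₀
      · obtain ⟨η, J, h⟩ := (hall t ht).2.1
        exact ⟨(η, J), fun _ => h⟩
      · exact ⟨(0, 0), fun h => absurd h ht⟩
    choose p hp using h1
    exact ⟨fun t => (p t).1, fun t => (p t).2, hp⟩
  refine ⟨q, η, J, v, ⟨hj, hch.on, fun l hl => (hR l hl).on, fun l hl => (hR l hl).lt,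
    fun l hl => ?_, fun l hl => ?_, fun l hl => (hR l hl).wt, ?_, fun l h0 hl => (hR l hl).J1 h0,
    fun l hl => (hR l hl).etaQ, fun l hl => (hR l hl).small, fun l hl => (hR l hl).avg⟩, ?_⟩
  · have h1 := (hall l hl).1
    have h2 := (hR l hl).hN
    omega
  · rw [hch.dat l hl, (hR l hl).hb]
  · rw [(hR 0 hNpos).J0 rfl]
    exact ⟨hJ₀, hJ₀'⟩
  · have h1 : eX (q (nn j₀)) false (T (io (((1 : ℂ) / (nn j₀ : ℂ)) •
        ∑ k ∈ Finset.range (nn j₀), v k))) = (((1 : ℝ) / (nn j₀ : ℝ) : ℝ) : ℂ) *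
        ∑ k ∈ Finset.range (nn j₀), eX (q (nn j₀)) false (T (io (v k))) := by
      rw [map_smul, map_smul, map_smul, map_sum, map_sum, map_sum, smul_eq_mul]
      push_cast
      rfl
    rw [h1, Complex.re_ofReal_mul, Complex.re_sum]
    have h2 : (nn j₀ : ℝ) * (wt j₀ * (δ - ε)) ≤
        ∑ k ∈ Finset.range (nn j₀), (eX (q (nn j₀)) false (T (io (v k)))).re := by
      have h3 := Finset.card_nsmul_le_sum (Finset.range (nn j₀))
        (fun k => (eX (q (nn j₀)) false (T (io (v k)))).re) (wt j₀ * (δ - ε))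
        (fun k hk => by
          have h4 := (hall k (Finset.mem_range.1 hk)).2.2.2.2.1
          have h5 : δ - ε / 2 - ε / 2 = δ - ε := by ring
          rwa [h5] at h4)
      rwa [Finset.card_range, nsmul_eq_mul] at h3
    have h6 := mul_le_mul_of_nonneg_left h2 (by positivity : (0 : ℝ) ≤ 1 / nn j₀)
    have h7 : (1 : ℝ) / nn j₀ * (nn j₀ * (wt j₀ * (δ - ε))) = wt j₀ * (δ - ε) := by
      field_simp
    rwa [h7] at h6

/-- `dep_exists` with `ε = δ / 2`, `dep_norm`, and `j₀` odd with `10 ^ 20 C ‖T‖ wt j₀ < δ / 4` (we may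
assume `1 ≤ C`) -/
theorem no_bad {C : ℝ} {x : ℕ → W} (hx : RIS C x) {z : ℕ → Bool} {T : X →L[ℂ] X} {δ : ℝ}
    (hδ : 0 < δ) : ¬ Bad z T δ x := by
  intro hB
  obtain ⟨C', hC', hCC'⟩ : ∃ C' : ℝ, 1 ≤ C' ∧ C ≤ C' := ⟨max C 1, le_max_right _ _, le_max_left _ _⟩
  obtain ⟨lo, hi, Jx, hx'⟩ := hx.mono hCC'
  have hM : (0 : ℝ) < 10 ^ 20 * C' * (‖T‖ + 1) := by positivity
  obtain ⟨j₁, hj₁⟩ := exists_wt_lt (ε := δ / 4 / (10 ^ 20 * C' * (‖T‖ + 1))) (by positivity)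
  obtain ⟨j₀, hj₀, hj₀'⟩ : ∃ j₀, j₁ ≤ j₀ ∧ Odd j₀ := ⟨2 * j₁ + 1, by omega, ⟨j₁, rfl⟩⟩
  have hwt := hj₁ j₀ hj₀
  rw [lt_div_iff₀ hM] at hwt
  have hj1 : 1 ≤ j₀ := by
    obtain ⟨r, hr⟩ := hj₀'
    omega
  obtain ⟨q, η, J, y, hD, hbig⟩ := dep_exists hC' hx' hB hj₀' (ε := δ / 2) (by positivity)
  have hnb := dep_norm hS0 (C := 10 ^ 10 * C') (by linarith) hj1 hD
  have hmem : (((1 : ℂ) / (nn j₀ : ℂ)) • ∑ k ∈ Finset.range (nn j₀), y k) ∈ Fs := by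
    refine Submodule.smul_mem _ _ (Submodule.sum_mem _ fun k hk => ?_)
    exact Fs_of_Sup (hD.avg k (Finset.mem_range.1 hk)).supp
  have hnorm := (norm_io_le hmem).2 hnb
  set w : W := ((1 : ℂ) / (nn j₀ : ℂ)) • ∑ k ∈ Finset.range (nn j₀), y k with hw
  have h1 : (eX (q (nn j₀)) false (T (io w))).re ≤ ‖T‖ * ‖io w‖ :=
    (Complex.re_le_norm _).trans ((eX_le _ _ _).trans (T.le_opNorm _))
  have h2 : ‖T‖ * ‖io w‖ ≤ (‖T‖ + 1) * (10 ^ 10 * (10 ^ 10 * C') * wt j₀ ^ 2) := by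
    have h3 : ‖T‖ * ‖io w‖ ≤ (‖T‖ + 1) * ‖io w‖ :=
      mul_le_mul_of_nonneg_right (by linarith) (norm_nonneg _)
    exact h3.trans (mul_le_mul_of_nonneg_left hnorm (by positivity))
  have hw0 := wt_pos j₀
  have h4 : wt j₀ * (δ - δ / 2) ≤ wt j₀ * (wt j₀ * (10 ^ 20 * C' * (‖T‖ + 1))) := by
    have h5 : (‖T‖ + 1) * (10 ^ 10 * (10 ^ 10 * C') * wt j₀ ^ 2) =
        wt j₀ * (wt j₀ * (10 ^ 20 * C' * (‖T‖ + 1))) := by ring
    rw [← h5]
    exact hbig.trans (h1.trans h2)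
  have h6 := le_of_mul_le_mul_left h4 hw0
  linarith

end Pool.Agent.W8d7136
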