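import Pool.Agent.W_MP_8d7136_h58.EBasic

set_option autoImplicit false

/-!
Algebra of the restriction operators and the multipliers.
-/

namespace Pool.Agent.W8d7136

variable {S : Sys}

open Classical in
theorem res_apply (A : Set ℕ) (v : W) (i : ℕ) (c : Bool) :
    res A v i c = if i ∈ A then v i c else 0 := rfl

open Classical in
theorem E_apply (z : ℕ → Bool) (v : W) (i : ℕ) (c : Bool) :
    E S z v i c = if S.On i z then v i true else 0 := rfl

theorem res_res (A B : Set ℕ) (v : W) : res A (res B v) = res (A ∩ B) v := by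
  classical
  funext i c
  simp only [res_apply, Set.mem_inter_iff]
  split_ifs <;> simp_all

theorem res_univ (v : W) : res Set.univ v = v := by
  funext i c
  simp [res_apply]

theorem res_empty (v : W) : res ∅ v = 0 := by
  funext i c
  simp [res_apply]

/-- restriction and branch operator commute -/
theorem E_res (z : ℕ → Bool) (A : Set ℕ) (v : W) : E S z (res A v) = res A (E S z v) := by
  classical
  funext i c
  simp only [res_apply, E_apply]
  split_ifs <;> simp_all

theorem E_idem (z : ℕ → Bool) (v : W) : E S z (E S z v) = E S z v := by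
  classical
  funext i c
  simp only [E_apply]
  split_ifs <;> simp_all

/-- for two different branches the product of the branch operators is an initial segment: `k` is the first
index whose length exceeds the first place where `z` and `z'` differ (`lenall`, `mono`) -/
theorem E_E (hS : Good S) {z z' : ℕ → Bool} (h : z ≠ z') :
    ∃ k, ∀ v : W, E S z (E S z' v) = res (Set.Iio k) (E S z v) := by
  classical
  have hex : ∃ L, z L ≠ z' L := by
    by_contra hcon
    apply h
    funext L
    by_contra hL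
    exact hcon ⟨L, hL⟩
  set L := Nat.find hex with hL
  have hLne : z L ≠ z' L := Nat.find_spec hex
  have hLlt : ∀ i, i < L → z i = z' i := by
    intro i hi
    by_contra hne
    exact Nat.find_min hex hi hne
  have hexk : ∃ k, L < S.len k := by
    obtain ⟨p, hp, -⟩ := hS.lenall (L + 1) z
    exact ⟨p, by omega⟩
  refine ⟨Nat.find hexk, fun v => ?_⟩
  funext i c
  simp only [res_apply, E_apply, Set.mem_Iio]
  by_cases hi : i < Nat.find hexk
  · have hlen : S.len i ≤ L := by
      have := Nat.find_min hexk hi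
      omega
    rw [if_pos hi]
    by_cases h1 : S.On i z
    · have h2 : S.On i z' := by
        intro a ha
        rw [h1 a ha]
        exact hLlt a (by omega)
      rw [if_pos h1, if_pos h2, if_pos h1]
    · rw [if_neg h1, if_neg h1]
  · rw [if_neg hi]
    have hlen : L < S.len i := by
      have h1 := Nat.find_spec hexk
      have h2 := hS.mono (not_lt.1 hi)
      omega
    by_cases h1 : S.On i z
    · have h2 : ¬ S.On i z' := by
        intro h2
        apply hLne
        rw [← h1 L hlen, ← h2 L hlen]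
      rw [if_pos h1, if_neg h2]
    · rw [if_neg h1]

/-- `Q p` kills the branch `z` if `p` is not on `z` -/
theorem Q_E_eq_zero (hS : Good S) {p : ℕ} {z : ℕ → Bool} (h : ¬ S.On p z) (v : W) :
    Q S p (E S z v) = 0 := by
  classical
  funext i c
  show (if i ∈ S.cone p then (if S.On i z then v i true else 0) else 0) = 0
  split_ifs with h1 h2
  · exact absurd (on_trans hS h1.1.le h1.2 h2) h
  · rfl
  · rfl

/-- `Q p Q q = Q (max p q)` or `0` -/
theorem Q_Q (hS : Good S) {p q : ℕ} (hpq : p ≤ q) (h : S.On p (S.s q)) (v : W) :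
    Q S p (Q S q v) = Q S q v ∧ Q S q (Q S p v) = Q S q v := by
  have hsub := cone_sub hS hpq h
  unfold Q
  rw [res_res, res_res, Set.inter_eq_right.2 hsub, Set.inter_eq_left.2 hsub]
  exact ⟨rfl, rfl⟩

theorem Q_Q_zero (hS : Good S) {p q : ℕ} (hpq : p ≤ q) (h : ¬ S.On p (S.s q)) (v : W) :
    Q S p (Q S q v) = 0 ∧ Q S q (Q S p v) = 0 := by
  have hd := cone_disj hS hpq h
  unfold Q
  rw [res_res, res_res, hd.inter_eq, hd.symm.inter_eq]
  exact ⟨res_empty v, res_empty v⟩

theorem Adm_Ico (S : Sys) (k k' : ℕ) : Adm S (Set.Ico k k') := by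
  exact ⟨Set.Ico k k', Or.inl ⟨k, k', rfl⟩, Or.inl rfl⟩

theorem Adm_Ici (S : Sys) (k : ℕ) : Adm S (Set.Ici k) := by
  exact ⟨Set.Ici k, Or.inr ⟨k, rfl⟩, Or.inl rfl⟩

theorem Adm_cone (S : Sys) (p : ℕ) : Adm S (S.cone p) := by
  refine ⟨Set.Ici 0, Or.inr ⟨0, rfl⟩, Or.inr ⟨p, ?_⟩⟩
  rw [Set.inter_eq_right.2]
  intro i _
  exact Nat.zero_le i

/-- (`∅` is `Ico 0 0`) -/
theorem Adm_inter (hS : Good S) {A B : Set ℕ} (hA : Adm S A) (hB : Adm S B) : Adm S (A ∩ B) := by
  obtain ⟨I, hI, hA⟩ := hA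
  obtain ⟨J, hJ, hB⟩ := hB
  have hIJ : (∃ k k', I ∩ J = Set.Ico k k') ∨ ∃ k, I ∩ J = Set.Ici k := by
    rcases hI with ⟨a, b, rfl⟩ | ⟨a, rfl⟩ <;> rcases hJ with ⟨c, d, rfl⟩ | ⟨c, rfl⟩
    · left
      refine ⟨max a c, min b d, ?_⟩
      ext i
      simp only [Set.mem_inter_iff, Set.mem_Ico]
      omega
    · left
      refine ⟨max a c, b, ?_⟩
      ext i
      simp only [Set.mem_inter_iff, Set.mem_Ico, Set.mem_Ici]
      omega
    · left
      refine ⟨max a c, d, ?_⟩
      ext i
      simp only [Set.mem_inter_iff, Set.mem_Ico, Set.mem_Ici]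
      omega
    · right
      refine ⟨max a c, ?_⟩
      ext i
      simp only [Set.mem_inter_iff, Set.mem_Ici]
      omega
  have hempty : Adm S (∅ : Set ℕ) := by
    have := Adm_Ico S 0 0
    rwa [Set.Ico_self] at this
  have hcc : ∀ p q, (∃ r, S.cone p ∩ S.cone q = S.cone r) ∨ S.cone p ∩ S.cone q = ∅ := by
    intro p q
    rcases le_total p q with hpq | hpq
    · by_cases h : S.On p (S.s q)
      · left
        exact ⟨q, Set.inter_eq_right.2 (cone_sub hS hpq h)⟩
      · right
        exact (cone_disj hS hpq h).inter_eq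
    · by_cases h : S.On q (S.s p)
      · left
        exact ⟨p, Set.inter_eq_left.2 (cone_sub hS hpq h)⟩
      · right
        exact (cone_disj hS hpq h).symm.inter_eq
  rcases hA with rfl | ⟨p, rfl⟩ <;> rcases hB with rfl | ⟨q, rfl⟩
  · exact ⟨A ∩ B, hIJ, Or.inl rfl⟩
  · refine ⟨A ∩ J, hIJ, Or.inr ⟨q, ?_⟩⟩
    rw [Set.inter_assoc]
  · refine ⟨I ∩ B, hIJ, Or.inr ⟨p, ?_⟩⟩
    ext i
    simp only [Set.mem_inter_iff]
    tauto
  · have e : I ∩ S.cone p ∩ (J ∩ S.cone q) = (I ∩ J) ∩ (S.cone p ∩ S.cone q) := by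
      ext i
      simp only [Set.mem_inter_iff]
      tauto
    rw [e]
    rcases hcc p q with ⟨r, hr⟩ | h0
    · rw [hr]
      exact ⟨I ∩ J, hIJ, Or.inr ⟨r, rfl⟩⟩
    · rw [h0, Set.inter_empty]
      exact hempty

theorem Mult_id (S : Sys) : Mult S LinearMap.id := by
  refine ⟨Set.Ici 0, Adm_Ici S 0, Or.inl ?_⟩
  apply LinearMap.ext
  intro v
  have : (Set.Ici 0 : Set ℕ) = Set.univ := by
    ext i
    simp
  rw [this, res_univ]
  rfl

theorem Mult_res {A : Set ℕ} (hA : Adm S A) : Mult S (res A) := by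
  exact ⟨A, hA, Or.inl rfl⟩

theorem Mult_P (S : Sys) (k : ℕ) : Mult S (P k) := by
  have h := Mult_res (Adm_Ico S 0 k)
  have e : (Set.Ico 0 k : Set ℕ) = Set.Iio k := by
    ext i
    simp
  rwa [e] at h

theorem Mult_Q (S : Sys) (p : ℕ) : Mult S (Q S p) := by
  exact Mult_res (Adm_cone S p)

theorem Mult_E (S : Sys) (z : ℕ → Bool) : Mult S (E S z) := by
  refine ⟨Set.Ici 0, Adm_Ici S 0, Or.inr ⟨z, ?_⟩⟩
  apply LinearMap.ext
  intro v
  have : (Set.Ici 0 : Set ℕ) = Set.univ := by
    ext i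
    simp
  rw [this, LinearMap.comp_apply, res_univ]

theorem Mult_eps (S : Sys) (n : ℕ) (c : Bool) : Mult S (eps S n c) := by
  unfold eps
  split_ifs
  · exact Mult_E S _
  · exact Mult_id S

/-- the multipliers are closed under composition (`E_res`, `E_E`, `E_idem`, `Adm_inter`) -/
theorem Mult_comp (hS : Good S) {m m' : W →ₗ[ℂ] W} (h : Mult S m) (h' : Mult S m') :
    Mult S (m.comp m') := by
  obtain ⟨A, hA, hm⟩ := h
  obtain ⟨B, hB, hm'⟩ := h'
  have hAB := Adm_inter hS hA hB
  rcases hm with rfl | ⟨z, rfl⟩ <;> rcases hm' with rfl | ⟨z', rfl⟩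
  · refine ⟨A ∩ B, hAB, Or.inl ?_⟩
    apply LinearMap.ext
    intro v
    simp only [LinearMap.comp_apply, res_res]
  · refine ⟨A ∩ B, hAB, Or.inr ⟨z', ?_⟩⟩
    apply LinearMap.ext
    intro v
    simp only [LinearMap.comp_apply, res_res]
  · refine ⟨A ∩ B, hAB, Or.inr ⟨z, ?_⟩⟩
    apply LinearMap.ext
    intro v
    simp only [LinearMap.comp_apply, res_res, E_res]
  · by_cases hz : z = z'
    · subst hz
      refine ⟨A ∩ B, hAB, Or.inr ⟨z, ?_⟩⟩
      apply LinearMap.ext
      intro v
      simp only [LinearMap.comp_apply, res_res, E_res, E_idem]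
    · obtain ⟨k, hk⟩ := E_E hS hz
      have e : (Set.Ico 0 k : Set ℕ) = Set.Iio k := by
        ext i
        simp
      have hk' : Adm S (Set.Iio k) := by
        rw [← e]
        exact Adm_Ico S 0 k
      refine ⟨(A ∩ B) ∩ Set.Iio k, Adm_inter hS hAB hk', Or.inr ⟨z, ?_⟩⟩
      apply LinearMap.ext
      intro v
      simp only [LinearMap.comp_apply, res_res, E_res, hk, Set.inter_assoc]

theorem Mult_comm (hS : Good S) {m m' : W →ₗ[ℂ] W} (h : Mult S m) (h' : Mult S m') (v : W) :
    m (m' v) = m' (m v) := by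
  have EE : ∀ (z z' : ℕ → Bool) (v : W), E S z (E S z' v) = E S z' (E S z v) := by
    intro z z' v
    funext i c
    simp only [E_apply]
    split_ifs <;> rfl
  obtain ⟨A, hA, hm⟩ := h
  obtain ⟨B, hB, hm'⟩ := h'
  rcases hm with rfl | ⟨z, rfl⟩ <;> rcases hm' with rfl | ⟨z', rfl⟩
  · rw [res_res, res_res, Set.inter_comm]
  · simp only [LinearMap.comp_apply, res_res, E_res]
    rw [Set.inter_comm]
  · simp only [LinearMap.comp_apply, res_res, E_res]
    rw [Set.inter_comm]
  · simp only [LinearMap.comp_apply, res_res, E_res]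
    rw [Set.inter_comm, EE]

/-- multipliers do not increase the support -/
theorem Mult_supp {m : W →ₗ[ℂ] W} (h : Mult S m) {v : W} {i : ℕ} (hv : ∀ c, v i c = 0) (c : Bool) :
    m v i c = 0 := by
  obtain ⟨A, hA, hm⟩ := h
  rcases hm with rfl | ⟨z, rfl⟩
  · rw [res_apply, hv]
    simp
  · rw [LinearMap.comp_apply, res_apply, E_apply, hv]
    simp

theorem Sup_Mult {m : W →ₗ[ℂ] W} (h : Mult S m) {lo hi : ℕ} {v : W} (hv : Sup lo hi v) :
    Sup lo hi (m v) := by
  intro i hi c
  exact Mult_supp h (fun c => hv i hi c) c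

end Pool.Agent.W8d7136
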