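import Pool.Agent.W_MP_8d7136_h58.XOps
import Pool.Agent.W_MP_8d7136_h58.AvgL

set_option autoImplicit false

/-!
Infinite rapidly increasing sequences.
-/

open Filter Topology

namespace Pool.Agent.W8d7136

/-- infinite rapidly increasing sequences with given supports and weights -/
structure RI (C : ℝ) (lo hi J : ℕ → ℕ) (x : ℕ → W) : Prop where
  blk : ∀ k, Blk S0 C (lo k) (hi k) (J k) (x k)
  lohi : ∀ k, lo k < hi k
  hilo : ∀ k, hi k ≤ lo (k + 1)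
  hiJ : ∀ k, hi k ≤ J (k + 1)

/-- rapidly increasing sequences -/
def RIS (C : ℝ) (x : ℕ → W) : Prop := ∃ lo hi J : ℕ → ℕ, RI C lo hi J x

variable {C : ℝ} {lo hi J : ℕ → ℕ} {x : ℕ → W}

theorem RI.risf (h : RI C lo hi J x) (K : ℕ) : RISf S0 C K lo hi J x :=
  ⟨fun k _ => h.blk k, fun k _ => h.lohi k, fun k _ => h.hilo k, fun k _ => h.hiJ k⟩

theorem RI.lo_strictMono (h : RI C lo hi J x) : StrictMono lo :=
  strictMono_nat_of_lt_succ fun k => (h.lohi k).trans_le (h.hilo k)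

theorem RI.hi_le (h : RI C lo hi J x) {k l : ℕ} (hkl : k < l) : hi k ≤ lo l ∧ hi k ≤ J l := by
  have h1 : ∀ {a b : ℕ}, a < b → hi a ≤ lo b := fun {a b} hab =>
    (h.hilo a).trans (h.lo_strictMono.monotone hab)
  refine ⟨h1 hkl, ?_⟩
  obtain ⟨l', rfl⟩ : ∃ l', l = l' + 1 := ⟨l - 1, by omega⟩
  rcases Nat.lt_or_eq_of_le (Nat.lt_succ_iff.1 hkl) with h2 | h2
  · exact (h1 h2).trans ((h.lohi l').le.trans (h.hiJ l'))
  · rw [h2]
    exact h.hiJ l'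

theorem RI.mem (h : RI C lo hi J x) (k : ℕ) : x k ∈ Fs := Fs_of_Sup (h.blk k).supp

theorem RIS.mem (h : RIS C x) (k : ℕ) : x k ∈ Fs := by
  obtain ⟨lo, hi, J, h⟩ := h
  exact h.mem k

theorem RIS.nb (h : RIS C x) (k : ℕ) : ‖io (x k)‖ ≤ C := by
  have hm := h.mem k
  obtain ⟨lo, hi, J, h⟩ := h
  exact (norm_io_le hm).2 (h.blk k).nb

theorem RIS.nonneg (h : RIS C x) : 0 ≤ C := (norm_nonneg _).trans (h.nb 0)

theorem RISi_blk_mono {lo hi J : ℕ} {v : W} {C C' : ℝ} (h : Blk S0 C lo hi J v) (hC : C ≤ C') :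
    Blk S0 C' lo hi J v :=
  ⟨h.supp, NB_mono h.nb hC, fun j hj => WB_mono (h.wb j hj) hC⟩

theorem RIS.mono (h : RIS C x) {C' : ℝ} (hC : C ≤ C') : RIS C' x := by
  obtain ⟨lo, hi, J, h⟩ := h
  exact ⟨lo, hi, J, fun k => RISi_blk_mono (h.blk k) hC, h.lohi, h.hilo, h.hiJ⟩

theorem RI.sub (h : RI C lo hi J x) {φ : ℕ → ℕ} (hφ : StrictMono φ) :
    RI C (fun k => lo (φ k)) (fun k => hi (φ k)) (fun k => J (φ k)) (fun k => x (φ k)) :=
  ⟨fun k => h.blk (φ k), fun k => h.lohi (φ k), fun k => (h.hi_le (hφ (Nat.lt_succ_self k))).1,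
    fun k => (h.hi_le (hφ (Nat.lt_succ_self k))).2⟩

/-- subsequences -/
theorem RIS.sub (h : RIS C x) {φ : ℕ → ℕ} (hφ : StrictMono φ) : RIS C (fun k => x (φ k)) := by
  obtain ⟨lo, hi, J, h⟩ := h
  exact ⟨_, _, _, h.sub hφ⟩

/-- finite pieces of subsequences (`hi (φ k) ≤ lo (φ (k+1))` etc. as in `RI.sub`) -/
theorem RI.subf (h : RI C lo hi J x) {φ : ℕ → ℕ} {K : ℕ} (hφ : ∀ k, k + 1 < K → φ k < φ (k + 1)) :
    RISf S0 C K (fun k => lo (φ k)) (fun k => hi (φ k)) (fun k => J (φ k))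
      (fun k => x (φ k)) :=
  ⟨fun k _ => h.blk (φ k), fun k _ => h.lohi (φ k), fun k hk => (h.hi_le (hφ k hk)).1,
    fun k hk => (h.hi_le (hφ k hk)).2⟩

/-- multipliers -/
theorem RIS.mult (h : RIS C x) {m : ℕ → W →ₗ[ℂ] W} (hm : ∀ k, Mult S0 (m k)) :
    RIS (10 ^ 7 * C) (fun k => m k (x k)) := by
  obtain ⟨lo, hi, J, h⟩ := h
  exact ⟨lo, hi, J, fun k => Blk_Mult hS0 (h.blk k) (hm k), h.lohi, h.hilo, h.hiJ⟩

/-- complements of multipliers -/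
theorem RIS.sub_mult (h : RIS C x) {m : ℕ → W →ₗ[ℂ] W} (hm : ∀ k, Mult S0 (m k)) :
    RIS (10 ^ 8 * C) (fun k => x k - m k (x k)) := by
  have hC := h.nonneg
  obtain ⟨lo, hi, J, h⟩ := h
  refine ⟨lo, hi, J, fun k => ?_, h.lohi, h.hilo, h.hiJ⟩
  have h1 := h.blk k
  have h2 := Blk_Mult hS0 (h.blk k) (hm k)
  refine ⟨fun i hi' c => ?_, ?_, fun j hj => ?_⟩
  · show x k i c - m k (x k) i c = 0
    rw [h1.supp i hi' c, h2.supp i hi' c, sub_zero]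
  · exact NB_mono (NB_sub h1.nb h2.nb) (by linarith)
  · exact WB_mono (WB_sub (h1.wb j hj) (h2.wb j hj)) (by linarith)

/-- scalar multiples -/
theorem RIS.smul (h : RIS C x) {a : ℕ → ℂ} (ha : ∀ k, ‖a k‖ ≤ 1) :
    RIS C (fun k => a k • x k) := by
  have hC := h.nonneg
  obtain ⟨lo, hi, J, h⟩ := h
  refine ⟨lo, hi, J, fun k => ?_, h.lohi, h.hilo, h.hiJ⟩
  have h1 := h.blk k
  have h3 : ‖a k‖ * C ≤ C := mul_le_of_le_one_left hC (ha k)
  refine ⟨fun i hi' c => ?_, ?_, fun j hj => ?_⟩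
  · show a k * x k i c = 0
    rw [h1.supp i hi' c, mul_zero]
  · exact NB_mono (NB_smul h1.nb (a k)) h3
  · exact WB_mono (WB_smul (h1.wb j hj) (a k)) h3

/-- finite parts disappear -/
theorem RIS.PX_zero (h : RIS C x) (N : ℕ) : ∀ᶠ k in atTop, P N (x k) = 0 := by
  obtain ⟨lo, hi, J, h⟩ := h
  filter_upwards [eventually_ge_atTop N] with k hk
  have h1 : k ≤ lo k := h.lo_strictMono.le_apply
  funext i c
  rw [Bd_P_apply]
  split_ifs with hi'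
  · exact (h.blk k).supp i (Or.inl (by omega)) c
  · rfl

end Pool.Agent.W8d7136
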