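import Pool.Agent.W_MP_8d7136_h58.Seeds

set_option autoImplicit false

/-!
The scalars of an operator.
-/

open Filter Topology

namespace Pool.Agent.W8d7136

/-- the seed vector vanishes below its index -/
theorem Scal_P_us (n : ℕ) (c : Bool) : P n (us n c) = 0 := by
  funext i c'
  rw [Bd_P_apply]
  split_ifs with h
  · exact us_Sup n c i (Or.inl h) c'
  · rfl

theorem Scal_mem_us (n : ℕ) (c : Bool) : us n c ∈ Fs := Fs_of_Sup (us_Sup n c)

/-- norms which do not tend to zero are frequently bounded below -/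
theorem Scal_freq {v : ℕ → X} (h : ¬ Tendsto v atTop (𝓝 0)) :
    ∃ δ > 0, ∃ᶠ k in atTop, δ ≤ ‖v k‖ := by
  by_contra h'
  push Not at h'
  apply h
  rw [Metric.tendsto_nhds]
  intro δ hδ
  filter_upwards [h' δ hδ] with k hk
  rw [dist_zero_right]
  exact hk

/-- the lengths tend to infinity -/
theorem Scal_len (L : ℕ) : ∃ N, ∀ n, N ≤ n → L ≤ S0.len n := by
  obtain ⟨p, hp, -⟩ := hS0.lenall L (fun _ => false)
  exact ⟨p, fun n hn => hp ▸ hS0.mono hn⟩

/-- large indices on `z` are not on `w` -/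
theorem Scal_off {z w : ℕ → Bool} (h : z ≠ w) : ∃ N, ∀ n, N ≤ n → S0.On n z → ¬ S0.On n w := by
  obtain ⟨i, hi⟩ := Function.ne_iff.1 h
  obtain ⟨N, hN⟩ := Scal_len (i + 1)
  refine ⟨N, fun n hn h1 h2 => hi ?_⟩
  have h3 : i < S0.len n := by
    have := hN n hn
    omega
  exact (h1 i h3).symm.trans (h2 i h3)

/-- Interlacing: choose recursively `φ i` with `A`, then `ψ i` with `hi (φ i) ≤ n (ψ i)`, then `φ (i+1) > φ i`
with `A`, `n (ψ i) < lo (φ (i+1))`, `n (ψ i) < J (φ (i+1))`. -/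
theorem pair_LRIS {C : ℝ} {z : ℕ → Bool} {c : Bool} {x : ℕ → W} (hx : LRIS C z c x)
    {A : ℕ → Prop} (hA : ∃ᶠ k in atTop, A k) {n : ℕ → ℕ} (hn : StrictMono n)
    (hs : ∀ k, S0.D (n k) = none) (hz : ∀ k, S0.On (n k) z) :
    ∃ φ ψ : ℕ → ℕ, StrictMono φ ∧ StrictMono ψ ∧ (∀ i, A (φ i)) ∧
      (∀ i, P (n (ψ i)) (x (φ i)) = x (φ i)) ∧
      LRIS (C + 100) z c (fun i => x (φ i) + us (n (ψ i)) c) := by
  obtain ⟨lo, hi, J, hR⟩ := hx.ris
  have hlo := hR.lo_strictMono
  have hJ : ∀ k, k < J (k + 1) := fun k =>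
    lt_of_le_of_lt hlo.le_apply (lt_of_lt_of_le (hR.lohi k) (hR.hiJ k))
  have step : ∀ a b : ℕ, ∃ a' b', a < a' ∧ b < b' ∧ A a' ∧ n b < lo a' ∧ n b < J a' ∧
      hi a' ≤ n b' := by
    intro a b
    obtain ⟨a', ha', hA'⟩ := (frequently_atTop'.1 hA) (a + n b + 1)
    refine ⟨a', max (b + 1) (hi a'), by omega, by omega, hA', ?_, ?_, ?_⟩
    · have h1 : a' ≤ lo a' := hlo.le_apply
      omega
    · have h1 := hJ (a' - 1)
      rw [Nat.sub_add_cancel (by omega)] at h1
      omega
    · exact (le_max_right _ _).trans hn.le_apply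
  choose fa fb h1 h2 h3 h4 h5 h6 using step
  obtain ⟨g, hg0, hgs⟩ : ∃ g : ℕ → ℕ × ℕ, g 0 = (fa 0 0, fb 0 0) ∧
      ∀ i, g (i + 1) = (fa (g i).1 (g i).2, fb (g i).1 (g i).2) :=
    ⟨fun i => Nat.rec (fa 0 0, fb 0 0) (fun _ p => (fa p.1 p.2, fb p.1 p.2)) i, rfl, fun _ => rfl⟩
  have hgA : ∀ i, A (g i).1 := by
    intro i
    cases i with
    | zero => rw [hg0]; exact h3 0 0
    | succ i => rw [hgs]; exact h3 _ _
  have hghi : ∀ i, hi (g i).1 ≤ n (g i).2 := by
    intro i
    cases i with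
    | zero => rw [hg0]; exact h6 0 0
    | succ i => rw [hgs]; exact h6 _ _
  have hg1 : StrictMono fun i => (g i).1 := strictMono_nat_of_lt_succ fun i => by
    simp only [hgs]
    exact h1 _ _
  have hg2 : StrictMono fun i => (g i).2 := strictMono_nat_of_lt_succ fun i => by
    simp only [hgs]
    exact h2 _ _
  have hglo : ∀ i, n (g i).2 < lo (g (i + 1)).1 := by
    intro i
    rw [hgs]
    exact h4 _ _
  have hgJ : ∀ i, n (g i).2 < J (g (i + 1)).1 := by
    intro i
    rw [hgs]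
    exact h5 _ _
  refine ⟨fun i => (g i).1, fun i => (g i).2, hg1, hg2, hgA, fun i => ?_, ?_, fun i => ?_,
    fun p hp => ?_⟩
  · funext j c'
    rw [Bd_P_apply]
    split_ifs with h
    · rfl
    · have h7 := hghi i
      have h8 : ¬ j < n (g i).2 := h
      exact ((hR.blk (g i).1).supp j (Or.inr (by omega)) c').symm
  · refine ⟨fun i => lo (g i).1, fun i => n (g i).2 + 1, fun i => J (g i).1, ⟨fun i => ?_,
      fun i => ?_, fun i => hglo i, fun i => hgJ i⟩⟩
    · have hb := hR.blk (g i).1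
      have h7 := hghi i
      have h8 := hR.lohi (g i).1
      refine ⟨fun j hj c' => ?_, NB_add hb.nb (NB_mono (us_NB (hs _) c) (by norm_num)),
        fun h hh m c' hm => ?_⟩
      · have h9 : j < lo (g i).1 ∨ hi (g i).1 ≤ j := by
          rcases hj with hj | hj
          · exact Or.inl hj
          · exact Or.inr (by omega)
        have h10 : j < n (g i).2 ∨ n (g i).2 + 1 ≤ j := by
          rcases hj with hj | hj
          · exact Or.inl (by omega)
          · exact Or.inr hj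
        rw [Pi.add_apply, Pi.add_apply, hb.supp j h9 c', us_Sup (n (g i).2) c j h10 c', add_zero]
      · rw [map_add]
        refine (norm_add_le _ _).trans ?_
        have h9 := hb.wb h hh m c' hm
        have h10 := us_WB (hs (g i).2) c h m c' hm
        rw [add_mul]
        exact add_le_add h9 h10
    · have h7 := hghi i
      have h8 := hR.lohi (g i).1
      show lo (g i).1 < n (g i).2 + 1
      omega
  · have h7 := hx.ty (g i).1
    unfold Ty at h7 ⊢
    rw [map_add, h7]
    cases c with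
    | true =>
      rw [us_E_on (hz _)]
      simp
    | false =>
      rw [us_E_false]
      simp
  · filter_upwards [hg1.tendsto_atTop.eventually (hx.loc p hp), eventually_gt_atTop p] with i hi1 hi2
    have h7 : i ≤ n (g i).2 := (hn.comp hg2).le_apply
    have h8 : n (g i).2 ∈ S0.cone p := ⟨by omega, on_of_on hS0 (by omega) hp (hz _)⟩
    rw [map_add, us_Q h8]
    exact congrArg (fun t => t + _) hi1

/-- Choose seeds `n` on `z` such that `eX (n k) false (T (io (us (n k) c)))` converges, to `a`.  Suppose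
`‖T x_k - a x_k‖ ≥ δ` frequently; take `φ`, `ψ` from `pair_LRIS`; `locform` for `x ∘ φ`, `us (n (ψ i)) c` and the
sum: scalars `ν''`, `ν'`, `ν`.  Subtract: `(ν - ν'') x + (ν - ν') us → 0`; apply `PX (n (ψ i))`:
`(ν - ν'') x → 0`, hence `(ν - ν') us → 0` and `ν - ν' → 0`; `ν' → a` by applying `eX (n (ψ i)) false`.
So `T x_{φ i} - a x_{φ i} → 0`. -/
theorem scal (T : X →L[ℂ] X) (z : ℕ → Bool) (c : Bool) :
    ∃ a : ℂ, ∀ (C : ℝ) (x : ℕ → W), LRIS C z c x →
      Tendsto (fun k => T (io (x k)) - a • io (x k)) atTop (𝓝 0) := by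
  obtain ⟨n, hn, hnz⟩ := exists_seed_seq z
  have hb : ∀ k, eX (n k) false (T (io (us (n k) c))) ∈ Metric.closedBall (0 : ℂ) ‖T‖ := by
    intro k
    rw [mem_closedBall_zero_iff]
    refine (eX_le _ _ _).trans ?_
    have h := T.le_opNorm (io (us (n k) c))
    rwa [us_norm (hnz k).1, mul_one] at h
  obtain ⟨a, -, θ, hθ, ha⟩ := (isCompact_closedBall (0 : ℂ) ‖T‖).tendsto_subseq hb
  refine ⟨a, fun C x hx => ?_⟩
  by_contra hcon
  obtain ⟨δ, hδ, hfreq⟩ := Scal_freq hcon
  obtain ⟨φ, ψ, hφ, hψ, hA, hP, hsum⟩ := pair_LRIS hx hfreq (hn.comp hθ) (fun k => (hnz _).1)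
    (fun k => (hnz _).2)
  have hus := us_LRIS ((hn.comp hθ).comp hψ) (fun k => (hnz _).1) (fun k => (hnz _).2) c
  obtain ⟨ν'', h2⟩ := locform T (hx.sub hφ)
  obtain ⟨ν', h3⟩ := locform T hus
  obtain ⟨ν, h4⟩ := locform T hsum
  obtain ⟨N, hN⟩ : ∃ N : ℕ → ℕ, ∀ i, N i = n (θ (ψ i)) := ⟨_, fun _ => rfl⟩
  obtain ⟨y, hy⟩ : ∃ y : ℕ → X, ∀ i, y i = io (x (φ i)) := ⟨_, fun _ => rfl⟩
  obtain ⟨u, hu⟩ : ∃ u : ℕ → X, ∀ i, u i = io (us (N i) c) := ⟨_, fun _ => rfl⟩
  have hyC : ∀ i, ‖y i‖ ≤ C := fun i => by rw [hy]; exact hx.ris.nb _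
  have hu1 : ∀ i, ‖u i‖ = 1 := fun i => by rw [hu, hN]; exact us_norm (hnz _).1 c
  have hPy : ∀ i, PX (N i) (y i) = y i := fun i => by
    rw [hy, PX_io (hx.ris.mem _), hN]
    exact congrArg io (hP i)
  have hPu : ∀ i, PX (N i) (u i) = 0 := fun i => by
    rw [hu, PX_io (Scal_mem_us _ _), Scal_P_us, map_zero]
  have h2' : Tendsto (fun i => T (y i) - ν'' i • y i) atTop (𝓝 0) := by
    refine h2.congr fun i => ?_
    rw [hy]
  have h3' : Tendsto (fun i => T (u i) - ν' i • u i) atTop (𝓝 0) := by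
    refine h3.congr fun i => ?_
    rw [hu, hN]
    rfl
  have h4' : Tendsto (fun i => T (y i + u i) - ν i • (y i + u i)) atTop (𝓝 0) := by
    refine h4.congr fun i => ?_
    rw [hy, hu, hN, ← map_add]
    rfl
  have h5 : Tendsto (fun i => (ν'' i - ν i) • y i + (ν' i - ν i) • u i) atTop (𝓝 0) := by
    have h := (h4'.sub h2').sub h3'
    rw [sub_zero, sub_zero] at h
    refine h.congr fun i => ?_
    rw [map_add, smul_add, sub_smul, sub_smul]
    abel
  have h6 : Tendsto (fun i => (ν'' i - ν i) • y i) atTop (𝓝 0) := by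
    have h := (h5.norm).const_mul 2
    rw [norm_zero, mul_zero] at h
    refine squeeze_zero_norm (fun i => ?_) h
    have h7 := PX_le ((ν'' i - ν i) • y i + (ν' i - ν i) • u i) (N i)
    rwa [map_add, map_smul, map_smul, hPy, hPu, smul_zero, add_zero] at h7
  have h7 : Tendsto (fun i => (ν' i - ν i) • u i) atTop (𝓝 0) := by
    have h := h5.sub h6
    rw [sub_zero] at h
    refine h.congr fun i => ?_
    abel
  have h8 : Tendsto (fun i => ν' i - ν i) atTop (𝓝 0) := by
    rw [tendsto_zero_iff_norm_tendsto_zero] at h7 ⊢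
    refine h7.congr fun i => ?_
    rw [norm_smul, hu1, mul_one]
  have h9 : Tendsto (fun i => eX (N i) false (T (u i)) - ν' i) atTop (𝓝 0) := by
    refine squeeze_zero_norm (fun i => ?_) (by simpa using h3'.norm)
    have h := eX_le (N i) false (T (u i) - ν' i • u i)
    have h0 : eX (N i) false (u i) = 1 := by rw [hu, hN]; exact us_eX (hnz _).1 c
    rwa [map_sub, map_smul, h0, smul_eq_mul, mul_one] at h
  have h10 : Tendsto ν' atTop (𝓝 a) := by
    have h := (ha.comp hψ.tendsto_atTop).sub h9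
    rw [sub_zero] at h
    refine h.congr fun i => ?_
    simp only [Function.comp_apply]
    rw [hu, hN]
    abel
  have h11 : Tendsto (fun i => ν i - a) atTop (𝓝 0) := by
    have h := (h10.sub h8).sub_const a
    rw [sub_zero, sub_self] at h
    refine h.congr fun i => ?_
    abel
  have h12 : Tendsto (fun i => (ν i - a) • y i) atTop (𝓝 0) := by
    have h := h11.norm.mul_const C
    rw [norm_zero, zero_mul] at h
    refine squeeze_zero_norm (fun i => ?_) h
    rw [norm_smul]
    exact mul_le_mul_of_nonneg_left (hyC i) (norm_nonneg _)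
  have h13 : Tendsto (fun i => T (y i) - a • y i) atTop (𝓝 0) := by
    have h := (h2'.add h6).add h12
    rw [add_zero, add_zero] at h
    refine h.congr fun i => ?_
    rw [sub_smul, sub_smul]
    abel
  have h14 := (h13.norm)
  rw [norm_zero] at h14
  have h15 := h14.eventually (gt_mem_nhds hδ)
  obtain ⟨i, hi⟩ := h15.exists
  have h16 := hA i
  rw [← hy] at h16
  linarith

/-- the scalars -/
noncomputable def lam (T : X →L[ℂ] X) (z : ℕ → Bool) (c : Bool) : ℂ := (scal T z c).choose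

theorem lam_spec (T : X →L[ℂ] X) {C : ℝ} {z : ℕ → Bool} {c : Bool} {x : ℕ → W}
    (hx : LRIS C z c x) :
    Tendsto (fun k => T (io (x k)) - lam T z c • io (x k)) atTop (𝓝 0) :=
  (scal T z c).choose_spec C x hx

theorem lam_lim {T : X →L[ℂ] X} {C : ℝ} {z : ℕ → Bool} {c : Bool} {x : ℕ → W}
    (hx : LRIS C z c x) (h1 : ∀ k, 1 ≤ ‖io (x k)‖) {b : ℕ → ℂ}
    (hb : Tendsto (fun k => T (io (x k)) - b k • io (x k)) atTop (𝓝 0)) :
    Tendsto b atTop (𝓝 (lam T z c)) := by
  have h2 : Tendsto (fun k => (b k - lam T z c) • io (x k)) atTop (𝓝 0) := by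
    have h := (lam_spec T hx).sub hb
    rw [sub_zero] at h
    refine h.congr fun k => ?_
    rw [sub_smul]
    abel
  have h3 : Tendsto (fun k => b k - lam T z c) atTop (𝓝 0) := by
    refine squeeze_zero_norm (fun k => ?_) (by simpa using h2.norm)
    rw [norm_smul]
    exact le_mul_of_one_le_right (norm_nonneg _) (h1 k)
  have h4 := h3.add_const (lam T z c)
  rw [zero_add] at h4
  refine h4.congr fun k => ?_
  abel

/-- the scalar is determined by the seed vectors -/
theorem Scal_eq {T : X →L[ℂ] X} {z : ℕ → Bool} {c : Bool} {b : ℂ}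
    (h : ∀ n : ℕ → ℕ, StrictMono n → (∀ k, S0.D (n k) = none) → (∀ k, S0.On (n k) z) →
      LRIS 100 z c (fun k => us (n k) c) →
      Tendsto (fun k => T (io (us (n k) c)) - b • io (us (n k) c)) atTop (𝓝 0)) :
    lam T z c = b := by
  obtain ⟨n, hn, hnz⟩ := exists_seed_seq z
  have hus := us_LRIS hn (fun k => (hnz k).1) (fun k => (hnz k).2) c
  have h1 := lam_lim (T := T) hus (fun k => (us_norm (hnz k).1 c).ge)
    (h n hn (fun k => (hnz k).1) (fun k => (hnz k).2) hus)
  exact tendsto_nhds_unique h1 tendsto_const_nhds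

theorem lam_add (T T' : X →L[ℂ] X) (z : ℕ → Bool) (c : Bool) :
    lam (T + T') z c = lam T z c + lam T' z c := by
  refine Scal_eq fun n _ _ _ hus => ?_
  have h := (lam_spec T hus).add (lam_spec T' hus)
  rw [add_zero] at h
  refine h.congr fun k => ?_
  rw [add_apply, add_smul]
  abel

theorem lam_smul (r : ℂ) (T : X →L[ℂ] X) (z : ℕ → Bool) (c : Bool) :
    lam (r • T) z c = r * lam T z c := by
  refine Scal_eq fun n _ _ _ hus => ?_
  have h := (lam_spec T hus).const_smul r
  rw [smul_zero] at h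
  refine h.congr fun k => ?_
  rw [smul_apply, smul_sub, mul_smul]

theorem lam_mul (T T' : X →L[ℂ] X) (z : ℕ → Bool) (c : Bool) :
    lam (T * T') z c = lam T z c * lam T' z c := by
  refine Scal_eq fun n _ _ _ hus => ?_
  have h1 := (T.continuous.tendsto 0).comp (lam_spec T' hus)
  rw [map_zero] at h1
  have h2 := (lam_spec T hus).const_smul (lam T' z c)
  rw [smul_zero] at h2
  have h := h1.add h2
  rw [add_zero] at h
  refine h.congr fun k => ?_
  rw [Function.comp_apply, map_sub, map_smul, smul_sub, mul_apply_eq_comp, mul_comm,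
    mul_smul]
  abel

theorem lam_one (z : ℕ → Bool) (c : Bool) : lam 1 z c = 1 := by
  refine Scal_eq fun n _ _ _ _ => ?_
  refine tendsto_const_nhds.congr fun k => ?_
  rw [one_smul, one_apply_eq_self, sub_self]

theorem lam_le (T : X →L[ℂ] X) (z : ℕ → Bool) (c : Bool) : ‖lam T z c‖ ≤ ‖T‖ := by
  obtain ⟨n, hn, hnz⟩ := exists_seed_seq z
  have hus := us_LRIS hn (fun k => (hnz k).1) (fun k => (hnz k).2) c
  have h := (lam_spec T hus).norm.const_add ‖T‖
  rw [norm_zero, add_zero] at h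
  refine ge_of_tendsto h (Eventually.of_forall fun k => ?_)
  have h1 := us_norm (hnz k).1 c
  have h2 : ‖lam T z c • io (us (n k) c)‖ = ‖lam T z c‖ := by rw [norm_smul, h1, mul_one]
  have h3 := T.le_opNorm (io (us (n k) c))
  rw [h1, mul_one] at h3
  have h4 := norm_sub_le (T (io (us (n k) c)))
    (T (io (us (n k) c)) - lam T z c • io (us (n k) c))
  rw [sub_sub_cancel, h2] at h4
  linarith

/-- the seed vectors tend weakly to zero (`ris_weak`), so a compact operator maps them to a null sequence -/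
theorem lam_compact {T : X →L[ℂ] X} (hT : IsCompactOperator T) (z : ℕ → Bool) (c : Bool) :
    lam T z c = 0 := by
  obtain ⟨n, hn, hnz⟩ := exists_seed_seq z
  obtain ⟨K, hK, hTK⟩ := IsCompactOperator.image_closedBall_subset_compact
    (f := (T : X →ₛₗ[RingHom.id ℂ] X)) hT 1
  have hmem : ∀ k, T (io (us (n k) c)) ∈ K := fun k => hTK ⟨_, by
    rw [mem_closedBall_zero_iff, us_norm (hnz k).1], rfl⟩
  obtain ⟨y, -, θ, hθ, hy⟩ := hK.tendsto_subseq hmem
  have hus := us_LRIS (hn.comp hθ) (fun k => (hnz _).1) (fun k => (hnz _).2) c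
  have hy0 : y = 0 := by
    rw [← norm_le_zero_iff]
    refine norm_le_of_eX le_rfl fun m c' => ?_
    have h1 := ((eX m c').continuous.tendsto y).comp hy
    have h2 := ris_weak hus.ris ((eX m c').comp T)
    rw [tendsto_nhds_unique h1 h2, norm_zero]
  have h3 : Tendsto (fun k => T (io (us ((n ∘ θ) k) c)) - (0 : ℂ) • io (us ((n ∘ θ) k) c)) atTop
      (𝓝 0) := by
    rw [hy0] at hy
    refine hy.congr fun k => ?_
    rw [zero_smul, sub_zero]
    rfl
  have h4 := lam_lim (T := T) hus (fun k => (us_norm (hnz _).1 c).ge) h3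
  exact tendsto_nhds_unique h4 tendsto_const_nhds

open Classical in
theorem lam_QX (p : ℕ) (z : ℕ → Bool) (c : Bool) :
    lam (QX p) z c = if S0.On p z then 1 else 0 := by
  refine Scal_eq fun n hn _ hz hus => ?_
  refine tendsto_const_nhds.congr' ?_
  filter_upwards [eventually_gt_atTop p] with k hk
  have hk' : p < n k := lt_of_lt_of_le hk hn.le_apply
  rw [QX_io (Scal_mem_us _ _)]
  split_ifs with h
  · rw [us_Q ⟨hk', on_of_on hS0 hk'.le h (hz k)⟩, one_smul, sub_self]
  · rw [us_Q_zero (fun h1 => h (on_trans hS0 hk'.le h1.2 (hz k))), zero_smul, map_zero, sub_zero]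

open Classical in
theorem lam_EX (w z : ℕ → Bool) (c : Bool) :
    lam (EX w) z c = if z = w ∧ c = true then 1 else 0 := by
  refine Scal_eq fun n hn _ hz hus => ?_
  by_cases hzw : z = w
  · subst hzw
    refine tendsto_const_nhds.congr fun k => ?_
    rw [EX_io (Scal_mem_us _ _)]
    cases c with
    | true =>
      rw [us_E_on (hz k), if_pos ⟨rfl, rfl⟩, one_smul, sub_self]
    | false =>
      rw [us_E_false, if_neg (by simp), zero_smul, map_zero, sub_zero]
  · obtain ⟨N, hN⟩ := Scal_off hzw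
    refine tendsto_const_nhds.congr' ?_
    filter_upwards [eventually_ge_atTop N] with k hk
    rw [EX_io (Scal_mem_us _ _), us_E_off (hN _ (hk.trans hn.le_apply) (hz k)),
      if_neg (fun h => hzw h.1), zero_smul, map_zero, sub_zero]

/-- Choose seeds `n k` on `w k`, strictly increasing, not on `z`, such that
`‖T us - lam T (w k) (c k) us‖ ≤ 1 / (k + 1)` for `us = us (n k) (c k)` (`exists_seed_seq`, `lam_spec` for
`w k`), and use `us_LRIS_off`, `lam_lim`. -/
theorem lam_cont (T : X →L[ℂ] X) {z : ℕ → Bool} {w : ℕ → ℕ → Bool}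
    (hw : ∀ k, ∀ i < k, w k i = z i) (hne : ∀ k, w k ≠ z) (c : ℕ → Bool) :
    Tendsto (fun k => lam T (w k) (c k)) atTop (𝓝 (lam T z false)) := by
  have step : ∀ k N : ℕ, ∃ m, N < m ∧ S0.D m = none ∧ S0.On m (w k) ∧ ¬ S0.On m z ∧
      ‖T (io (us m (c k))) - lam T (w k) (c k) • io (us m (c k))‖ ≤ 1 / ((k : ℝ) + 1) := by
    intro k N
    obtain ⟨n, hn, hnz⟩ := exists_seed_seq (w k)
    have hus := us_LRIS hn (fun k => (hnz k).1) (fun k => (hnz k).2) (c k)
    have h1 := (lam_spec T hus).norm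
    rw [norm_zero] at h1
    have h2 := h1.eventually (gt_mem_nhds (show (0 : ℝ) < 1 / ((k : ℝ) + 1) by positivity))
    obtain ⟨M, hM⟩ := Scal_off (hne k)
    obtain ⟨j, hj1, hj2, hj3⟩ := (h2.and ((eventually_gt_atTop N).and
      (eventually_ge_atTop M))).exists
    have h3 : j ≤ n j := hn.le_apply
    exact ⟨n j, by omega, (hnz j).1, (hnz j).2, hM _ (hj3.trans h3) (hnz j).2, hj1.le⟩
  choose f h1 h2 h3 h4 h5 using step
  obtain ⟨n, hn0, hns⟩ : ∃ n : ℕ → ℕ, n 0 = f 0 0 ∧ ∀ k, n (k + 1) = f (k + 1) (n k) :=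
    ⟨fun k => Nat.rec (f 0 0) (fun k m => f (k + 1) m) k, rfl, fun _ => rfl⟩
  have hn : StrictMono n := strictMono_nat_of_lt_succ fun k => by
    rw [hns]
    exact h1 _ _
  have hf : ∀ k, ∃ m, n k = f k m := by
    intro k
    cases k with
    | zero => exact ⟨0, hn0⟩
    | succ k => exact ⟨n k, hns k⟩
  have hs : ∀ k, S0.D (n k) = none := fun k => by
    obtain ⟨m, hm⟩ := hf k
    rw [hm]
    exact h2 k m
  have hus := us_LRIS_off hn hs hw (fun k => by
    obtain ⟨m, hm⟩ := hf k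
    rw [hm]
    exact h3 k m) (fun k => by
    obtain ⟨m, hm⟩ := hf k
    rw [hm]
    exact h4 k m) c
  refine lam_lim (T := T) hus (fun k => (us_norm (hs k) (c k)).ge) ?_
  refine squeeze_zero_norm (fun k => ?_) tendsto_one_div_add_atTop_nhds_zero_nat
  obtain ⟨m, hm⟩ := hf k
  rw [hm]
  exact h5 k m

end Pool.Agent.W8d7136
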