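import Pool.Agent.W_MP_8d7136_h58.LocForm

set_option autoImplicit false

/-!
The seed vectors.
-/

open Filter Topology

namespace Pool.Agent.W8d7136

/-- the vector at `n` with coordinates `(1, 1)` (type on) or `(1, 0)` (type off) -/
noncomputable def us (n : ℕ) (c : Bool) : W := fun i c' => if i = n ∧ (c' = true → c = true) then 1 else 0

theorem Seeds_ne {n i : ℕ} (h : i ≠ n) (c c' : Bool) : us n c i c' = 0 :=
  if_neg fun h' => h h'.1

theorem Seeds_false (n : ℕ) (c : Bool) : us n c n false = 1 :=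
  if_pos ⟨rfl, fun h => absurd h (by decide)⟩

theorem Seeds_true (n : ℕ) (c' : Bool) : us n true n c' = 1 :=
  if_pos ⟨rfl, fun _ => rfl⟩

theorem Seeds_ft (n i : ℕ) : us n false i true = 0 :=
  if_neg fun h' => absurd (h'.2 rfl) (by decide)

theorem Seeds_le (n : ℕ) (c : Bool) (i : ℕ) (c' : Bool) : ‖us n c i c'‖ ≤ 1 := by
  unfold us
  split_ifs
  · rw [norm_one]
  · rw [norm_zero]
    exact zero_le_one

theorem us_Sup (n : ℕ) (c : Bool) : Sup n (n + 1) (us n c) := by
  intro i hi c'
  exact Seeds_ne (by omega) c c'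

theorem Seeds_small {n m : ℕ} (h : m < n) (c c' : Bool) : e S0 m c' (us n c) = 0 :=
  e_eq_zero hS0 fun i hi c'' => Seeds_ne (by omega) c c''

/-- the recursion for the seed vectors, index larger than `n` -/
theorem Seeds_rec {n m : ℕ} (h : n < m) {d : Dat} (hd : S0.D m = some d) (c c' : Bool) :
    (d.p < n ∧ e S0 m c' (us n c) =
        (wt d.j : ℂ) * bf S0 m d.b (Q S0 d.p (eps S0 m c' (us n c)))) ∨
      (n ≤ d.p ∧ e S0 m c' (us n c) =
        if d.chi = true then e S0 d.p c' (us n c) else 0) := by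
  have h1 := e_some hS0 hd c' (us n c)
  rw [Seeds_ne h.ne', zero_add] at h1
  rcases lt_or_ge d.p n with hp | hp
  · refine Or.inl ⟨hp, ?_⟩
    rw [Seeds_small hp, ite_self, zero_add] at h1
    exact h1
  · refine Or.inr ⟨hp, ?_⟩
    have h2 : Q S0 d.p (eps S0 m c' (us n c)) = 0 := by
      funext i c''
      by_cases hi : i = n
      · subst hi
        exact Bd_Q_small hp _ _
      · exact Mult_supp (Mult_comp hS0 (Mult_Q S0 d.p) (Mult_eps S0 m c'))
          (fun c3 => Seeds_ne hi c c3) c''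
    rw [h2, map_zero, mul_zero, add_zero] at h1
    exact h1

/-- by induction on the index: for `m ≠ n`, `e_m(us n c) = χ e_p + w bf(Q_p eps ..)` where the first term
vanishes if `p < n` and the second if `n ≤ p` -/
theorem us_NB {n : ℕ} (hn : S0.D n = none) (c : Bool) : NB S0 1 (us n c) := by
  intro m
  induction m using Nat.strong_induction_on with
  | _ m ih =>
    intro c'
    rcases lt_trichotomy m n with h | h | h
    · rw [Seeds_small h, norm_zero]
      exact zero_le_one
    · subst h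
      rw [e_none hn]
      exact Seeds_le m c m c'
    · rcases hd : S0.D m with _ | d
      · rw [e_none hd]
        exact Seeds_le n c m c'
      · rcases Seeds_rec h hd c c' with ⟨-, h1⟩ | ⟨-, h1⟩
        · rw [h1]
          refine Bd_wt d.j zero_le_one ((Bd_piece (Bd_strong hS0 m) (hS0.b1 m d hd) zero_le_one
            (fun i hi c'' => ih i hi c'') m c').trans (by norm_num))
        · rw [h1]
          exact Bd_cond zero_le_one (ih d.p (hS0.lt m d hd).1 c')

theorem us_WB {n : ℕ} (hn : S0.D n = none) (c : Bool) (h : ℕ) : WB S0 h 100 (us n c) := by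
  intro m
  induction m using Nat.strong_induction_on with
  | _ m ih =>
    intro c' hw
    obtain ⟨d, hd, hj⟩ := hw
    have hpos := (wt_pos h).le
    rcases lt_trichotomy m n with h2 | h2 | h2
    · rw [Seeds_small h2, norm_zero]
      positivity
    · subst h2
      rw [hn] at hd
      exact absurd hd (by simp)
    · rcases Seeds_rec h2 hd c c' with ⟨-, h1⟩ | ⟨-, h1⟩
      · rw [h1]
        refine (Wgt_piece hS0 hd (us_NB hn c) c').trans ?_
        rw [hj]
        linarith
      · rw [h1]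
        refine Wgt_cond (by positivity) fun hc => ?_
        exact ih d.p (hS0.lt m d hd).1 c' (Wgt_parent hS0 hd hj hc)

theorem Seeds_mem (n : ℕ) (c : Bool) : us n c ∈ Fs := Fs_of_Sup (us_Sup n c)

theorem us_eX {n : ℕ} (hn : S0.D n = none) (c : Bool) : eX n false (io (us n c)) = 1 := by
  rw [eX_io (Seeds_mem n c), e_none hn, Seeds_false]

theorem us_norm {n : ℕ} (hn : S0.D n = none) (c : Bool) : ‖io (us n c)‖ = 1 := by
  refine le_antisymm ((norm_io_le (Seeds_mem n c)).2 (us_NB hn c)) ?_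
  have h1 := eX_le n false (io (us n c))
  rwa [us_eX hn, norm_one] at h1

theorem us_E_on {n : ℕ} {z : ℕ → Bool} (h : S0.On n z) : E S0 z (us n true) = us n true := by
  classical
  funext i c'
  rw [E_apply]
  by_cases hi : i = n
  · subst hi
    rw [if_pos h, Seeds_true, Seeds_true]
  · rw [Seeds_ne hi, Seeds_ne hi, ite_self]

theorem us_E_false (n : ℕ) (z : ℕ → Bool) : E S0 z (us n false) = 0 := by
  classical
  funext i c'
  rw [E_apply, Seeds_ft, ite_self]
  rfl

theorem us_E_off {n : ℕ} {z : ℕ → Bool} (h : ¬ S0.On n z) (c : Bool) : E S0 z (us n c) = 0 := by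
  classical
  funext i c'
  rw [E_apply]
  by_cases hi : i = n
  · subst hi
    rw [if_neg h]
    rfl
  · rw [Seeds_ne hi, ite_self]
    rfl

theorem us_Q {n p : ℕ} (h : n ∈ S0.cone p) (c : Bool) : Q S0 p (us n c) = us n c := by
  classical
  funext i c'
  rw [Bd_Q_apply]
  by_cases hi : i = n
  · subst hi
    rw [if_pos h]
  · rw [Seeds_ne hi, ite_self]

theorem us_Q_zero {n p : ℕ} (h : n ∉ S0.cone p) (c : Bool) : Q S0 p (us n c) = 0 := by
  classical
  funext i c'
  rw [Bd_Q_apply]
  by_cases hi : i = n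
  · subst hi
    rw [if_neg h]
    rfl
  · rw [Seeds_ne hi, ite_self]
    rfl

/-- `lo = n k`, `hi = n k + 1`, `J = n k` -/
theorem us_RI {n : ℕ → ℕ} (hn : StrictMono n) (hs : ∀ k, S0.D (n k) = none) (c : ℕ → Bool) :
    RI 100 n (fun k => n k + 1) n (fun k => us (n k) (c k)) := by
  refine ⟨fun k => ⟨us_Sup _ _, NB_mono (us_NB (hs k) _) (by norm_num), fun h _ =>
    us_WB (hs k) _ h⟩, fun k => Nat.lt_succ_self _, fun k => ?_, fun k => ?_⟩
  · exact hn (Nat.lt_succ_self k)
  · exact hn (Nat.lt_succ_self k)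

theorem Seeds_ev {n : ℕ → ℕ} (hn : StrictMono n) (p : ℕ) : ∀ᶠ k in atTop, p < n k :=
  hn.tendsto_atTop.eventually_gt_atTop p

theorem us_LRIS {n : ℕ → ℕ} (hn : StrictMono n) (hs : ∀ k, S0.D (n k) = none) {z : ℕ → Bool}
    (hz : ∀ k, S0.On (n k) z) (c : Bool) : LRIS 100 z c (fun k => us (n k) c) := by
  refine ⟨⟨n, fun k => n k + 1, n, us_RI hn hs fun _ => c⟩, fun k => ?_, fun p hp => ?_⟩
  · unfold Ty
    cases c
    · exact us_E_false _ _
    · exact us_E_on (hz k)
  · filter_upwards [Seeds_ev hn p] with k hk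
    exact us_Q ⟨hk, on_of_on hS0 hk.le hp (hz k)⟩ c

/-- seeds on branches tending to `z`: for `p` on `z` and `k ≥ len p`, `p < n k`: `p` is on `w k`, so `n k` is in
the cone of `p` -/
theorem us_LRIS_off {n : ℕ → ℕ} (hn : StrictMono n) (hs : ∀ k, S0.D (n k) = none)
    {z : ℕ → Bool} {w : ℕ → ℕ → Bool} (hw : ∀ k, ∀ i < k, w k i = z i)
    (hz : ∀ k, S0.On (n k) (w k)) (hz' : ∀ k, ¬ S0.On (n k) z) (c : ℕ → Bool) :
    LRIS 100 z false (fun k => us (n k) (c k)) := by
  refine ⟨⟨n, fun k => n k + 1, n, us_RI hn hs c⟩, fun k => us_E_off (hz' k) _, fun p hp => ?_⟩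
  filter_upwards [Seeds_ev hn p, eventually_ge_atTop (S0.len p)] with k hk hk2
  have h1 : S0.On p (w k) := by
    intro i hi
    rw [hw k i (hi.trans_le hk2)]
    exact hp i hi
  exact us_Q ⟨hk, on_of_on hS0 hk.le h1 (hz k)⟩ (c k)

/-- seeds on `z` -/
theorem exists_seed_seq (z : ℕ → Bool) :
    ∃ n : ℕ → ℕ, StrictMono n ∧ ∀ k, S0.D (n k) = none ∧ S0.On (n k) z := by
  have h1 : ∃ᶠ n in atTop, S0.D n = none ∧ S0.On n z := by
    rw [frequently_atTop]
    intro N
    obtain ⟨n, h1, h2, h3⟩ := hS0.seed z N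
    exact ⟨n, h1, h3, h2⟩
  exact extraction_of_frequently_atTop h1

end Pool.Agent.W8d7136
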