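import Pool.Agent.W_MP_8d7136_h58.UB
import Pool.Agent.W_MP_8d7136_h58.KTop

set_option autoImplicit false

/-!
The homomorphism onto `C(K)`.
-/

open Filter Topology

namespace Pool.Agent.W8d7136

/-- the scalars form a continuous function -/
noncomputable def lamC (T : X →L[ℂ] X) : C(KK, ℂ) where
  toFun k := lam T k.1 k.2
  continuous_toFun := KK_continuous fun _ _ c hw hne => lam_cont T hw hne c

theorem lamC_apply (T : X →L[ℂ] X) (z : ℕ → Bool) (c : Bool) : lamC T (z, c) = lam T z c := rfl

/-- the homomorphism -/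
noncomputable def Theta : (X →L[ℂ] X) →ₐ[ℂ] C(KK, ℂ) :=
  AlgHom.ofLinearMap
    { toFun := lamC
      map_add' := fun T T' => by
        ext k
        exact lam_add T T' k.1 k.2
      map_smul' := fun r T => by
        ext k
        exact lam_smul r T k.1 k.2 }
    (by
      ext k
      exact lam_one k.1 k.2)
    (by
      intro T T'
      ext k
      exact lam_mul T T' k.1 k.2)

theorem Theta_apply (T : X →L[ℂ] X) (z : ℕ → Bool) (c : Bool) :
    Theta T (z, c) = lam T z c := rfl

theorem Theta_le (T : X →L[ℂ] X) : ‖Theta T‖ ≤ ‖T‖ :=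
  (ContinuousMap.norm_le _ (norm_nonneg T)).2 fun k => lam_le T k.1 k.2

theorem Theta_continuous : Continuous Theta :=
  (Theta.toLinearMap.mkContinuous 1 fun T => by
    rw [one_mul]
    exact Theta_le T).continuous

theorem lam_le_Theta (T : X →L[ℂ] X) (z : ℕ → Bool) (c : Bool) : ‖lam T z c‖ ≤ ‖Theta T‖ :=
  ContinuousMap.norm_coe_le_norm (Theta T) ((z, c) : (ℕ → Bool) × Bool)

/-- (`tail`) -/
theorem Theta_tail (T : X →L[ℂ] X) {ε : ℝ} (hε : 0 < ε) :
    ∃ k, ‖T - T.comp (PX k)‖ ≤ 10 ^ 4 * ‖Theta T‖ + ε := by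
  obtain ⟨k, hk⟩ := tail T (fun z c => lam_le_Theta T z c) hε
  refine ⟨k, ContinuousLinearMap.opNorm_le_bound _ (by positivity) fun u => ?_⟩
  have h := hk u
  rw [map_sub] at h
  exact h

/-- `lam_compact`; conversely `Theta_tail`, `compact_comp_PX` and closedness of the compact operators -/
theorem Theta_eq_zero (T : X →L[ℂ] X) : Theta T = 0 ↔ IsCompactOperator T := by
  constructor
  · intro h
    have hcl : IsClosed {f : X →L[ℂ] X | IsCompactOperator f} :=
      isClosed_setOfPred_isCompactOperator (σ₁₂ := RingHom.id ℂ)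
    have hmem : T ∈ closure {f : X →L[ℂ] X | IsCompactOperator f} := by
      rw [Metric.mem_closure_iff]
      intro ε hε
      obtain ⟨k, hk⟩ := Theta_tail T (half_pos hε)
      refine ⟨T.comp (PX k), compact_comp_PX T k, ?_⟩
      rw [h, norm_zero, mul_zero, zero_add] at hk
      rw [dist_eq_norm]
      linarith
    rw [hcl.closure_eq] at hmem
    exact hmem
  · intro h
    ext k
    exact lam_compact h k.1 k.2

theorem Theta_sub_comp (T : X →L[ℂ] X) (k : ℕ) : Theta (T - T.comp (PX k)) = Theta T := by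
  rw [map_sub, (Theta_eq_zero _).2 (compact_comp_PX T k), sub_zero]

/-- the homomorphism as a bounded group homomorphism -/
noncomputable def ThetaN : NormedAddGroupHom (X →L[ℂ] X) C(KK, ℂ) where
  toFun := Theta
  map_add' := map_add Theta
  bound' := ⟨1, fun T => by
    rw [one_mul]
    exact Theta_le T⟩

theorem ThetaN_apply (T : X →L[ℂ] X) : ThetaN T = Theta T := rfl

theorem ThetaN_surj : ThetaN.SurjectiveOnWith ThetaN.range (10 ^ 5) := by
  rintro h ⟨T, rfl⟩
  change ∃ g, ThetaN g = Theta T ∧ ‖g‖ ≤ 10 ^ 5 * ‖Theta T‖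
  by_cases h0 : Theta T = 0
  · exact ⟨0, by rw [map_zero, h0], by rw [h0, norm_zero, norm_zero, mul_zero]⟩
  · have h1 : 0 < ‖Theta T‖ := norm_pos_iff.2 h0
    obtain ⟨k, hk⟩ := Theta_tail T h1
    refine ⟨T - T.comp (PX k), ?_, ?_⟩
    · rw [ThetaN_apply, Theta_sub_comp]
    · linarith

/-- by `Theta_tail` every element of the range has a preimage of norm at most `10 ^ 5` times its norm
(`Theta (T ∘ PX k) = 0`) -/
theorem Theta_range_closed : IsClosed (Theta.range : Set C(KK, ℂ)) := by
  have h := controlled_closure_of_complete (f := ThetaN) (K := ThetaN.range) (C := 10 ^ 5)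
    (ε := 1) (by norm_num) one_pos ThetaN_surj
  have h1 : (Theta.range : Set C(KK, ℂ)) = (ThetaN.range.topologicalClosure : Set C(KK, ℂ)) := by
    ext f
    constructor
    · rintro ⟨T, rfl⟩
      exact AddSubgroup.le_topologicalClosure _ ⟨T, rfl⟩
    · intro hf
      obtain ⟨T, hT, -⟩ := h f hf
      exact ⟨T, hT⟩
  rw [h1]
  exact AddSubgroup.isClosed_topologicalClosure _

/-- `KK_top` with `lam_EX`, `lam_QX`, `lenall` -/
theorem Theta_surjective : Function.Surjective Theta := by
  classical
  have h : Theta.range = ⊤ := by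
    refine KK_top Theta_range_closed (fun z => ⟨Theta (EX z), ⟨EX z, rfl⟩, fun w c => ?_⟩)
      fun L z => ?_
    · rw [Theta_apply, lam_EX]
    · obtain ⟨p, hp, hpz⟩ := hS0.lenall L z
      refine ⟨Theta (QX p), ⟨QX p, rfl⟩, fun w c => ?_⟩
      have h1 : S0.On p w ↔ ∀ i < L, w i = z i := by
        constructor
        · intro h i hi
          rw [← hp] at hi
          rw [← h i hi, hpz i hi]
        · intro h i hi
          rw [hpz i hi]
          rw [hp] at hi
          exact (h i hi).symm
      rw [Theta_apply, lam_QX]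
      by_cases h2 : S0.On p w
      · rw [if_pos h2, if_pos (h1.1 h2)]
      · rw [if_neg h2, if_neg fun h3 => h2 (h1.2 h3)]
  intro f
  have hf : f ∈ Theta.range := by
    rw [h]
    trivial
  exact hf

end Pool.Agent.W8d7136
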