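import Pool.Agent.W_MP_8d7136_h58.Scal

set_option autoImplicit false

/-!
The upper bound for the essential norm.
-/

open Filter Topology

namespace Pool.Agent.W8d7136

theorem UB_QQ (p : ℕ) (v : W) : Q S0 p (Q S0 p v) = Q S0 p v := by
  unfold Q
  rw [res_res, Set.inter_self]

theorem UB_EQ (z : ℕ → Bool) (p : ℕ) (v : W) : E S0 z (Q S0 p v) = Q S0 p (E S0 z v) :=
  E_res z _ v

/-- one type: `QX (p i) T y_i - lam T z c QX (p i) y_i → 0`.  `y = Q p y + (y - Q p y)`; `Q (p i) y_i` is a localised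
sequence (`lam_spec`), and `mainL0` for `y - Q p y`. -/
theorem one_type (T : X →L[ℂ] X) {C : ℝ} {y : ℕ → W} (hy : RIS C y) {z : ℕ → Bool} {c : Bool}
    (ht : ∀ k, Ty z c (y k)) {p : ℕ → ℕ} (hp : Tendsto p atTop atTop)
    (hz : ∀ k, S0.On (p k) z) :
    Tendsto (fun k => QX (p k) (T (io (y k))) - lam T z c • QX (p k) (io (y k)))
      atTop (𝓝 0) := by
  have hL : LRIS (10 ^ 7 * C) z c (fun k => Q S0 (p k) (y k)) := by
    refine ⟨hy.mult fun k => Mult_Q S0 (p k), fun k => ?_, fun q hq => ?_⟩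
    · have h1 := ht k
      unfold Ty at h1 ⊢
      rw [UB_EQ, h1]
      cases c <;> simp
    · filter_upwards [hp.eventually_ge_atTop q] with k hk
      exact (Q_Q hS0 hk (on_of_on hS0 hk hq (hz k)) (y k)).1
  have h1 := lam_spec T hL
  have hoff : RIS (10 ^ 8 * C) (fun k => y k - Q S0 (p k) (y k)) :=
    hy.sub_mult fun k => Mult_Q S0 (p k)
  have hT : ∀ k, Ty z c (y k - Q S0 (p k) (y k)) := by
    intro k
    have h1 := ht k
    unfold Ty at h1 ⊢
    rw [map_sub, UB_EQ, h1]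
    cases c <;> simp
  have h2 := mainL0 T hoff hT hp hz fun k => by rw [map_sub, UB_QQ, sub_self]
  have h3 : Tendsto (fun k => QX (p k) (T (io (Q S0 (p k) (y k))) -
      lam T z c • io (Q S0 (p k) (y k)))) atTop (𝓝 0) := by
    refine squeeze_zero_norm (fun k => QX_le _ (p k)) ?_
    have h4 := h1.norm.const_mul 6
    rw [norm_zero, mul_zero] at h4
    exact h4
  have h5 := h3.add h2
  rw [add_zero] at h5
  refine h5.congr fun k => ?_
  have hyF : y k ∈ Fs := hy.mem k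
  have e1 : QX (p k) (io (Q S0 (p k) (y k))) = QX (p k) (io (y k)) := by
    rw [← QX_io hyF, QX_idem]
  rw [map_sub, map_smul, e1, map_sub, map_sub, map_sub]
  abel

/-- Otherwise `‖T x_k‖ ≥ δ := 600 C θ + ε` frequently; `ris_PX`, `loc`, `loc_ext` (with trivial `A`) give `z`,
`φ`, `p` with `‖QX (p i) T x_{φ i}‖ ≥ δ / 20`; `one_type` for `E_z x_{φ i}` (on) and `x_{φ i} - E_z x_{φ i}` (off)
(`RIS.mult`, `RIS.sub_mult`) shows `limsup ‖QX (p i) T x_{φ i}‖ ≤ 12 C θ + 18 C θ`. -/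
theorem ub_ris (T : X →L[ℂ] X) {θ : ℝ} (hθ : ∀ z c, ‖lam T z c‖ ≤ θ) {C C' : ℝ} {x : ℕ → W}
    (hx : RIS C' x) (hC : ∀ k, NB S0 C (x k)) {ε : ℝ} (hε : 0 < ε) :
    ∀ᶠ k in atTop, ‖T (io (x k))‖ ≤ 600 * C * θ + ε := by
  have hC0 : 0 ≤ C := NB_nonneg (hC 0)
  have hθ0 : 0 ≤ θ := (norm_nonneg _).trans (hθ (fun _ => false) false)
  by_contra hcon
  have hfr : ∃ᶠ k in atTop, 600 * C * θ + ε ≤ ‖T (io (x k))‖ := by
    intro h
    apply hcon
    filter_upwards [h] with k hk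
    exact (not_le.1 hk).le
  obtain ⟨z, hz⟩ := loc (v := fun k => T (io (x k))) (fun N => ris_PX hx T N)
    (show 0 < 600 * C * θ + ε by positivity) hfr
  obtain ⟨φ, p, hφ, hp, hφp⟩ := loc_ext (v := fun k => T (io (x k))) hz (A := fun _ _ => True)
    (fun _ _ => Eventually.of_forall fun _ => trivial) 0
  have hy := hx.sub hφ
  have hyF : ∀ k, x (φ k) ∈ Fs := fun k => hx.mem (φ k)
  have hon : RIS (10 ^ 7 * C') (fun k => E S0 z (x (φ k))) := hy.mult fun _ => Mult_E S0 z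
  have hoff : RIS (10 ^ 8 * C') (fun k => x (φ k) - E S0 z (x (φ k))) :=
    hy.sub_mult fun _ => Mult_E S0 z
  have h1 := one_type T hon (z := z) (c := true) (fun k => by
    unfold Ty
    rw [E_idem]
    simp) hp (fun k => (hφp k).2.1)
  have h2 := one_type T hoff (z := z) (c := false) (fun k => by
    unfold Ty
    rw [map_sub, E_idem, sub_self]
    simp) hp (fun k => (hφp k).2.1)
  have e1 := (Metric.tendsto_nhds.1 h1) (ε / 80) (by positivity)
  have e2 := (Metric.tendsto_nhds.1 h2) (ε / 80) (by positivity)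
  obtain ⟨k, hk1, hk2⟩ := (e1.and e2).exists
  rw [dist_zero_right] at hk1 hk2
  have h3 := (hφp k).2.2.2
  have hxn : ‖io (x (φ k))‖ ≤ C := (norm_io_le (hyF k)).2 (hC (φ k))
  have hEn : ‖io (E S0 z (x (φ k)))‖ ≤ 2 * C := by
    rw [← EX_io (hyF k)]
    exact (EX_le _ z).trans (by linarith)
  have hEn2 : ‖io (x (φ k) - E S0 z (x (φ k)))‖ ≤ 3 * C := by
    rw [map_sub]
    refine (norm_sub_le _ _).trans (by linarith)
  have b1 : ‖lam T z true • QX (p k) (io (E S0 z (x (φ k))))‖ ≤ θ * (12 * C) := by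
    rw [norm_smul]
    refine mul_le_mul (hθ z true) ?_ (norm_nonneg _) hθ0
    exact (QX_le _ (p k)).trans (by linarith)
  have b2 : ‖lam T z false • QX (p k) (io (x (φ k) - E S0 z (x (φ k))))‖ ≤ θ * (18 * C) := by
    rw [norm_smul]
    refine mul_le_mul (hθ z false) ?_ (norm_nonneg _) hθ0
    exact (QX_le _ (p k)).trans (by linarith)
  have c1 : ‖QX (p k) (T (io (E S0 z (x (φ k)))))‖ ≤ θ * (12 * C) + ε / 80 := by
    have h4 := norm_add_le (QX (p k) (T (io (E S0 z (x (φ k))))) -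
      lam T z true • QX (p k) (io (E S0 z (x (φ k)))))
      (lam T z true • QX (p k) (io (E S0 z (x (φ k)))))
    rw [sub_add_cancel] at h4
    linarith
  have c2 : ‖QX (p k) (T (io (x (φ k) - E S0 z (x (φ k)))))‖ ≤ θ * (18 * C) + ε / 80 := by
    have h4 := norm_add_le (QX (p k) (T (io (x (φ k) - E S0 z (x (φ k))))) -
      lam T z false • QX (p k) (io (x (φ k) - E S0 z (x (φ k)))))
      (lam T z false • QX (p k) (io (x (φ k) - E S0 z (x (φ k)))))
    rw [sub_add_cancel] at h4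
    linarith
  have c3 : QX (p k) (T (io (x (φ k)))) = QX (p k) (T (io (E S0 z (x (φ k))))) +
      QX (p k) (T (io (x (φ k) - E S0 z (x (φ k))))) := by
    rw [← map_add, ← map_add, ← map_add]
    congr 3
    abel
  rw [c3] at h3
  have h5 := h3.trans (norm_add_le _ _)
  linarith

/-- `split` with `C = 1` for every `N` and `k`: `x_k = y_k^N + z_k^N`.  For fixed `N` the sequence `y^N` is a RIS
(constant `1000 mm N`, `J k = lo k`), so eventually `‖T y_k^N‖ ≤ 1200 θ + ε / 4`.  If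
`‖T x_k‖ > 2400 θ + ε` frequently choose `φ` recursively with `N_i = hi (φ (i-1))` such that this holds for
`φ i` and `‖T y_{φ i}^{N_i}‖ ≤ 1200 θ + ε / 4`; `(z_{φ i}^{N_i})_i` is a RIS with `J_i = N_i + 1`. -/
theorem ub (T : X →L[ℂ] X) {θ : ℝ} (hθ : ∀ z c, ‖lam T z c‖ ≤ θ) {x : ℕ → W} {lo hi : ℕ → ℕ}
    (hs : ∀ k, Sup (lo k) (hi k) (x k)) (h1 : ∀ k, lo k < hi k) (h2 : ∀ k, hi k ≤ lo (k + 1))
    (hC : ∀ k, NB S0 1 (x k)) {ε : ℝ} (hε : 0 < ε) :
    ∀ᶠ k in atTop, ‖T (io (x k))‖ ≤ 2400 * θ + ε := by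
  have hθ0 : 0 ≤ θ := (norm_nonneg _).trans (hθ (fun _ => false) false)
  choose Y Z hYZ hYs hZs hYn hZn hYw hZw using fun (N k : ℕ) => split hS0 (hs k) (hC k) N
  have hmono : ∀ m k, m < k → hi m ≤ lo k := by
    intro m k hmk
    induction k, hmk using Nat.le_induction with
    | base => exact h2 m
    | succ k _ ih => exact ih.trans ((h1 k).le.trans (h2 k))
  have hmm : ∀ N, (1 : ℝ) ≤ mm N := by
    intro N
    have := mm_ge N
    have h3 : 1 ≤ mm N := le_trans (by norm_num) this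
    exact_mod_cast h3
  -- the parts of bounded weight
  have hYr : ∀ N, RIS (1000 * 1 * mm N) (fun k => Y N k) := by
    intro N
    refine ⟨lo, hi, lo, ⟨fun k => ⟨hYs N k, ?_, fun h _ => hYw N k h⟩, h1, h2, h2⟩⟩
    intro n c
    refine (hYn N k n c).trans ?_
    linarith [hmm N]
  have hYe : ∀ N, ∀ᶠ k in atTop, ‖T (io (Y N k))‖ ≤ 1200 * θ + ε / 4 := by
    intro N
    filter_upwards [ub_ris T hθ (hYr N) (fun k => hYn N k) (show 0 < ε / 4 by positivity)]
      with k hk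
    linarith
  by_contra hcon
  have hfr : ∃ᶠ k in atTop, 2400 * θ + ε < ‖T (io (x k))‖ := by
    intro h
    apply hcon
    filter_upwards [h] with k hk
    exact not_lt.1 hk
  have hstep : ∀ m, ∃ k, m < k ∧ 2400 * θ + ε < ‖T (io (x k))‖ ∧
      ‖T (io (Y (hi m) k))‖ ≤ 1200 * θ + ε / 4 := by
    intro m
    obtain ⟨k, hk1, hk2, hk3⟩ := (hfr.and_eventually
      ((hYe (hi m)).and (eventually_gt_atTop m))).exists
    exact ⟨k, hk3, hk1, hk2⟩
  choose g hg1 hg2 hg3 using hstep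
  obtain ⟨ψ, hψ0⟩ : ∃ ψ : ℕ → ℕ, ∀ i, ψ (i + 1) = g (ψ i) :=
    ⟨fun i => g^[i] 0, fun i => Function.iterate_succ_apply' g i 0⟩
  have hψm : StrictMono ψ := strictMono_nat_of_lt_succ fun i => by
    rw [hψ0]
    exact hg1 _
  have hZr : RIS 1000 (fun i => Z (hi (ψ i)) (ψ (i + 1))) := by
    refine ⟨fun i => lo (ψ (i + 1)), fun i => hi (ψ (i + 1)), fun i => hi (ψ i) + 1,
      ⟨fun i => ⟨hZs _ _, ?_, fun h hh => ?_⟩, fun i => h1 _,
        fun i => hmono _ _ (hψm (Nat.lt_succ_self _)), fun i => Nat.le_succ _⟩⟩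
    · intro n c
      refine (hZn _ _ n c).trans (by norm_num)
    · have h3 := hZw (hi (ψ i)) (ψ (i + 1)) h (Nat.lt_succ_iff.1 hh)
      rw [mul_one] at h3
      exact h3
  obtain ⟨i, hi'⟩ := (ub_ris T hθ hZr (fun i => hZn _ _) (show 0 < ε / 4 by positivity)).exists
  have h3 := hg3 (ψ i)
  have h4 := hg2 (ψ i)
  rw [← hψ0] at h3 h4
  have h5 : T (io (x (ψ (i + 1)))) = T (io (Y (hi (ψ i)) (ψ (i + 1)))) +
      T (io (Z (hi (ψ i)) (ψ (i + 1)))) := by
    rw [← map_add, ← map_add, ← hYZ]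
  rw [h5] at h4
  have h6 := h4.trans_le (norm_add_le _ _)
  linarith

/-- Otherwise for every `k` there is `u` with `‖u‖ = 1` and `‖T (u - PX k u)‖ > 10 ^ 4 θ + ε`; approximate
`u - PX k u` (norm at most `3`) by `io v` with `P k v = 0`, `v` finitely supported; divide by `4`; this gives a
block sequence contradicting `ub` -/
theorem tail (T : X →L[ℂ] X) {θ : ℝ} (hθ : ∀ z c, ‖lam T z c‖ ≤ θ) {ε : ℝ} (hε : 0 < ε) :
    ∃ k, ∀ u, ‖T (u - PX k u)‖ ≤ (10 ^ 4 * θ + ε) * ‖u‖ := by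
  have hθ0 : 0 ≤ θ := (norm_nonneg _).trans (hθ (fun _ => false) false)
  by_contra hcon
  push Not at hcon
  have hstep : ∀ k, ∃ (m : ℕ) (v : W), k < m ∧ Sup k m v ∧ NB S0 1 v ∧
      2500 * θ + ε / 8 < ‖T (io v)‖ := by
    intro k
    obtain ⟨u, hu⟩ := hcon k
    have hu0 : 0 < ‖u‖ := by
      rcases (norm_nonneg u).lt_or_eq with h | h
      · exact h
      · rw [← h, mul_zero] at hu
        rw [norm_eq_zero.1 h.symm, map_zero, sub_zero, map_zero, norm_zero] at hu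
        exact absurd hu (lt_irrefl _)
    -- normalise
    obtain ⟨w, hw⟩ : ∃ w : X, w = ((‖u‖⁻¹ : ℝ) : ℂ) • (u - PX k u) := ⟨_, rfl⟩
    have hn : ‖((‖u‖⁻¹ : ℝ) : ℂ)‖ = ‖u‖⁻¹ := by
      rw [Complex.norm_real, Real.norm_eq_abs, abs_of_pos (inv_pos.2 hu0)]
    have hw1 : ‖w‖ ≤ 3 := by
      rw [hw, norm_smul, hn]
      have h1 : ‖u - PX k u‖ ≤ 3 * ‖u‖ := by
        have h2 := norm_sub_le u (PX k u)
        have h3 := PX_le u k
        linarith
      calc ‖u‖⁻¹ * ‖u - PX k u‖ ≤ ‖u‖⁻¹ * (3 * ‖u‖) :=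
            mul_le_mul_of_nonneg_left h1 (inv_pos.2 hu0).le
        _ = 3 := by field_simp
    have hw2 : 10 ^ 4 * θ + ε < ‖T w‖ := by
      rw [hw, map_smul, norm_smul, hn, ← div_eq_inv_mul, lt_div_iff₀ hu0]
      exact hu
    have hw3 : PX k w = 0 := by
      rw [hw, map_smul, map_sub, PX_PX, min_self, sub_self, smul_zero]
    -- approximate
    obtain ⟨η, hη⟩ : ∃ η : ℝ, η = min (1 / 3) (ε / (12 * (‖T‖ + 1))) := ⟨_, rfl⟩
    have hT1 : 0 < ‖T‖ + 1 := by positivity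
    have hη0 : 0 < η := by
      rw [hη]
      exact lt_min (by norm_num) (by positivity)
    have hη1 : η ≤ 1 / 3 := by
      rw [hη]
      exact min_le_left _ _
    have hη2 : ‖T‖ * (3 * η) ≤ ε / 4 := by
      have h1 : η ≤ ε / (12 * (‖T‖ + 1)) := by
        rw [hη]
        exact min_le_right _ _
      rw [le_div_iff₀ (by positivity)] at h1
      have h2 : 0 ≤ η := hη0.le
      linarith
    obtain ⟨v', hv', hd⟩ := exists_io w hη0
    have hP : P k v' ∈ Fs := Fs_Mult (Mult_P S0 k) hv'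
    obtain ⟨v, hv⟩ : ∃ v, v = v' - P k v' := ⟨_, rfl⟩
    have hvF : v ∈ Fs := by rw [hv]; exact Fs.sub_mem hv' hP
    have hio : io v = io v' - PX k (io v') := by rw [hv, map_sub, PX_io hv']
    have hdist : ‖w - io v‖ ≤ 3 * η := by
      have h1 : w - io v = (w - io v') - PX k (w - io v') := by
        rw [hio, map_sub, hw3]; abel
      rw [h1]
      have h2 := norm_sub_le (w - io v') (PX k (w - io v'))
      have h3 := PX_le (w - io v') k
      linarith
    have hvk : ∀ i, i < k → ∀ c, v i c = 0 := by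
      intro i hi c
      rw [hv, Pi.sub_apply, Pi.sub_apply, Bd_P_apply, if_pos hi, sub_self]
    have hvn : ‖io v‖ ≤ 4 := by
      have h1 := norm_sub_le w (w - io v)
      rw [sub_sub_cancel] at h1
      linarith
    have hTv : 10 ^ 4 * θ + ε - ε / 4 < ‖T (io v)‖ := by
      have h1 : ‖T (w - io v)‖ ≤ ‖T‖ * (3 * η) :=
        (T.le_opNorm _).trans (mul_le_mul_of_nonneg_left hdist (norm_nonneg _))
      have h2 := norm_add_le (T (w - io v)) (T (io v))
      rw [← map_add, sub_add_cancel] at h2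
      linarith
    obtain ⟨m, hm⟩ := hvF
    refine ⟨max m (k + 1), (1 / 4 : ℂ) • v, by omega, ?_, ?_, ?_⟩
    · intro i hi c
      have h1 : v i c = 0 := by
        rcases hi with hi | hi
        · exact hvk i hi c
        · exact hm i (Or.inr (by omega)) c
      show (1 / 4 : ℂ) * v i c = 0
      rw [h1, mul_zero]
    · have hvF : v ∈ Fs := ⟨m, hm⟩
      rw [← norm_io_le (Fs.smul_mem _ hvF), map_smul, norm_smul]
      norm_num
      linarith
    · rw [map_smul, map_smul, norm_smul]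
      norm_num
      norm_num at hTv
      linarith
  choose m v hm hsup hnb hbig using hstep
  obtain ⟨lo, hlo⟩ : ∃ lo : ℕ → ℕ, ∀ i, lo (i + 1) = m (lo i) :=
    ⟨fun i => m^[i] 0, fun i => Function.iterate_succ_apply' m i 0⟩
  obtain ⟨i, hi⟩ := (ub T hθ (x := fun i => v (lo i)) (lo := lo) (hi := fun i => m (lo i))
    (fun i => hsup _) (fun i => hm _) (fun i => (hlo i).ge) (fun i => hnb _)
    (show 0 < ε / 8 by positivity)).exists
  have h1 := hbig (lo i)
  linarith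

end Pool.Agent.W8d7136
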