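import Pool.Agent.W_MP_8d7136_h58.Bd

set_option autoImplicit false

/-!
Weights: bounds on the functionals of a given weight are preserved by multipliers.
-/

namespace Pool.Agent.W8d7136

variable {S : Sys}

theorem Wgt_parent (hS : Good S) {n h : ℕ} {d : Dat} (hD : S.D n = some d) (hj : d.j = h)
    (hc : d.chi = true) : Wt S d.p h := by
  obtain ⟨d', h1, h2, -⟩ := hS.age2 n d hD hc
  exact ⟨d', h1, h2.trans hj⟩

theorem Wgt_cond {χ : Bool} {x : ℂ} {C : ℝ} (hC : 0 ≤ C) (h : χ = true → ‖x‖ ≤ C) :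
    ‖(if χ = true then x else 0 : ℂ)‖ ≤ C := by
  split_ifs with h1
  · exact h h1
  · rw [norm_zero]
    exact hC

theorem Wgt_piece (hS : Good S) {n : ℕ} {d : Dat} (hD : S.D n = some d) {C : ℝ} {v : W}
    (hv : NB S C v) (c : Bool) :
    ‖(wt d.j : ℂ) * bf S n d.b (Q S d.p (eps S n c v))‖ ≤ 12 * C * wt d.j := by
  rw [norm_mul, Complex.norm_real, Real.norm_eq_abs, abs_of_pos (wt_pos d.j), mul_comm]
  exact mul_le_mul_of_nonneg_right (Bd_piece (Bd_strong hS n) (hS.b1 n d hD) (NB_nonneg hv)
    (fun i _ c => hv i c) n c) (wt_pos _).le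

theorem WB_mono {h : ℕ} {C C' : ℝ} {v : W} (hv : WB S h C v) (hc : C ≤ C') : WB S h C' v := by
  intro n c hn
  exact (hv n c hn).trans (mul_le_mul_of_nonneg_right hc (wt_pos h).le)

theorem WB_add {h : ℕ} {C C' : ℝ} {v v' : W} (hv : WB S h C v) (hv' : WB S h C' v') :
    WB S h (C + C') (v + v') := by
  intro n c hn
  rw [map_add, add_mul]
  exact (norm_add_le _ _).trans (add_le_add (hv n c hn) (hv' n c hn))

theorem WB_sub {h : ℕ} {C C' : ℝ} {v v' : W} (hv : WB S h C v) (hv' : WB S h C' v') :
    WB S h (C + C') (v - v') := by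
  intro n c hn
  rw [map_sub, add_mul]
  exact (norm_sub_le _ _).trans (add_le_add (hv n c hn) (hv' n c hn))

theorem WB_smul {h : ℕ} {C : ℝ} {v : W} (hv : WB S h C v) (a : ℂ) : WB S h (‖a‖ * C) (a • v) := by
  intro n c hn
  rw [map_smul, smul_eq_mul, norm_mul, mul_assoc]
  exact mul_le_mul_of_nonneg_left (hv n c hn) (norm_nonneg _)

/-- One basic operator: induction on the index over the chain of parents (all of weight `h`).
`P k`: `n < k` trivial; `p < k ≤ n`: `χ e_p(v) + w_h bf(..)`, at most `25 C w_h`; `k ≤ p`: `χ e_p(P_k v)`. -/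
theorem WB_P (hS : Good S) {h : ℕ} {C : ℝ} {v : W} (hn : NB S C v) (hv : WB S h C v) (k : ℕ) :
    WB S h (100 * C) (P k v) := by
  have hC := NB_nonneg hn
  have hw := (wt_pos h).le
  have hCw : 0 ≤ C * wt h := mul_nonneg hC hw
  have hloc : ∀ m, m < k → ∀ c, e S m c (P k v) = e S m c v := fun m hm c =>
    e_congr hS fun i hi c' => by rw [Bd_P_apply, if_pos (by omega)]
  intro n
  induction n using Nat.strong_induction_on with
  | _ n ih =>
    intro c hW
    rcases lt_or_ge n k with hk | hk
    · rw [hloc n hk c]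
      have := hv n c hW
      linarith
    · obtain ⟨d, hD, hj⟩ := hW
      obtain ⟨hp, hon, -⟩ := hS.lt n d hD
      rw [e_some hS hD, Bd_P_apply, if_neg (by omega), zero_add]
      rcases lt_or_ge d.p k with hpk | hpk
      · rw [hloc d.p hpk c]
        have h1 : ‖(if d.chi = true then e S d.p c v else 0 : ℂ)‖ ≤ C * wt h :=
          Wgt_cond hCw (fun hc => hv d.p c (Wgt_parent hS hD hj hc))
        have h2 := Wgt_piece hS hD (NB_P hS hn k) c
        rw [hj] at h2 ⊢
        refine (norm_add_le _ _).trans ?_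
        linarith
      · have h0 : Q S d.p (eps S n c (P k v)) = 0 := by
          funext i c'
          unfold P
          rw [Bd_eps_res, Bd_Q_apply]
          split_ifs with hi
          · rw [res_apply, if_neg]
            · rfl
            · intro hik
              have h4 : i < k := hik
              have h5 : d.p < i := hi.1
              omega
          · rfl
        rw [h0, map_zero, mul_zero, add_zero]
        exact Wgt_cond (by linarith) (fun hc => ih d.p hp c (Wgt_parent hS hD hj hc))

/-- `Q q`: for `n ∈ cone q` one shows `‖e_n(Q_q v) - e_n(v)‖ ≤ 90 C w_h`, for `n ∉ cone q`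
`‖e_n(Q_q v)‖ ≤ 90 C w_h`; same cases as in `bd_all`; in the case `p < q < n` use
`v(n,c) = e_n(v) - χ e_p(v) - w_h bf(..)`, which is `O(w_h)`. -/
theorem WB_Q (hS : Good S) {h : ℕ} {C : ℝ} {v : W} (hn : NB S C v) (hv : WB S h C v) (q : ℕ) :
    WB S h (100 * C) (Q S q v) := by
  have hC := NB_nonneg hn
  have hw := (wt_pos h).le
  have hCw : 0 ≤ C * wt h := mul_nonneg hC hw
  have h0 : ∀ m, m ≤ q → ∀ c, e S m c (Q S q v) = 0 := fun m hm c =>
    e_eq_zero hS fun i hi c' => Bd_Q_small (hi.trans hm) v c'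
  have key : ∀ n c, Wt S n h → (n ∈ S.cone q → ‖e S n c (Q S q v) - e S n c v‖ ≤ 90 * (C * wt h)) ∧
      (n ∉ S.cone q → ‖e S n c (Q S q v)‖ ≤ 90 * (C * wt h)) := by
    intro n
    induction n using Nat.strong_induction_on with
    | _ n ih =>
      intro c hW
      rcases le_or_gt n q with hnq | hnq
      · refine ⟨fun hn => absurd hn.1 (not_lt.2 hnq), fun _ => ?_⟩
        rw [h0 n hnq c, norm_zero]
        linarith
      obtain ⟨d, hD, hj⟩ := hW
      obtain ⟨hp, hon, -⟩ := hS.lt n d hD
      rw [e_some hS hD, e_some hS hD, Bd_Q_apply]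
      rcases lt_trichotomy d.p q with hpq | hpq | hpq
      · rw [h0 d.p hpq.le c]
        have h3 := Wgt_piece hS hD (NB_Q hS hn q) c
        have h4 := Wgt_piece hS hD hn c
        have h5 : ‖(if d.chi = true then e S d.p c v else 0 : ℂ)‖ ≤ C * wt h :=
          Wgt_cond hCw (fun hc => hv d.p c (Wgt_parent hS hD hj hc))
        rw [hj] at h3 h4 ⊢
        refine ⟨fun hn => ?_, fun hn => ?_⟩
        · rw [if_pos hn, ite_self, add_zero]
          have e1 : v n c + (wt h : ℂ) * bf S n d.b (Q S d.p (eps S n c (Q S q v))) -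
              (v n c + (if d.chi = true then e S d.p c v else 0) +
                (wt h : ℂ) * bf S n d.b (Q S d.p (eps S n c v))) =
              (wt h : ℂ) * bf S n d.b (Q S d.p (eps S n c (Q S q v))) -
              ((if d.chi = true then e S d.p c v else 0) +
                (wt h : ℂ) * bf S n d.b (Q S d.p (eps S n c v))) := by ring
          rw [e1]
          refine (norm_sub_le _ _).trans ?_
          have h6 := norm_add_le (if d.chi = true then e S d.p c v else 0 : ℂ)
            ((wt h : ℂ) * bf S n d.b (Q S d.p (eps S n c v)))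
          linarith
        · rw [if_neg hn, ite_self, add_zero, zero_add]
          linarith
      · subst hpq
        have hn : n ∈ S.cone d.p := ⟨hp, hon⟩
        refine ⟨fun _ => ?_, fun hn' => absurd hn hn'⟩
        have e1 : Q S d.p (eps S n c (Q S d.p v)) = Q S d.p (eps S n c v) := by
          unfold Q
          rw [Bd_eps_res, res_res, Set.inter_self]
        rw [if_pos hn, e1, h0 d.p le_rfl c, ite_self, add_zero]
        have e2 : v n c + (wt d.j : ℂ) * bf S n d.b (Q S d.p (eps S n c v)) -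
            (v n c + (if d.chi = true then e S d.p c v else 0) +
              (wt d.j : ℂ) * bf S n d.b (Q S d.p (eps S n c v))) =
            -(if d.chi = true then e S d.p c v else 0) := by ring
        rw [e2, norm_neg]
        have := Wgt_cond (χ := d.chi) hCw (fun hc => hv d.p c (Wgt_parent hS hD hj hc))
        linarith
      · by_cases hq : S.On q (S.s d.p)
        · have hn : n ∈ S.cone q := ⟨hnq, on_trans hS hpq.le hq hon⟩
          refine ⟨fun _ => ?_, fun hn' => absurd hn hn'⟩
          have e1 : Q S d.p (eps S n c (Q S q v)) = Q S d.p (eps S n c v) := by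
            unfold Q
            rw [Bd_eps_res, res_res, Set.inter_eq_left.2 (cone_sub hS hpq.le hq)]
          rw [if_pos hn, e1]
          have e2 : v n c + (if d.chi = true then e S d.p c (Q S q v) else 0) +
              (wt d.j : ℂ) * bf S n d.b (Q S d.p (eps S n c v)) -
              (v n c + (if d.chi = true then e S d.p c v else 0) +
                (wt d.j : ℂ) * bf S n d.b (Q S d.p (eps S n c v))) =
              if d.chi = true then e S d.p c (Q S q v) - e S d.p c v else 0 := by
            split_ifs <;> ring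
          rw [e2]
          exact Wgt_cond (by linarith)
            (fun hc => (ih d.p hp c (Wgt_parent hS hD hj hc)).1 ⟨hpq, hq⟩)
        · have hnn : n ∉ S.cone q := fun hn => hq (on_of_on hS hpq.le hn.2 hon)
          refine ⟨fun hn' => absurd hn' hnn, fun _ => ?_⟩
          have e1 : Q S d.p (eps S n c (Q S q v)) = 0 := by
            have h1 : S.cone d.p ∩ S.cone q = ∅ :=
              Set.disjoint_iff_inter_eq_empty.1 (cone_disj hS hpq.le hq).symm
            unfold Q
            rw [Bd_eps_res, res_res, h1, res_empty]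
          rw [if_neg hnn, e1, map_zero, mul_zero, add_zero, zero_add]
          exact Wgt_cond (by linarith)
            (fun hc => (ih d.p hp c (Wgt_parent hS hD hj hc)).2 fun hx => hq hx.2)
  intro n c hW
  by_cases hc : n ∈ S.cone q
  · have h1 := (key n c hW).1 hc
    have h2 := hv n c hW
    have h3 : e S n c (Q S q v) = (e S n c (Q S q v) - e S n c v) + e S n c v := by ring
    rw [h3]
    refine (norm_add_le _ _).trans ?_
    linarith
  · have h1 := (key n c hW).2 hc
    linarith

theorem WB_E (hS : Good S) {h : ℕ} {C : ℝ} {v : W} (hn : NB S C v) (hv : WB S h C v)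
    (z : ℕ → Bool) : WB S h (100 * C) (E S z v) := by
  have hC := NB_nonneg hn
  have hw := (wt_pos h).le
  have hCw : 0 ≤ C * wt h := mul_nonneg hC hw
  have hon1 : ∀ m, S.On m z → ∀ c, e S m c (E S z v) = e S m true v := by
    intro m hm c
    cases c
    · exact e_false_E hS hm v
    · exact e_true_E hS hm v
  intro n
  induction n using Nat.strong_induction_on with
  | _ n ih =>
    intro c hW
    by_cases hz : S.On n z
    · rw [hon1 n hz c]
      have := hv n true hW
      linarith
    · obtain ⟨d, hD, hj⟩ := hW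
      obtain ⟨hp, hon, -⟩ := hS.lt n d hD
      rw [e_some hS hD, E_apply, if_neg hz, zero_add]
      by_cases hpz : S.On d.p z
      · rw [hon1 d.p hpz c]
        have h1 : ‖(if d.chi = true then e S d.p true v else 0 : ℂ)‖ ≤ C * wt h :=
          Wgt_cond hCw (fun hc => hv d.p true (Wgt_parent hS hD hj hc))
        have h2 := Wgt_piece hS hD (NB_E hS hn z) c
        rw [hj] at h2 ⊢
        refine (norm_add_le _ _).trans ?_
        linarith
      · have h0 : Q S d.p (eps S n c (E S z v)) = 0 := by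
          unfold Q
          rw [← Bd_eps_res]
          have h4 : res (S.cone d.p) (E S z v) = 0 := Q_E_eq_zero hS hpz v
          rw [h4, map_zero]
        rw [h0, map_zero, mul_zero, add_zero]
        exact Wgt_cond (by linarith) (fun hc => ih d.p hp c (Wgt_parent hS hD hj hc))

theorem Wgt_interval (hS : Good S) {h : ℕ} {C : ℝ} {v : W} (hn : NB S C v) (hv : WB S h C v)
    {I : Set ℕ} (hI : (∃ k k', I = Set.Ico k k') ∨ ∃ k, I = Set.Ici k) :
    WB S h (200 * C) (res I v) := by
  have hC := NB_nonneg hn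
  rcases hI with ⟨k, k', rfl⟩ | ⟨k, rfl⟩
  · rcases le_or_gt k k' with hk | hk
    · rw [Bd_Ico hk]
      exact WB_mono (WB_sub (WB_P hS hn hv k') (WB_P hS hn hv k)) (by linarith)
    · intro n c _
      rw [Set.Ico_eq_empty (by omega), res_empty, map_zero, norm_zero]
      have := (wt_pos h).le
      positivity
  · rw [Bd_Ici]
    exact WB_mono (WB_sub hv (WB_P hS hn hv k)) (by linarith)

theorem Wgt_adm (hS : Good S) {h : ℕ} {C : ℝ} {v : W} (hn : NB S C v) (hv : WB S h C v)
    {A : Set ℕ} (hA : Adm S A) : WB S h (20000 * C) (res A v) := by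
  have hC := NB_nonneg hn
  obtain ⟨I, hI, rfl | ⟨p, rfl⟩⟩ := hA
  · exact WB_mono (Wgt_interval hS hn hv hI) (by linarith)
  · rw [← res_res]
    have h1 : NB S (100 * C) (res (S.cone p) v) := NB_mono (NB_Q hS hn p) (by linarith)
    have h2 : WB S h (100 * C) (res (S.cone p) v) := WB_Q hS hn hv p
    exact WB_mono (Wgt_interval hS h1 h2 hI) (by linarith)

/-- all multipliers: `Ico k k'` is `P k' - P k`, `Ici k` is `1 - P k`; constant `200 * 50 * 100` (use
`NB_P` etc. so that `NB` holds with a smaller constant than `WB` at every step) -/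
theorem WB_Mult (hS : Good S) {h : ℕ} {C : ℝ} {v : W} (hn : NB S C v) (hv : WB S h C v)
    {m : W →ₗ[ℂ] W} (hm : Mult S m) : WB S h (10 ^ 7 * C) (m v) := by
  obtain ⟨A, hA, rfl | ⟨z, rfl⟩⟩ := hm
  · refine WB_mono (Wgt_adm hS hn hv hA) ?_
    have := NB_nonneg hn
    linarith
  · rw [LinearMap.comp_apply]
    have hC := NB_nonneg hn
    have h1 : NB S (100 * C) (E S z v) := NB_mono (NB_E hS hn z) (by linarith)
    refine WB_mono (Wgt_adm hS h1 (WB_E hS hn hv z) hA) ?_
    linarith

/-- Vectors supported below `h` are almost killed by functionals of weight `h` (which have index at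
least `h`): by induction on `n`, `e_n(v) = χ e_p(v) + w_h bf(Q_p eps v)`; if `χ = 1` the parent has
weight `h`, so `h ≤ p` and `Q_p eps v = 0`. -/
theorem first_piece (hS : Good S) {C : ℝ} {n h : ℕ} (hn : Wt S n h) {v : W} (hv : NB S C v)
    (hs : Sup 0 h v) (c : Bool) : ‖e S n c v‖ ≤ 12 * C * wt h := by
  have hC := NB_nonneg hv
  have hCw : 0 ≤ 12 * C * wt h := mul_nonneg (by linarith) (wt_pos h).le
  induction n using Nat.strong_induction_on generalizing c with
  | _ n ih =>
    obtain ⟨d, hD, hj⟩ := hn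
    obtain ⟨hp, hon, hjn⟩ := hS.lt n d hD
    have hz : v n c = 0 := hs n (Or.inr (by omega)) c
    rw [e_some hS hD, hz, zero_add]
    by_cases hc : d.chi = true
    · rw [if_pos hc]
      have hW := Wgt_parent hS hD hj hc
      obtain ⟨d', hD', hj'⟩ := hW
      obtain ⟨-, -, hjp⟩ := hS.lt d.p d' hD'
      have h0 : Q S d.p (eps S n c v) = 0 := by
        funext i c'
        rw [Bd_Q_apply]
        split_ifs with hi
        · have h5 : d.p < i := hi.1
          have h6 := Mult_supp (Mult_eps S n c) (v := v) (i := i)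
            (fun c => hs i (Or.inr (by omega)) c) c'
          rw [h6]
          rfl
        · rfl
      rw [h0, map_zero, mul_zero, add_zero]
      exact ih d.p hp (hn := ⟨d', hD', hj'⟩) c
    · rw [if_neg hc, zero_add]
      have h2 := Wgt_piece hS hD hv c
      rw [hj] at h2 ⊢
      exact h2

theorem Blk_Mult (hS : Good S) {C : ℝ} {lo hi J : ℕ} {x : W} (hx : Blk S C lo hi J x)
    {m : W →ₗ[ℂ] W} (hm : Mult S m) : Blk S (10 ^ 7 * C) lo hi J (m x) := by
  have hC := NB_nonneg hx.nb
  exact ⟨Sup_Mult hm hx.supp, NB_mono (NB_Mult hS hx.nb hm) (by linarith),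
    fun h hh => WB_Mult hS hx.nb (hx.wb h hh) hm⟩

theorem Wgt_hilo {C : ℝ} {K : ℕ} {lo hi J : ℕ → ℕ} {x : ℕ → W} (hx : RISf S C K lo hi J x)
    {k k' : ℕ} (hk : k < k') (hk' : k' < K) : hi k ≤ lo k' := by
  induction k' with
  | zero => omega
  | succ j ih =>
    rcases Nat.lt_succ_iff_lt_or_eq.1 hk with h1 | rfl
    · have h2 := ih h1 (by omega)
      have h3 := hx.lohi j (by omega)
      have h4 := hx.hilo j hk'
      omega
    · exact hx.hilo k hk'

theorem Wgt_sum {F : Finset ℕ} {f : ℕ → ℝ} {A B : ℝ} (hB : 0 ≤ B) (k₀ : ℕ)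
    (h1 : ∀ k ∈ F, k ≠ k₀ → f k ≤ A) (hA : 0 ≤ A) (h2 : k₀ ∈ F → f k₀ ≤ B) :
    ∑ k ∈ F, f k ≤ F.card * A + B := by
  have h3 : ∀ k ∈ F, f k ≤ A + if k = k₀ then B else 0 := by
    intro k hk
    split_ifs with h
    · subst h
      have := h2 hk
      linarith
    · have := h1 k hk h
      linarith
  refine (Finset.sum_le_sum h3).trans ?_
  rw [Finset.sum_add_distrib, Finset.sum_const, nsmul_eq_mul, Finset.sum_ite_eq' F k₀]
  split_ifs
  · exact le_rfl
  · linarith

/-- all but one terms are small: let `k₀` be the largest `k ∈ F` with `J k ≤ h`; for `k₀ < k` use the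
weight condition, for `k < k₀` we have `hi k ≤ J (k + 1) ≤ h` or `hi k ≤ hi (k₀ - 1) ≤ J k₀ ≤ h`
(`lohi`, `hilo`: `hi` is monotone) and `first_piece` -/
theorem one_exc (hS : Good S) {C : ℝ} (hC : 0 ≤ C) {K : ℕ} {lo hi J : ℕ → ℕ} {x : ℕ → W}
    (hx : RISf S C K lo hi J x) {n h : ℕ} (hn : Wt S n h) (c : Bool) {m : W →ₗ[ℂ] W}
    (hm : Mult S m) {F : Finset ℕ} (hF : F ⊆ Finset.range K) :
    ∑ k ∈ F, ‖e S n c (m (x k))‖ ≤ 10 ^ 7 * C * (F.card * wt h) + 48 * C := by
  have hw := (wt_pos h).le
  have hCw : 0 ≤ C * wt h := mul_nonneg hC hw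
  have hnb : ∀ k ∈ F, ‖e S n c (m (x k))‖ ≤ 48 * C := fun k hk =>
    NB_Mult hS (hx.blk k (Finset.mem_range.1 (hF hk))).nb hm n c
  have hbig : ∀ k ∈ F, h < J k → ‖e S n c (m (x k))‖ ≤ 10 ^ 7 * C * wt h := by
    intro k hk hJ
    have hb := hx.blk k (Finset.mem_range.1 (hF hk))
    exact WB_Mult hS hb.nb (hb.wb h hJ) hm n c hn
  have hA : (0 : ℝ) ≤ 10 ^ 7 * C * wt h := by linarith
  have hB : (0 : ℝ) ≤ 48 * C := by linarith
  have hgoal : (10 : ℝ) ^ 7 * C * (F.card * wt h) + 48 * C =
      F.card * (10 ^ 7 * C * wt h) + 48 * C := by ring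
  rw [hgoal]
  by_cases hex : ∃ k ∈ F, J k ≤ h
  · have hne : (F.filter fun k => J k ≤ h).Nonempty := by
      obtain ⟨k, hk, hk'⟩ := hex
      exact ⟨k, Finset.mem_filter.2 ⟨hk, hk'⟩⟩
    obtain ⟨k₀, hk₀def⟩ : ∃ k₀, k₀ = (F.filter fun k => J k ≤ h).max' hne := ⟨_, rfl⟩
    have hk₀ : k₀ ∈ F.filter fun k => J k ≤ h := by
      rw [hk₀def]
      exact Finset.max'_mem _ _
    obtain ⟨hk₀F, hk₀J⟩ := Finset.mem_filter.1 hk₀
    have hk₀K := Finset.mem_range.1 (hF hk₀F)
    refine Wgt_sum hB k₀ ?_ hA (fun h' => hnb k₀ h')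
    intro k hk hkk
    rcases lt_or_gt_of_ne hkk with h1 | h1
    · -- `k < k₀`
      have hhi : hi k ≤ h := by
        have h2 : hi k ≤ hi (k₀ - 1) := by
          rcases Nat.lt_or_ge k (k₀ - 1) with h3 | h3
          · have h4 := Wgt_hilo hx h3 (by omega)
            have h5 := hx.lohi (k₀ - 1) (by omega)
            omega
          · have h6 : k = k₀ - 1 := by omega
            rw [h6]
        have h7 := hx.hiJ (k₀ - 1) (by omega)
        have h8 : k₀ - 1 + 1 = k₀ := by omega
        rw [h8] at h7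
        omega
      have hb := hx.blk k (Finset.mem_range.1 (hF hk))
      have hs : Sup 0 h (m (x k)) := by
        refine Sup_Mult hm ?_
        intro i hi' c'
        refine hb.supp i (Or.inr ?_) c'
        rcases hi' with h9 | h9
        · exact absurd h9 (Nat.not_lt_zero i)
        · omega
      have h10 := first_piece hS hn (NB_Mult hS hb.nb hm) hs c
      linarith
    · -- `k₀ < k`
      refine hbig k hk ?_
      by_contra hJ
      have h2 : k ≤ k₀ := by
        rw [hk₀def]
        exact Finset.le_max' _ _ (Finset.mem_filter.2 ⟨hk, by omega⟩)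
      omega
  · push Not at hex
    refine (Finset.sum_le_sum fun k hk => hbig k hk (hex k hk)).trans ?_
    rw [Finset.sum_const, nsmul_eq_mul]
    linarith

/-- functionals of seeds see one block only -/
theorem seed_exc (hS : Good S) {C : ℝ} (hC : 0 ≤ C) {K : ℕ} {lo hi J : ℕ → ℕ} {x : ℕ → W}
    (hx : RISf S C K lo hi J x) {n : ℕ} (hn : S.D n = none) (c : Bool) {m : W →ₗ[ℂ] W}
    (hm : Mult S m) {F : Finset ℕ} (hF : F ⊆ Finset.range K) :
    ∑ k ∈ F, ‖e S n c (m (x k))‖ ≤ 48 * C := by
  have hnb : ∀ k ∈ F, ‖e S n c (m (x k))‖ ≤ 48 * C := fun k hk =>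
    NB_Mult hS (hx.blk k (Finset.mem_range.1 (hF hk))).nb hm n c
  have hB : (0 : ℝ) ≤ 48 * C := by linarith
  have hzero : ∀ k ∈ F, (n < lo k ∨ hi k ≤ n) → ‖e S n c (m (x k))‖ = 0 := by
    intro k hk h1
    have hb := hx.blk k (Finset.mem_range.1 (hF hk))
    rw [e_none hn, Sup_Mult hm hb.supp n h1 c, norm_zero]
  by_cases hex : ∃ k₀ ∈ F, lo k₀ ≤ n ∧ n < hi k₀
  · obtain ⟨k₀, hk₀F, h1, h2⟩ := hex
    have h3 := Wgt_sum (F := F) (f := fun k => ‖e S n c (m (x k))‖) (A := 0) hB k₀ ?_ le_rfl
      (fun h' => hnb k₀ h')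
    · rw [mul_zero, zero_add] at h3
      exact h3
    · intro k hk hkk
      refine (hzero k hk ?_).le
      have hkK := Finset.mem_range.1 (hF hk)
      have hk₀K := Finset.mem_range.1 (hF hk₀F)
      rcases lt_or_gt_of_ne hkk with h4 | h4
      · right
        have := Wgt_hilo hx h4 hk₀K
        omega
      · left
        have := Wgt_hilo hx h4 hkK
        omega
  · push Not at hex
    rw [Finset.sum_eq_zero]
    · exact hB
    · intro k hk
      refine hzero k hk ?_
      rcases Nat.lt_or_ge n (lo k) with h1 | h1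
      · exact Or.inl h1
      · exact Or.inr (hex k hk h1)

end Pool.Agent.W8d7136
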