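import Pool.Agent.W_MP_8d7136_h58.XDef
import Pool.Agent.W_MP_8d7136_h58.Ops
import Pool.Agent.W_MP_8d7136_h58.Bd

set_option autoImplicit false

/-!
The operators on `X`.
-/

open Filter Topology

namespace Pool.Agent.W8d7136

theorem Fs_of_Sup {lo hi : ℕ} {v : W} (h : Sup lo hi v) : v ∈ Fs := by
  refine ⟨hi, fun i hi' c => h i (Or.inr ?_) c⟩
  rcases hi' with h0 | h0
  · exact absurd h0 (Nat.not_lt_zero i)
  · exact h0

theorem Fs_Mult {m : W →ₗ[ℂ] W} (hm : Mult S0 m) {v : W} (hv : v ∈ Fs) : m v ∈ Fs := by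
  obtain ⟨k, hk⟩ := hv
  exact ⟨k, Sup_Mult hm hk⟩

theorem XOps_exists {m : W →ₗ[ℂ] W} (hm : Mult S0 m) {K : ℝ} (hK : 0 ≤ K)
    (h : ∀ v C, NB S0 C v → NB S0 (K * C) (m v)) :
    ∃ A : X →L[ℂ] X, ‖A‖ ≤ K ∧ ∀ v ∈ Fs, A (io v) = io (m v) := by
  obtain ⟨A, hA, hA'⟩ := exists_op (io ∘ₗ m) hK (fun v hv C hC =>
    (norm_io_le (Fs_Mult hm hv)).2 (h v C hC))
  exact ⟨A, hA, hA'⟩

theorem exists_PX (k : ℕ) : ∃ A : X →L[ℂ] X, ‖A‖ ≤ 2 ∧ ∀ v ∈ Fs, A (io v) = io (P k v) :=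
  XOps_exists (Mult_P S0 k) (by norm_num) fun _ _ h => NB_P hS0 h k

theorem exists_QX (q : ℕ) : ∃ A : X →L[ℂ] X, ‖A‖ ≤ 6 ∧ ∀ v ∈ Fs, A (io v) = io (Q S0 q v) :=
  XOps_exists (Mult_Q S0 q) (by norm_num) fun _ _ h => NB_Q hS0 h q

theorem exists_EX (z : ℕ → Bool) :
    ∃ A : X →L[ℂ] X, ‖A‖ ≤ 2 ∧ ∀ v ∈ Fs, A (io v) = io (E S0 z v) :=
  XOps_exists (Mult_E S0 z) (by norm_num) fun _ _ h => NB_E hS0 h z

theorem exists_cX (n : ℕ) (c : Bool) :
    ∃ A : X →L[ℂ] ℂ, ‖A‖ ≤ 3 ∧ ∀ v ∈ Fs, A (io v) = v n c :=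
  exists_op (coord n c) (by norm_num) fun _ _ _ hC => coord_le' hS0 hC n c

/-- the basis projections -/
noncomputable def PX (k : ℕ) : X →L[ℂ] X := (exists_PX k).choose

/-- the cone projections -/
noncomputable def QX (q : ℕ) : X →L[ℂ] X := (exists_QX q).choose

/-- the branch projections -/
noncomputable def EX (z : ℕ → Bool) : X →L[ℂ] X := (exists_EX z).choose

/-- the coordinate functionals -/
noncomputable def cX (n : ℕ) (c : Bool) : X →L[ℂ] ℂ := (exists_cX n c).choose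

/-- combinations of the functionals `e` -/
noncomputable def bfX (n : ℕ) (b : ℕ → Bool → ℂ) : X →L[ℂ] ℂ :=
  ∑ i ∈ Finset.range n, ∑ c : Bool, b i c • eX i c

/-- equality of operators is checked on finitely supported vectors -/
theorem XOps_eq {Y : Type*} [NormedAddCommGroup Y] [NormedSpace ℂ Y] (A B : X →L[ℂ] Y)
    (h : ∀ v ∈ Fs, A (io v) = B (io v)) (u : X) : A u = B u := by
  rw [eq_of_io h]

section

variable {v : W} (u : X)

theorem PX_io (hv : v ∈ Fs) (k : ℕ) : PX k (io v) = io (P k v) :=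
  (exists_PX k).choose_spec.2 v hv

theorem QX_io (hv : v ∈ Fs) (q : ℕ) : QX q (io v) = io (Q S0 q v) :=
  (exists_QX q).choose_spec.2 v hv

theorem EX_io (hv : v ∈ Fs) (z : ℕ → Bool) : EX z (io v) = io (E S0 z v) :=
  (exists_EX z).choose_spec.2 v hv

theorem cX_io (hv : v ∈ Fs) (n : ℕ) (c : Bool) : cX n c (io v) = v n c :=
  (exists_cX n c).choose_spec.2 v hv

theorem XOps_bfX_apply (n : ℕ) (b : ℕ → Bool → ℂ) :
    bfX n b u = ∑ i ∈ Finset.range n, ∑ c : Bool, b i c * eX i c u := by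
  simp only [bfX, ContinuousLinearMap.sum_apply, ContinuousLinearMap.smul_apply, smul_eq_mul]

theorem bfX_io (hv : v ∈ Fs) (n : ℕ) (b : ℕ → Bool → ℂ) : bfX n b (io v) = bf S0 n b v := by
  rw [XOps_bfX_apply, bf_apply]
  simp only [eX_io hv]

theorem PX_le (k : ℕ) : ‖PX k u‖ ≤ 2 * ‖u‖ :=
  (PX k).le_of_opNorm_le (exists_PX k).choose_spec.1 u

theorem QX_le (q : ℕ) : ‖QX q u‖ ≤ 6 * ‖u‖ :=
  (QX q).le_of_opNorm_le (exists_QX q).choose_spec.1 u

theorem EX_le (z : ℕ → Bool) : ‖EX z u‖ ≤ 2 * ‖u‖ :=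
  (EX z).le_of_opNorm_le (exists_EX z).choose_spec.1 u

theorem cX_le (n : ℕ) (c : Bool) : ‖cX n c u‖ ≤ 3 * ‖u‖ :=
  (cX n c).le_of_opNorm_le (exists_cX n c).choose_spec.1 u

theorem bfX_le {n : ℕ} {b : ℕ → Bool → ℂ} {B : ℝ}
    (hb : ∑ i ∈ Finset.range n, ∑ c : Bool, ‖b i c‖ ≤ B) : ‖bfX n b u‖ ≤ B * ‖u‖ := by
  rw [XOps_bfX_apply]
  calc ‖∑ i ∈ Finset.range n, ∑ c : Bool, b i c * eX i c u‖
      ≤ ∑ i ∈ Finset.range n, ‖∑ c : Bool, b i c * eX i c u‖ := norm_sum_le _ _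
    _ ≤ ∑ i ∈ Finset.range n, ∑ c : Bool, ‖b i c‖ * ‖u‖ := by
        refine Finset.sum_le_sum fun i _ => (norm_sum_le _ _).trans
          (Finset.sum_le_sum fun c _ => ?_)
        rw [norm_mul]
        exact mul_le_mul_of_nonneg_left (eX_le i c u) (norm_nonneg _)
    _ = (∑ i ∈ Finset.range n, ∑ c : Bool, ‖b i c‖) * ‖u‖ := by
        rw [Finset.sum_mul]
        exact Finset.sum_congr rfl fun i _ => (Finset.sum_mul _ _ _).symm
    _ ≤ B * ‖u‖ := mul_le_mul_of_nonneg_right hb (norm_nonneg _)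

theorem bfX_eq {n n' : ℕ} (hn : n ≤ n') {b : ℕ → Bool → ℂ} (hb : ∀ i, n ≤ i → ∀ c, b i c = 0) :
    bfX n' b u = bfX n b u :=
  XOps_eq _ _ (fun v hv => by rw [bfX_io hv, bfX_io hv, bf_eq hn hb]) u

theorem bfX_dl {n i : ℕ} (hi : i < n) : bfX n (dl i) u = eX i false u :=
  XOps_eq _ _ (fun v hv => by rw [bfX_io hv, eX_io hv, bf_dl hi]) u

theorem PX_PX (k l : ℕ) : PX k (PX l u) = PX (min k l) u := by
  refine XOps_eq ((PX k).comp (PX l)) (PX (min k l)) (fun v hv => ?_) u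
  rw [ContinuousLinearMap.comp_apply, PX_io hv, PX_io (Fs_Mult (Mult_P S0 l) hv), PX_io hv]
  unfold P
  rw [res_res, Set.Iio_inter_Iio]

theorem QX_PX (q k : ℕ) : QX q (PX k u) = PX k (QX q u) := by
  refine XOps_eq ((QX q).comp (PX k)) ((PX k).comp (QX q)) (fun v hv => ?_) u
  rw [ContinuousLinearMap.comp_apply, ContinuousLinearMap.comp_apply, PX_io hv,
    QX_io (Fs_Mult (Mult_P S0 k) hv), QX_io hv, PX_io (Fs_Mult (Mult_Q S0 q) hv),
    Mult_comm hS0 (Mult_Q S0 q) (Mult_P S0 k)]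

theorem EX_PX (z : ℕ → Bool) (k : ℕ) : EX z (PX k u) = PX k (EX z u) := by
  refine XOps_eq ((EX z).comp (PX k)) ((PX k).comp (EX z)) (fun v hv => ?_) u
  rw [ContinuousLinearMap.comp_apply, ContinuousLinearMap.comp_apply, PX_io hv,
    EX_io (Fs_Mult (Mult_P S0 k) hv), EX_io hv, PX_io (Fs_Mult (Mult_E S0 z) hv),
    Mult_comm hS0 (Mult_E S0 z) (Mult_P S0 k)]

theorem EX_QX (z : ℕ → Bool) (q : ℕ) : EX z (QX q u) = QX q (EX z u) := by
  refine XOps_eq ((EX z).comp (QX q)) ((QX q).comp (EX z)) (fun v hv => ?_) u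
  rw [ContinuousLinearMap.comp_apply, ContinuousLinearMap.comp_apply, QX_io hv,
    EX_io (Fs_Mult (Mult_Q S0 q) hv), EX_io hv, QX_io (Fs_Mult (Mult_E S0 z) hv),
    Mult_comm hS0 (Mult_E S0 z) (Mult_Q S0 q)]

theorem EX_EX (z : ℕ → Bool) : EX z (EX z u) = EX z u := by
  refine XOps_eq ((EX z).comp (EX z)) (EX z) (fun v hv => ?_) u
  rw [ContinuousLinearMap.comp_apply, EX_io hv, EX_io (Fs_Mult (Mult_E S0 z) hv), E_idem]

theorem QX_idem (q : ℕ) : QX q (QX q u) = QX q u := by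
  refine XOps_eq ((QX q).comp (QX q)) (QX q) (fun v hv => ?_) u
  rw [ContinuousLinearMap.comp_apply, QX_io hv, QX_io (Fs_Mult (Mult_Q S0 q) hv)]
  unfold Q
  rw [res_res, Set.inter_self]

theorem QX_QX {p q : ℕ} (hpq : p ≤ q) (h : S0.On p (S0.s q)) :
    QX p (QX q u) = QX q u ∧ QX q (QX p u) = QX q u := by
  constructor
  · refine XOps_eq ((QX p).comp (QX q)) (QX q) (fun v hv => ?_) u
    rw [ContinuousLinearMap.comp_apply, QX_io hv, QX_io (Fs_Mult (Mult_Q S0 q) hv),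
      (Q_Q hS0 hpq h v).1]
  · refine XOps_eq ((QX q).comp (QX p)) (QX q) (fun v hv => ?_) u
    rw [ContinuousLinearMap.comp_apply, QX_io hv, QX_io (Fs_Mult (Mult_Q S0 p) hv), QX_io hv,
      (Q_Q hS0 hpq h v).2]

theorem QX_QX_zero {p q : ℕ} (hpq : p ≤ q) (h : ¬ S0.On p (S0.s q)) :
    QX p (QX q u) = 0 ∧ QX q (QX p u) = 0 := by
  constructor
  · refine XOps_eq ((QX p).comp (QX q)) 0 (fun v hv => ?_) u
    rw [ContinuousLinearMap.comp_apply, QX_io hv, QX_io (Fs_Mult (Mult_Q S0 q) hv),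
      (Q_Q_zero hS0 hpq h v).1, map_zero]
    rfl
  · refine XOps_eq ((QX q).comp (QX p)) 0 (fun v hv => ?_) u
    rw [ContinuousLinearMap.comp_apply, QX_io hv, QX_io (Fs_Mult (Mult_Q S0 p) hv),
      (Q_Q_zero hS0 hpq h v).2, map_zero]
    rfl

theorem QX_EX_zero {p : ℕ} {z : ℕ → Bool} (h : ¬ S0.On p z) : QX p (EX z u) = 0 := by
  refine XOps_eq ((QX p).comp (EX z)) 0 (fun v hv => ?_) u
  rw [ContinuousLinearMap.comp_apply, EX_io hv, QX_io (Fs_Mult (Mult_E S0 z) hv),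
    Q_E_eq_zero hS0 h v, map_zero]
  rfl

/-- the cone of `q` lies in `(q, ∞)` -/
theorem QX_PX_zero {q k : ℕ} (h : k ≤ q + 1) : QX q (PX k u) = 0 := by
  refine XOps_eq ((QX q).comp (PX k)) 0 (fun v hv => ?_) u
  have h0 : Q S0 q (P k v) = 0 := by
    funext i c
    rw [Bd_Q_apply]
    split_ifs with hi
    · have hi1 : q < i := hi.1
      rw [Bd_P_apply, if_neg (by omega)]
      rfl
    · rfl
  rw [ContinuousLinearMap.comp_apply, PX_io hv, QX_io (Fs_Mult (Mult_P S0 k) hv), h0, map_zero]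
  rfl

theorem eX_PX {n k : ℕ} (h : n < k) (c : Bool) : eX n c (PX k u) = eX n c u := by
  refine XOps_eq ((eX n c).comp (PX k)) (eX n c) (fun v hv => ?_) u
  rw [ContinuousLinearMap.comp_apply, PX_io hv, eX_io (Fs_Mult (Mult_P S0 k) hv), eX_io hv]
  refine e_congr hS0 fun i hi c' => ?_
  rw [Bd_P_apply, if_pos (by omega)]

theorem cX_PX {n k : ℕ} (h : n < k) (c : Bool) : cX n c (PX k u) = cX n c u := by
  refine XOps_eq ((cX n c).comp (PX k)) (cX n c) (fun v hv => ?_) u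
  rw [ContinuousLinearMap.comp_apply, PX_io hv, cX_io (Fs_Mult (Mult_P S0 k) hv), cX_io hv,
    Bd_P_apply, if_pos h]

theorem cX_PX_zero {n k : ℕ} (h : k ≤ n) (c : Bool) : cX n c (PX k u) = 0 := by
  refine XOps_eq ((cX n c).comp (PX k)) 0 (fun v hv => ?_) u
  rw [ContinuousLinearMap.comp_apply, PX_io hv, cX_io (Fs_Mult (Mult_P S0 k) hv),
    Bd_P_apply, if_neg (by omega)]
  rfl

theorem bfX_PX (n : ℕ) (b : ℕ → Bool → ℂ) {k : ℕ} (h : n ≤ k) : bfX n b (PX k u) = bfX n b u := by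
  refine XOps_eq ((bfX n b).comp (PX k)) (bfX n b) (fun v hv => ?_) u
  rw [ContinuousLinearMap.comp_apply, PX_io hv, bfX_io (Fs_Mult (Mult_P S0 k) hv), bfX_io hv]
  refine bf_congr hS0 fun i hi c' => ?_
  rw [Bd_P_apply, if_pos (by omega)]

theorem eX_EX {n : ℕ} {z : ℕ → Bool} (h : S0.On n z) : eX n false (EX z u) = eX n true u := by
  refine XOps_eq ((eX n false).comp (EX z)) (eX n true) (fun v hv => ?_) u
  rw [ContinuousLinearMap.comp_apply, EX_io hv, eX_io (Fs_Mult (Mult_E S0 z) hv), eX_io hv,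
    e_false_E hS0 h]

/-- first for the dense subspace, then by `PX_le` -/
theorem PX_tendsto : Tendsto (fun k => PX k u) atTop (𝓝 u) := by
  rw [Metric.tendsto_atTop]
  intro ε hε
  obtain ⟨v, hv, hvu⟩ := exists_io u (show 0 < ε / 4 by positivity)
  obtain ⟨k0, hk0⟩ := hv
  refine ⟨k0, fun k hk => ?_⟩
  have h0 : PX k (io v) = io v := by
    rw [PX_io ⟨k0, hk0⟩]
    congr 1
    funext i c
    rw [Bd_P_apply]
    split_ifs with hi
    · rfl
    · exact (hk0 i (Or.inr (by omega)) c).symm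
  have h1 : PX k u - u = PX k (u - io v) - (u - io v) := by
    rw [map_sub, h0]
    abel
  have h2 := PX_le (u - io v) k
  have h3 := norm_sub_le (PX k (u - io v)) (u - io v)
  rw [dist_eq_norm, h1]
  linarith

/-- take `v` from `exists_ext` with `e i c v = eX i c u` for `i < k`; for `u = io w` this is `P k w`
(`zero_of_e`), the general case follows by continuity (`ext_bound`) -/
theorem PX_mem (k : ℕ) : ∃ v : W, Sup 0 k v ∧ PX k u = io v := by
  obtain ⟨v, hv1, hv2⟩ := exists_ext hS0 k (fun i c => eX i c u)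
  refine ⟨v, hv1, ?_⟩
  have hvF : v ∈ Fs := ⟨k, hv1⟩
  rw [← sub_eq_zero, ← norm_eq_zero]
  by_contra hne
  have hpos : 0 < ‖PX k u - io v‖ := lt_of_le_of_ne (norm_nonneg _) (Ne.symm hne)
  set ε := ‖PX k u - io v‖ / 5 with hε
  have hεp : 0 < ε := by positivity
  obtain ⟨w, hw, hwu⟩ := exists_io u hεp
  have hPw : P k w ∈ Fs := Fs_Mult (Mult_P S0 k) hw
  have hsup : Sup 0 k (P k w - v) := by
    intro i hi c
    rw [Pi.sub_apply, Pi.sub_apply, hv1 i hi c, Bd_P_apply, if_neg (by omega), sub_zero]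
  have hNBl : NBl S0 k ε (P k w - v) := by
    intro i hi c
    have h1 : e S0 i c (P k w) = eX i c (io w) := by
      rw [← eX_io hPw, ← PX_io hw, eX_PX _ hi]
    rw [map_sub, h1, hv2 i hi c, ← map_sub]
    refine (eX_le i c _).trans ?_
    rw [norm_sub_rev]
    exact hwu.le
  have hNB := ext_bound hS0 hεp.le hsup hNBl
  have h2 : ‖io (P k w - v)‖ ≤ 2 * ε := (norm_io_le (Fs.sub_mem hPw hvF)).2 hNB
  have h3 : PX k u - io v = PX k (u - io w) + io (P k w - v) := by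
    rw [map_sub, map_sub, PX_io hw]
    abel
  have h4 := PX_le (u - io w) k
  have h5 := norm_add_le (PX k (u - io w)) (io (P k w - v))
  rw [← h3] at h5
  linarith

/-- (`ext_bound`) -/
theorem PX_small {k : ℕ} {C : ℝ} (hC : 0 ≤ C) (h : ∀ n, n < k → ∀ c, ‖eX n c u‖ ≤ C) :
    ‖PX k u‖ ≤ 2 * C := by
  obtain ⟨v, hv1, hv2⟩ := PX_mem u k
  have hvF : v ∈ Fs := ⟨k, hv1⟩
  rw [hv2, norm_io_le hvF]
  refine ext_bound hS0 hC hv1 fun n hn c => ?_
  rw [← eX_io hvF, ← hv2, eX_PX u hn]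
  exact h n hn c

end

/-- the vectors supported below `k` -/
def XOps_j (k : ℕ) : (Fin k → Bool → ℂ) →ₗ[ℂ] W where
  toFun a := fun i c => if h : i < k then a ⟨i, h⟩ c else 0
  map_add' a a' := by
    funext i c
    simp only [Pi.add_apply]
    split_ifs <;> simp
  map_smul' r a := by
    funext i c
    simp only [Pi.smul_apply, RingHom.id_apply]
    split_ifs <;> simp

theorem XOps_compact (k : ℕ) : IsCompactOperator (PX k) := by
  set V : Submodule ℂ X := LinearMap.range (io ∘ₗ XOps_j k) with hV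
  have hfin : FiniteDimensional ℂ V := by
    rw [hV]
    infer_instance
  have hmem : ∀ u, PX k u ∈ V := by
    intro u
    obtain ⟨v, hv1, hv2⟩ := PX_mem u k
    refine ⟨fun i c => v i c, ?_⟩
    rw [hv2, LinearMap.comp_apply]
    congr 1
    funext i c
    show (if h : i < k then v i c else 0) = v i c
    split_ifs with h
    · rfl
    · exact (hv1 i (Or.inr (by omega)) c).symm
  have hid : IsCompactOperator (_root_.id : V → V) :=
    (isCompactOperator_id_iff_finiteDimensional (𝕜 := ℂ)).2 hfin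
  have h1 : IsCompactOperator (_root_.id ∘ ((PX k).codRestrict V hmem)) :=
    hid.comp_clm ((PX k).codRestrict V hmem)
  have h2 := h1.clm_comp V.subtypeL
  exact h2

/-- finite rank operators are compact -/
theorem compact_comp_PX (T : X →L[ℂ] X) (k : ℕ) : IsCompactOperator (T.comp (PX k)) :=
  (XOps_compact k).clm_comp T

/-- `P N v k → 0` if all functionals tend to zero on `v k` -/
theorem PX_tendsto_zero {v : ℕ → X} (h : ∀ n c, Tendsto (fun k => eX n c (v k)) atTop (𝓝 0))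
    (N : ℕ) : Tendsto (fun k => PX N (v k)) atTop (𝓝 0) := by
  rw [Metric.tendsto_nhds]
  intro ε hε
  have h1 : ∀ᶠ k in atTop, ∀ n ∈ Finset.range N, ∀ c, ‖eX n c (v k)‖ ≤ ε / 4 := by
    rw [Finset.eventually_all]
    intro n _
    rw [Filter.eventually_all]
    intro c
    have h2 := (h n c).norm
    rw [norm_zero] at h2
    exact (h2.eventually (ge_mem_nhds (show 0 < ε / 4 by positivity)))
  filter_upwards [h1] with k hk
  have h3 := PX_small (v k) (C := ε / 4) (k := N) (by positivity)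
    (fun n hn c => hk n (Finset.mem_range.2 hn) c)
  rw [dist_zero_right]
  linarith

end Pool.Agent.W8d7136
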